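import Pool.Agent.Lib.MP_c2a04f_an.SpecB

/-!
# MP_c2a04f_an: simultaneous approximation of finitely many fields
-/

set_option autoImplicit false

open scoped Manifold ContDiff Topology
open Set Filter

namespace Pool.Agent.Lib.MP_c2a04f_an

open Pool.Agent.Lib.MP_55bc5f_an

theorem s_Apx : S_Apx := by
  intro V _ _ X N ι hD r v hv K hK ε hε
  choose M φ hφ using fun j => hD (v j) (hv j) K hK ε hε
  let e : Fin (∑ j, M j) ≃ (Σ j : Fin r, Fin (M j)) := finSigmaFinEquiv.symm
  refine ⟨∑ j, M j, fun k => φ (e k).1 (e k).2, fun k => (e k).1, fun x hx j => ?_⟩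
  have h1 : appr (fun k => φ (e k).1 (e k).2) ι (fun k => (e k).1) j x =
      ∑ k, (φ j k).vel ι x := by
    unfold appr
    rw [Equiv.sum_comp e (fun s : (Σ j : Fin r, Fin (M j)) =>
      if s.1 = j then (φ s.1 s.2).vel ι x else 0), Fintype.sum_sigma]
    rw [Finset.sum_eq_single j]
    · simp
    · intro i _ hij
      simp [hij]
    · intro h
      exact absurd (Finset.mem_univ j) h
  rw [h1]
  exact (hφ j x hx).le

end Pool.Agent.Lib.MP_c2a04f_an
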