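import Mathlib
import Pool.Agent.Lib.MP_55bc5f_an.Full.Defs

/-!
# Tame sets, complete vector fields, the density property, Oka manifolds

Complex manifolds `X : CMan V` (Hausdorff, second countable, modelled on the complex vector space
`V`, not necessarily connected), Stein manifolds `IsStein X` (closed complex submanifolds of `ℂᴺ`)
and open submanifolds `X.sub D` are those of `Pool.Agent.Lib.MP_55bc5f_an`.
-/

set_option autoImplicit false

open scoped Manifold ContDiff Topology
open Set Filter

namespace Pool.Agent.Lib.MP_c2a04f_an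

open Pool.Agent.Lib.MP_55bc5f_an

section

variable {V : Type} [NormedAddCommGroup V] [NormedSpace ℂ V]

/-- The bijection `F` of `X` is a holomorphic automorphism. -/
structure IsAut (X : CMan V) (F : X ≃ X) : Prop where
  hol : MDifferentiable 𝓘(ℂ, V) 𝓘(ℂ, V) F
  hol_symm : MDifferentiable 𝓘(ℂ, V) 𝓘(ℂ, V) F.symm

/-- Tame sets: closed, discrete, infinite, and every injective self-map of `Z` is the restriction
of an automorphism of `X`. -/
structure IsTame (X : CMan V) (Z : Set X) : Prop where
  closed : IsClosed Z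
  discrete : DiscreteTopology Z
  infinite : Z.Infinite
  extend : ∀ f : Z → Z, Function.Injective f → ∃ F : X ≃ X, IsAut X F ∧ ∀ z : Z, F z = f z

/-- `v` is a holomorphic vector field (a holomorphic section of the tangent bundle) on `X`. -/
def IsHolField (X : CMan V) (v : (x : X) → TangentSpace 𝓘(ℂ, V) x) : Prop :=
  MDifferentiable 𝓘(ℂ, V) 𝓘(ℂ, V).tangent (fun x => (⟨x, v x⟩ : TangentBundle 𝓘(ℂ, V) X))

/-- A holomorphic action of the group `(ℂ, +)` on `X`. -/
structure Flow (X : CMan V) where
  φ : ℂ → X → X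
  zero : ∀ x, φ 0 x = x
  add : ∀ s t x, φ (s + t) x = φ s (φ t x)
  hol : MDifferentiable (𝓘(ℂ, ℂ).prod 𝓘(ℂ, V)) 𝓘(ℂ, V) (fun p : ℂ × X => φ p.1 p.2)

/-- The vector field `v` on `X` is complete (over `ℂ`): there is a holomorphic action of `(ℂ, +)`
whose orbit maps `t ↦ φ t x` are integral curves of `v`. -/
def IsCompleteField (X : CMan V) (v : (x : X) → TangentSpace 𝓘(ℂ, V) x) : Prop :=
  ∃ φ : Flow X, ∀ (x : X) (t : ℂ), HasMFDerivAt 𝓘(ℂ, ℂ) 𝓘(ℂ, V) (fun s => φ.φ s x) t
    ((1 : ℂ →L[ℂ] ℂ).smulRight (v (φ.φ t x)))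

/-- The Lie algebra generated by the complete holomorphic vector fields on `X`. -/
inductive LieGen (X : CMan V) : ((x : X) → TangentSpace 𝓘(ℂ, V) x) → Prop
  | complete (v : (x : X) → TangentSpace 𝓘(ℂ, V) x) : IsCompleteField X v → LieGen X v
  | add (v w : (x : X) → TangentSpace 𝓘(ℂ, V) x) :
      LieGen X v → LieGen X w → LieGen X (fun x => v x + w x)
  | smul (c : ℂ) (v : (x : X) → TangentSpace 𝓘(ℂ, V) x) : LieGen X v → LieGen X (fun x => c • v x)
  | bracket (v w : (x : X) → TangentSpace 𝓘(ℂ, V) x) :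
      LieGen X v → LieGen X w → LieGen X (VectorField.mlieBracket 𝓘(ℂ, V) v w)

/-- The density property: the Lie algebra generated by the complete holomorphic vector fields is
dense in the Lie algebra of all holomorphic vector fields, in the compact-open topology: for every
holomorphic vector field `v`, every compact set `K ⊆ X` and every open set `O` of the tangent bundle
with `v(K) ⊆ O` there is `w` in the Lie algebra generated by the complete fields with `w(K) ⊆ O`.
(For sections a basic neighbourhood given by finitely many pairs `(K_i, O_i)` contains one given by a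
single pair, `K = ⋃ K_i`, `O = ⋂ (O_i ∪ π⁻¹(X \ K_i))`.) -/
def DensityProperty (X : CMan V) : Prop :=
  ∀ v : (x : X) → TangentSpace 𝓘(ℂ, V) x, IsHolField X v → ∀ K : Set X, IsCompact K →
    ∀ O : Set (TangentBundle 𝓘(ℂ, V) X), IsOpen O → (∀ x ∈ K, ⟨x, v x⟩ ∈ O) →
      ∃ w : (x : X) → TangentSpace 𝓘(ℂ, V) x, LieGen X w ∧ ∀ x ∈ K, ⟨x, w x⟩ ∈ O

/-- Oka manifolds (convex approximation property): for every compact convex `K ⊆ ℂⁿ` every
holomorphic map `f` from an open neighbourhood `U` of `K` to `Y` is a uniform limit on `K` of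
holomorphic maps `ℂⁿ → Y`.  Uniform approximation on the compact set `K` is expressed by the open
neighbourhoods `O` of the graph of `f` over `K` (equivalent to uniform approximation for any metric
which defines the topology of `Y`). -/
def IsOka (Y : CMan V) : Prop :=
  ∀ (n : ℕ) (K U : Set (Fin n → ℂ)), 1 ≤ n → IsCompact K → Convex ℝ K → IsOpen U → K ⊆ U →
    ∀ f : (Fin n → ℂ) → Y, MDifferentiableOn 𝓘(ℂ, Fin n → ℂ) 𝓘(ℂ, V) f U →
      ∀ O : Set ((Fin n → ℂ) × Y), IsOpen O → (∀ z ∈ K, (z, f z) ∈ O) →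
        ∃ g : (Fin n → ℂ) → Y, MDifferentiable 𝓘(ℂ, Fin n → ℂ) 𝓘(ℂ, V) g ∧
          ∀ z ∈ K, (z, g z) ∈ O

end

/-- The theorem: complements of tame sets in Stein manifolds with the density property are Oka. -/
def MainStatement : Prop :=
  ∀ (V : Type) [NormedAddCommGroup V] [NormedSpace ℂ V] [FiniteDimensional ℂ V] (X : CMan V),
    IsStein X → DensityProperty X → ∀ (Z : Set X) (hZ : IsTame X Z),
      IsOka (X.sub ⟨Zᶜ, hZ.closed.isOpen_compl⟩)

end Pool.Agent.Lib.MP_c2a04f_an
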