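import Mathlib
import Pool.Agent.Lib.MP_c2a04f_an.Defs
import Pool.Agent.Lib.MP_55bc5f_an.Full.Calc

/-!
# MP_c2a04f_an: internal definitions

`X : CMan V` is a complex manifold, `ι : X → ℂᴺ` a closed holomorphic embedding (`Emb`).  Holomorphic
vector fields are also described by the functions `v = dι(V) : X → ℂᴺ` (`Tan`).  `Flow X` are the
holomorphic actions of `ℂ`, `φ.vel ι : X → ℂᴺ` is the generator.  All norms are the maximum norm of
`Cn N = Fin N → ℂ`.
-/

set_option autoImplicit false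

open scoped Manifold ContDiff Topology
open Set Filter

namespace Pool.Agent.Lib.MP_c2a04f_an

open Pool.Agent.Lib.MP_55bc5f_an

variable {V : Type} [NormedAddCommGroup V] [NormedSpace ℂ V] {X : CMan V} {N : ℕ}

/-- `ι` is a closed holomorphic embedding of `X` into `ℂᴺ`. -/
structure Emb (X : CMan V) {N : ℕ} (ι : X → Cn N) : Prop where
  hol : MDifferentiable 𝓘(ℂ, V) 𝓘(ℂ, Cn N) ι
  inj : ∀ x, Function.Injective (mfderiv 𝓘(ℂ, V) 𝓘(ℂ, Cn N) ι x)
  closed : Topology.IsClosedEmbedding ι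

/-- The derivative of `b : X → ℂᴺ` at `x` in the direction of the tangent vector `u`. -/
noncomputable def dF (b : X → Cn N) (x : X) (u : TangentSpace 𝓘(ℂ, V) x) : Cn N :=
  mfderiv 𝓘(ℂ, V) 𝓘(ℂ, Cn N) b x u

/-- `v` is a holomorphic vector field on `X`, considered as a function `X → ℂᴺ`. -/
structure Tan (X : CMan V) {N : ℕ} (ι : X → Cn N) (v : X → Cn N) : Prop where
  hol : MDifferentiable 𝓘(ℂ, V) 𝓘(ℂ, Cn N) v
  tan : ∀ x, ∃ u : TangentSpace 𝓘(ℂ, V) x, dF ι x u = v x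

/-- The generator of a flow, as a function `X → ℂᴺ`. -/
noncomputable def Flow.vel (φ : Flow X) (ι : X → Cn N) (x : X) : Cn N :=
  deriv (fun t : ℂ => ι (φ.φ t x)) 0

/-- On compact sets every holomorphic vector field is a uniform limit of finite sums of complete
fields. -/
def Dens (X : CMan V) {N : ℕ} (ι : X → Cn N) : Prop :=
  ∀ v : X → Cn N, Tan X ι v → ∀ K : Set X, IsCompact K → ∀ ε > (0 : ℝ),
    ∃ (M : ℕ) (φ : Fin M → Flow X), ∀ x ∈ K, ‖v x - ∑ k, (φ k).vel ι x‖ < ε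

/-- Near every point `e` the tangent spaces are spanned by global holomorphic vector fields, in the
following form: `F(x) u = ∑_k u_k v_k(x)` for all tangent vectors `u ∈ ℂᴺ` at all points `x`, with a
holomorphic function `F`, `F(e) ≠ 0`. -/
def Frames (X : CMan V) {N : ℕ} (ι : X → Cn N) : Prop :=
  ∀ e : X, ∃ (F : X → ℂ) (v : Fin N → X → Cn N),
    MDifferentiable 𝓘(ℂ, V) 𝓘(ℂ, ℂ) F ∧ F e ≠ 0 ∧ (∀ k, Tan X ι (v k)) ∧
      ∀ (x : X) (u : TangentSpace 𝓘(ℂ, V) x), F x • dF ι x u = ∑ k, dF ι x u k • v k x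

/-- The compact sets `{‖ι x‖ ≤ ρ}`. -/
def Bl (ι : X → Cn N) (ρ : ℝ) : Set X := {x | ‖ι x‖ ≤ ρ}

/-- The closed `δ`-neighbourhood of `Q`. -/
def Nb (ι : X → Cn N) (Q : Set X) (δ : ℝ) : Set X := {x | ∃ q ∈ Q, ‖ι x - ι q‖ ≤ δ}

/-- `α` and its inverse are `ε`-close to the identity on `K`. -/
def Near (ι : X → Cn N) (α : X ≃ X) (K : Set X) (ε : ℝ) : Prop :=
  ∀ x ∈ K, ‖ι (α x) - ι x‖ ≤ ε ∧ ‖ι (α.symm x) - ι x‖ ≤ ε

/-- The inclusion of the open submanifold `X.sub D`. -/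
def subInc (X : CMan V) (D : TopologicalSpace.Opens X) : X.sub D → X :=
  fun y => Subtype.val (p := fun x => x ∈ D) y

/-- `f : ℂⁿ → X` is holomorphic in a neighbourhood of `K`. -/
def HolN (X : CMan V) {n : ℕ} (f : Cn n → X) (K : Set (Cn n)) : Prop :=
  ∀ z ∈ K, ∀ᶠ w in 𝓝 z, MDifferentiableAt 𝓘(ℂ, Cn n) 𝓘(ℂ, V) f w

/-- A holomorphic family of automorphisms, parametrised by `ℂⁿ`. -/
structure HFam (X : CMan V) (n : ℕ) where
  Ψ : Cn n → (X ≃ X)
  hol : ∀ (x : Cn n → X) (z : Cn n), MDifferentiableAt 𝓘(ℂ, Cn n) 𝓘(ℂ, V) x z →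
    MDifferentiableAt 𝓘(ℂ, Cn n) 𝓘(ℂ, V) (fun w => Ψ w (x w)) z

/-! ### Automorphisms -/

lemma isAut_refl : IsAut X (Equiv.refl X) := ⟨mdifferentiable_id, mdifferentiable_id⟩

lemma IsAut.symm {F : X ≃ X} (h : IsAut X F) : IsAut X F.symm := ⟨h.hol_symm, h.hol⟩

lemma IsAut.trans {F G : X ≃ X} (hF : IsAut X F) (hG : IsAut X G) : IsAut X (F.trans G) :=
  ⟨hG.hol.comp hF.hol, hF.hol_symm.comp hG.hol_symm⟩

lemma IsAut.continuous {F : X ≃ X} (h : IsAut X F) : Continuous F := h.hol.continuous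

lemma IsAut.continuous_symm {F : X ≃ X} (h : IsAut X F) : Continuous F.symm :=
  h.hol_symm.continuous

/-! ### Flows -/

lemma Flow.hol_t (φ : Flow X) (t : ℂ) : MDifferentiable 𝓘(ℂ, V) 𝓘(ℂ, V) (φ.φ t) :=
  φ.hol.comp (mdifferentiable_const.prodMk mdifferentiable_id)

lemma Flow.hol_x (φ : Flow X) (x : X) : MDifferentiable 𝓘(ℂ, ℂ) 𝓘(ℂ, V) (fun t => φ.φ t x) :=
  φ.hol.comp (mdifferentiable_id.prodMk mdifferentiable_const)

lemma Flow.continuous (φ : Flow X) : Continuous (fun p : ℂ × X => φ.φ p.1 p.2) := φ.hol.continuous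

/-- The automorphism `φ_t`. -/
def Flow.eqv (φ : Flow X) (t : ℂ) : X ≃ X where
  toFun := φ.φ t
  invFun := φ.φ (-t)
  left_inv x := by rw [← φ.add, neg_add_cancel, φ.zero]
  right_inv x := by rw [← φ.add, add_neg_cancel, φ.zero]

@[simp] lemma Flow.eqv_apply (φ : Flow X) (t : ℂ) (x : X) : φ.eqv t x = φ.φ t x := rfl

@[simp] lemma Flow.eqv_symm_apply (φ : Flow X) (t : ℂ) (x : X) :
    (φ.eqv t).symm x = φ.φ (-t) x := rfl

lemma Flow.isAut (φ : Flow X) (t : ℂ) : IsAut X (φ.eqv t) := ⟨φ.hol_t t, φ.hol_t (-t)⟩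

/-- The flow with the generator multiplied by `c`. -/
def Flow.scale (c : ℂ) (φ : Flow X) : Flow X where
  φ t x := φ.φ (c * t) x
  zero x := by rw [mul_zero, φ.zero]
  add s t x := by rw [mul_add, φ.add]
  hol := by
    have h1 : MDifferentiable (𝓘(ℂ, ℂ).prod 𝓘(ℂ, V)) 𝓘(ℂ, ℂ) (fun p : ℂ × X => c * p.1) :=
      (Differentiable.mdifferentiable (f := fun t : ℂ => c * t) (by fun_prop)).comp
        mdifferentiable_fst
    exact φ.hol.comp (h1.prodMk mdifferentiable_snd)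

/-- The conjugate flow `α⁻¹ ∘ φ_t ∘ α`. -/
def Flow.conj (φ : Flow X) (α : X ≃ X) (hα : IsAut X α) : Flow X where
  φ t x := α.symm (φ.φ t (α x))
  zero x := by rw [φ.zero, α.symm_apply_apply]
  add s t x := by rw [φ.add, α.apply_symm_apply]
  hol := by
    have h1 : MDifferentiable (𝓘(ℂ, ℂ).prod 𝓘(ℂ, V)) 𝓘(ℂ, V) (fun p : ℂ × X => α p.2) :=
      hα.hol.comp mdifferentiable_snd
    exact hα.hol_symm.comp (φ.hol.comp (mdifferentiable_fst.prodMk h1))

/-! ### Compositions of flows -/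

section go

variable {M r : ℕ}

/-- The composition of the flows in the list `l` (the first element of the list is applied
first). -/
def goE (Φ : Fin M → Flow X) : List (Fin M × ℂ) → (X ≃ X)
  | [] => Equiv.refl X
  | p :: l => ((Φ p.1).eqv p.2).trans (goE Φ l)

/-- The composition of the lists `l 0, l 1, ..., l (p - 1)`. -/
def gosE (Φ : Fin M → Flow X) (l : ℕ → List (Fin M × ℂ)) : ℕ → (X ≃ X)
  | 0 => Equiv.refl X
  | m + 1 => (gosE Φ l m).trans (goE Φ (l m))

/-- The generator of a list: the sum of the vector fields times the times. -/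
noncomputable def gen (Φ : Fin M → Flow X) (ι : X → Cn N) (l : List (Fin M × ℂ)) (x : X) : Cn N :=
  (l.map fun p => p.2 • (Φ p.1).vel ι x).sum

/-- One Euler step of length `1/p` with the coefficients `a`: the flow number `k` is applied for
the time `a (σ k) / p`. -/
noncomputable def stp (σ : Fin M → Fin r) (p : ℕ) (a : Fin r → ℂ) : List (Fin M × ℂ) :=
  (List.finRange M).map fun k => (k, a (σ k) / p)

/-- The sum of the generators of the flows with the label `j`. -/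
noncomputable def appr (Φ : Fin M → Flow X) (ι : X → Cn N) (σ : Fin M → Fin r) (j : Fin r) (x : X) :
    Cn N :=
  ∑ k, if σ k = j then (Φ k).vel ι x else 0

lemma goE_append (Φ : Fin M → Flow X) (l l' : List (Fin M × ℂ)) :
    goE Φ (l ++ l') = (goE Φ l).trans (goE Φ l') := by
  induction l with
  | nil => rfl
  | cons p l ih => simp only [List.cons_append, goE, ih]; rfl

lemma isAut_goE (Φ : Fin M → Flow X) (l : List (Fin M × ℂ)) : IsAut X (goE Φ l) := by
  induction l with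
  | nil => exact isAut_refl
  | cons p l ih => exact ((Φ p.1).isAut p.2).trans ih

lemma isAut_gosE (Φ : Fin M → Flow X) (l : ℕ → List (Fin M × ℂ)) (p : ℕ) :
    IsAut X (gosE Φ l p) := by
  induction p with
  | zero => exact isAut_refl
  | succ m ih => exact ih.trans (isAut_goE Φ (l m))

/-- The inverse of a composition of flows. -/
lemma goE_symm (Φ : Fin M → Flow X) (l : List (Fin M × ℂ)) :
    (goE Φ l).symm = goE Φ ((l.map fun p => (p.1, -p.2)).reverse) := by
  induction l with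
  | nil => rfl
  | cons p l ih =>
    simp only [goE, List.map_cons, List.reverse_cons, goE_append]
    rw [← ih]
    ext x
    simp

end go

/-- `u` can be moved to `u'` by automorphisms which are arbitrarily close to the identity near
`Q`. -/
def Mv (X : CMan V) (ι : X → Cn N) (Q : Set X) (u u' : X) : Prop :=
  ∃ δ > (0 : ℝ), ∀ ε > (0 : ℝ), ∃ α : X ≃ X, IsAut X α ∧ Near ι α (Nb ι Q δ) ε ∧
    ‖ι (α u) - ι u'‖ ≤ ε

/-- The push property: finite sets outside a ball can be pushed to infinity by automorphisms close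
to the identity on the ball. -/
def PushP (X : CMan V) (ι : X → Cn N) : Prop :=
  ∀ (S : Finset X) (ρ R ε : ℝ), 0 < ε → (∀ s ∈ S, ρ < ‖ι s‖) →
    ∃ α : X ≃ X, IsAut X α ∧ Near ι α (Bl ι ρ) ε ∧ ∀ s ∈ S, R < ‖ι (α s)‖

/-- The set `Z` is sparse: the whole of `Z` outside a ball can be pushed out of any given ball by an
automorphism close to the identity on the first ball. -/
def Sparse (X : CMan V) (ι : X → Cn N) (Z : Set X) : Prop :=
  ∀ (j : ℕ) (R ε : ℝ), 0 < ε → ∃ α : X ≃ X, IsAut X α ∧ Near ι α (Bl ι j) ε ∧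
    ∀ s ∈ Z, (j : ℝ) < ‖ι s‖ → R < ‖ι (α s)‖

/-- Avoiding `Z`: holomorphic maps to `X \ Z` defined near compact convex sets `K ⊆ L` can be
approximated on `K` by holomorphic maps to `X \ Z` defined near `L`. -/
def Avoid (X : CMan V) (ι : X → Cn N) (Z : Set X) : Prop :=
  ∀ (n : ℕ) (K L : Set (Cn n)), IsCompact K → Convex ℝ K → K.Nonempty → IsCompact L →
    Convex ℝ L → K ⊆ L → ∀ f : Cn n → X, HolN X f K → (∀ z ∈ K, f z ∉ Z) → ∀ ε > (0 : ℝ),
      ∃ g : Cn n → X, HolN X g L ∧ (∀ z ∈ L, g z ∉ Z) ∧ ∀ z ∈ K, ‖ι (g z) - ι (f z)‖ ≤ ε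

end Pool.Agent.Lib.MP_c2a04f_an
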