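import Mathlib
import Pool.Agent.Lib.MP_c2a04f_an.Core

/-!
# MP_c2a04f_an, part A: embeddings, holomorphic functions, flows as vector fields, the density
property in terms of sums of complete fields.  Statements and complete paper proofs.

Existing tools: `Pool.Agent.Lib.Osgood` (`analyticOnNhd`: complex differentiable functions on open
sets of finite dimensional spaces are analytic; `norm_fderiv_le`: Cauchy estimate), and in
`Pool.Agent.Lib.MP_55bc5f_an`: `s_Retr : S_Retr` (`Full/Mfd/Retr.lean`, statement in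
`Full/SpecMfd.lean`): local holomorphic left inverses of immersions (`Imm X ι` is the conjunction of
`Emb.hol` and `Emb.inj`).
-/

set_option autoImplicit false

open scoped Manifold ContDiff Topology
open Set Filter Metric

namespace Pool.Agent.Lib.MP_c2a04f_an

open Pool.Agent.Lib.MP_55bc5f_an

/-- **A1 Rho.** Local holomorphic retractions `ρ` of `ℂᴺ` to `X`.

PROOF. `s_Retr` gives `ρ` with `ρ (ι x) = x`, `ρ` `MDifferentiableAt` at all points near `ι x`, and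
`ρ (ι y) = y` for `y` near `x`. `ρ` is continuous at `ι x`, so `ρ w ∈ K'` for `w` near `ι x`. As `ι` is an
embedding, `𝓝 x = comap ι (𝓝 (ι x))`, so `ρ (ι y) = y` holds for all `y` with `‖ι y - ι x‖ < r`, `r` small. -/
def S_Rho : Prop := ∀ (V : Type) [NormedAddCommGroup V] [NormedSpace ℂ V] [FiniteDimensional ℂ V]
  (X : CMan V) (N : ℕ) (ι : X → Cn N), Emb X ι → ∀ (x : X) (K' : Set X), K' ∈ 𝓝 x →
  ∃ (r : ℝ) (ρ : Cn N → X), 0 < r ∧
    (∀ w ∈ ball (ι x) r, MDifferentiableAt 𝓘(ℂ, Cn N) 𝓘(ℂ, V) ρ w ∧ ρ w ∈ K') ∧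
    ρ (ι x) = x ∧ ∀ y : X, ‖ι y - ι x‖ < r → ρ (ι y) = y

/-- **A2 MDiff.** Maps into `X` are holomorphic if and only if they are so as maps into `ℂᴺ`.

PROOF. `←`: composition. `→`: `ι ∘ f` is continuous at `z`, so `f` is continuous at `z` (`ι` is an embedding);
with `ρ` from `Rho` at `f z`, `f w = ρ (ι (f w))` for `w` near `z`, and `ρ` is `MDifferentiableAt` at `ι (f z)`. -/
def S_MDiff : Prop := ∀ (V : Type) [NormedAddCommGroup V] [NormedSpace ℂ V] [FiniteDimensional ℂ V]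
  (X : CMan V) (N : ℕ) (ι : X → Cn N), Emb X ι → ∀ (W : Type) [NormedAddCommGroup W]
  [NormedSpace ℂ W] (f : W → X) (z : W),
    DifferentiableAt ℂ (fun w => ι (f w)) z ↔ MDifferentiableAt 𝓘(ℂ, W) 𝓘(ℂ, V) f z

/-- **A3 NbF.** Neighbourhoods of compact sets.

PROOF. (1), (2): `ι` is a closed embedding and `ℂᴺ` is proper: preimages of compact sets are compact, `Nb ι Q δ` is the preimage of the
compact set `ι(Q) + closedBall 0 δ` (`IsCompact.cthickening`-like; closed and bounded). (3) If no `δ = 1/(j+1)` works there are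
`x_j ∉ O`, `q_j ∈ Q`, `‖ι x_j - ι q_j‖ ≤ 1/(j+1)`; a subsequence `q_j → q ∈ Q`, `ι x_j → ι q`, so `x_j → q ∈ O`,
contradiction (or: `ι '' Q` is compact, and contained in an open set `O'` of `ℂᴺ` with `O = ι⁻¹ O'`;
`IsCompact.exists_cthickening_subset_open`). (4) `{x | ‖ι x - ι q‖ < δ}` is open. -/
def S_NbF : Prop := ∀ (V : Type) [NormedAddCommGroup V] [NormedSpace ℂ V]
  (X : CMan V) (N : ℕ) (ι : X → Cn N), Emb X ι →
  (∀ ρ : ℝ, IsCompact (Bl ι ρ)) ∧
  (∀ (Q : Set X) (δ : ℝ), IsCompact Q → IsCompact (Nb ι Q δ)) ∧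
  (∀ (Q O : Set X), IsCompact Q → IsOpen O → Q ⊆ O → ∃ δ > (0 : ℝ), Nb ι Q δ ⊆ O) ∧
  (∀ (Q : Set X) (δ : ℝ), 0 < δ → Q ⊆ interior (Nb ι Q δ))

/-- **A4 Lip.** Holomorphic functions are Lipschitz on compact sets.

PROOF. Let `x : X`, `ρ`, `r` from `Rho` (`K' = univ`). `b ∘ ρ` is complex differentiable on `ball (ι x) r`, so analytic (Osgood),
hence `C¹` and Lipschitz on a smaller ball (`ContDiffAt.exists_lipschitzOnWith`); as `b y = (b ∘ ρ) (ι y)` for `y` near `x`, `b` is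
Lipschitz near `x` in the sense of the claim. If the claim is false for `K`, there are `x_j, y_j ∈ K` with
`‖b x_j - b y_j‖ > j ‖ι x_j - ι y_j‖`; `b` is bounded on `K`, so `‖ι x_j - ι y_j‖ → 0`; for a subsequence `x_j → x`, then `ι y_j → ι x`, `y_j → x`:
contradiction to the local estimate at `x`. -/
def S_Lip : Prop := ∀ (V : Type) [NormedAddCommGroup V] [NormedSpace ℂ V] [FiniteDimensional ℂ V]
  (X : CMan V) (N : ℕ) (ι : X → Cn N), Emb X ι → ∀ (N' : ℕ) (b : X → Cn N'),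
  MDifferentiable 𝓘(ℂ, V) 𝓘(ℂ, Cn N') b → ∀ K : Set X, IsCompact K →
  ∃ L : ℝ, 0 ≤ L ∧ ∀ x ∈ K, ∀ y ∈ K, ‖b x - b y‖ ≤ L * ‖ι x - ι y‖

/-- **A5 Cauchy.** Cauchy estimates for the derivative.

PROOF. Let `x₀ ∈ K`, `ρ`, `r` from `Rho` for `x₀`, `K'`. For holomorphic `b` with `‖b‖ ≤ β` on `K'`, `g = b ∘ ρ` is
differentiable and `‖g‖ ≤ β` on `ball (ι x₀) r`, so `‖fderiv g w‖ ≤ β / (r/2)` for `w ∈ ball (ι x₀) (r/2)`
(`Osgood.norm_fderiv_le` on the ball of radius `r/2` around `w`). For `x` with `‖ι x - ι x₀‖ < r/2`: `b = g ∘ ι` near `x`, so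
`mfderiv b x u = fderiv g (ι x) (mfderiv ι x u)`. Cover `K` by finitely many sets `{‖ι x - ι x₀‖ < r(x₀)/2}`; `C = max 2/r`. -/
def S_Cauchy : Prop := ∀ (V : Type) [NormedAddCommGroup V] [NormedSpace ℂ V]
  [FiniteDimensional ℂ V] (X : CMan V) (N : ℕ) (ι : X → Cn N), Emb X ι → ∀ (K K' : Set X),
  IsCompact K → K ⊆ interior K' → ∃ C : ℝ, 0 ≤ C ∧ ∀ (N' : ℕ) (b : X → Cn N') (β : ℝ),
    MDifferentiable 𝓘(ℂ, V) 𝓘(ℂ, Cn N') b → 0 ≤ β → (∀ x ∈ K', ‖b x‖ ≤ β) →
    ∀ x ∈ K, ∀ u : TangentSpace 𝓘(ℂ, V) x,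
      ‖dF b x u‖ ≤ C * β * ‖dF ι x u‖

/-- **A6 Vel.** The vector field of a flow.

PROOF. `v x := mfderiv (fun s => φ_s x) 0 1` (all tangent spaces are `V` by definition; `φ_0 x = x`). As `φ_s x = φ_{s-t} (φ_t x)`,
the chain rule gives the first statement. `φ.vel ι x = deriv (s ↦ ι (φ_s x)) 0 = mfderiv ι x (v x)` by the chain rule (`φ_0 x = x`). Holomorphy
of `φ.vel ι` near `x₀`: let `e = chartAt V x₀`; `G (t, u) = ι (φ_t (e.symm u))` is complex differentiable on the open set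
`univ ×ˢ e.target` of `ℂ × V`, hence analytic (Osgood), and so `u ↦ fderiv ℂ G (0, u) (1, 0) = φ.vel ι (e.symm u)` is differentiable on
`e.target`; compose with the chart `e`. -/
def S_Vel : Prop := ∀ (V : Type) [NormedAddCommGroup V] [NormedSpace ℂ V] [FiniteDimensional ℂ V]
  (X : CMan V) (φ : Flow X), ∃ v : (x : X) → TangentSpace 𝓘(ℂ, V) x,
    (∀ (x : X) (t : ℂ), HasMFDerivAt 𝓘(ℂ, ℂ) 𝓘(ℂ, V) (fun s => φ.φ s x) t
      ((1 : ℂ →L[ℂ] ℂ).smulRight (v (φ.φ t x)))) ∧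
    ∀ (N : ℕ) (ι : X → Cn N), MDifferentiable 𝓘(ℂ, V) 𝓘(ℂ, Cn N) ι →
      (∀ x, dF ι x (v x) = φ.vel ι x) ∧ Tan X ι (φ.vel ι)

/-- **A7 SecIff.** Holomorphic vector fields as functions to `ℂᴺ`.

PROOF. A holomorphic function to `ℂᴺ`, or `ρ` of `Rho`, is `ContMDiff` near the point (in charts it is complex differentiable on an open set, hence
analytic by Osgood), so its tangent map is `ContMDiff`/`MDifferentiable` there. `→`: `x ↦ tangentMap ι ⟨x, v x⟩` is `MDifferentiable` as a composition,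
and its second component is `x ↦ mfderiv ι x (v x)` (the tangent bundle of a vector space is trivial, e.g.
`contMDiff_snd_tangentBundle_modelSpace` or the trivialization). `←`: near `x₀`, with `ρ` from `Rho` at `x₀` and `b x = mfderiv ι x (v x)`: for `x` near
`x₀`, `ρ ∘ ι = id` near `x`, so `mfderiv ρ (ι x) (b x) = v x`; so `⟨x, v x⟩ = tangentMap ρ ⟨ι x, b x⟩`, which is a composition of differentiable
maps. -/
def S_SecIff : Prop := ∀ (V : Type) [NormedAddCommGroup V] [NormedSpace ℂ V]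
  [FiniteDimensional ℂ V] (X : CMan V) (N : ℕ) (ι : X → Cn N), Emb X ι →
  ∀ v : (x : X) → TangentSpace 𝓘(ℂ, V) x,
    IsHolField X v ↔ MDifferentiable 𝓘(ℂ, V) 𝓘(ℂ, Cn N) (fun x => dF ι x (v x))

/-- **A8 HolLim.** Uniform limits of holomorphic maps.

PROOF. Let `z ∈ O`, `ball z (2 R) ⊆ O`. By Cauchy's estimate (`Osgood.norm_fderiv_le`) on balls of radius `R`,
`‖fderiv (g_j - g_k)‖ ≤ sup_O ‖g_j - g_k‖ / R` on `ball z R`, so the derivatives are uniformly Cauchy on `ball z R`, and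
`hasFDerivAt_of_tendstoUniformlyOn`-type theorems (`hasFDerivAt_of_tendstoUniformlyOnFilter`, ...) apply. -/
def S_HolLim : Prop := ∀ (n N : ℕ) (O : Set (Cn n)) (g : ℕ → Cn n → Cn N) (h : Cn n → Cn N),
  IsOpen O → (∀ j, DifferentiableOn ℂ (g j) O) → TendstoUniformlyOn g h atTop O →
  DifferentiableOn ℂ h O

/-- **B1 Bracket.** The Lie bracket in `ℂᴺ`: `dι [v, w] = D_v (dι w) - D_w (dι v)`.

PROOF. Fix `x₀`, let `e = extChartAt x₀` and let `v', w'` be the pull backs of the fields to `e.target` (`mpullbackWithin ... e.symm`,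
see the definition of `VectorField.mlieBracketWithin` / `mlieBracket`), differentiable near `u₀ = e x₀`. By definition
`mlieBracket v w x₀ = (mfderiv e x₀).inverse (lieBracket v' w' u₀)`. With `G = ι ∘ e.symm` (analytic near `u₀` by Osgood)
`mfderiv ι x₀ ((mfderiv e x₀).inverse b) = fderiv G u₀ b` and for `u` near `u₀`
`fderiv G u (w' u) = mfderiv ι (e.symm u) (w (e.symm u))`. In the vector space,
`lieBracket v' w' u = fderiv w' u (v' u) - fderiv v' u (w' u)` and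
`fderiv (u ↦ fderiv G u (w' u)) u₀ (v' u₀) = D²G(u₀)(v' u₀, w' u₀) + fderiv G u₀ (fderiv w' u₀ (v' u₀))`; the second derivative is
symmetric, subtract. -/
def S_Bracket : Prop := ∀ (V : Type) [NormedAddCommGroup V] [NormedSpace ℂ V]
  [FiniteDimensional ℂ V] (X : CMan V) (N : ℕ) (ι : X → Cn N), Emb X ι →
  ∀ v w : (x : X) → TangentSpace 𝓘(ℂ, V) x, IsHolField X v → IsHolField X w → ∀ x : X,
    dF ι x (VectorField.mlieBracket 𝓘(ℂ, V) v w x) =
      dF (fun y => dF ι y (w y)) x (v x) - dF (fun y => dF ι y (v y)) x (w x)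

/-- **B2 BrFlow.** The bracket of two complete fields is a locally uniform limit of sums of complete
fields.

PROOF. For `s ∈ ℂ` let `w_s = (ψ.conj (φ.eqv s)).vel ι`, the generator of `φ_{-s} ψ_t φ_s`. For fixed `x` consider the entire
function `K(a, b, t) = ι (φ_{-a} (ψ_t (φ_b x)))` on `ℂ³` (a composition of holomorphic maps; `MDifferentiable` between normed spaces is `Differentiable`), so
`w_s x = ∂_t K(s, s, 0)`. Mixed second derivatives commute, hence
`d/ds w_s x |₀ = ∂_t ∂_a K (0,0,·)|₀ + ∂_b ∂_t K(0,·,0)|₀ = - d/dt φ.vel ι (ψ_t x) |₀ + d/db ψ.vel ι (φ_b x) |₀`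
(`∂_a K(0,0,t) = - φ.vel ι (ψ_t x)`, `∂_t K(0,b,0) = ψ.vel ι (φ_b x)`), which is the expression `B x` of the claim. Uniformity: for
`x ∈ K`, `‖s‖ ≤ 1` we have `‖w_s x‖ = ‖∂_t K(s,s,0)‖ ≤ C` (Cauchy's estimate, `K` is bounded by `C` for `‖a‖, ‖b‖, ‖t‖ ≤ 1`, `x ∈ K`, by
continuity and compactness), so the entire function `g(s) = w_s x` satisfies `‖g(s) - g(0) - s g'(0)‖ ≤ 3 C ‖s‖²` for `‖s‖ ≤ 1`
(as in `OneFlow`). So `‖B x - (w_s x - w_0 x)/s‖ ≤ 3 C ‖s‖`. Take `s` small, `M = 2`, the flows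
`(ψ.conj (φ.eqv s)).scale (1/s)` and `ψ.scale (-1/s)` (`(φ.scale c).vel ι = c • φ.vel ι`). -/
def S_BrFlow : Prop := ∀ (V : Type) [NormedAddCommGroup V] [NormedSpace ℂ V]
  [FiniteDimensional ℂ V] (X : CMan V) (N : ℕ) (ι : X → Cn N), Emb X ι → ∀ (φ ψ : Flow X)
  (K : Set X), IsCompact K → ∀ ε > (0 : ℝ), ∃ (M : ℕ) (Φ : Fin M → Flow X), ∀ x ∈ K,
    ‖deriv (fun b : ℂ => ψ.vel ι (φ.φ b x)) 0 - deriv (fun t : ℂ => φ.vel ι (ψ.φ t x)) 0 -
      ∑ k, (Φ k).vel ι x‖ < ε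

/-- **B3 Span.** Elements of the Lie algebra generated by the complete fields are locally uniform
limits of sums of complete fields.  Hypotheses available: `S_Bracket`, `S_BrFlow`, `S_Cauchy`, `S_Vel`, `S_SecIff`,
`S_NbF`.

PROOF. Induction on `LieGen`. Write `v^ x = mfderiv ι x (v x)`. Complete fields: `v^ = φ.vel ι` by the chain rule, holomorphic by `Vel`, so `IsHolField` by
`SecIff`. Sums: union of the two families. Multiples: `Flow.scale`. Bracket of `v, w`: by `Bracket`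
`[v,w]^ = D_v w^ - D_w v^` where `D_v b x = mfderiv b x (v x)`; it is holomorphic (`Bracket`: the bracket of holomorphic fields; e.g. show that
`x ↦ mfderiv b x (v x)` is holomorphic for holomorphic `b : X → ℂᴺ` in charts, or as in `SecIff` by `tangentMap b ⟨x, v x⟩`), so `IsHolField`. Let `K` be compact,
`K' = Nb ι K 1`, `C` from `Cauchy`. Choose `v' = ∑ φ_i.vel`, `w' = ∑ ψ_j.vel` with `‖v^ - v'‖ ≤ δ`, `‖w^ - w'‖ ≤ δ` on `K'`, `δ ≤ 1`. On `K`:
`‖D_v w^ - D_v w'‖ ≤ C δ ‖v^‖`, `‖D_v w' - D_{v'} w'‖ ≤ C (B + 1) δ` with `B` a bound of `‖v^‖, ‖w^‖` on `K'`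
(here `D_{v'} w' x = ∑_i mfderiv w' x (v_i x)`, `v_i` the field of `φ_i` (`Vel`), and `D_v - D_{v'}` is the derivative in the direction of the tangent vector
`v x - ∑ v_i x`, whose image under `mfderiv ι x` is `v^ x - v' x`), similarly for the other term; and
`D_{v'} w' - D_{w'} v' = ∑_{i,j} (deriv (b ↦ ψ_j.vel (φ_i b x)) 0 - deriv (t ↦ φ_i.vel (ψ_j t x)) 0)` by the chain rule, which `BrFlow`
approximates (each of the finitely many terms). -/
def S_Span : Prop := ∀ (V : Type) [NormedAddCommGroup V] [NormedSpace ℂ V]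
  [FiniteDimensional ℂ V] (X : CMan V) (N : ℕ) (ι : X → Cn N), Emb X ι →
  ∀ v : (x : X) → TangentSpace 𝓘(ℂ, V) x, LieGen X v → IsHolField X v ∧
    ∀ K : Set X, IsCompact K → ∀ ε > (0 : ℝ), ∃ (M : ℕ) (Φ : Fin M → Flow X), ∀ x ∈ K,
      ‖dF ι x (v x) - ∑ k, (Φ k).vel ι x‖ < ε

/-- **B4 Dens.** The density property implies `Dens`.  Hypotheses available: `S_Span`, `S_SecIff`.

PROOF. Let `b : X → ℂᴺ` be as in `Dens` (`Tan X ι b`), `v x` the tangent vector with `mfderiv ι x (v x) = b x`. `IsHolField X v` by `SecIff`. The set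
`O = {ω : TangentBundle | ‖mfderiv ι ω.1 ω.2 - b ω.1‖ < ε/2}` is open, because `tangentMap ι` is continuous (`ι` is `C¹`, in fact analytic in charts; its second component is
`mfderiv ι ω.1 ω.2`) and `b` is continuous. `DensityProperty` gives `w`, `LieGen X w`, `⟨x, w x⟩ ∈ O` on `K`; `Span` for `w` and `ε/2`. -/
def S_Dens : Prop := ∀ (V : Type) [NormedAddCommGroup V] [NormedSpace ℂ V]
  [FiniteDimensional ℂ V] (X : CMan V) (N : ℕ) (ι : X → Cn N), Emb X ι → DensityProperty X →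
  Dens X ι

end Pool.Agent.Lib.MP_c2a04f_an
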