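import Mathlib
import Pool.Agent.Lib.MP_c2a04f_an.Core

/-!
# MP_c2a04f_an, part B: Euler's method with flows (shadowing), local moves, the push lemma, sparse
subsets of tame sets.  Statements and complete paper proofs.
-/

set_option autoImplicit false

open scoped Manifold ContDiff Topology
open Set Filter Metric

namespace Pool.Agent.Lib.MP_c2a04f_an

open Pool.Agent.Lib.MP_55bc5f_an

/-- **C1 OneFlow.** Second order estimate for a flow.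

PROOF. For `x ∈ K` the function `g(t) = ι (φ_t x)` is entire, and `‖g‖ ≤ C` for `‖t‖ ≤ 1`, `x ∈ K` (continuity, compactness). The function
`k(t) = (g(t) - g(0) - t g'(0))/t²` extends to an entire function (`dslope` twice; `g'(0) = φ.vel ι x`), and for `‖t‖ = 1`
`‖k(t)‖ ≤ 3 C` (`‖g'(0)‖ ≤ C` by Cauchy, `Complex.norm_deriv_le_of_forall_mem_sphere_norm_le`), so by the maximum principle for `‖t‖ ≤ 1`.
(`Complex.norm_le_of_forall_mem_frontier_norm_le`.) `B = 3 C`. -/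
def S_OneFlow : Prop := ∀ (V : Type) [NormedAddCommGroup V] [NormedSpace ℂ V]
  [FiniteDimensional ℂ V] (X : CMan V) (N : ℕ) (ι : X → Cn N), Emb X ι → ∀ (φ : Flow X)
  (K : Set X), IsCompact K → ∃ B : ℝ, 0 ≤ B ∧ ∀ x ∈ K, ∀ t : ℂ, ‖t‖ ≤ 1 →
    ‖ι (φ.φ t x) - ι x - t • φ.vel ι x‖ ≤ B * ‖t‖ ^ 2

/-- **C2 Step.** A composition of at most `R` flows for times of size at most `A h`.  Hypotheses
available: `S_OneFlow`, `S_Lip`, `S_Vel`, `S_NbF`.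

PROOF. `K₁ = Nb ι K 1` is compact. Let `B₁ ≥ 1` be a bound for the constants of `OneFlow` for all `Φ k` on `K₁` and for `‖(Φ k).vel ι‖` on
`K₁`, `L` a Lipschitz constant of all `(Φ k).vel ι` on `K₁` (`Lip`). Let `x_0 = x ∈ K`, `x_{i+1}` the image of `x_i` under the
`i`-th flow of the list (time `t_i`, `‖t_i‖ ≤ A h ≤ 1`). If `x_i ∈ K₁` then `‖ι x_{i+1} - ι x_i‖ ≤ B₁‖t_i‖ + B₁‖t_i‖² ≤ 2 B₁ A h`, so
`‖ι x_i - ι x‖ ≤ 2 i B₁ A h ≤ 2 R B₁ A h`, which is `≤ 1` for `h ≤ h₀`: all `x_i` are in `K₁`. Then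
`‖ι x_{i+1} - ι x_i - t_i v_i(x)‖ ≤ B₁ (A h)² + A h L (2 R B₁ A h)`; sum over `i < R`. Induction on the list (generalize `x` and
the length, or prove the two estimates for all initial segments of the list). -/
def S_Step : Prop := ∀ (V : Type) [NormedAddCommGroup V] [NormedSpace ℂ V]
  [FiniteDimensional ℂ V] (X : CMan V) (N : ℕ) (ι : X → Cn N), Emb X ι → ∀ (M : ℕ)
  (Φ : Fin M → Flow X) (K : Set X), IsCompact K → ∀ (R : ℕ) (A : ℝ), 0 ≤ A →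
  ∃ B h₀ : ℝ, 0 ≤ B ∧ 0 < h₀ ∧ ∀ h : ℝ, 0 ≤ h → h ≤ h₀ → ∀ l : List (Fin M × ℂ),
    l.length ≤ R → (∀ q ∈ l, ‖q.2‖ ≤ A * h) → ∀ x ∈ K,
      ‖ι (goE Φ l x) - ι x - gen Φ ι l x‖ ≤ B * h ^ 2

/-- **C3 Shadow.** Euler's method: `y` is an approximate trajectory (with step `1/p` and defect
`δ/p`) of the field `w` which has the Lipschitz constant `Λ` at the points `y m` and is
`δ`-close to `p · gen`.  Hypotheses available: `S_Step`, `S_NbF`.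

PROOF. `C' = Nb ι C η` is compact; `B`, `h₀` from `Step` for `C'`, `R`, `A`. Let `p₀ ≥ 1/h₀`, `p₀ ≥ B/ε`. Let `x_m = gosE Φ l m (y 0)`,
`e_m = ‖ι x_m - ι (y m)‖`. Claim: `e_m ≤ (m/p) (2δ + ε) (1 + Λ/p)^m` for `m ≤ p`; the right side is `≤ exp Λ (2δ + ε) ≤ η`
(`(1 + Λ/p)^p ≤ exp Λ`: `Real.add_one_le_exp`, `Real.exp_nat_mul`-like). Induction: `x_m ∈ C'`, so
`ι x_{m+1} = ι x_m + gen (l m) x_m + O(B/p²)`, `‖gen (l m) x_m - w_m(x_m)/p‖ ≤ δ/p`, `‖w_m(x_m) - w_m(y_m)‖ ≤ Λ e_m`, and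
`‖ι y_{m+1} - ι y_m - w_m(y_m)/p‖ ≤ δ/p`; so `e_{m+1} ≤ (1 + Λ/p) e_m + 2δ/p + B/p² ≤ (1 + Λ/p) e_m + (2δ + ε)/p`. -/
def S_Shadow : Prop := ∀ (V : Type) [NormedAddCommGroup V] [NormedSpace ℂ V]
  [FiniteDimensional ℂ V] (X : CMan V) (N : ℕ) (ι : X → Cn N), Emb X ι → ∀ (M : ℕ)
  (Φ : Fin M → Flow X) (C : Set X), IsCompact C → ∀ (R : ℕ) (A η ε : ℝ), 0 ≤ A → 0 < η → 0 < ε →
  ∃ p₀ : ℕ, ∀ p : ℕ, p₀ ≤ p → 1 ≤ p → ∀ l : ℕ → List (Fin M × ℂ),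
    (∀ m < p, (l m).length ≤ R ∧ ∀ q ∈ l m, ‖q.2‖ ≤ A / p) →
    ∀ (y : ℕ → X) (w : ℕ → X → Cn N) (Λ δ : ℝ), 0 ≤ Λ → 0 ≤ δ → (∀ m ≤ p, y m ∈ C) →
    (∀ m < p, ∀ x : X, ‖ι x - ι (y m)‖ ≤ η →
      ‖w m x - w m (y m)‖ ≤ Λ * ‖ι x - ι (y m)‖ ∧
      ‖(p : ℂ) • gen Φ ι (l m) x - w m x‖ ≤ δ) →
    (∀ m < p, ‖ι (y (m + 1)) - ι (y m) - (1 / p : ℂ) • w m (y m)‖ ≤ δ / p) →
    Real.exp Λ * (2 * δ + ε) ≤ η →
    ‖ι (gosE Φ l p (y 0)) - ι (y p)‖ ≤ Real.exp Λ * (2 * δ + ε)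

/-- **C4 Euler.** The same with the lists `stp σ p (a m)`, and the estimate for the inverse of the
composition at points where the fields are small.  Hypothesis available: `S_Shadow`.

PROOF. `R = M`. `gen Φ ι (stp σ p a) x = ∑_k (a (σ k)/p) (Φ k).vel ι x = (1/p) ∑_j a_j appr_j x`
(`List.sum` over `List.finRange`, exchange the sums), for `p ≥ 1`. First part: `Shadow`. Second part: `(gosE Φ l p).symm = gosE Φ l' p` with
`l' m = ((l (p - 1 - m)).map (negate the times)).reverse` (`goE_symm`; induction: for a general `p`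
the inverse of `gosE Φ l p` is the composition of `(goE Φ (l (p-1))).symm, ..., (goE Φ (l 0)).symm` in this order), and
`gen (l' m) = - gen (l (p-1-m))`; `Shadow` for `l'`, `y m = x`, `w = 0`, `Λ = 0`. -/
def S_Euler : Prop := ∀ (V : Type) [NormedAddCommGroup V] [NormedSpace ℂ V]
  [FiniteDimensional ℂ V] (X : CMan V) (N : ℕ) (ι : X → Cn N), Emb X ι → ∀ (M r : ℕ)
  (Φ : Fin M → Flow X) (σ : Fin M → Fin r) (C : Set X), IsCompact C → ∀ (A η ε : ℝ), 0 ≤ A →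
  0 < η → 0 < ε → ∃ p₀ : ℕ, ∀ p : ℕ, p₀ ≤ p → 1 ≤ p → ∀ a : ℕ → Fin r → ℂ,
    (∀ m j, ‖a m j‖ ≤ A) →
    (∀ (y : ℕ → X) (w : ℕ → X → Cn N) (Λ δ : ℝ), 0 ≤ Λ → 0 ≤ δ → (∀ m ≤ p, y m ∈ C) →
      (∀ m < p, ∀ x : X, ‖ι x - ι (y m)‖ ≤ η →
        ‖w m x - w m (y m)‖ ≤ Λ * ‖ι x - ι (y m)‖ ∧
        ‖(∑ j, a m j • appr Φ ι σ j x) - w m x‖ ≤ δ) →
      (∀ m < p, ‖ι (y (m + 1)) - ι (y m) - (1 / p : ℂ) • w m (y m)‖ ≤ δ / p) →
      Real.exp Λ * (2 * δ + ε) ≤ η →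
      ‖ι (gosE Φ (fun m => stp σ p (a m)) p (y 0)) - ι (y p)‖ ≤ Real.exp Λ * (2 * δ + ε)) ∧
    (∀ x ∈ C, ∀ δ : ℝ, 0 ≤ δ → 2 * δ + ε ≤ η →
      (∀ m < p, ∀ x' : X, ‖ι x' - ι x‖ ≤ η → ‖∑ j, a m j • appr Φ ι σ j x'‖ ≤ δ) →
      ‖ι ((gosE Φ (fun m => stp σ p (a m)) p).symm x) - ι x‖ ≤ 2 * δ + ε)

/-- **C5 GoHol.** Holomorphic dependence on parameters.

PROOF. (1) Induction on the list, generalizing `x`: `z ↦ (Φ k)_{a(z)} (x z)` is a composition of `Flow.hol` with `z ↦ (a z, x z)`. The inverse: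
`goE_symm`, or directly by induction. (2) `Ψ z = gosE Φ (fun m => stp σ p (a m z)) q`; induction on `q`, using (1) with the list
`(List.finRange M).map fun k => (k, fun z => a m z (σ k) / p)`. -/
def S_GoHol : Prop := ∀ (V : Type) [NormedAddCommGroup V] [NormedSpace ℂ V]
  (X : CMan V) (M r n : ℕ) (Φ : Fin M → Flow X) (σ : Fin M → Fin r),
  (∀ (l : List (Fin M × (Cn n → ℂ))) (z₀ : Cn n) (x : Cn n → X),
    (∀ q ∈ l, DifferentiableAt ℂ q.2 z₀) →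
    MDifferentiableAt 𝓘(ℂ, Cn n) 𝓘(ℂ, V) x z₀ →
    MDifferentiableAt 𝓘(ℂ, Cn n) 𝓘(ℂ, V)
      (fun z => goE Φ (l.map fun q => (q.1, q.2 z)) (x z)) z₀ ∧
    MDifferentiableAt 𝓘(ℂ, Cn n) 𝓘(ℂ, V)
      (fun z => (goE Φ (l.map fun q => (q.1, q.2 z))).symm (x z)) z₀) ∧
  ∀ (p q : ℕ) (a : ℕ → Cn n → Fin r → ℂ), (∀ m j, Differentiable ℂ (fun z => a m z j)) →
    ∃ H : HFam X n, ∀ z, H.Ψ z = gosE Φ (fun m => stp σ p (a m z)) q

/-- **C6 Disc.** Difference quotients of a compact family of `C¹` curves.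

PROOF. `c'` is uniformly continuous on the compact set `Icc 0 1 ×ˢ P`: there is `κ > 0` with `‖c' τ z - c' τ' z‖ ≤ δ` for `|τ - τ'| ≤ κ`, `z ∈ P`. For
`p ≥ 1/κ` apply the mean value inequality (`Convex.norm_image_sub_le_of_norm_hasDerivWithin_le`) to
`τ ↦ c τ z - τ • c' (m/p) z` on `[m/p, (m+1)/p]`, whose derivative is bounded by `δ`. -/
def S_Disc : Prop := ∀ (n N : ℕ) (P : Set (Cn n)), IsCompact P → ∀ c c' : ℝ → Cn n → Cn N,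
  (∀ z ∈ P, ∀ τ ∈ Icc (0 : ℝ) 1, HasDerivWithinAt (fun s => c s z) (c' τ z) (Icc 0 1) τ) →
  ContinuousOn (fun q : ℝ × Cn n => c' q.1 q.2) (Icc (0 : ℝ) 1 ×ˢ P) → ∀ δ > (0 : ℝ),
  ∃ p₀ : ℕ, ∀ p : ℕ, p₀ ≤ p → 1 ≤ p → ∀ m < p, ∀ z ∈ P,
    ‖c ((m + 1 : ℕ) / p) z - c (m / p) z - (1 / p : ℂ) • c' (m / p) z‖ ≤ δ / p

/-- **C7 Apx.** Simultaneous approximation of finitely many fields.

PROOF. `Dens` for every `v j`: `M_j`, `φ_j : Fin M_j → Flow X`. Let `M = ∑ M_j`, and identify `Fin M` with `Σ j, Fin (M_j)`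
(`finSigmaFinEquiv` or any equivalence of finite types), `σ` the first component. -/
def S_Apx : Prop := ∀ (V : Type) [NormedAddCommGroup V] [NormedSpace ℂ V]
  (X : CMan V) (N : ℕ) (ι : X → Cn N), Dens X ι → ∀ (r : ℕ) (v : Fin r → X → Cn N),
  (∀ j, Tan X ι (v j)) → ∀ K : Set X, IsCompact K → ∀ ε > (0 : ℝ),
  ∃ (M : ℕ) (Φ : Fin M → Flow X) (σ : Fin M → Fin r), ∀ x ∈ K, ∀ j,
    ‖v j x - appr Φ ι σ j x‖ ≤ ε

/-! ## The push lemma -/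

/-- **D1 SepF.** A holomorphic function which is `1` at `u` and small near a ball and a finite set.

PROOF. If `‖ι u‖ > 0` let `ℓ` be a linear functional on `ℂᴺ` with `ℓ (ι u) = ‖ι u‖`, `‖ℓ‖ ≤ 1` (`exists_dual_vector`, norm of `Cn N`). For `t ∈ T` let `ℓ_t` be
a functional with `ℓ_t (ι u - ι t) ≠ 0` and `g x = ∏_{t ∈ T} ℓ_t (ι x - ι t) / ℓ_t (ι u - ι t)`. `h = (ℓ ∘ ι / ‖ι u‖)^m g`: `h u = 1`, `h = 0` on
`T`, and on `Bl ι ρ` `‖h‖ ≤ (ρ/‖ι u‖)^m sup ‖g‖ < 1/5` for large `m` (`ρ ≥ 0`; for `ρ < 0` the ball is empty; then take `m = 0`). The open set `{‖h‖ < 1/5}` contains the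
compact set `Bl ι ρ ∪ T`, so a neighbourhood `Nb` (`NbF`, hypothesis). -/
def S_SepF : Prop := ∀ (V : Type) [NormedAddCommGroup V] [NormedSpace ℂ V]
  (X : CMan V) (N : ℕ) (ι : X → Cn N), Emb X ι → ∀ (ρ : ℝ) (T : Finset X) (u : X), ρ < ‖ι u‖ →
  u ∉ T → ∃ h : X → ℂ, MDifferentiable 𝓘(ℂ, V) 𝓘(ℂ, ℂ) h ∧ h u = 1 ∧
    ∃ δ > (0 : ℝ), ∀ x ∈ Nb ι (Bl ι ρ ∪ T) δ, ‖h x‖ ≤ 1 / 5

/-- **D2 Cut.** Polynomials which are close to `0` near `0` and close to `1` near `1`.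

PROOF. Iterates of `s(w) = 3 w² - 2 w³`: `‖s(w)‖ ≤ ‖w‖² (3 + 2‖w‖) ≤ (17/25) ‖w‖` for `‖w‖ ≤ 1/5`, and `s(1 - w) = 1 - s(w)`. -/
def S_Cut : Prop := ∀ ε > (0 : ℝ), ∃ s : ℂ → ℂ, Differentiable ℂ s ∧
  (∀ w, ‖w‖ ≤ 1 / 5 → ‖s w‖ ≤ ε) ∧ ∀ w, ‖w - 1‖ ≤ 1 / 5 → ‖s w - 1‖ ≤ ε

/-- **D3 LocMove.** Local moves.  Hypotheses available: `S_Euler`, `S_Disc`, `S_Apx`, `S_Cut`,
`S_Lip`, `S_NbF`.

PROOF. Frames at `u₀`: `F`, `v_k`, `k : Fin N`. Let `e = chartAt V u₀`, `B` a ball around `e u₀` with closed ball in `e.target`, and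
`C₀ = e.symm '' closedBall`, compact, so small that `F ≠ 0` on `C₀` and `‖h - 1‖ ≤ 1/5` on `C₁ = Nb ι C₀ η₀`, `η₀ > 0` (`NbF`; `h u₀ = 1`, `h` is continuous).
`O = e.symm '' B`. Let `u, u' ∈ O` and `c(τ) = e.symm ((1 - τ) e u + τ e u') ∈ C₀` for `τ ∈ [0,1]`. `ι ∘ c` is `C¹` on a neighbourhood of `[0,1]` (`ι ∘ e.symm` is analytic),
`(ι ∘ c)'(τ) = dF ι (c τ) (tangent vector)` is tangent, so with `κ_k(τ) = (ι ∘ c)'(τ)_k / F(c τ)`, continuous, `‖κ_k‖ ≤ A` on `[0,1]`: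
`(ι ∘ c)'(τ) = ∑_k κ_k(τ) v_k(c τ)` (Frames). Claim `Mv` with `δ/2`. Let `ε > 0` be given. `η = min(η₀, δ/2)`, `C = C₀ ∪ Nb ι Q (δ/2)` compact,
`C' = Nb ι C η` compact, `B₁` a bound of all `‖v_k‖` and `Λ₁` a common Lipschitz constant of the `v_k` on `C'` (`Lip`), `Λ = N A Λ₁`. Choose `δ₁ > 0` with
`exp Λ (2 δ₁ + δ₁) ≤ min(ε, η)`. `Cut` gives `s` with `N A B₁ ‖s w‖ ≤ δ₁/2` for `‖w‖ ≤ 1/5` and `N A B₁ ‖s w - 1‖ ≤ δ₁/2` for `‖w - 1‖ ≤ 1/5`. The functions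
`v'_k = s(h) v_k` are `Tan`. `Apx` on `C'` with error `ε'`, `N A ε' ≤ δ₁/2`: `M, Φ, σ` (`r = N`). `Disc` (with `n = 0` or constant in `z`) for `ι ∘ c`,
`δ₁`; `Euler` with `C`, `A`, `η`, `ε = δ₁`; `p` large, `a m k = κ_k(m/p)` for `m < p` (and `0` for `m ≥ p`), `α = gosE Φ (fun m => stp σ p (a m)) p`. (i) `y m = c(m/p)`,
`w m x = ∑_k κ_k(m/p) v_k(x)`: `x` with `‖ι x - ι (y m)‖ ≤ η` is in `C₁ ∩ C'`, so `‖∑ a_k appr_k x - w m x‖ ≤ N A (ε' + B₁ ‖s(h x) - 1‖) ≤ δ₁`; hence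
`‖ι (α u) - ι u'‖ ≤ exp Λ (3 δ₁) ≤ ε`. (ii) For `x ∈ Nb ι Q (δ/2)`: `y m = x`, `w = 0`, `Λ = 0`: points `x'` with
`‖ι x' - ι x‖ ≤ η` are in `Nb ι Q δ`, so `‖∑ a_k appr_k x'‖ ≤ N A (ε' + B₁ ‖s(h x')‖) ≤ δ₁`, so `‖ι (α x) - ι x‖ ≤ 3 δ₁ ≤ ε`; the same for
`α.symm` by the second part of `Euler`. -/
def S_LocMove : Prop := ∀ (V : Type) [NormedAddCommGroup V] [NormedSpace ℂ V]
  [FiniteDimensional ℂ V] (X : CMan V) (N : ℕ) (ι : X → Cn N), Emb X ι → Dens X ι →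
  Frames X ι → ∀ (Q : Set X) (u₀ : X) (h : X → ℂ) (δ : ℝ), IsCompact Q →
  MDifferentiable 𝓘(ℂ, V) 𝓘(ℂ, ℂ) h → h u₀ = 1 → 0 < δ → (∀ x ∈ Nb ι Q δ, ‖h x‖ ≤ 1 / 5) →
  ∃ O ∈ 𝓝 u₀, ∀ u ∈ O, ∀ u' ∈ O, Mv X ι Q u u'

/-- **D4 MvTrans.** Transitivity.

PROOF. `δ₁`, `δ₂` the constants of the two relations, `δ = min(δ₁, δ₂)/2`. Given `ε > 0`, let `ε₂ = min(ε/2, δ)`, choose `β` for `(u', u'')` with `ε₂`. `β` is continuous at `u'`: there is `ε₁ > 0`,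
`ε₁ ≤ ε₂`, with `‖ι (β x) - ι (β u')‖ ≤ ε/2` if `‖ι x - ι u'‖ ≤ ε₁` (`ι` is an embedding). Choose `α` for `(u, u')` with `ε₁`. The composition `α.trans β`
works: for `x ∈ Nb ι Q δ`, `α x ∈ Nb ι Q δ₂`, so `‖ι (β (α x)) - ι x‖ ≤ ε₁ + ε₂ ≤ ε`; `β.symm x ∈ Nb ι Q δ₁`, so the same for the
inverse. -/
def S_MvTrans : Prop := ∀ (V : Type) [NormedAddCommGroup V] [NormedSpace ℂ V]
  (X : CMan V) (N : ℕ) (ι : X → Cn N), Emb X ι → ∀ (Q : Set X) (u u' u'' : X),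
  Mv X ι Q u u' → Mv X ι Q u' u'' → Mv X ι Q u u''

/-- **D5 NoCpt.** A Stein manifold of positive dimension has no nonempty compact open subset.

PROOF. Suppose `A` is compact, open, nonempty. By induction on `k ≤ N` there is a nonempty compact open `A_k ⊆ A` on which the first `k` coordinates of `ι` are constant:
let `x*` be a maximum point of `‖ι_k‖` on `A_k`, `A_{k+1} = {x ∈ A_k | ι_k x = ι_k x*}`: compact; open, because near a point `x` of it `‖ι_k‖` has a local maximum at `x`, so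
`ι_k` is constant near `x` (`Complex.eventually_eq_of_isLocalMax_norm` in a chart). On `A_N` `ι` is constant, so `A_N` is one
point, and `X` has an isolated point; but the charts map to `V`, which has no isolated points if `0 < finrank`. -/
def S_NoCpt : Prop := ∀ (V : Type) [NormedAddCommGroup V] [NormedSpace ℂ V]
  [FiniteDimensional ℂ V] (X : CMan V) (N : ℕ) (ι : X → Cn N), Emb X ι →
  0 < Module.finrank ℂ V → ∀ A : Set X, IsCompact A → IsOpen A → A = ∅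

/-- **D6 Push1.** One point can be pushed to infinity.  Hypotheses available: `S_SepF`,
`S_LocMove`, `S_MvTrans`, `S_NoCpt`, `S_NbF`.

PROOF. `Q = Bl ι ρ ∪ T`, compact, `q ∉ Q`. Let `U = {u | u ∉ Q ∧ Mv X ι Q q u}`; `q ∈ U` (identity). `U` is open and closed in `X \ Q`: for `u₀ ∉ Q` let
`h` be the function of `SepF`, `O` the neighbourhood of `LocMove`; if `O` meets `U` then `O \ Q ⊆ U` by `MvTrans`. So `closure U ⊆ U ∪ Q`. Suppose that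
`‖ι u‖ ≤ R + ε` for all `u ∈ U`. Let `h`, `δ` be from `SepF` for `u = q`. `closure U` is compact (in `Bl ι (R + ε)`), let `x*` be a maximum point of `‖h‖` on it;
`‖h x*‖ ≥ ‖h q‖ = 1`, so `x* ∉ Q`, `x* ∈ U`. The set `A = {x ∈ closure U | h x = h x*}` is compact, nonempty, disjoint from `Q`, so contained in the open set `U`, and it is
open: near `x ∈ A` the function `‖h‖` has a local maximum at `x`, so `h` is constant near `x` (`Complex.eventually_eq_of_isLocalMax_norm` in a chart). This contradicts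
`NoCpt`. So there is `u ∈ U` with `‖ι u‖ > R + ε`, and `Mv` for `(q, u)` with `ε/2` gives `α` (`Q ⊆ Nb ι Q δ`). -/
def S_Push1 : Prop := ∀ (V : Type) [NormedAddCommGroup V] [NormedSpace ℂ V]
  [FiniteDimensional ℂ V] (X : CMan V) (N : ℕ) (ι : X → Cn N), Emb X ι → Dens X ι →
  Frames X ι → 0 < Module.finrank ℂ V → ∀ (ρ R ε : ℝ) (T : Finset X) (q : X), 0 < ε →
  ρ < ‖ι q‖ → q ∉ T → ∃ α : X ≃ X, IsAut X α ∧ Near ι α (Bl ι ρ ∪ T) ε ∧ R < ‖ι (α q)‖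

/-- **D7 Push.** The push lemma for finite sets.  Hypotheses available: `S_Push1`.

PROOF. Induction on `S`, for all `ρ, R, ε`. `S = insert q S'`, `q ∉ S'`. Let `ρ < ρ'' < ρ' < ‖ι s‖` for all `s ∈ S`, and `ε₁ > 0` small:
`ε₁ ≤ ε/2`, `ε₁ ≤ 1`, `ρ + ε₁ < ρ''`, `ρ'' + ε₁ < ρ'`. Induction hypothesis for `S'`, `ρ'`, `R + 1`, `ε₁`: `α`. Then `‖ι (α q)‖ > ρ''`: otherwise
`α q ∈ Bl ι ρ'` and `‖ι q - ι (α q)‖ ≤ ε₁` (`α.symm` near), so `‖ι q‖ ≤ ρ'' + ε₁ < ρ'`. `Push1` for `ρ''`, `T = S'.image α`, `α q ∉ T`, `R`, `ε₁`: `β`. The automorphism `α.trans β`: for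
`s ∈ S'` `‖ι (β (α s))‖ ≥ ‖ι (α s)‖ - ε₁ > R`, `‖ι (β (α q))‖ > R`. For `x ∈ Bl ι ρ`: `α x ∈ Bl ι ρ''`, so `‖ι (β (α x)) - ι x‖ ≤ 2 ε₁`;
`β.symm x ∈ Bl ι ρ'`, so `‖ι (α.symm (β.symm x)) - ι x‖ ≤ 2 ε₁`. -/
def S_Push : Prop := ∀ (V : Type) [NormedAddCommGroup V] [NormedSpace ℂ V]
  [FiniteDimensional ℂ V] (X : CMan V) (N : ℕ) (ι : X → Cn N), Emb X ι → Dens X ι →
  Frames X ι → 0 < Module.finrank ℂ V → PushP X ι

/-- **E1 SparseSub.** Infinite closed discrete sets contain infinite sparse subsets.  Hypothesis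
available: `S_NbF`.

PROOF. For every finite `S ⊆ X` and `j, l, r : ℕ` choose (`PushP`, for the finite set `{s ∈ S | j < ‖ι s‖}`) an automorphism `a(S, j, l, r)`, `Near` on `Bl ι j` with `1/(r+1)`,
`‖ι (a s)‖ > l` for `s ∈ S`, `‖ι s‖ > j`. Define recursively finite sets `S_i ⊆ Z` and compact sets `D_i ⊆ X`: `S_0 = ∅`, `D_0 = Bl ι 0`; choose `p_i ∈ Z \ D_i` (`Z` is infinite, closed and discrete, so not contained in
a compact set: `IsCompact.finite` for `Z ∩ D_i`), `S_{i+1} = insert p_i S_i` and `D_{i+1} = D_i ∪ Bl ι (i+1) ∪ ⋃_{j,l,r ≤ i+1} a(S_{i+1}, j, l, r)⁻¹ (Bl ι l)` (preimages of compact sets under homeomorphisms).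
`Z₁ = ⋃ S_i`. It is infinite because `‖ι p_i‖ > i`. Sparse: given `j`, `R`, `ε`, let `l ≥ R`, `1/(r+1) ≤ ε`, `i = max(j,l,r,1)`, `α = a(S_i, j, l, r)`. For `s ∈ Z₁` with `‖ι s‖ > j`: if
`s ∈ S_i`, then `‖ι (α s)‖ > l` by the choice of `α`; otherwise `s = p_k` with `k ≥ i`, `p_k ∉ D_k ⊇ D_i`, so `‖ι (α s)‖ > l`. -/
def S_SparseSub : Prop := ∀ (V : Type) [NormedAddCommGroup V] [NormedSpace ℂ V]
  (X : CMan V) (N : ℕ) (ι : X → Cn N), Emb X ι → PushP X ι → ∀ Z : Set X, IsClosed Z →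
  DiscreteTopology Z → Z.Infinite → ∃ Z₁ ⊆ Z, Z₁.Infinite ∧ Sparse X ι Z₁

/-- **E2 TameRed.** Tame sets are equivalent to their infinite subsets.

PROOF. `Z` is countable (a discrete subspace of a second countable space) and infinite, `Z₁ ⊆ Z` is countable and infinite; let `g : Z ≃ Z₁` be a bijection (`Denumerable`), `f z = ⟨g z, _⟩ : Z`, injective with
image `Z₁`; `F` from `IsTame.extend`. -/
def S_TameRed : Prop := ∀ (V : Type) [NormedAddCommGroup V] [NormedSpace ℂ V]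
  (X : CMan V) (Z Z₁ : Set X), IsTame X Z → Z₁ ⊆ Z → Z₁.Infinite →
  ∃ F : X ≃ X, IsAut X F ∧ F '' Z = Z₁

end Pool.Agent.Lib.MP_c2a04f_an
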