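import Mathlib
import Pool.Agent.Lib.MP_c2a04f_an.Core

/-!
# MP_c2a04f_an, part C: approximation on convex compact sets, avoiding finite sets, avoiding sparse
sets, the Oka property.  Statements and complete paper proofs.
-/

set_option autoImplicit false

open scoped Manifold ContDiff Topology
open Set Filter Metric

namespace Pool.Agent.Lib.MP_c2a04f_an

open Pool.Agent.Lib.MP_55bc5f_an

/-! ## Approximation on convex compact sets -/

/-- **F0 ConvSep.** A plurisubharmonic function (a sum of squares of absolute values of exponentials)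
which is small on a convex compact set and large on a disjoint compact set.

PROOF. For every `z ∈ G` there are (Hahn-Banach, `geometric_hahn_banach_compact_closed`-like, for the compact convex set `K` and the point `z`; real functionals on
`ℂⁿ` are real parts of complex ones) a complex linear functional `ℓ_z` and `c_z ∈ ℝ` with `Re ℓ_z + c_z < 0` on `K` and
`Re ℓ_z(z) + c_z > 0`. Finitely many of the open sets `{Re ℓ_z + c_z > κ_z}`, `κ_z > 0` small, cover `G`, say for `j : Fin q`; on `K` all `Re ℓ_j + c_j ≤ -κ`, on `G` some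
`Re ℓ_j + c_j ≥ κ`, with a common `κ > 0`. Multiply `ℓ_j, c_j` by a large `t > 0` and halve: `‖exp (t(ℓ_j + c_j)/2)‖² = exp (t Re(ℓ_j) + t c_j)`, at most `e^{-tκ}` on `K`,
so the sum is `≤ 1/2` on `K` and `≥ 2` on `G`. -/
def S_ConvSep : Prop := ∀ (n : ℕ) (K G : Set (Cn n)), IsCompact K → Convex ℝ K → IsCompact G →
  Disjoint K G → ∃ (q : ℕ) (ℓ : Fin q → (Cn n →L[ℂ] ℂ)) (c : Fin q → ℂ),
    (∀ z ∈ K, ∑ j, ‖Complex.exp (ℓ j z + c j)‖ ^ 2 ≤ 1 / 2) ∧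
    ∀ z ∈ G, 2 ≤ ∑ j, ‖Complex.exp (ℓ j z + c j)‖ ^ 2

/-- **F1a L2Cn.** Hörmander's theorem on `ℂⁿ` for the weights `m ∑ ‖exp (ℓ_j z + c_j)‖² + 2 |z|²` and
exact data.  Hypotheses available (from `MP_55bc5f_an`, `Full/SpecL2.lean`, `Full/SpecEt.lean`; all proved, see `Full/Final.lean`): `S_L2`, `S_LevComp`, `S_Exh`, `S_Meas`, `S_PullFacts`.

PROOF. `S_L2` for the domain `X : Dom n` with carrier `ℂⁿ`, `π = id` (a homeomorphism, so a local homeomorphism), `μ = volume`: `Pull X volume` is trivial (the measurable space of a `Dom` is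
`borel _`, which is the one of `ℂⁿ`). `HolAt id h x` for all `x` is `Differentiable ℂ h`, `Sm X u` is `ContDiff ℝ ∞ u`, `dR X u x = fderiv ℝ u x` (`dR_eq` with `g = u`), so `wdb`, `Lev` are the usual expressions. Exhaustion
function `s z = nsq z`: smooth, nonnegative, `Lev s w = nsq w` (`LevComp`, a sum of squares of the coordinates), gradient bounded on the bounded sets `{s ≤ a}`; `Cut`: one smooth function `κ` with compact support, values in `[0,1]`, which is `1` on a neighbourhood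
of `{s ≤ c + 1}` (`exists_contDiff_...`/`ContDiffBump` in the maximum norm or a function of `nsq z`), used for all `ν`. The weight is smooth and its Levi form is `≥ 2 nsq w` by `LevComp`
(`Lev ‖h‖² = ‖h'(w)‖² ≥ 0`). -/
def S_L2Cn : Prop := ∀ (n : ℕ), 0 < n → ∀ (q : ℕ) (ℓ : Fin q → (Cn n →L[ℂ] ℂ)) (c : Fin q → ℂ)
  (m : ℝ), 0 ≤ m → ∀ χ : Cn n → ℂ, ContDiff ℝ ∞ χ → HasCompactSupport χ →
  ∃ h : Cn n → ℂ, Differentiable ℂ h ∧
    MeasureTheory.Integrable (fun z => ‖χ z - h z‖ ^ 2 *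
      Real.exp (-(m * (∑ j, ‖Complex.exp (ℓ j z + c j)‖ ^ 2) + 2 * nsq z))) ∧
    ∫ z, ‖χ z - h z‖ ^ 2 *
        Real.exp (-(m * (∑ j, ‖Complex.exp (ℓ j z + c j)‖ ^ 2) + 2 * nsq z)) ≤
      ∫ z, (∑ i : Fin n, ‖(1 / 2 : ℂ) * (fderiv ℝ χ z (Pi.single i 1) +
          Complex.I * fderiv ℝ χ z (Pi.single i Complex.I))‖ ^ 2) *
        Real.exp (-(m * (∑ j, ‖Complex.exp (ℓ j z + c j)‖ ^ 2) + 2 * nsq z))

/-- **F1 Runge.** Holomorphic functions near a convex compact set are uniform limits of entire functions.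
Hypotheses available: `S_ConvSep`, `S_L2Cn`.

PROOF. Let `K ⊆ U` open, `φ` holomorphic on `U`. Choose `ϱ > 0` with
`K₃ = cthickening (3ϱ) K ⊆ U`; `K₁ = cthickening ϱ K` (convex compact), and a smooth `β : ℂⁿ → ℝ` with compact support, `β = 1` near `cthickening (2ϱ) K`, `tsupport β ⊆ K₃`, and put `χ = β φ` (`0` off `U`),
smooth with compact support. `∂̄χ = φ ∂̄β` is supported in a compact set `G ⊆ K₃ \ K₁` (disjoint from `K₁`). `ConvSep` for `K₁, G`: `ψ z = ∑ ‖exp (ℓ_j z + c_j)‖²`, `ψ ≤ 1/2` on `K₁`, `ψ ≥ 2` on `G`.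
Let `φ_m = m ψ + 2 nsq z`. `L2Cn`: entire `h_m` with
`∫ ‖χ - h_m‖² e^{-φ_m} ≤ ∫ ∑ ‖∂̄_j χ‖² e^{-φ_m} ≤ C e^{-2m}`. On `K₁` `e^{-φ_m} ≥ c e^{-m/2}`, `χ = φ`; so `∫_{K₁} ‖φ - h_m‖² ≤ (C/c) e^{-3m/2} → 0`. For `z ∈ K` the mean value property
on the ball of radius `ϱ` around `z` (`‖g z‖² vol(ball) ≤ ∫_ball ‖g‖²`: `S_MeanRad` of `MP_55bc5f_an`, proved in `Full/L2/MeanRad.lean`, with `q = 1`, translated) gives
`sup_K ‖φ - h_m‖² ≤ C' ∫_{K₁} ‖φ - h_m‖²`. (`n = 0` is trivial: constants.) -/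
def S_Runge : Prop := ∀ (n : ℕ) (K : Set (Cn n)) (φ : Cn n → ℂ), IsCompact K → Convex ℝ K →
  (∀ z ∈ K, ∀ᶠ w in 𝓝 z, DifferentiableAt ℂ φ w) → ∀ ε > (0 : ℝ),
  ∃ g : Cn n → ℂ, Differentiable ℂ g ∧ ∀ z ∈ K, ‖g z - φ z‖ ≤ ε

/-- **F2 Taylor.** Entire functions are locally uniform limits of polynomials.

PROOF. `g` is analytic (Osgood); let `c_k z = (1/k!) • iteratedFDeriv ℂ k g 0 (fun _ => z)`; expanding `z = ∑ z_i e_i` by multilinearity
(`ContinuousMultilinearMap.map_sum`/`map_sum_finset`) `c_k z` is the value at `z` of a polynomial. For fixed `z` the function `ζ ↦ g (ζ z)` is entire, its Taylor coefficients at `0` are `c_k z`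
(`Osgood.iteratedDeriv_line` or the chain rule for `iteratedDeriv`), so `g z = ∑_k c_k z`, and by Cauchy's estimates on the circle `|ζ| = 2`: `‖c_k z‖ ≤ 2^{-k} sup_{‖w‖ ≤ 2 R} ‖g w‖` for
`‖z‖ ≤ R`. So the finite sums converge uniformly on `‖z‖ ≤ R`. -/
def S_Taylor : Prop := ∀ (n : ℕ) (g : Cn n → ℂ), Differentiable ℂ g → ∀ K : Set (Cn n),
  IsCompact K → ∀ ε > (0 : ℝ), ∃ P : MvPolynomial (Fin n) ℂ, ∀ z ∈ K,
    ‖g z - MvPolynomial.eval z P‖ ≤ ε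

/-- **F3 Null.** A Nullstellensatz on convex compact sets.  Hypotheses available: `S_Runge`,
`S_Taylor`.

PROOF. Let `A ⊆ C(K, ℂ)` be the closure of the subalgebra of (restrictions of) polynomials (`Algebra.adjoin ℂ` of the coordinates, or the range of the evaluation homomorphism from `MvPolynomial`;
`Subalgebra.topologicalClosure`), a commutative complex Banach algebra. The restrictions of the `φ_j` are in `A` (`Runge`, `Taylor`). Let `J` be the ideal of `A` generated by them.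
If `J ≠ ⊤` it is contained in a maximal ideal, the kernel of a character `χ` (`Ideal.toCharacterSpace`, Gelfand-Mazur), which is continuous of norm at most `1`. Let
`a_i = χ(z_i)`, `a = (a_i) ∈ ℂⁿ`. Then `χ(P) = P(a)` for polynomials. Claim `a ∈ K`: otherwise there is a complex linear `ℓ` with
`Re ℓ(a) > sup_K Re ℓ` (Hahn-Banach); `E = exp(ℓ|_K) ∈ A` (exponential in the Banach algebra `A`, evaluation is continuous so `E(z) = e^{ℓ(z)}`), `χ(E) = e^{χ(ℓ)} = e^{ℓ(a)}`, and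
`‖χ(E)‖ ≤ ‖E‖ = sup_K e^{Re ℓ} < e^{Re ℓ(a)}`, a contradiction. By continuity `χ(f) = f(a)` for all `f ∈ A`, so `φ_j(a) = 0` for all `j`: contradiction. So `∑ g⁰_j φ_j = 1` with
`g⁰_j ∈ A`; `B = 1 + max ‖g⁰_j‖`, and for `δ > 0` approximate the `g⁰_j` by polynomials up to `min(1, δ/(1 + ∑ ‖φ_j‖_K))`. -/
def S_Null : Prop := ∀ (n : ℕ) (K : Set (Cn n)), IsCompact K → Convex ℝ K → K.Nonempty →
  ∀ (r : ℕ) (φ : Fin r → Cn n → ℂ), (∀ j, ∀ z ∈ K, ∀ᶠ w in 𝓝 z, DifferentiableAt ℂ (φ j) w) →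
  (∀ z ∈ K, ∃ j, φ j z ≠ 0) → ∃ B : ℝ, 0 ≤ B ∧ ∀ δ > (0 : ℝ), ∃ g : Fin r → Cn n → ℂ,
    (∀ j, Differentiable ℂ (g j)) ∧ (∀ j, ∀ z ∈ K, ‖g j z‖ ≤ B) ∧
    ∀ z ∈ K, ‖(∑ j, g j z * φ j z) - 1‖ ≤ δ

/-! ## Avoiding finite sets -/

/-- **F4 FieldsS.** Fields vanishing on a finite set.

PROOF. For `e ∈ C` let `F, v` be from `Frames`, and `g_e x = ∏_{s ∈ S} ℓ_s (ι x - ι s) / ℓ_s (ι e - ι s)` with linear functionals `ℓ_s` with `ℓ_s (ι e - ι s) ≠ 0` (`e ∉ S`, `ι` is injective). The functions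
`g_e F`, `g_e v_k` have the required properties, and `g_e F ≠ 0` near `e`; `C` is covered by finitely many of the open sets `{g_e F ≠ 0}`. -/
def S_FieldsS : Prop := ∀ (V : Type) [NormedAddCommGroup V] [NormedSpace ℂ V]
  (X : CMan V) (N : ℕ) (ι : X → Cn N), Emb X ι → Frames X ι → ∀ (S : Finset X) (C : Set X),
  IsCompact C → Disjoint C (S : Set X) → ∃ (r : ℕ) (F : Fin r → X → ℂ)
    (v : Fin r → Fin N → X → Cn N), (∀ j, MDifferentiable 𝓘(ℂ, V) 𝓘(ℂ, ℂ) (F j)) ∧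
    (∀ j k, Tan X ι (v j k)) ∧ (∀ j k, ∀ s ∈ S, v j k s = 0) ∧ (∀ x ∈ C, ∃ j, F j x ≠ 0) ∧
    ∀ (j : Fin r) (x : X) (u : TangentSpace 𝓘(ℂ, V) x),
      F j x • dF ι x u = ∑ k, dF ι x u k • v j k x

/-- **F5 Coef.** The derivative of `y(τ, z) = f (z₀ + τ (z - z₀))` with respect to `τ` as a combination of
global fields vanishing on `S`, with coefficients which are entire in `z`.  Hypotheses available: `S_FieldsS`, `S_Null`, `S_Runge`.

PROOF. Choose `ϱ > 0` such that `K₁ = cthickening ϱ K` (compact, convex) satisfies `HolN X f K₁`, `f(K₁) ∩ S = ∅`. `FieldsS` for `C = f '' K₁`: `F_j`, `v_jk`; `φ_j = F_j ∘ f`. `Null` for `K₁`: `B`.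
`D₀` a bound of `‖D(ι∘f)(ζ)(z - z₀)‖` and of `‖z - z₀‖` for `ζ, z ∈ K`; `A = B (D₀ + 1)`; the index set `Fin r × Fin N` is identified with `Fin (r * N)` (`finProdFinEquiv`). Given `δ > 0` let
`δ₂ > 0` be small, `g_j` from `Null` with `δ₂`, and `P : ℂⁿ → ℂᴺ` entire with `‖P - ι ∘ f‖ ≤ δ₂` on `K₁` (`Runge` for each coordinate). By Cauchy's estimate (`Osgood.norm_fderiv_le` on balls of radius `ϱ` around `ζ ∈ K`, contained in
`K₁`) `‖DP(ζ) w - D(ι∘f)(ζ) w‖ ≤ (δ₂/ϱ) ‖w‖`. Define, with `ζ = z₀ + τ (z - z₀)`, `a_jk(τ, z) = g_j(ζ) (DP(ζ)(z - z₀))_k`: entire in `z`, continuous in `(τ, z)`, bounded by `B (D₀ + δ₂ D₀/ϱ) ≤ A` for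
`τ ∈ [0,1]`, `z ∈ K` (then `ζ ∈ K`). With `u = D(ι∘f)(ζ)(z - z₀)`, a tangent vector at `f(ζ)` (`u = dF ι (f ζ) (mfderiv f ζ (z - z₀))`): `∑_jk g_j(ζ) u_k v_jk(f ζ) = (∑_j g_j(ζ) φ_j(ζ)) u`, which differs from `u` by at most
`δ₂ D₀`; replacing `u_k` by `(DP(ζ)(z-z₀))_k` changes the sum by at most `r N B (δ₂/ϱ) D₀ B₁`, `B₁` a bound of the `‖v_jk‖` on `f '' K`. -/
def S_Coef : Prop := ∀ (V : Type) [NormedAddCommGroup V] [NormedSpace ℂ V]
  [FiniteDimensional ℂ V] (X : CMan V) (N : ℕ) (ι : X → Cn N), Emb X ι → Frames X ι →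
  ∀ (n : ℕ) (K : Set (Cn n)) (z₀ : Cn n) (f : Cn n → X) (S : Finset X), IsCompact K →
  Convex ℝ K → z₀ ∈ K → HolN X f K → (∀ z ∈ K, f z ∉ S) →
  ∃ (r : ℕ) (v : Fin r → X → Cn N) (A : ℝ), 0 ≤ A ∧ (∀ j, Tan X ι (v j)) ∧
    (∀ j, ∀ s ∈ S, v j s = 0) ∧ ∀ δ > (0 : ℝ), ∃ a : ℝ → Cn n → Fin r → ℂ,
      (∀ τ j, Differentiable ℂ (fun z => a τ z j)) ∧
      Continuous (fun q : ℝ × Cn n => a q.1 q.2) ∧
      (∀ τ ∈ Icc (0 : ℝ) 1, ∀ z ∈ K, ∀ j, ‖a τ z j‖ ≤ A) ∧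
      ∀ τ ∈ Icc (0 : ℝ) 1, ∀ z ∈ K,
        ‖fderiv ℂ (fun w => ι (f w)) (z₀ + (τ : ℂ) • (z - z₀)) (z - z₀) -
          ∑ j, a τ z j • v j (f (z₀ + (τ : ℂ) • (z - z₀)))‖ ≤ δ

/-- **F6 FA1.** A holomorphic family `Ψ_z` of automorphisms with `Ψ_z (f z₀) ≈ f z` on `K` and
`Ψ_z s ≈ s` for `z ∈ L`, `s ∈ S`.  Hypotheses available: `S_Coef`, `S_Apx`, `S_Euler`, `S_Disc`, `S_GoHol`, `S_Lip`, `S_NbF`.

PROOF. `Coef`: `r, v, A_K`. WLOG `ε ≤ 1`. `C = f '' K ∪ S` compact, `C' = Nb ι C 1`; `Λ₁` a common Lipschitz constant of the `v_j` on `C'` (`Lip`), `Λ_K = r A_K Λ₁`. Choose `δ > 0` with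
`exp Λ_K (2 (2δ) + δ) ≤ ε`; `a` from `Coef` for `δ`; `A_L ≥ A_K` a bound of `‖a τ z j‖` for `τ ∈ [0,1]`, `z ∈ L`; `Λ_L = r A_L Λ₁`. Choose `δ₃ > 0` with `δ₃ ≤ δ`, `exp Λ_L (2 δ₃ + δ₃) ≤ ε`, and `Φ, σ` from `Apx` on `C'` with
error `δ₃ / (r A_L + 1)`; so `‖∑_j a_j appr_j x - ∑_j a_j v_j x‖ ≤ δ₃` for `x ∈ C'`, `‖a_j‖ ≤ A_L`. `Euler` with `C`, `A = A_L`, `η = 1`, `ε = δ₃`; `Disc` for
`c τ z = ι (f (z₀ + τ (z - z₀)))`, `P = K`, `c' τ z = D(ι∘f)(z₀ + τ(z-z₀))(z - z₀)`, `δ`. Take `p` large and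
`Ψ_z = gosE Φ (fun m => stp σ p (a (m/p) z)) p` for `m < p` (for `m ≥ p` any coefficients with the bound, e.g. `a ((min m p)/p) z`), a holomorphic family by `GoHol`.
(K) `z ∈ K`: `y m = f (z₀ + (m/p)(z - z₀))`, `w m x = ∑_j a_j(m/p, z) v_j(x)`, Lipschitz constant `Λ_K` at the points `y m`, defect `2δ`: `‖ι y_{m+1} - ι y_m - (1/p) w_m(y_m)‖ ≤ δ/p + δ/p`. So
`‖ι (Ψ_z (f z₀)) - ι (f z)‖ ≤ exp Λ_K (4δ + δ₃) ≤ ε`. (L) `z ∈ L`, `s ∈ S`: `y m = s`, the same `w m`, `w m s = 0`, Lipschitz constant `Λ_L`, defect `δ₃`: `‖ι (Ψ_z s) - ι s‖ ≤ exp Λ_L (3 δ₃) ≤ ε`. -/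
def S_FA1 : Prop := ∀ (V : Type) [NormedAddCommGroup V] [NormedSpace ℂ V]
  [FiniteDimensional ℂ V] (X : CMan V) (N : ℕ) (ι : X → Cn N), Emb X ι → Dens X ι →
  Frames X ι → ∀ (n : ℕ) (K L : Set (Cn n)) (z₀ : Cn n) (f : Cn n → X) (S : Finset X),
  IsCompact K → Convex ℝ K → z₀ ∈ K → IsCompact L → K ⊆ L → HolN X f K → (∀ z ∈ K, f z ∉ S) →
  ∀ ε > (0 : ℝ), ∃ H : HFam X n, (∀ z ∈ K, ‖ι (H.Ψ z (f z₀)) - ι (f z)‖ ≤ ε) ∧
    ∀ z ∈ L, ∀ s ∈ S, ‖ι (H.Ψ z s) - ι s‖ ≤ ε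

/-- **F7 Corr.** Correction at finitely many points by flows.  Hypotheses available: `S_Rho`, `S_Vel`, `S_GoHol`.

PROOF. For a flow `φ` let `v_φ` be its field (`Vel`). The vectors `(v_φ (s_i))_i ∈ ∏_i T_{s_i} X = (Fin r → V)`, `φ : Flow X`, span this space: the span is a (closed) subspace, and it is dense: given
`(u_i)_i`, there is a `Tan` field `b` with `b (s_i) = dF ι (s_i) u_i` (sum over `i` of `g_i ∑_k (dF ι (s_i) u_i)_k / F(s_i) • v_k` with the frame at `s_i`, `g_i` a product of affine functions of `ι` with `g_i (s_i) = 1`,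
`g_i (s_j) = 0`), `Dens` on the finite set `{s_i}` gives flows with `∑_k dF ι (s_i) (v_{φ_k} (s_i)) = ∑ φ_k.vel ι (s_i)` close to `dF ι (s_i) u_i`, and `dF ι (s_i)` is an injective linear map of finite dimensional
spaces, so `∑_k v_{φ_k}(s_i)` is close to `u_i`. Choose flows `Φ_k`, `k : Fin M`, such that the vectors `(v_{Φ_k}(s_i))_i` form a basis (`exists_linearIndependent`, `Basis`). Let
`Θ_t = goE Φ ((List.finRange M).map fun k => (k, t k))`, `e_i = chartAt V (s_i)`, `Q(t) = (e_i (Θ_t (s_i)))_i`, holomorphic near `t = 0 ∈ ℂᴹ` (`GoHol` with `n = M`), with derivative at `0`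
`t ↦ (∑_k t_k e_i'(v_{Φ_k}(s_i)))_i` (the derivative in the direction of the `k`-th coordinate at `0`: `Θ` with only `t_k ≠ 0` is the flow `Φ_k`), a linear isomorphism `ℂᴹ → (Fin r → V)`. The inverse function theorem
(analytic functions: `ContDiffAt.toOpenPartialHomeomorph`, see `MP_55bc5f_an/Full/EtA.lean` `et_mk`) gives a local inverse `J`, differentiable near `Q(0)`, `J (Q 0) = 0`, `Q (J x) = x`. With `ρ_i` from `Rho` at `s_i`,
`T y = J ((e_i (ρ_i (y_i)))_i)` for `y` near `(ι s_i)_i`, holomorphic. For `x` near `s`: `T (ι x) = t` small and `e_i (Θ_t (s_i)) = e_i (x_i)`, where both points are in the source of `e_i`, so they are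
equal. -/
def S_Corr : Prop := ∀ (V : Type) [NormedAddCommGroup V] [NormedSpace ℂ V]
  [FiniteDimensional ℂ V] (X : CMan V) (N : ℕ) (ι : X → Cn N), Emb X ι → Dens X ι →
  Frames X ι → ∀ (r : ℕ) (s : Fin r → X), Function.Injective s →
  ∃ (M : ℕ) (Φ : Fin M → Flow X) (η : ℝ) (T : (Fin r → Cn N) → Fin M → ℂ), 0 < η ∧
    DifferentiableOn ℂ T {y | ∀ i, ‖y i - ι (s i)‖ < η} ∧ T (fun i => ι (s i)) = 0 ∧
    ∀ x : Fin r → X, (∀ i, ‖ι (x i) - ι (s i)‖ < η) → ∀ i,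
      goE Φ ((List.finRange M).map fun k => (k, T (fun i => ι (x i)) k)) (s i) = x i

/-- **F8 AvoidFin.** Avoiding finite sets.  Hypotheses available: `S_FA1`, `S_Corr`, `S_GoHol`, `S_MDiff`, `S_NbF`.

PROOF. `S = {s_i}`, `s : Fin r → X` injective. `z₀ ∈ K`, `x₀ = f z₀`, `x₀ ∉ S`. `Corr`: `M, Φ, η, T`, `Θ_t = goE Φ (...)`. The map `(t, x) ↦ Θ_t⁻¹ x` is continuous, `Θ_0 = id`; so there is `κ > 0` with
`‖ι (Θ_t⁻¹ x) - ι x‖ ≤ ε/2` for `‖t‖ ≤ κ` and `x ∈ Nb ι (f '' K) 1` (compact). `T` is continuous at `(ι s_i)_i` with the value `0`: let `ε₁ > 0`, `ε₁ < η`, `ε₁ ≤ min(1, ε/2)`, with `‖T y‖ ≤ κ` if all `‖y_i - ι s_i‖ ≤ ε₁`. `L' = cthickening 1 L`.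
`FA1` for `K ⊆ L'`, `ε₁`: `H`. For `z ∈ L'` let `t(z) = T ((ι (H.Ψ z s_i))_i)`, holomorphic on the interior of `L'` (`HFam.hol` for constant maps, composition with `ι` and `T`), so `Θ_{t(z)} s_i = H.Ψ z s_i`. Let
`g z = Θ_{t(z)}⁻¹ (H.Ψ z x₀)`, holomorphic near `L` (`GoHol`). If `g z = s_i`, then `H.Ψ z x₀ = Θ_{t(z)} s_i = H.Ψ z s_i`, so `x₀ = s_i`, contradiction. On `K`: `‖ι (g z) - ι (f z)‖ ≤ ‖ι (Θ_t⁻¹ x) - ι x‖ + ‖ι x - ι (f z)‖ ≤ ε`, `x = H.Ψ z x₀`. -/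
def S_AvoidFin : Prop := ∀ (V : Type) [NormedAddCommGroup V] [NormedSpace ℂ V]
  [FiniteDimensional ℂ V] (X : CMan V) (N : ℕ) (ι : X → Cn N), Emb X ι → Dens X ι →
  Frames X ι → ∀ S : Finset X, Avoid X ι (S : Set X)

/-! ## Sparse sets, the Oka property -/

/-- **G1 AvoidSp.** Avoiding sparse sets.  Hypothesis available: `S_NbF`.

PROOF. Let `j : ℕ` with `‖ι (f z)‖ + 1 ≤ j` on `K` and `S = Z ∩ Bl ι j`, finite (`IsCompact.finite`: `Z` is closed and discrete). `Avoid` for `S`, with `min(ε/2, 1)`: `g₀`, defined near `L`. Let `R` be a bound of `‖ι (g₀ z)‖` on `L` (if `g₀` is continuous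
near every point of `L`), `κ > 0` with `‖ι (g₀ z) - ι s‖ > κ` for `z ∈ L`, `s ∈ S` (finite set, compact set, `ι` injective), `κ ≤ ε/2`. `Sparse` for `j`, `R`, `κ`: `α`. `g = α.symm ∘ g₀`. If `g z = q ∈ Z`, `z ∈ L`, then `g₀ z = α q`; if
`‖ι q‖ > j` then `‖ι (α q)‖ > R`, a contradiction; otherwise `q ∈ S` and `‖ι (α q) - ι q‖ ≤ κ`, a contradiction. For `z ∈ K`: `g₀ z ∈ Bl ι j`, so `‖ι (g z) - ι (g₀ z)‖ ≤ κ ≤ ε/2`. -/
def S_AvoidSp : Prop := ∀ (V : Type) [NormedAddCommGroup V] [NormedSpace ℂ V]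
  (X : CMan V) (N : ℕ) (ι : X → Cn N), Emb X ι → (∀ S : Finset X, Avoid X ι (S : Set X)) →
  ∀ Z : Set X, IsClosed Z → DiscreteTopology Z → Sparse X ι Z → Avoid X ι Z

/-- **G2 Ent.** From `Avoid` to entire maps.  Hypotheses available: `S_HolLim`, `S_MDiff`.

PROOF. `L_0 = K`, `L_{i+1} = closedBall 0 (R + i + 1)`, `K ⊆ closedBall 0 R`, `R ≥ 0`: convex compact, increasing, `L_i ⊆ interior L_{i+1}`, union `ℂⁿ`. Recursively maps `f_i`, holomorphic near `L_i` with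
`f_i(L_i) ∩ Z = ∅`, `f_0 = f`, and numbers `e_i > 0`: `η_i > 0` with `‖ι (f_i z) - ι q‖ ≥ η_i` for `z ∈ L_i`, `q ∈ Z` (`ι '' Z` is closed, `ι (f_i (L_i))` compact, disjoint; if `Z = ∅` take `η_i = 1`), `e_i = min(e_{i-1}/2, η_i/4)`, `e_0 = min(ε/4, η_0/4)`; `f_{i+1}` from `Avoid` for `L_i ⊆ L_{i+1}`, `f_i`,
`e_i`. For `z ∈ L_i`, `k ≥ i`: `‖ι (f_k z) - ι (f_i z)‖ ≤ ∑_{l=i}^{k-1} e_l ≤ 2 e_i`. So `ι ∘ f_k` converges locally uniformly on `ℂⁿ`, the limit has values in the closed set `range ι`, so it is `ι ∘ g`; `g` is holomorphic by `HolLim` and `MDiff`.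
For `z ∈ L_i`, `q ∈ Z`: `‖ι (g z) - ι q‖ ≥ η_i - 2 e_i > 0`. On `K = L_0`: `‖ι (g z) - ι (f z)‖ ≤ 2 e_0 ≤ ε`. -/
def S_Ent : Prop := ∀ (V : Type) [NormedAddCommGroup V] [NormedSpace ℂ V]
  [FiniteDimensional ℂ V] (X : CMan V) (N : ℕ) (ι : X → Cn N), Emb X ι → ∀ Z : Set X,
  IsClosed Z → Avoid X ι Z → ∀ (n : ℕ) (K : Set (Cn n)) (f : Cn n → X), IsCompact K →
  Convex ℝ K → K.Nonempty → HolN X f K → (∀ z ∈ K, f z ∉ Z) → ∀ ε > (0 : ℝ),
  ∃ g : Cn n → X, MDifferentiable 𝓘(ℂ, Cn n) 𝓘(ℂ, V) g ∧ (∀ z, g z ∉ Z) ∧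
    ∀ z ∈ K, ‖ι (g z) - ι (f z)‖ ≤ ε

/-- **G3a SubHol.** Maps into open submanifolds.

PROOF. The chart of `X.sub D` at `y` is the restriction of the chart of `X` at `y.1` (`TopologicalSpace.Opens` charted space, `chartAt_subtype_val_symm_eventuallyEq` etc.), and `Subtype.val` is an open embedding, so continuity at `z` is equivalent, and the maps written in
charts are equal. (Second claim: the inclusion is holomorphic, `contMDiff_subtype_val`, with bijective derivative, since it has local inverses which are holomorphic by the first claim.) -/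
def S_SubHol : Prop := ∀ (V : Type) [NormedAddCommGroup V] [NormedSpace ℂ V]
  (X : CMan V) (D : TopologicalSpace.Opens X),
  (∀ (W : Type) [NormedAddCommGroup W] [NormedSpace ℂ W] (M : Type) [TopologicalSpace M]
    [ChartedSpace W M] (f : M → X.sub D) (z : M),
    MDifferentiableAt 𝓘(ℂ, W) 𝓘(ℂ, V) (fun w => subInc X D (f w)) z ↔
      MDifferentiableAt 𝓘(ℂ, W) 𝓘(ℂ, V) f z) ∧
  MDifferentiable 𝓘(ℂ, V) 𝓘(ℂ, V) (subInc X D) ∧
  ∀ y, Function.Bijective (mfderiv 𝓘(ℂ, V) 𝓘(ℂ, V) (subInc X D) y)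

/-- **G3 OkaSub.** From `Ent` to the Oka property of the complement.  Hypotheses available: `S_Ent`, `S_SubHol`, `S_NbF`.

PROOF. Let `D = Zᶜ`, `Y = X.sub D` (carrier `D`, charts: restrictions), `f : ℂⁿ → Y` holomorphic on `U ⊇ K`, `O` open with `(z, f z) ∈ O` on `K`. If `K` is empty, the constant map `g = f 0`. The composition `Subtype.val ∘ f : ℂⁿ → X` is holomorphic near `K` (`SubHol`). The image of `O` under `(z, y) ↦ (z, y.1)` is open in `ℂⁿ × X`, contains the compact graph of `f` over `K`, so it contains all `(z, x)` with `z ∈ K`, `‖ι x - ι (f z)‖ ≤ ε` for some `ε > 0` (compactness, `ι` is an embedding). `Ent`: `g : ℂⁿ → X` with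
values in `D`; as a map to `Y` it is holomorphic (`SubHol`). -/
def S_OkaSub : Prop := ∀ (V : Type) [NormedAddCommGroup V] [NormedSpace ℂ V]
  [FiniteDimensional ℂ V] (X : CMan V) (N : ℕ) (ι : X → Cn N), Emb X ι → ∀ (Z : Set X)
  (hZ : IsClosed Z), Avoid X ι Z → IsOka (X.sub ⟨Zᶜ, hZ.isOpen_compl⟩)

/-- **G4 OkaIso.** Invariance under automorphisms.  Hypothesis available: `S_SubHol`.

PROOF. `F` restricts to a bijection `F' : Zᶜ → Z₁ᶜ` which is holomorphic with holomorphic inverse (as maps of the open submanifolds, see `OkaSub`). Given `f : ℂⁿ → Zᶜ` and `O`, apply `IsOka` for `Z₁ᶜ` to `F' ∘ f` and the image of `O` under the homeomorphism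
`id × F'`, and compose the result with the inverse of `F'`. -/
def S_OkaIso : Prop := ∀ (V : Type) [NormedAddCommGroup V] [NormedSpace ℂ V]
  (X : CMan V) (Z Z₁ : Set X) (hZ : IsClosed Z) (hZ₁ : IsClosed Z₁) (F : X ≃ X), IsAut X F →
  F '' Z = Z₁ → IsOka (X.sub ⟨Z₁ᶜ, hZ₁.isOpen_compl⟩) → IsOka (X.sub ⟨Zᶜ, hZ.isOpen_compl⟩)

/-- **G5 Zero.** Manifolds of dimension zero are Oka.

PROOF. `V` is a subsingleton (`finrank = 0`), `Y` is discrete (charts are homeomorphisms of open subsets onto subsets of a point). A map `f` which is holomorphic, hence continuous, near the convex, hence connected, set `K` is constant on `K`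
(if `K` is nonempty); take `g` constant. -/
def S_Zero : Prop := ∀ (V : Type) [NormedAddCommGroup V] [NormedSpace ℂ V]
  [FiniteDimensional ℂ V], Module.finrank ℂ V = 0 → ∀ Y : CMan V, IsOka Y

/-- **G6 SubClosed.** A closed discrete subset is closed and discrete as a subset: the infinite sparse subset `Z₁ ⊆ Z` of a closed discrete set is closed and discrete.

PROOF. Every subset of a closed discrete set is closed and discrete: every point of `X` has a neighbourhood which meets `Z` in at most one point (closedness and discreteness); so the same is true for `Z₁`. -/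
def S_SubClosed : Prop := ∀ (Y : Type) [TopologicalSpace Y] [T2Space Y] (Z Z₁ : Set Y),
  IsClosed Z → DiscreteTopology Z → Z₁ ⊆ Z → IsClosed Z₁ ∧ DiscreteTopology Z₁

end Pool.Agent.Lib.MP_c2a04f_an
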