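import Mathlib
import Pool.Agent.Lib.MP_c2a04f_an.Core
import Pool.Agent.Lib.MP_55bc5f_an.Full.SpecMfd

/-!
# MP_c2a04f_an, part D: global frames on Stein manifolds.  Statements and complete paper proofs.

Tools of `MP_55bc5f_an` (all proved, see `Full/Final.lean`): `S_Fun` (functions `F` with `F ∂/∂z_{I b}` holomorphic),
`S_VF` (these vector fields), `S_Conn`, `S_TrLM` (immersed manifolds as `LM n N`), `S_TrHol` (`HolAt` and `MDifferentiableAt`), `Full/EtA.lean` (the derivative
`E.A I x` of `z` with respect to the coordinates `z_I`: `Et.hasRD_A`, `Et.A_apply`, `A_change`, `Et.holAt_A`).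
-/

set_option autoImplicit false

open scoped Manifold ContDiff Topology
open Set Filter Metric

namespace Pool.Agent.Lib.MP_c2a04f_an

open Pool.Agent.Lib.MP_55bc5f_an

/-- **H1 FramesLM.** Hypotheses available: `S_Fun`, `S_VF`, `S_Conn` of `MP_55bc5f_an`.

PROOF. `e ∈ E.E I` for some `I` (`E.et`). `F` from `Fun`, `V_b` (`b : Fin n`) from `VF` (`E.E I` is dense by `Conn`). Let `v_k = ∑_{b : I b = k} V_b`. Holomorphy: sums (`HolAt.sum'`). Third claim: the third part of `VF` (`V_b x = A I' x (prI I' (V_b x))`).
Last claim, for `x ∈ E.E I`, `u = A I' x c`: by `A_change` (`h' = Et z I`) `u = A I x (prI I u) = ∑_b u_{I b} A I x e_b`, so `F x • u = ∑_b u_{I b} • V_b x = ∑_k u_k • v_k x`. For general `x ∈ E.E I'`: both sides of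
the claim for fixed `c` are continuous functions of `x ∈ E.E I'` (`Et.holAt_A`) which agree on the subset `E.E I ∩ E.E I'`, dense in the open set `E.E I'`. -/
def S_FramesLM : Prop := ∀ (n N : ℕ), 0 < n → ∀ E : LM n N, Topology.IsClosedEmbedding E.z →
  ConnectedSpace E → ∀ e : E, ∃ (F : E → ℂ) (v : Fin N → E → Cn N), (∀ x, HolAt E.z F x) ∧
    F e ≠ 0 ∧ (∀ k x, HolAt E.z (v k) x) ∧
    (∀ (k : Fin N) (I : Fin n → Fin N), ∀ x ∈ E.E I, v k x ∈ range (E.A I x)) ∧
    ∀ (I : Fin n → Fin N), ∀ x ∈ E.E I, ∀ c : Cn n,
      F x • E.A I x c = ∑ k, (E.A I x c) k • v k x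

/-- **H2 FramesC.** Connected Stein manifolds.  Hypotheses available: `S_FramesLM`, and `S_TrLM`, `S_TrHol`
of `MP_55bc5f_an`.

PROOF. `E : LM n N`, `n = finrank ℂ V`, is `X` with `z = ι` (`TrLM`: `et`). `FramesLM`. `HolAt ι F x` for all `x` means `MDifferentiable F` (`TrHol`). For `x ∈ E.E I`: `range (E.A I x) = range (mfderiv ι x)`: near `x`, `ι = g ∘ prI I ∘ ι` with
`fderiv g = A I x` at the point (`Et.hasRD_A`), so `mfderiv ι x = A I x ∘ prI I ∘ mfderiv ι x`, hence `⊇`; the left side has dimension at most `n`, the right side has dimension `n` (`mfderiv ι x` is injective), so they are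
equal. -/
def S_FramesC : Prop := ∀ (V : Type) [NormedAddCommGroup V] [NormedSpace ℂ V]
  [FiniteDimensional ℂ V] (X : CMan V) (N : ℕ) (ι : X → Cn N), Emb X ι →
  0 < Module.finrank ℂ V → ConnectedSpace X → Frames X ι

/-- **H3 FramesAll.** All Stein manifolds of positive dimension.  Hypotheses available: `S_FramesC`, `S_SubHol` (in `SpecC.lean`).

PROOF. Let `e : X`, `D` the connected component of `e`, open (`X` is locally connected: `ChartedSpace.locallyConnectedSpace`) and closed. `X' = X.sub D` with `ι' = ι ∘ Subtype.val` is `Emb` (the derivative of `Subtype.val` is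
bijective; restriction of a closed embedding to a closed subset) and connected. `FramesC`: `F', v'` on `X'`; extend them by `0` to `X \ D`. The extensions are holomorphic (near points of `D` they are `F' ∘ (local inverse of Subtype.val)`: `D` is open; near points of the open set `X \ D` they are
`0`), and satisfy the identity at the points of `D` (tangent vectors of `X` at `x ∈ D` are images of tangent vectors of `X'`) and at the other points (`0 = 0`); `Tan.tan` similarly. -/
def S_FramesAll : Prop := ∀ (V : Type) [NormedAddCommGroup V] [NormedSpace ℂ V]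
  [FiniteDimensional ℂ V] (X : CMan V) (N : ℕ) (ι : X → Cn N), Emb X ι →
  0 < Module.finrank ℂ V → Frames X ι

end Pool.Agent.Lib.MP_c2a04f_an
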