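import Mathlib
import Pool.Agent.Lib.MP_c2a04f_an.SpecA
import Pool.Agent.Lib.MP_c2a04f_an.SpecB
import Pool.Agent.Lib.MP_c2a04f_an.SpecC
import Pool.Agent.Lib.MP_c2a04f_an.SpecD

/-!
# Assembly of the proof
-/

set_option autoImplicit false

open scoped Manifold ContDiff Topology
open Set Filter

namespace Pool.Agent.Lib.MP_c2a04f_an

open Pool.Agent.Lib.MP_55bc5f_an

theorem main_of (hDens : S_Dens) (hFrames : S_FramesAll) (hPush : S_Push)
    (hSparse : S_SparseSub) (hTame : S_TameRed) (hFin : S_AvoidFin) (hSp : S_AvoidSp)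
    (hOka : S_OkaSub) (hIso : S_OkaIso) (hZero : S_Zero) (hSub : S_SubClosed) : MainStatement := by
  intro V _ _ _ X hS hD Z hZ
  obtain ⟨N, ι, h1, h2, h3⟩ := hS
  have hE : Emb X ι := ⟨h1, h2, h3⟩
  rcases Nat.eq_zero_or_pos (Module.finrank ℂ V) with h0 | hpos
  · exact hZero V h0 _
  have hF : Frames X ι := hFrames V X N ι hE hpos
  have hd : Dens X ι := hDens V X N ι hE hD
  have hP : PushP X ι := hPush V X N ι hE hd hF hpos
  obtain ⟨Z₁, hZ₁, hinf, hsp⟩ := hSparse V X N ι hE hP Z hZ.closed hZ.discrete hZ.infinite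
  obtain ⟨hc₁, hd₁⟩ := hSub X Z Z₁ hZ.closed hZ.discrete hZ₁
  have hA : Avoid X ι Z₁ := hSp V X N ι hE (hFin V X N ι hE hd hF) Z₁ hc₁ hd₁ hsp
  obtain ⟨F, hF1, hF2⟩ := hTame V X Z Z₁ hZ hZ₁ hinf
  exact hIso V X Z Z₁ hZ.closed hc₁ F hF1 hF2 (hOka V X N ι hE Z₁ hc₁ hA)

end Pool.Agent.Lib.MP_c2a04f_an
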