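import Mathlib
import Pool.Agent.Lib.MP_c2a04f_an.SpecA
import Pool.Agent.Lib.MP_c2a04f_an.SpecB
import Pool.Agent.Lib.MP_c2a04f_an.SpecC

/-!
# MP_c2a04f_an : F8, avoiding finite sets
-/

set_option autoImplicit false

open scoped Manifold ContDiff Topology
open Set Filter Metric

namespace Pool.Agent.Lib.MP_c2a04f_an

open Pool.Agent.Lib.MP_55bc5f_an

namespace AvoidFinAux

variable {V : Type} [NormedAddCommGroup V] [NormedSpace ℂ V] {X : CMan V} {N : ℕ}

/-- Continuity of the inverse of a composition of flows in the times and the point. -/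
lemma cont_goE_symm {M : ℕ} (Φ : Fin M → Flow X) {P : Type} [TopologicalSpace P]
    (l : List (Fin M × (P → ℂ))) (hl : ∀ q ∈ l, Continuous q.2) (x : P → X) (hx : Continuous x) :
    Continuous (fun p => (goE Φ (l.map fun q => (q.1, q.2 p))).symm (x p)) := by
  induction l with
  | nil => simpa [goE] using hx
  | cons q l ih =>
    have ih' := ih (fun q' hq' => hl q' (List.mem_cons_of_mem _ hq'))
    have hq : Continuous q.2 := hl q List.mem_cons_self
    have h1 : Continuous (fun p => ((Φ q.1).φ (-(q.2 p))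
        ((goE Φ (l.map fun q => (q.1, q.2 p))).symm (x p)))) :=
      (Φ q.1).continuous.comp (hq.neg.prodMk ih')
    exact h1

/-- The composition of the flows `Φ k` with the times `t k`. -/
noncomputable def Th {M : ℕ} (Φ : Fin M → Flow X) (t : Fin M → ℂ) : X ≃ X :=
  goE Φ ((List.finRange M).map fun k => (k, t k))

lemma cont_Th_symm {M : ℕ} (Φ : Fin M → Flow X) :
    Continuous (fun p : (Fin M → ℂ) × X => (Th Φ p.1).symm p.2) := by
  have h := cont_goE_symm Φ (P := (Fin M → ℂ) × X)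
    ((List.finRange M).map fun k => (k, fun p : (Fin M → ℂ) × X => p.1 k)) (by
      intro q hq
      obtain ⟨k, -, rfl⟩ := List.mem_map.1 hq
      exact (continuous_apply k).comp continuous_fst) (fun p => p.2) continuous_snd
  have e : (fun p : (Fin M → ℂ) × X => (Th Φ p.1).symm p.2) = fun p =>
      (goE Φ (((List.finRange M).map fun k => (k, fun p : (Fin M → ℂ) × X => p.1 k)).map
        fun q => (q.1, q.2 p))).symm p.2 := by
    funext p
    unfold Th
    rw [List.map_map]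
    rfl
  rw [e]
  exact h

lemma goE_zero {M : ℕ} (Φ : Fin M → Flow X) (l : List (Fin M × ℂ)) (hl : ∀ q ∈ l, q.2 = 0)
    (x : X) : goE Φ l x = x := by
  induction l with
  | nil => rfl
  | cons q l ih =>
    have h1 : q.2 = 0 := hl q List.mem_cons_self
    have h2 := ih (fun q' hq' => hl q' (List.mem_cons_of_mem _ hq'))
    have h3 : goE Φ (q :: l) x = goE Φ l ((Φ q.1).φ q.2 x) := rfl
    rw [h3, h1, (Φ q.1).zero, h2]

lemma Th_zero {M : ℕ} (Φ : Fin M → Flow X) (x : X) : Th Φ 0 x = x := by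
  apply goE_zero
  intro q hq
  obtain ⟨k, -, rfl⟩ := List.mem_map.1 hq
  rfl

lemma Th_zero_symm {M : ℕ} (Φ : Fin M → Flow X) (x : X) : (Th Φ 0).symm x = x := by
  rw [Equiv.symm_apply_eq, Th_zero]

/-- Uniform smallness near a compact set. -/
lemma small_gen {E Y : Type} [NormedAddCommGroup E] [TopologicalSpace Y] (F : E × Y → ℝ)
    (hF : Continuous F) (Q : Set Y) (hQ : IsCompact Q) (ε : ℝ) (h0 : ∀ x ∈ Q, F (0, x) < ε) :
    ∃ κ > (0 : ℝ), ∀ t : E, ‖t‖ ≤ κ → ∀ x ∈ Q, F (t, x) ≤ ε := by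
  have hO : IsOpen (F ⁻¹' Iio ε) := isOpen_Iio.preimage hF
  have hsub : ({0} : Set E) ×ˢ Q ⊆ F ⁻¹' Iio ε := by
    rintro ⟨t, x⟩ ⟨ht, hx⟩
    have ht' : t = 0 := ht
    subst ht'
    exact h0 x hx
  obtain ⟨u, v, hu, hv, h0u, hQv, huv⟩ := generalized_tube_lemma isCompact_singleton hQ hO hsub
  obtain ⟨κ, hκ, hball⟩ := Metric.isOpen_iff.1 hu 0 (h0u rfl)
  refine ⟨κ / 2, by positivity, fun t ht x hx => ?_⟩
  have ht' : t ∈ u := hball (by
    rw [mem_ball_zero_iff]
    linarith)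
  exact le_of_lt (huv (Set.mk_mem_prod ht' (hQv hx)))

/-- Uniform estimate on compact sets for small times. -/
lemma small {ι : X → Cn N} (hι : Continuous ι) {M : ℕ} (Φ : Fin M → Flow X) (Q : Set X)
    (hQ : IsCompact Q) (ε : ℝ) (hε : 0 < ε) :
    ∃ κ > (0 : ℝ), ∀ t : Fin M → ℂ, ‖t‖ ≤ κ → ∀ x ∈ Q, ‖ι ((Th Φ t).symm x) - ι x‖ ≤ ε := by
  have hF : Continuous (fun p : (Fin M → ℂ) × X => ‖ι ((Th Φ p.1).symm p.2) - ι p.2‖) :=
    ((hι.comp (cont_Th_symm Φ)).sub (hι.comp continuous_snd)).norm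
  exact small_gen (fun p : (Fin M → ℂ) × X => ‖ι ((Th Φ p.1).symm p.2) - ι p.2‖) hF Q hQ ε
    (fun x _ => by
      show ‖ι ((Th Φ 0).symm x) - ι x‖ < ε
      rw [Th_zero_symm, sub_self, norm_zero]
      exact hε)

end AvoidFinAux

open AvoidFinAux in
/-- **F8 AvoidFin.** -/
theorem s_AvoidFin (h1 : S_FA1) (h2 : S_Corr) (h3 : S_GoHol) (h4 : S_MDiff) (h5 : S_NbF) :
    S_AvoidFin := by
  intro V _ _ _ X N ι hι hD hF S n K L hK hKc hKne hL hLc hKL f hf hfS ε hε
  classical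
  obtain ⟨z₀, hz₀⟩ := hKne
  -- enumeration of `S`
  obtain ⟨r, s, hsinj, hsran⟩ : ∃ (r : ℕ) (s : Fin r → X), Function.Injective s ∧
      ∀ x, x ∈ S ↔ ∃ i, s i = x := by
    refine ⟨S.card, fun i => (S.equivFin.symm i : X), ?_, ?_⟩
    · intro i j hij
      exact S.equivFin.symm.injective (Subtype.ext hij)
    · intro x
      constructor
      · intro hx
        refine ⟨S.equivFin ⟨x, hx⟩, ?_⟩
        simp
      · rintro ⟨i, rfl⟩
        exact (S.equivFin.symm i).2
  obtain ⟨M, Φ, η, T, hη, hTd, hT0, hTc⟩ := h2 V X N ι hι hD hF r s hsinj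
  -- the compact set near the image
  have hfc : ∀ z ∈ K, ContinuousAt f z := fun z hz => (hf z hz).self_of_nhds.continuousAt
  have hfK : IsCompact (f '' K) :=
    hK.image_of_continuousOn fun z hz => (hfc z hz).continuousWithinAt
  obtain ⟨-, hNb, -, -⟩ := h5 V X N ι hι
  have hQ : IsCompact (Nb ι (f '' K) 1) := hNb _ 1 hfK
  obtain ⟨κ, hκ, hκs⟩ := small hι.closed.continuous Φ _ hQ (ε / 2) (by positivity)
  -- continuity of `T`
  have hopen : IsOpen {y : Fin r → Cn N | ∀ i, ‖y i - ι (s i)‖ < η} := by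
    have : {y : Fin r → Cn N | ∀ i, ‖y i - ι (s i)‖ < η} =
        ⋂ i, {y : Fin r → Cn N | ‖y i - ι (s i)‖ < η} := by
      ext y; simp
    rw [this]
    apply isOpen_iInter_of_finite
    intro i
    exact isOpen_lt (by fun_prop) continuous_const
  have hTcont : ContinuousAt T (fun i => ι (s i)) := by
    apply (hTd.differentiableAt (hopen.mem_nhds _)).continuousAt
    intro i
    simpa using hη
  obtain ⟨ε₀, hε₀, hTε⟩ : ∃ ε₀ > (0 : ℝ), ∀ y : Fin r → Cn N, (∀ i, ‖y i - ι (s i)‖ ≤ ε₀) →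
      ‖T y‖ ≤ κ := by
    obtain ⟨e, he, hball⟩ := Metric.continuousAt_iff.1 hTcont κ hκ
    refine ⟨e / 2, by positivity, fun y hy => ?_⟩
    have h : dist y (fun i => ι (s i)) < e := by
      have h' : dist y (fun i => ι (s i)) ≤ e / 2 := by
        rw [dist_pi_le_iff (by positivity)]
        intro i
        rw [dist_eq_norm]
        exact hy i
      linarith
    have h'' := hball h
    rw [hT0, dist_zero_right] at h''
    exact h''.le
  set ε₁ : ℝ := min (min ε₀ (η / 2)) (min 1 (ε / 2)) with hε₁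
  have hε₁0 : 0 < ε₁ := by
    rw [hε₁]
    exact lt_min (lt_min hε₀ (by positivity)) (lt_min one_pos (by positivity))
  have hε₁a : ε₁ ≤ ε₀ := (min_le_left _ _).trans (min_le_left _ _)
  have hε₁b : ε₁ < η := by
    have : ε₁ ≤ η / 2 := (min_le_left _ _).trans (min_le_right _ _)
    linarith
  have hε₁c : ε₁ ≤ 1 := (min_le_right _ _).trans (min_le_left _ _)
  have hε₁d : ε₁ ≤ ε / 2 := (min_le_right _ _).trans (min_le_right _ _)
  have hL' : IsCompact (cthickening 1 L) := hL.cthickening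
  have hLL' : L ⊆ thickening 1 L := self_subset_thickening one_pos L
  have htc : thickening 1 L ⊆ cthickening 1 L := thickening_subset_cthickening 1 L
  obtain ⟨H, hHK, hHL⟩ := h1 V X N ι hι hD hF n K (cthickening 1 L) z₀ f S hK hKc hz₀ hL'
    (hKL.trans (hLL'.trans htc)) hf (fun z hz => by simpa using hfS z hz) ε₁ hε₁0
  set y : Cn n → Fin r → Cn N := fun z i => ι (H.Ψ z (s i)) with hy
  set t : Cn n → Fin M → ℂ := fun z => T (y z) with ht
  have hys : ∀ z ∈ cthickening 1 L, ∀ i, ‖y z i - ι (s i)‖ ≤ ε₁ := fun z hz i =>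
    hHL z hz (s i) ((hsran _).2 ⟨i, rfl⟩)
  have hTs : ∀ z ∈ cthickening 1 L, ∀ i, Th Φ (t z) (s i) = H.Ψ z (s i) := by
    intro z hz i
    exact hTc (fun i => H.Ψ z (s i)) (fun i => lt_of_le_of_lt (hys z hz i) hε₁b) i
  have htκ : ∀ z ∈ cthickening 1 L, ‖t z‖ ≤ κ := fun z hz =>
    hTε _ fun i => (hys z hz i).trans hε₁a
  -- holomorphy of `t`
  have hyd : ∀ z, DifferentiableAt ℂ y z := by
    intro z
    rw [differentiableAt_pi]
    intro i
    have ha : MDifferentiableAt 𝓘(ℂ, Cn n) 𝓘(ℂ, V) (fun w => H.Ψ w (s i)) z :=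
      H.hol (fun _ => s i) z mdifferentiableAt_const
    have hb : MDifferentiableAt 𝓘(ℂ, Cn n) 𝓘(ℂ, Cn N) (fun w => ι (H.Ψ w (s i))) z :=
      (hι.hol (H.Ψ z (s i))).comp z ha
    exact mdifferentiableAt_iff_differentiableAt.1 hb
  have htd : ∀ z ∈ cthickening 1 L, DifferentiableAt ℂ t z := by
    intro z hz
    have hmem : y z ∈ {y : Fin r → Cn N | ∀ i, ‖y i - ι (s i)‖ < η} :=
      fun i => lt_of_le_of_lt (hys z hz i) hε₁b
    exact (hTd.differentiableAt (hopen.mem_nhds hmem)).comp z (hyd z)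
  set x₀ : X := f z₀ with hx₀
  refine ⟨fun z => (Th Φ (t z)).symm (H.Ψ z x₀), ?_, ?_, ?_⟩
  · intro z hz
    have hev : ∀ᶠ w in 𝓝 z, w ∈ cthickening 1 L := by
      filter_upwards [isOpen_thickening.mem_nhds (hLL' hz)] with w hw using htc hw
    filter_upwards [hev] with w hw
    have hx : MDifferentiableAt 𝓘(ℂ, Cn n) 𝓘(ℂ, V) (fun z => H.Ψ z x₀) w :=
      H.hol (fun _ => x₀) w mdifferentiableAt_const
    have hg := ((h3 V X M M n Φ id).1
      ((List.finRange M).map fun k => (k, fun z => t z k)) w (fun z => H.Ψ z x₀) (by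
        intro q hq
        obtain ⟨k, -, rfl⟩ := List.mem_map.1 hq
        exact differentiableAt_pi.1 (htd w hw) k) hx).2
    have e : (fun z => (Th Φ (t z)).symm (H.Ψ z x₀)) = fun z =>
        (goE Φ (((List.finRange M).map fun k => (k, fun z => t z k)).map
          fun q => (q.1, q.2 z))).symm (H.Ψ z x₀) := by
      funext z
      unfold Th
      rw [List.map_map]
      rfl
    rw [e]
    exact hg
  · intro z hz hmem
    have hz' : z ∈ cthickening 1 L := htc (hLL' hz)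
    have hmem' : (Th Φ (t z)).symm (H.Ψ z x₀) ∈ S := by simpa using hmem
    obtain ⟨i, hi⟩ := (hsran _).1 hmem'
    have h6 : H.Ψ z x₀ = Th Φ (t z) (s i) := by
      rw [hi, Equiv.apply_symm_apply]
    rw [hTs z hz' i] at h6
    have h7 : x₀ = s i := (H.Ψ z).injective h6
    apply hfS z₀ hz₀
    have h8 : f z₀ ∈ S := (hsran _).2 ⟨i, h7.symm⟩
    simpa using h8
  · intro z hz
    have hz' : z ∈ cthickening 1 L := htc (hLL' (hKL hz))
    have h6 : ‖ι (H.Ψ z x₀) - ι (f z)‖ ≤ ε₁ := hHK z hz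
    have h7 : H.Ψ z x₀ ∈ Nb ι (f '' K) 1 := ⟨f z, ⟨z, hz, rfl⟩, h6.trans hε₁c⟩
    have h8 := hκs (t z) (htκ z hz') (H.Ψ z x₀) h7
    have h9 : ι ((Th Φ (t z)).symm (H.Ψ z x₀)) - ι (f z) =
        (ι ((Th Φ (t z)).symm (H.Ψ z x₀)) - ι (H.Ψ z x₀)) + (ι (H.Ψ z x₀) - ι (f z)) := by abel
    show ‖ι ((Th Φ (t z)).symm (H.Ψ z x₀)) - ι (f z)‖ ≤ ε
    rw [h9]
    refine (norm_add_le _ _).trans ?_
    linarith

end Pool.Agent.Lib.MP_c2a04f_an
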