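import Mathlib
import Pool.Agent.Lib.MP_c2a04f_an.SpecA
import Pool.Agent.Lib.MP_c2a04f_an.SpecC

/-!
# MP_c2a04f_an, G1: avoiding sparse sets
-/

set_option autoImplicit false

open scoped Manifold ContDiff Topology
open Set Filter Metric

namespace Pool.Agent.Lib.MP_c2a04f_an

open Pool.Agent.Lib.MP_55bc5f_an

theorem s_AvoidSp (h : S_NbF) : S_AvoidSp := by
  classical
  intro V _ _ X N ι hι hav Z hZ hZd hsp n K L hK hKc hKne hL hLc hKL f hf hfZ ε hε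
  obtain ⟨hBl, -, -, -⟩ := h V X N ι hι
  have hιc : Continuous ι := hι.closed.continuous
  -- the bound `j`
  have hfc : ContinuousOn (fun z => ‖ι (f z)‖) K := fun z hz =>
    ((continuous_norm.comp hιc).continuousAt.comp
      (hf z hz).self_of_nhds.continuousAt).continuousWithinAt
  obtain ⟨C, hC⟩ := (hK.image_of_continuousOn hfc).bddAbove
  obtain ⟨j, hj⟩ := exists_nat_ge (C + 1)
  have hjK : ∀ z ∈ K, ‖ι (f z)‖ + 1 ≤ j := fun z hz => by
    have h1 : ‖ι (f z)‖ ≤ C := hC ⟨z, hz, rfl⟩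
    linarith
  -- the finite set `S`
  have hfin : (Z ∩ Bl ι j).Finite := by
    have h3 : IsCompact (Z ∩ Bl ι j) := (hBl j).inter_left hZ
    have h4 : DiscreteTopology ↥(Z ∩ Bl ι j) := DiscreteTopology.of_subset hZd inter_subset_left
    exact h3.finite ⟨h4⟩
  obtain ⟨S, hS⟩ : ∃ S : Finset X, ∀ x, x ∈ S ↔ x ∈ Z ∧ ‖ι x‖ ≤ j :=
    ⟨hfin.toFinset, fun x => by rw [Set.Finite.mem_toFinset]; rfl⟩
  obtain ⟨g₀, hg₀, hg₀S, hg₀K⟩ := hav S n K L hK hKc hKne hL hLc hKL f hf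
    (fun z hz hmem => hfZ z hz ((hS _).1 (Finset.mem_coe.1 hmem)).1) (min (ε / 2) 1)
    (lt_min (by positivity) one_pos)
  -- the bound `R`
  have hgc : ContinuousOn (fun z => ι (g₀ z)) L := fun z hz =>
    (hιc.continuousAt.comp (hg₀ z hz).self_of_nhds.continuousAt).continuousWithinAt
  have hcomp : IsCompact ((fun z => ι (g₀ z)) '' L) := hL.image_of_continuousOn hgc
  obtain ⟨R, hR⟩ := (hL.image_of_continuousOn hgc.norm).bddAbove
  have hRL : ∀ z ∈ L, ‖ι (g₀ z)‖ ≤ R := fun z hz => hR ⟨z, hz, rfl⟩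
  -- the distance `κ`
  have hdis : Disjoint ((fun z => ι (g₀ z)) '' L) (ι '' (S : Set X)) := by
    rw [Set.disjoint_left]
    rintro y ⟨z, hz, rfl⟩ ⟨s, hs, hsz⟩
    have h1 : s = g₀ z := hι.closed.injective hsz
    exact hg₀S z hz (h1 ▸ hs)
  have hSc : IsClosed (ι '' (S : Set X)) := (S.finite_toSet.image ι).isClosed
  obtain ⟨κ₀, hκ₀, hκd⟩ := hdis.exists_cthickenings hcomp hSc
  have hsep : ∀ z ∈ L, ∀ s ∈ S, κ₀ < ‖ι (g₀ z) - ι s‖ := by
    intro z hz s hs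
    by_contra hcon
    rw [not_lt] at hcon
    have h1 : ι (g₀ z) ∈ cthickening κ₀ ((fun z => ι (g₀ z)) '' L) :=
      self_subset_cthickening _ ⟨z, hz, rfl⟩
    have h2 : ι (g₀ z) ∈ cthickening κ₀ (ι '' (S : Set X)) := by
      apply mem_cthickening_of_dist_le _ (ι s) _ _ (mem_image_of_mem ι (Finset.mem_coe.2 hs))
      rw [dist_eq_norm]
      exact hcon
    exact Set.disjoint_left.1 hκd h1 h2
  obtain ⟨α, hα, hαn, hαZ⟩ := hsp j R (min κ₀ (ε / 2)) (lt_min hκ₀ (by positivity))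
  refine ⟨fun z => α.symm (g₀ z), ?_, ?_, ?_⟩
  · intro z hz
    filter_upwards [hg₀ z hz] with w hw
    exact MDifferentiableAt.comp (g := α.symm) (f := g₀) w (hα.hol_symm (g₀ w)) hw
  · intro z hz hmem
    have hmem' : α.symm (g₀ z) ∈ Z := hmem
    have h0 : α (α.symm (g₀ z)) = g₀ z := α.apply_symm_apply _
    rcases lt_or_ge (j : ℝ) ‖ι (α.symm (g₀ z))‖ with h1 | h1
    · have h2 := hαZ _ hmem' h1
      rw [h0] at h2
      exact absurd (hRL z hz) (not_le.2 h2)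
    · have h2 : α.symm (g₀ z) ∈ S := (hS _).2 ⟨hmem', h1⟩
      have h3 := (hαn _ h1).1
      rw [h0] at h3
      have h4 := hsep z hz _ h2
      exact absurd (h3.trans (min_le_left _ _)) (not_le.2 h4)
  · intro z hz
    have h1 : ‖ι (g₀ z) - ι (f z)‖ ≤ min (ε / 2) 1 := hg₀K z hz
    have h2 : ‖ι (g₀ z)‖ ≤ j := by
      have h3 : ‖ι (g₀ z)‖ ≤ ‖ι (g₀ z) - ι (f z)‖ + ‖ι (f z)‖ := by
        have := norm_add_le (ι (g₀ z) - ι (f z)) (ι (f z))
        rwa [sub_add_cancel] at this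
      have h4 := hjK z hz
      have h5 := h1.trans (min_le_right _ _)
      linarith
    have h3 := (hαn (g₀ z) h2).2
    have h4 : ‖ι (α.symm (g₀ z)) - ι (f z)‖ ≤
        ‖ι (α.symm (g₀ z)) - ι (g₀ z)‖ + ‖ι (g₀ z) - ι (f z)‖ := by
      have := norm_add_le (ι (α.symm (g₀ z)) - ι (g₀ z)) (ι (g₀ z) - ι (f z))
      rwa [sub_add_sub_cancel] at this
    have h5 := h1.trans (min_le_left _ _)
    have h6 := h3.trans (min_le_right _ _)
    show ‖ι (α.symm (g₀ z)) - ι (f z)‖ ≤ ε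
    linarith

end Pool.Agent.Lib.MP_c2a04f_an
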