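import Mathlib
import Pool.Agent.Lib.MP_c2a04f_an.SpecA
import Pool.Agent.Lib.Osgood

/-!
# MP_c2a04f_an: the bracket of two complete fields is a limit of sums of complete fields
-/

set_option autoImplicit false

open scoped Manifold ContDiff Topology
open Set Filter Metric

namespace Pool.Agent.Lib.MP_c2a04f_an

open Pool.Agent.Lib.MP_55bc5f_an

namespace BrFlow

/-- quadratic Taylor estimate for bounded holomorphic functions -/
theorem quad {F : Type} [NormedAddCommGroup F] [NormedSpace ℂ F] {g : ℂ → F} {C : ℝ}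
    (hg : Differentiable ℂ g) (hC : ∀ s : ℂ, ‖s‖ ≤ 1 → ‖g s‖ ≤ C) {s : ℂ} (hs : ‖s‖ < 1) :
    ‖g s - g 0 - s • deriv g 0‖ ≤ 3 * C * ‖s‖ ^ 2 := by
  have hd : ‖deriv g 0‖ ≤ C := by
    have := Complex.norm_deriv_le_of_forall_mem_sphere_norm_le (R := 1) (c := (0 : ℂ)) (f := g)
      (C := C) one_pos hg.diffContOnCl (fun z hz => hC z (by simpa using (mem_sphere_zero_iff_norm.1 hz).le))
    simpa using this
  set f : ℂ → F := fun z => g z - z • deriv g 0 with hf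
  have hfd : Differentiable ℂ f := by
    rw [hf]
    exact hg.sub (differentiable_id.smul_const _)
  have hf0 : f 0 = g 0 := by simp [hf]
  have hmaps : MapsTo f (ball 0 1) (closedBall (f 0) (3 * C)) := by
    intro z hz
    rw [mem_ball_zero_iff] at hz
    rw [mem_closedBall, dist_eq_norm, hf0, hf]
    have h1 := hC z hz.le
    have h2 := hC 0 (by simp)
    have h3 : ‖z • deriv g 0‖ ≤ C := by
      rw [norm_smul]
      calc ‖z‖ * ‖deriv g 0‖ ≤ 1 * C :=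
            mul_le_mul hz.le hd (norm_nonneg _) zero_le_one
        _ = C := one_mul _
    calc ‖g z - z • deriv g 0 - g 0‖ ≤ ‖g z - z • deriv g 0‖ + ‖g 0‖ := norm_sub_le _ _
      _ ≤ (‖g z‖ + ‖z • deriv g 0‖) + ‖g 0‖ := by
          gcongr
          exact norm_sub_le _ _
      _ ≤ 3 * C := by linarith
  have hlit : (fun z => f z - f 0) =o[𝓝 0] (fun w : ℂ => ‖w - 0‖ ^ 1) := by
    have h1 : HasDerivAt g (deriv g 0) 0 := (hg 0).hasDerivAt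
    rw [hasDerivAt_iff_isLittleO] at h1
    have h2 : (fun z => f z - f 0) = fun z => g z - g 0 - (z - 0) • deriv g 0 := by
      funext z
      rw [hf0, hf]
      simp only [sub_zero]
      abel
    rw [h2]
    simp only [pow_one]
    exact h1.norm_right
  have h4 := Complex.dist_le_mul_div_pow_of_mapsTo_ball_of_isLittleO (n := 1)
    hfd.differentiableOn hmaps hlit (z := s) (by rwa [mem_ball_zero_iff])
  rw [dist_eq_norm, hf0, dist_zero_right, div_one] at h4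
  have h5 : f s - g 0 = g s - g 0 - s • deriv g 0 := by
    rw [hf]
    simp only
    abel
  rw [h5] at h4
  exact h4

section

variable {V : Type} [NormedAddCommGroup V] [NormedSpace ℂ V]
  {X : CMan V} {N : ℕ} (ι : X → Cn N) (φ ψ : Flow X)

/-- the function of three variables -/
noncomputable def KK (x : X) (p : ℂ × ℂ × ℂ) : Cn N :=
  ι (φ.φ (-p.1) (ψ.φ p.2.2 (φ.φ p.2.1 x)))

theorem cont_KK (hι : Continuous ι) :
    Continuous (fun q : (ℂ × ℂ × ℂ) × X => KK ι φ ψ q.2 q.1) := by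
  have hφ := φ.continuous
  have hψ := ψ.continuous
  unfold KK
  have h1 : Continuous (fun q : (ℂ × ℂ × ℂ) × X => φ.φ q.1.2.1 q.2) :=
    hφ.comp (f := fun q : (ℂ × ℂ × ℂ) × X => (q.1.2.1, q.2)) (by fun_prop)
  have h2 : Continuous (fun q : (ℂ × ℂ × ℂ) × X => ψ.φ q.1.2.2 (φ.φ q.1.2.1 q.2)) :=
    hψ.comp (f := fun q : (ℂ × ℂ × ℂ) × X => (q.1.2.2, φ.φ q.1.2.1 q.2)) (by fun_prop)
  have h3 : Continuous (fun q : (ℂ × ℂ × ℂ) × X => φ.φ (-q.1.1) (ψ.φ q.1.2.2 (φ.φ q.1.2.1 q.2))) :=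
    hφ.comp (f := fun q : (ℂ × ℂ × ℂ) × X => (-q.1.1, ψ.φ q.1.2.2 (φ.φ q.1.2.1 q.2)))
      (by fun_prop)
  exact hι.comp h3

theorem diff_KK (hι : MDifferentiable 𝓘(ℂ, V) 𝓘(ℂ, Cn N) ι) (x : X) :
    Differentiable ℂ (KK ι φ ψ x) := by
  rw [← mdifferentiable_iff_differentiable]
  have d1 : MDifferentiable 𝓘(ℂ, ℂ × ℂ × ℂ) 𝓘(ℂ, ℂ) (fun p : ℂ × ℂ × ℂ => p.2.1) :=
    Differentiable.mdifferentiable (by fun_prop)
  have d2 : MDifferentiable 𝓘(ℂ, ℂ × ℂ × ℂ) 𝓘(ℂ, ℂ) (fun p : ℂ × ℂ × ℂ => p.2.2) :=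
    Differentiable.mdifferentiable (by fun_prop)
  have d3 : MDifferentiable 𝓘(ℂ, ℂ × ℂ × ℂ) 𝓘(ℂ, ℂ) (fun p : ℂ × ℂ × ℂ => -p.1) :=
    Differentiable.mdifferentiable (by fun_prop)
  have h1 : MDifferentiable 𝓘(ℂ, ℂ × ℂ × ℂ) 𝓘(ℂ, V) (fun p : ℂ × ℂ × ℂ => φ.φ p.2.1 x) :=
    φ.hol.comp (d1.prodMk mdifferentiable_const)
  have h2 : MDifferentiable 𝓘(ℂ, ℂ × ℂ × ℂ) 𝓘(ℂ, V)
      (fun p : ℂ × ℂ × ℂ => ψ.φ p.2.2 (φ.φ p.2.1 x)) := ψ.hol.comp (d2.prodMk h1)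
  have h3 : MDifferentiable 𝓘(ℂ, ℂ × ℂ × ℂ) 𝓘(ℂ, V)
      (fun p : ℂ × ℂ × ℂ => φ.φ (-p.1) (ψ.φ p.2.2 (φ.φ p.2.1 x))) := φ.hol.comp (d3.prodMk h2)
  exact hι.comp h3

/-- partial derivatives by means of `fderiv` -/
theorem deriv_line {K : ℂ × ℂ × ℂ → Cn N} (hK : Differentiable ℂ K) (p v : ℂ × ℂ × ℂ) :
    HasDerivAt (fun t : ℂ => K (p + t • v)) (fderiv ℂ K p v) 0 := by
  have h1 : HasDerivAt (fun t : ℂ => p + t • v) v 0 := by
    have := ((hasDerivAt_id (0 : ℂ)).smul_const v).const_add p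
    simpa using this
  have h2 : HasFDerivAt K (fderiv ℂ K p) (p + (0 : ℂ) • v) := by
    rw [zero_smul, add_zero]
    exact (hK p).hasFDerivAt
  exact h2.comp_hasDerivAt (0 : ℂ) h1

theorem second {K : ℂ × ℂ × ℂ → Cn N} (hK : Differentiable ℂ K) (u v : ℂ × ℂ × ℂ) :
    HasDerivAt (fun t : ℂ => fderiv ℂ K (t • u) v) (fderiv ℂ (fderiv ℂ K) 0 u v) 0 := by
  have hA : AnalyticOnNhd ℂ K univ := Osgood.analyticOnNhd isOpen_univ hK.differentiableOn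
  have hA' : AnalyticAt ℂ (fderiv ℂ K) 0 := (hA 0 (mem_univ _)).fderiv
  have h1 : HasDerivAt (fun t : ℂ => t • u) u 0 := by
    have := ((hasDerivAt_id (0 : ℂ)).smul_const u)
    simpa using this
  have h2 : HasFDerivAt (fderiv ℂ K) (fderiv ℂ (fderiv ℂ K) 0) ((0 : ℂ) • u) := by
    rw [zero_smul]
    exact hA'.differentiableAt.hasFDerivAt
  have h3 := h2.comp_hasDerivAt (0 : ℂ) h1
  have h4 := h3.clm_apply (hasDerivAt_const (0 : ℂ) v)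
  simpa using h4

theorem symm {K : ℂ × ℂ × ℂ → Cn N} (hK : Differentiable ℂ K) (u v : ℂ × ℂ × ℂ) :
    fderiv ℂ (fderiv ℂ K) 0 u v = fderiv ℂ (fderiv ℂ K) 0 v u := by
  have hA : AnalyticOnNhd ℂ K univ := Osgood.analyticOnNhd isOpen_univ hK.differentiableOn
  have hc : ContDiffAt ℂ ω K 0 := (hA 0 (mem_univ _)).contDiffAt
  exact (hc.isSymmSndFDerivAt le_top) u v

theorem vel_scale (c : ℂ) (x : X) : (ψ.scale c).vel ι x = c • ψ.vel ι x := by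
  unfold Flow.vel
  have := deriv_comp_mul_left (f := fun t : ℂ => ι (ψ.φ t x)) (c := c) (x := (0 : ℂ))
  rw [mul_zero] at this
  exact this

theorem vel_conj (hι : MDifferentiable 𝓘(ℂ, V) 𝓘(ℂ, Cn N) ι) (s : ℂ) (x : X) :
    (ψ.conj (φ.eqv s) (φ.isAut s)).vel ι x =
      fderiv ℂ (KK ι φ ψ x) (s • ((1, 1, 0) : ℂ × ℂ × ℂ)) (0, 0, 1) := by
  have h1 := (deriv_line (diff_KK ι φ ψ hι x) (s • ((1, 1, 0) : ℂ × ℂ × ℂ)) (0, 0, 1)).deriv
  rw [← h1]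
  unfold Flow.vel
  congr 1
  funext t
  simp only [KK, Prod.smul_mk, smul_eq_mul, mul_one, mul_zero, Prod.mk_add_mk, add_zero, zero_add]
  rfl

theorem vel_psi (hι : MDifferentiable 𝓘(ℂ, V) 𝓘(ℂ, Cn N) ι) (b : ℂ) (x : X) :
    ψ.vel ι (φ.φ b x) =
      fderiv ℂ (KK ι φ ψ x) (b • ((0, 1, 0) : ℂ × ℂ × ℂ)) (0, 0, 1) := by
  have h1 := (deriv_line (diff_KK ι φ ψ hι x) (b • ((0, 1, 0) : ℂ × ℂ × ℂ)) (0, 0, 1)).deriv
  rw [← h1]
  unfold Flow.vel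
  congr 1
  funext t
  simp only [KK, Prod.smul_mk, smul_eq_mul, mul_one, mul_zero, Prod.mk_add_mk, add_zero, zero_add,
    neg_zero, φ.zero]

theorem vel_phi (hι : MDifferentiable 𝓘(ℂ, V) 𝓘(ℂ, Cn N) ι) (t : ℂ) (x : X) :
    φ.vel ι (ψ.φ t x) =
      - fderiv ℂ (KK ι φ ψ x) (t • ((0, 0, 1) : ℂ × ℂ × ℂ)) (1, 0, 0) := by
  have h1 := (deriv_line (diff_KK ι φ ψ hι x) (t • ((0, 0, 1) : ℂ × ℂ × ℂ)) (1, 0, 0)).deriv
  rw [← h1]
  unfold Flow.vel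
  have h2 := deriv_comp_neg (fun a : ℂ => KK ι φ ψ x
    (t • ((0, 0, 1) : ℂ × ℂ × ℂ) + a • ((1, 0, 0) : ℂ × ℂ × ℂ))) (0 : ℂ)
  rw [neg_zero] at h2
  rw [← h2]
  congr 1
  funext a
  simp only [KK, Prod.smul_mk, smul_eq_mul, mul_one, mul_zero, Prod.mk_add_mk, add_zero, zero_add,
    neg_neg, φ.zero]

theorem bound (hι : MDifferentiable 𝓘(ℂ, V) 𝓘(ℂ, Cn N) ι) (K : Set X) (hK : IsCompact K) :
    ∃ C : ℝ, 0 ≤ C ∧ ∀ x ∈ K, ∀ s : ℂ, ‖s‖ ≤ 1 →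
      ‖fderiv ℂ (KK ι φ ψ x) (s • ((1, 1, 0) : ℂ × ℂ × ℂ)) (0, 0, 1)‖ ≤ C := by
  have hc := cont_KK ι φ ψ hι.continuous
  obtain ⟨C, hC⟩ := ((isCompact_closedBall (0 : ℂ × ℂ × ℂ) 1).prod hK).exists_bound_of_continuousOn
    hc.continuousOn
  refine ⟨max C 0, le_max_right _ _, fun x hx s hs => ?_⟩
  have hd := diff_KK ι φ ψ hι x
  have h1 := (deriv_line hd (s • ((1, 1, 0) : ℂ × ℂ × ℂ)) (0, 0, 1)).deriv
  rw [← h1]
  have hf : Differentiable ℂ (fun t : ℂ => KK ι φ ψ x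
      (s • ((1, 1, 0) : ℂ × ℂ × ℂ) + t • ((0, 0, 1) : ℂ × ℂ × ℂ))) :=
    hd.comp (by fun_prop)
  have h2 := Complex.norm_deriv_le_of_forall_mem_sphere_norm_le (R := 1) (c := (0 : ℂ))
    (C := max C 0) one_pos hf.diffContOnCl (fun t ht => ?_)
  · rwa [div_one] at h2
  · refine (hC ((s • ((1, 1, 0) : ℂ × ℂ × ℂ) + t • ((0, 0, 1) : ℂ × ℂ × ℂ)), x) ⟨?_, hx⟩).trans
      (le_max_left _ _)
    rw [mem_sphere_zero_iff_norm] at ht
    show _ ∈ closedBall _ _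
    rw [mem_closedBall_zero_iff]
    simp only [Prod.smul_mk, smul_eq_mul, mul_one, mul_zero, Prod.mk_add_mk, add_zero, zero_add,
      Prod.norm_def, sup_le_iff]
    exact ⟨hs, hs, ht.le⟩

end

end BrFlow

open BrFlow in
theorem s_BrFlow (_h : S_Vel) : S_BrFlow := by
  intro V _ _ _ X N ι hE φ ψ K hK ε hε
  have hι := hE.hol
  obtain ⟨C, hC0, hC⟩ := bound ι φ ψ hι K hK
  set r : ℝ := min (1 / 2) (ε / (2 * (3 * C + 1))) with hr
  have hr0 : 0 < r := lt_min (by norm_num) (by positivity)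
  have hr1 : r < 1 := lt_of_le_of_lt (min_le_left _ _) (by norm_num)
  have hr2 : 3 * C * r < ε := by
    have h1 : r ≤ ε / (2 * (3 * C + 1)) := min_le_right _ _
    rw [le_div_iff₀ (by positivity)] at h1
    nlinarith
  set s : ℂ := (r : ℂ) with hs
  have hs0 : s ≠ 0 := by
    rw [hs]
    exact_mod_cast hr0.ne'
  have hsn : ‖s‖ = r := by
    rw [hs, Complex.norm_real, Real.norm_of_nonneg hr0.le]
  refine ⟨2, ![(ψ.conj (φ.eqv s) (φ.isAut s)).scale s⁻¹, ψ.scale (-s⁻¹)], fun x hx => ?_⟩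
  rw [Fin.sum_univ_two]
  simp only [Matrix.cons_val_zero, Matrix.cons_val_one]
  rw [vel_scale, vel_scale, vel_conj ι φ ψ hι]
  set Kx := KK ι φ ψ x with hKx
  have hd : Differentiable ℂ Kx := diff_KK ι φ ψ hι x
  set g : ℂ → Cn N := fun s => fderiv ℂ Kx (s • ((1, 1, 0) : ℂ × ℂ × ℂ)) (0, 0, 1) with hg
  have hgd : Differentiable ℂ g := by
    have hA : AnalyticOnNhd ℂ Kx univ := Osgood.analyticOnNhd isOpen_univ hd.differentiableOn
    intro t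
    have hA' : DifferentiableAt ℂ (fderiv ℂ Kx) (t • ((1, 1, 0) : ℂ × ℂ × ℂ)) :=
      (hA _ (mem_univ _)).fderiv.differentiableAt
    have h1 : DifferentiableAt ℂ (fun s : ℂ => s • ((1, 1, 0) : ℂ × ℂ × ℂ)) t := by fun_prop
    have h2 := DifferentiableAt.comp t hA' h1
    exact h2.clm_apply (differentiableAt_const _)
  have hg0 : g 0 = ψ.vel ι x := by
    have := vel_psi ι φ ψ hι 0 x
    rw [φ.zero] at this
    rw [this, hg]
    simp only [zero_smul]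
    rfl
  have hder : deriv g 0 = deriv (fun b : ℂ => ψ.vel ι (φ.φ b x)) 0 -
      deriv (fun t : ℂ => φ.vel ι (ψ.φ t x)) 0 := by
    have e1 : (fun b : ℂ => ψ.vel ι (φ.φ b x)) = fun b : ℂ =>
        fderiv ℂ Kx (b • ((0, 1, 0) : ℂ × ℂ × ℂ)) (0, 0, 1) := by
      funext b; exact vel_psi ι φ ψ hι b x
    have e2 : (fun t : ℂ => φ.vel ι (ψ.φ t x)) = fun t : ℂ =>
        - fderiv ℂ Kx (t • ((0, 0, 1) : ℂ × ℂ × ℂ)) (1, 0, 0) := by
      funext t; exact vel_phi ι φ ψ hι t x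
    have e6 : deriv (fun t : ℂ => - fderiv ℂ Kx (t • ((0, 0, 1) : ℂ × ℂ × ℂ)) (1, 0, 0)) 0 =
        - fderiv ℂ (fderiv ℂ Kx) 0 (0, 0, 1) (1, 0, 0) :=
      (second hd (0, 0, 1) (1, 0, 0)).neg.deriv
    have e7 : deriv g 0 = fderiv ℂ (fderiv ℂ Kx) 0 (1, 1, 0) (0, 0, 1) :=
      (second hd (1, 1, 0) (0, 0, 1)).deriv
    rw [e1, e2, (second hd (0, 1, 0) (0, 0, 1)).deriv, e6, e7, symm hd (0, 0, 1) (1, 0, 0)]
    have e3 : ((1, 1, 0) : ℂ × ℂ × ℂ) = (0, 1, 0) + (1, 0, 0) := by simp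
    rw [e3, map_add]
    simp
  rw [← hder, ← hg0]
  have hq := quad hgd (C := C) (fun t ht => hC x hx t ht) (s := s) (by rw [hsn]; exact hr1)
  have e4 : deriv g 0 - (s⁻¹ • fderiv ℂ Kx (s • ((1, 1, 0) : ℂ × ℂ × ℂ)) (0, 0, 1) +
      -s⁻¹ • g 0) = -(s⁻¹ • (g s - g 0 - s • deriv g 0)) := by
    have e5 : fderiv ℂ Kx (s • ((1, 1, 0) : ℂ × ℂ × ℂ)) (0, 0, 1) = g s := rfl
    rw [e5, smul_sub, smul_sub, smul_smul, inv_mul_cancel₀ hs0, one_smul, neg_smul]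
    abel
  rw [e4, norm_neg, norm_smul, norm_inv, hsn]
  rw [hsn] at hq
  calc r⁻¹ * ‖g s - g 0 - s • deriv g 0‖ ≤ r⁻¹ * (3 * C * r ^ 2) := by gcongr
    _ = 3 * C * r := by field_simp
    _ < ε := hr2

end Pool.Agent.Lib.MP_c2a04f_an
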