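import Pool.Agent.Lib.MP_c2a04f_an.SpecA
import Pool.Agent.Lib.Osgood

/-!
# B1 Bracket: the Lie bracket in `ℂᴺ`
-/

set_option autoImplicit false

open scoped Manifold ContDiff Topology
open Set Filter

namespace Pool.Agent.Lib.MP_c2a04f_an

open Pool.Agent.Lib.MP_55bc5f_an

namespace BracketAux

/-- The formula in a vector space. -/
theorem vec {E F : Type} [NormedAddCommGroup E] [NormedSpace ℂ E] [NormedAddCommGroup F]
    [NormedSpace ℂ F] (G : E → F) (a b : E → E) (u : E) (hG : ContDiffAt ℂ 2 G u)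
    (ha : DifferentiableAt ℂ a u) (hb : DifferentiableAt ℂ b u) :
    fderiv ℂ G u (VectorField.lieBracket ℂ a b u)
      = fderiv ℂ (fun y => fderiv ℂ G y (b y)) u (a u)
        - fderiv ℂ (fun y => fderiv ℂ G y (a y)) u (b u) := by
  have h1 : ContDiffAt ℂ 1 (fderiv ℂ G) u := hG.fderiv_right (by norm_num)
  have h2 : DifferentiableAt ℂ (fderiv ℂ G) u := h1.differentiableAt (by norm_num)
  have h3 : ∀ c : E → E, DifferentiableAt ℂ c u → ∀ z : E,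
      fderiv ℂ (fun y => fderiv ℂ G y (c y)) u z
        = fderiv ℂ G u (fderiv ℂ c u z) + fderiv ℂ (fderiv ℂ G) u z (c u) := by
    intro c hc z
    have h4 := h2.hasFDerivAt.clm_apply hc.hasFDerivAt
    rw [h4.fderiv]
    simp
  have hsymm : IsSymmSndFDerivAt ℂ G u := hG.isSymmSndFDerivAt (by simp)
  rw [h3 b hb, h3 a ha, VectorField.lieBracket_eq]
  have h5 := hsymm.eq (a u) (b u)
  rw [h5]
  simp only [map_sub]
  abel

section

variable {V : Type} [NormedAddCommGroup V] [NormedSpace ℂ V] {X : CMan V} {N : ℕ}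

/-- The derivative of a function in a chart. -/
theorem chart_fderiv (f : X → Cn N) (x₀ : X) (u : V) (hu : u ∈ (extChartAt 𝓘(ℂ, V) x₀).target)
    (hf : MDifferentiableAt 𝓘(ℂ, V) 𝓘(ℂ, Cn N) f ((extChartAt 𝓘(ℂ, V) x₀).symm u)) (z : V) :
    DifferentiableAt ℂ (fun y => f ((extChartAt 𝓘(ℂ, V) x₀).symm y)) u ∧
    fderiv ℂ (fun y => f ((extChartAt 𝓘(ℂ, V) x₀).symm y)) u z
      = mfderiv 𝓘(ℂ, V) 𝓘(ℂ, Cn N) f ((extChartAt 𝓘(ℂ, V) x₀).symm u)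
        (mfderivWithin 𝓘(ℂ, V) 𝓘(ℂ, V) (extChartAt 𝓘(ℂ, V) x₀).symm (range 𝓘(ℂ, V)) u z) := by
  have h1 : MDifferentiableWithinAt 𝓘(ℂ, V) 𝓘(ℂ, V) (extChartAt 𝓘(ℂ, V) x₀).symm
      (range 𝓘(ℂ, V)) u := mdifferentiableWithinAt_extChartAt_symm hu
  have h2 := hf.hasMFDerivAt.comp_hasMFDerivWithinAt u h1.hasMFDerivWithinAt
  have h3 : (range 𝓘(ℂ, V) : Set V) = univ := ModelWithCorners.range_eq_univ _
  obtain ⟨L, hL⟩ : ∃ L : V →L[ℂ] Cn N, L =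
      (mfderiv 𝓘(ℂ, V) 𝓘(ℂ, Cn N) f ((extChartAt 𝓘(ℂ, V) x₀).symm u)).comp
        (mfderivWithin 𝓘(ℂ, V) 𝓘(ℂ, V) (extChartAt 𝓘(ℂ, V) x₀).symm (range 𝓘(ℂ, V)) u) :=
    ⟨_, rfl⟩
  have h4 : HasFDerivAt (fun y => f ((extChartAt 𝓘(ℂ, V) x₀).symm y)) L u := by
    have h5 := h2
    rw [← hL, h3, hasMFDerivWithinAt_univ] at h5
    exact h5.hasFDerivAt
  refine ⟨h4.differentiableAt, ?_⟩
  rw [h4.fderiv, hL]
  rfl

/-- The vector field in the chart at `x₀`. -/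
noncomputable def loc (x₀ : X) (v : (x : X) → TangentSpace 𝓘(ℂ, V) x) (u : V) : V :=
  VectorField.mpullbackWithin 𝓘(ℂ, V) 𝓘(ℂ, V) (extChartAt 𝓘(ℂ, V) x₀).symm v
    (range 𝓘(ℂ, V)) u

theorem chart_dF (f : X → Cn N) (x₀ : X) (u : V) (hu : u ∈ (extChartAt 𝓘(ℂ, V) x₀).target)
    (hf : MDifferentiableAt 𝓘(ℂ, V) 𝓘(ℂ, Cn N) f ((extChartAt 𝓘(ℂ, V) x₀).symm u))
    (v : (x : X) → TangentSpace 𝓘(ℂ, V) x) :
    fderiv ℂ (fun y => f ((extChartAt 𝓘(ℂ, V) x₀).symm y)) u (loc x₀ v u)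
      = dF f ((extChartAt 𝓘(ℂ, V) x₀).symm u) (v ((extChartAt 𝓘(ℂ, V) x₀).symm u)) := by
  rw [(chart_fderiv f x₀ u hu hf (loc x₀ v u)).2]
  have hinv : (mfderivWithin 𝓘(ℂ, V) 𝓘(ℂ, V) (extChartAt 𝓘(ℂ, V) x₀).symm
      (range 𝓘(ℂ, V)) u).IsInvertible := isInvertible_mfderivWithin_extChartAt_symm hu
  unfold dF
  congr 1
  exact hinv.self_apply_inverse _

theorem loc_diff [FiniteDimensional ℂ V] (x₀ : X) (v : (x : X) → TangentSpace 𝓘(ℂ, V) x)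
    (hv : IsHolField X v) :
    DifferentiableAt ℂ (loc x₀ v) (extChartAt 𝓘(ℂ, V) x₀ x₀) := by
  have : CompleteSpace V := FiniteDimensional.complete ℂ V
  have h2 : IsManifold 𝓘(ℂ, V) 2 X := IsManifold.of_le (n := ω) (by simp)
  have h1 := (hv x₀).mdifferentiableWithinAt (s := univ)
  have h3 := h1.differentiableWithinAt_mpullbackWithin_vectorField
  have h4 : ((extChartAt 𝓘(ℂ, V) x₀).symm ⁻¹' univ ∩ range 𝓘(ℂ, V) : Set V) = univ := by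
    rw [ModelWithCorners.range_eq_univ, preimage_univ, univ_inter]
  rw [h4, differentiableWithinAt_univ] at h3
  exact h3

end

end BracketAux

open BracketAux in
theorem s_Bracket : S_Bracket := by
  intro V _ _ _ X N ι hι v w hv hw x₀
  have hcV : CompleteSpace V := FiniteDimensional.complete ℂ V
  obtain ⟨u₀, hu₀⟩ : ∃ u₀ : V, u₀ = extChartAt 𝓘(ℂ, V) x₀ x₀ := ⟨_, rfl⟩
  have htar : u₀ ∈ (extChartAt 𝓘(ℂ, V) x₀).target := by
    rw [hu₀]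
    exact mem_extChartAt_target x₀
  have hopen : IsOpen (extChartAt 𝓘(ℂ, V) x₀).target := isOpen_extChartAt_target x₀
  have hsymm : (extChartAt 𝓘(ℂ, V) x₀).symm u₀ = x₀ := by
    rw [hu₀]
    exact extChartAt_to_inv x₀
  -- the embedding in the chart
  set G : V → Cn N := fun y => ι ((extChartAt 𝓘(ℂ, V) x₀).symm y) with hG
  have hGd : DifferentiableOn ℂ G (extChartAt 𝓘(ℂ, V) x₀).target := by
    intro u hu
    exact (chart_fderiv ι x₀ u hu (hι.hol _) 0).1.differentiableWithinAt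
  have hGan : AnalyticAt ℂ G u₀ := Pool.Agent.Lib.Osgood.analyticOnNhd hopen hGd u₀ htar
  have hGc : ContDiffAt ℂ 2 G u₀ := hGan.contDiffAt
  have hG1 : DifferentiableAt ℂ (fderiv ℂ G) u₀ :=
    (hGc.fderiv_right (m := 1) (by norm_num)).differentiableAt (by norm_num)
  have hloc : ∀ a : (x : X) → TangentSpace 𝓘(ℂ, V) x, IsHolField X a →
      DifferentiableAt ℂ (loc x₀ a) u₀ := by
    intro a ha
    rw [hu₀]
    exact loc_diff x₀ a ha
  -- the derivative of `dι(a)` in the direction `b`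
  have key : ∀ a b : (x : X) → TangentSpace 𝓘(ℂ, V) x, IsHolField X a →
      dF (fun y => dF ι y (a y)) x₀ (b x₀)
        = fderiv ℂ (fun y => fderiv ℂ G y (loc x₀ a y)) u₀ (loc x₀ b u₀) := by
    intro a b ha
    have hev : (fun y => (fun z => dF ι z (a z)) ((extChartAt 𝓘(ℂ, V) x₀).symm y))
        =ᶠ[𝓝 u₀] fun y => fderiv ℂ G y (loc x₀ a y) := by
      filter_upwards [hopen.mem_nhds htar] with u hu
      exact (chart_dF ι x₀ u hu (hι.hol _) a).symm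
    have hdiff : DifferentiableAt ℂ (fun y => fderiv ℂ G y (loc x₀ a y)) u₀ :=
      hG1.clm_apply (hloc a ha)
    have hdiff' : DifferentiableAt ℂ
        (fun y => (fun z => dF ι z (a z)) ((extChartAt 𝓘(ℂ, V) x₀).symm y)) u₀ :=
      hdiff.congr_of_eventuallyEq hev
    have hmd : MDifferentiableAt 𝓘(ℂ, V) 𝓘(ℂ, Cn N) (fun z => dF ι z (a z)) x₀ := by
      have h1 : MDifferentiableAt 𝓘(ℂ, V) 𝓘(ℂ, V) (extChartAt 𝓘(ℂ, V) x₀) x₀ :=
        mdifferentiableAt_extChartAt (mem_chart_source V x₀)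
      have h2 : MDifferentiableAt 𝓘(ℂ, V) 𝓘(ℂ, Cn N)
          (fun y => (fun z => dF ι z (a z)) ((extChartAt 𝓘(ℂ, V) x₀).symm y))
          (extChartAt 𝓘(ℂ, V) x₀ x₀) := by
        rw [← hu₀]
        exact hdiff'.mdifferentiableAt
      have h3 := h2.comp x₀ h1
      refine h3.congr_of_eventuallyEq ?_
      filter_upwards [extChartAt_source_mem_nhds (I := 𝓘(ℂ, V)) x₀] with z hz
      have h4 : (extChartAt 𝓘(ℂ, V) x₀).symm (extChartAt 𝓘(ℂ, V) x₀ z) = z :=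
        (extChartAt 𝓘(ℂ, V) x₀).left_inv hz
      exact (congrArg (fun z => dF ι z (a z)) h4).symm
    have h5 := chart_dF (fun z => dF ι z (a z)) x₀ u₀ htar (by rw [hsymm]; exact hmd) b
    have h6 : dF (fun y => dF ι y (a y)) ((extChartAt 𝓘(ℂ, V) x₀).symm u₀)
        (b ((extChartAt 𝓘(ℂ, V) x₀).symm u₀)) = dF (fun y => dF ι y (a y)) x₀ (b x₀) :=
      congrArg (fun z => dF (fun y => dF ι y (a y)) z (b z)) hsymm
    rw [← h6, ← h5, hev.fderiv_eq]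
  rw [key w v hw, key v w hv, ← vec G (loc x₀ v) (loc x₀ w) u₀ hGc (hloc v hv) (hloc w hw)]
  -- the bracket
  obtain ⟨B, hB⟩ : ∃ B : V, B = VectorField.lieBracket ℂ (loc x₀ v) (loc x₀ w) u₀ := ⟨_, rfl⟩
  rw [← hB]
  have hbr : VectorField.mlieBracket 𝓘(ℂ, V) v w x₀
      = (mfderiv 𝓘(ℂ, V) 𝓘(ℂ, V) (extChartAt 𝓘(ℂ, V) x₀) x₀).inverse B := by
    rw [← VectorField.mlieBracketWithin_univ, VectorField.mlieBracketWithin_apply, hB]
    have h4 : ((extChartAt 𝓘(ℂ, V) x₀).symm ⁻¹' univ ∩ range 𝓘(ℂ, V) : Set V) = univ := by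
      rw [ModelWithCorners.range_eq_univ, preimage_univ, univ_inter]
    rw [h4, VectorField.lieBracketWithin_univ, ← hu₀]
    rfl
  have hinv := isInvertible_mfderiv_extChartAt (I := 𝓘(ℂ, V)) (mem_extChartAt_source (I := 𝓘(ℂ, V)) x₀)
  obtain ⟨D, hD⟩ : ∃ D : V →L[ℂ] V, D = mfderivWithin 𝓘(ℂ, V) 𝓘(ℂ, V)
      (extChartAt 𝓘(ℂ, V) x₀).symm (range 𝓘(ℂ, V)) u₀ := ⟨_, rfl⟩
  have hDB : (mfderiv 𝓘(ℂ, V) 𝓘(ℂ, V) (extChartAt 𝓘(ℂ, V) x₀) x₀).inverse B = D B := by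
    rw [hinv.inverse_apply_eq]
    have h7 := mfderiv_extChartAt_comp_mfderivWithin_extChartAt_symm' (I := 𝓘(ℂ, V))
      (mem_extChartAt_source (I := 𝓘(ℂ, V)) x₀)
    rw [← hu₀] at h7
    have h8 := congrArg (fun L : V →L[ℂ] V => L B) h7
    rw [hD]
    exact h8.symm
  rw [hbr, hDB, (chart_fderiv ι x₀ u₀ htar (hι.hol _) B).2, ← hD]
  have h9 : ∀ (z z' : X), z = z' → (mfderiv 𝓘(ℂ, V) 𝓘(ℂ, Cn N) ι z : V →L[ℂ] Cn N) (D B)
      = (mfderiv 𝓘(ℂ, V) 𝓘(ℂ, Cn N) ι z' : V →L[ℂ] Cn N) (D B) := by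
    rintro z z' rfl
    rfl
  exact h9 _ _ hsymm.symm

end Pool.Agent.Lib.MP_c2a04f_an
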