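import Mathlib
import Pool.Agent.Lib.Osgood
import Pool.Agent.Lib.MP_c2a04f_an.SpecA

/-!
# A5 Cauchy: Cauchy estimates for the derivative
-/

set_option autoImplicit false
set_option maxSynthPendingDepth 3

open scoped Manifold ContDiff Topology
open Set Filter Metric

namespace Pool.Agent.Lib.MP_c2a04f_an

open Pool.Agent.Lib.MP_55bc5f_an

namespace CauchyAux

variable {V : Type} [NormedAddCommGroup V] [NormedSpace ℂ V] {X : CMan V} {N : ℕ}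

/-- The estimate on the set `s` with the constant `C`. -/
def Est (X : CMan V) {N : ℕ} (ι : X → Cn N) (K' : Set X) (s : Set X) (C : ℝ) : Prop :=
  ∀ (N' : ℕ) (b : X → Cn N') (β : ℝ),
    MDifferentiable 𝓘(ℂ, V) 𝓘(ℂ, Cn N') b → 0 ≤ β → (∀ x ∈ K', ‖b x‖ ≤ β) →
    ∀ x ∈ s, ∀ u : TangentSpace 𝓘(ℂ, V) x, ‖dF b x u‖ ≤ C * β * ‖dF ι x u‖

lemma est_mono {ι : X → Cn N} {K' s t : Set X} {C D : ℝ} (hst : s ⊆ t) (hCD : C ≤ D)
    (h : Est X ι K' t C) : Est X ι K' s D := by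
  intro N' b β hb hβ hK x hx u
  refine (h N' b β hb hβ hK x (hst hx) u).trans ?_
  have h1 : (0 : ℝ) ≤ ‖dF ι x u‖ := norm_nonneg _
  exact mul_le_mul_of_nonneg_right (mul_le_mul_of_nonneg_right hCD hβ) h1

lemma dF_comp {ι : X → Cn N} (hι : MDifferentiable 𝓘(ℂ, V) 𝓘(ℂ, Cn N) ι) {N' : ℕ}
    {b : X → Cn N'} {g : Cn N → Cn N'} {x : X} (hg : DifferentiableAt ℂ g (ι x))
    (he : ∀ᶠ y in 𝓝 x, b y = g (ι y)) (u : TangentSpace 𝓘(ℂ, V) x) :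
    dF b x u = fderiv ℂ g (ι x) (dF ι x u) := by
  have h1 : HasMFDerivAt 𝓘(ℂ, V) 𝓘(ℂ, Cn N) ι x (mfderiv 𝓘(ℂ, V) 𝓘(ℂ, Cn N) ι x) :=
    (hι x).hasMFDerivAt
  have h2 : HasMFDerivAt 𝓘(ℂ, Cn N) 𝓘(ℂ, Cn N') g (ι x) (fderiv ℂ g (ι x)) :=
    hg.hasFDerivAt.hasMFDerivAt
  have h3 := HasMFDerivAt.comp x h2 h1
  have h4 := h3.congr_of_eventuallyEq (f₁ := b) he
  unfold dF
  rw [h4.mfderiv]
  rfl

lemma local_est (h : S_Rho) [FiniteDimensional ℂ V] {ι : X → Cn N} (hι : Emb X ι) (K' : Set X)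
    (x₀ : X) (hx₀ : K' ∈ 𝓝 x₀) : ∃ C : ℝ, 0 ≤ C ∧ ∃ U ∈ 𝓝 x₀, Est X ι K' U C := by
  obtain ⟨r, ρ, hr, h1, -, h3⟩ := h V X N ι hι x₀ K' hx₀
  have hcont : Continuous ι := hι.hol.continuous
  refine ⟨2 / r, by positivity, {x | ‖ι x - ι x₀‖ < r / 2}, ?_, ?_⟩
  · refine IsOpen.mem_nhds ?_ ?_
    · exact isOpen_lt (hcont.sub continuous_const).norm continuous_const
    · simp [hr]
  intro N' b β hb hβ hK x hx u
  have hx' : ‖ι x - ι x₀‖ < r / 2 := hx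
  obtain ⟨g, hg⟩ : ∃ g : Cn N → Cn N', g = fun w => b (ρ w) := ⟨_, rfl⟩
  have hgd : DifferentiableOn ℂ g (ball (ι x₀) r) := by
    intro w hw
    rw [hg]
    have h5 : MDifferentiableAt 𝓘(ℂ, Cn N) 𝓘(ℂ, Cn N') (fun w => b (ρ w)) w :=
      MDifferentiableAt.comp w (hb _) (h1 w hw).1
    exact h5.differentiableAt.differentiableWithinAt
  have hgb : ∀ w ∈ ball (ι x₀) r, ‖g w‖ ≤ β := by
    intro w hw
    rw [hg]
    exact hK _ (h1 w hw).2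
  have hxm : ι x ∈ closedBall (ι x₀) (r / 2) := by
    rw [mem_closedBall, dist_eq_norm]
    exact hx'.le
  have hxb : ι x ∈ ball (ι x₀) r := by
    rw [mem_ball, dist_eq_norm]
    linarith
  have h6 : ‖fderiv ℂ g (ι x)‖ ≤ β / (r - r / 2) :=
    Osgood.norm_fderiv_le' (by linarith) hgd hgb hxm
  have h7 : ∀ᶠ y in 𝓝 x, b y = g (ι y) := by
    have h8 : ∀ᶠ y in 𝓝 x, ‖ι y - ι x₀‖ < r :=
      IsOpen.mem_nhds (isOpen_lt (hcont.sub continuous_const).norm continuous_const)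
        (by show ‖ι x - ι x₀‖ < r; linarith)
    filter_upwards [h8] with y hy
    rw [hg]
    show b y = b (ρ (ι y))
    rw [h3 y hy]
  rw [dF_comp hι.hol ((hgd _ hxb).differentiableAt (isOpen_ball.mem_nhds hxb)) h7 u]
  refine (ContinuousLinearMap.le_opNorm _ _).trans ?_
  have h9 : (0 : ℝ) ≤ ‖dF ι x u‖ := norm_nonneg _
  refine mul_le_mul_of_nonneg_right (h6.trans (le_of_eq ?_)) h9
  field_simp
  ring

end CauchyAux

open CauchyAux in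
theorem s_Cauchy (h : S_Rho) : S_Cauchy := by
  intro V _ _ _ X N ι hι K K' hK hKK'
  refine IsCompact.induction_on (p := fun s => ∃ C : ℝ, 0 ≤ C ∧ Est X ι K' s C) hK ?_ ?_ ?_ ?_
  · exact ⟨0, le_rfl, fun N' b β _ _ _ x hx => absurd hx (Set.notMem_empty x)⟩
  · rintro s t hst ⟨C, hC, hE⟩
    exact ⟨C, hC, est_mono hst le_rfl hE⟩
  · rintro s t ⟨C, hC, hE⟩ ⟨D, hD, hF⟩
    refine ⟨max C D, le_max_of_le_left hC, ?_⟩
    intro N' b β hb hβ hK x hx u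
    rcases hx with hx | hx
    · exact est_mono (Subset.refl s) (le_max_left C D) hE N' b β hb hβ hK x hx u
    · exact est_mono (Subset.refl t) (le_max_right C D) hF N' b β hb hβ hK x hx u
  · intro x hx
    obtain ⟨C, hC, U, hU, hE⟩ := local_est h hι K' x (mem_interior_iff_mem_nhds.1 (hKK' hx))
    exact ⟨U, mem_nhdsWithin_of_mem_nhds hU, C, hC, hE⟩

end Pool.Agent.Lib.MP_c2a04f_an
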