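import Mathlib
import Pool.Agent.Lib.MP_c2a04f_an.SpecC
import Pool.Agent.Lib.Osgood

/-!
# MP_c2a04f_an, F5: the derivative as a combination of global fields
-/

set_option autoImplicit false

open scoped Manifold ContDiff Topology
open Set Filter Metric

namespace Pool.Agent.Lib.MP_c2a04f_an

open Pool.Agent.Lib.MP_55bc5f_an

/-- a neighbourhood of `K` on which everything is fine -/
theorem coef_nbhd {V : Type} [NormedAddCommGroup V] [NormedSpace ℂ V] {X : CMan V} {n : ℕ}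
    {K : Set (Cn n)} {f : Cn n → X} {S : Finset X} (hK : IsCompact K) (hf : HolN X f K)
    (hS : ∀ z ∈ K, f z ∉ S) : ∃ ϱ > (0 : ℝ), ∀ z ∈ cthickening ϱ K,
      (∀ᶠ w in 𝓝 z, MDifferentiableAt 𝓘(ℂ, Cn n) 𝓘(ℂ, V) f w) ∧ f z ∉ S := by
  have hO : IsOpen {z : Cn n | ∀ᶠ w in 𝓝 z,
      MDifferentiableAt 𝓘(ℂ, Cn n) 𝓘(ℂ, V) f w ∧ f w ∉ S} := isOpen_setOfPred_eventually_nhds
  have hKO : K ⊆ {z : Cn n | ∀ᶠ w in 𝓝 z,
      MDifferentiableAt 𝓘(ℂ, Cn n) 𝓘(ℂ, V) f w ∧ f w ∉ S} := by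
    intro z hz
    have h1 := hf z hz
    have h2 : ContinuousAt f z := h1.self_of_nhds.continuousAt
    have h3 : IsOpen ((S : Set X)ᶜ) := S.finite_toSet.isClosed.isOpen_compl
    have h4 : f z ∈ ((S : Set X)ᶜ) := fun h => hS z hz (Finset.mem_coe.1 h)
    have h5 := h2.preimage_mem_nhds (h3.mem_nhds h4)
    filter_upwards [h1, h5] with w hw1 hw2
    exact ⟨hw1, fun h => hw2 (Finset.mem_coe.2 h)⟩
  obtain ⟨ϱ, hϱ, hsub⟩ := hK.exists_cthickening_subset_open hO hKO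
  exact ⟨ϱ, hϱ, fun z hz => ⟨(hsub hz).mono fun w hw => hw.1, (hsub hz).self_of_nhds.2⟩⟩

/-- chain rule -/
theorem coef_chain {V : Type} [NormedAddCommGroup V] [NormedSpace ℂ V] {X : CMan V} {n N : ℕ}
    {ι : X → Cn N} (hι : Emb X ι) {f : Cn n → X} {ζ : Cn n}
    (hf : MDifferentiableAt 𝓘(ℂ, Cn n) 𝓘(ℂ, V) f ζ) :
    DifferentiableAt ℂ (fun w => ι (f w)) ζ ∧ ∀ v : Cn n,
      ∃ u : TangentSpace 𝓘(ℂ, V) (f ζ), dF ι (f ζ) u = fderiv ℂ (fun w => ι (f w)) ζ v := by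
  have h1 : MDifferentiableAt 𝓘(ℂ, V) 𝓘(ℂ, Cn N) ι (f ζ) := hι.hol (f ζ)
  have h2 : MDifferentiableAt 𝓘(ℂ, Cn n) 𝓘(ℂ, Cn N) (ι ∘ f) ζ := h1.comp ζ hf
  refine ⟨mdifferentiableAt_iff_differentiableAt.1 h2, fun v =>
    ⟨mfderiv 𝓘(ℂ, Cn n) 𝓘(ℂ, V) f ζ v, ?_⟩⟩
  have h3 := mfderiv_comp ζ h1 hf
  have h4 : fderiv ℂ (ι ∘ f) ζ = mfderiv 𝓘(ℂ, Cn n) 𝓘(ℂ, Cn N) (ι ∘ f) ζ :=
    mfderiv_eq_fderiv.symm
  change dF ι (f ζ) _ = fderiv ℂ (ι ∘ f) ζ v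
  rw [h4, h3]
  rfl

theorem coef_runge (h3 : S_Runge) {n N : ℕ} {K : Set (Cn n)} (hK : IsCompact K)
    (hc : Convex ℝ K) {G : Cn n → Cn N}
    (hG : ∀ z ∈ K, ∀ᶠ w in 𝓝 z, DifferentiableAt ℂ G w) {ε : ℝ} (hε : 0 < ε) :
    ∃ P : Cn n → Cn N, Differentiable ℂ P ∧ ∀ z ∈ K, ‖P z - G z‖ ≤ ε := by
  have h : ∀ k : Fin N, ∃ g : Cn n → ℂ, Differentiable ℂ g ∧ ∀ z ∈ K, ‖g z - G z k‖ ≤ ε := by
    intro k
    refine h3 n K (fun z => G z k) hK hc (fun z hz => ?_) ε hε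
    filter_upwards [hG z hz] with w hw
    exact differentiableAt_pi.1 hw k
  choose g hg1 hg2 using h
  refine ⟨fun z k => g k z, differentiable_pi.2 hg1, fun z hz => ?_⟩
  rw [pi_norm_le_iff_of_nonneg hε.le]
  exact fun k => hg2 k z hz

theorem coef_cauchy {n N : ℕ} {K : Set (Cn n)} {G : Cn n → Cn N} {ϱ M : ℝ} (hϱ : 0 < ϱ)
    (hG : ∀ z ∈ cthickening ϱ K, DifferentiableAt ℂ G z)
    (hM : ∀ z ∈ cthickening ϱ K, ‖G z‖ ≤ M) {ζ : Cn n} (hζ : ζ ∈ K) :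
    ‖fderiv ℂ G ζ‖ ≤ M / ϱ := by
  have hsub : ball ζ ϱ ⊆ cthickening ϱ K :=
    (ball_subset_thickening hζ ϱ).trans (thickening_subset_cthickening ϱ K)
  exact Osgood.norm_fderiv_le hϱ (fun z hz => (hG z (hsub hz)).differentiableWithinAt)
    fun w hw => hM w (hsub hw)

/-- the algebra of the last step -/
theorem coef_alg {r N : ℕ} {D B c δ₂ B₁ : ℝ} (hB : 0 ≤ B) (hB₁ : 0 ≤ B₁) (hδ₂ : 0 ≤ δ₂)
    (hc : 0 ≤ c)
    {g φ : Fin r → ℂ} {u w : Cn N} {v : Fin r → Fin N → Cn N} (hu : ‖u‖ ≤ D)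
    (huw : ‖u - w‖ ≤ δ₂ * c) (hg : ∀ j, ‖g j‖ ≤ B) (hφ : ‖(∑ j, g j * φ j) - 1‖ ≤ δ₂)
    (hv : ∀ j k, ‖v j k‖ ≤ B₁) (hfr : ∀ j, φ j • u = ∑ k, u k • v j k) :
    ‖u - ∑ j, ∑ k, (g j * w k) • v j k‖ ≤ δ₂ * (D + r * N * B * c * B₁) := by
  have h1 : u - ∑ j, ∑ k, (g j * w k) • v j k =
      -(((∑ j, g j * φ j) - 1) • u) + ∑ j, ∑ k, (g j * (u k - w k)) • v j k := by
    have h2 : ∀ j, ∑ k, (g j * (u k - w k)) • v j k =
        (g j * φ j) • u - ∑ k, (g j * w k) • v j k := by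
      intro j
      rw [mul_smul, hfr j, Finset.smul_sum, ← Finset.sum_sub_distrib]
      refine Finset.sum_congr rfl fun k _ => ?_
      rw [smul_smul, mul_sub, sub_smul]
    rw [Finset.sum_congr rfl fun j _ => h2 j, Finset.sum_sub_distrib, ← Finset.sum_smul,
      sub_smul, one_smul]
    abel
  rw [h1]
  have h3 : ‖-(((∑ j, g j * φ j) - 1) • u)‖ ≤ δ₂ * D := by
    rw [norm_neg, norm_smul]
    exact mul_le_mul hφ hu (norm_nonneg _) hδ₂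
  have h4 : ∀ j k, ‖(g j * (u k - w k)) • v j k‖ ≤ B * (δ₂ * c) * B₁ := by
    intro j k
    rw [norm_smul, norm_mul]
    refine mul_le_mul (mul_le_mul (hg j) ?_ (norm_nonneg _) hB) (hv j k) (norm_nonneg _)
      (by positivity)
    exact (norm_le_pi_norm (u - w) k).trans huw
  have h5 : ‖∑ j, ∑ k, (g j * (u k - w k)) • v j k‖ ≤ ∑ _j : Fin r, ∑ _k : Fin N,
      B * (δ₂ * c) * B₁ :=
    (norm_sum_le _ _).trans (Finset.sum_le_sum fun j _ =>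
      (norm_sum_le _ _).trans (Finset.sum_le_sum fun k _ => h4 j k))
  simp only [Finset.sum_const, Finset.card_univ, Fintype.card_fin, nsmul_eq_mul] at h5
  calc ‖-(((∑ j, g j * φ j) - 1) • u) + ∑ j, ∑ k, (g j * (u k - w k)) • v j k‖
      ≤ δ₂ * D + r * (N * (B * (δ₂ * c) * B₁)) := (norm_add_le _ _).trans (add_le_add h3 h5)
    _ = _ := by ring

theorem s_Coef (h1 : S_FieldsS) (h2 : S_Null) (h3 : S_Runge) : S_Coef := by
  intro V _ _ _ X N ι hι hFr n K z₀ f S hK hKc hz₀ hf hS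
  obtain ⟨ϱ, hϱ, hK₁⟩ := coef_nbhd hK hf hS
  have hK₁c : IsCompact (cthickening ϱ K) := hK.cthickening
  have hK₁v : Convex ℝ (cthickening ϱ K) := hKc.cthickening ϱ
  have hKK₁ : K ⊆ cthickening ϱ K := self_subset_cthickening K
  have hfc : ContinuousOn f (cthickening ϱ K) := fun z hz =>
    (hK₁ z hz).1.self_of_nhds.continuousAt.continuousWithinAt
  have hC : IsCompact (f '' cthickening ϱ K) := hK₁c.image_of_continuousOn hfc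
  have hCS : Disjoint (f '' cthickening ϱ K) (S : Set X) := by
    rw [Set.disjoint_left]
    rintro _ ⟨z, hz, rfl⟩ hzS
    exact (hK₁ z hz).2 (Finset.mem_coe.1 hzS)
  obtain ⟨r, F, v, hF, hv, hvS, hFC, hfr⟩ := h1 V X N ι hι hFr S _ hC hCS
  have hGe : ∀ z ∈ cthickening ϱ K, ∀ᶠ w in 𝓝 z, DifferentiableAt ℂ (fun w => ι (f w)) w :=
    fun z hz => (hK₁ z hz).1.mono fun w hw => (coef_chain hι hw).1
  have hG : ∀ z ∈ cthickening ϱ K, DifferentiableAt ℂ (fun w => ι (f w)) z :=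
    fun z hz => (hGe z hz).self_of_nhds
  obtain ⟨B, hB, hnull⟩ := h2 n _ hK₁c hK₁v ⟨z₀, hKK₁ hz₀⟩ r (fun j w => F j (f w))
    (fun j z hz => (hK₁ z hz).1.mono fun w hw =>
      mdifferentiableAt_iff_differentiableAt.1 ((hF j (f w)).comp w hw))
    (fun z hz => hFC (f z) ⟨z, hz, rfl⟩)
  -- bounds
  obtain ⟨M, hM⟩ : ∃ M : ℝ, ∀ z ∈ cthickening ϱ K, ‖ι (f z)‖ ≤ M :=
    hK₁c.exists_bound_of_continuousOn fun z hz => (hG z hz).continuousAt.continuousWithinAt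
  obtain ⟨R, hR⟩ : ∃ R : ℝ, ∀ z ∈ K, ‖z - z₀‖ ≤ R :=
    hK.exists_bound_of_continuousOn (by fun_prop)
  have hR0 : 0 ≤ R := (norm_nonneg _).trans (hR z₀ hz₀)
  have hM0 : 0 ≤ M := (norm_nonneg _).trans (hM z₀ (hKK₁ hz₀))
  have hB₁' : ∀ p : Fin r × Fin N, ∃ b : ℝ, ∀ x ∈ f '' cthickening ϱ K, ‖v p.1 p.2 x‖ ≤ b :=
    fun p => hC.exists_bound_of_continuousOn (hv p.1 p.2).hol.continuous.continuousOn
  choose b hb using hB₁'
  obtain ⟨B₁, hB₁⟩ : ∃ B₁ : ℝ, B₁ = ∑ p, |b p| := ⟨_, rfl⟩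
  have hB₁0 : 0 ≤ B₁ := by
    rw [hB₁]
    exact Finset.sum_nonneg fun _ _ => abs_nonneg _
  have hvB : ∀ j k, ∀ x ∈ f '' cthickening ϱ K, ‖v j k x‖ ≤ B₁ := by
    intro j k x hx
    refine (hb (j, k) x hx).trans ((le_abs_self _).trans ?_)
    rw [hB₁]
    exact Finset.single_le_sum (f := fun p => |b p|) (fun _ _ => abs_nonneg _)
      (Finset.mem_univ (j, k))
  obtain ⟨D, hD⟩ : ∃ D : ℝ, D = M / ϱ * R := ⟨_, rfl⟩
  have hD0 : 0 ≤ D := by rw [hD]; positivity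
  obtain ⟨c, hc⟩ : ∃ c : ℝ, c = R / ϱ := ⟨_, rfl⟩
  have hc0 : 0 ≤ c := by rw [hc]; positivity
  refine ⟨r * N, fun i => v (finProdFinEquiv.symm i).1 (finProdFinEquiv.symm i).2, B * (D + 1),
    by positivity, fun i => hv _ _, fun i s hs => hvS _ _ s hs, fun δ hδ => ?_⟩
  obtain ⟨E, hE⟩ : ∃ E : ℝ, E = D + r * N * B * c * B₁ := ⟨_, rfl⟩
  have hE0 : 0 ≤ E := by rw [hE]; positivity
  obtain ⟨δ₂, hδ₂⟩ : ∃ δ₂ : ℝ, δ₂ = min (1 / (c + 1)) (δ / (E + 1)) := ⟨_, rfl⟩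
  have hδ₂0 : 0 < δ₂ := by rw [hδ₂]; exact lt_min (by positivity) (by positivity)
  have hδ₂c : δ₂ * c ≤ 1 := by
    have h4 : δ₂ ≤ 1 / (c + 1) := by rw [hδ₂]; exact min_le_left _ _
    rw [le_div_iff₀ (by positivity)] at h4
    nlinarith
  have hδ₂E : δ₂ * E ≤ δ := by
    have h4 : δ₂ ≤ δ / (E + 1) := by rw [hδ₂]; exact min_le_right _ _
    rw [le_div_iff₀ (by positivity)] at h4
    nlinarith
  obtain ⟨g, hg1, hg2, hg3⟩ := hnull δ₂ hδ₂0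
  obtain ⟨P, hP1, hP2⟩ := coef_runge h3 hK₁c hK₁v hGe hδ₂0
  have hPd : Differentiable ℂ (fderiv ℂ P) := by
    have := Osgood.differentiableOn_fderiv isOpen_univ hP1.differentiableOn
    exact differentiableOn_univ.1 this
  -- points of the segment
  have hseg : ∀ τ ∈ Icc (0 : ℝ) 1, ∀ z ∈ K, z₀ + (τ : ℂ) • (z - z₀) ∈ K := by
    intro τ hτ z hz
    have h4 := hKc.add_smul_sub_mem hz₀ hz hτ
    rwa [← Complex.coe_smul] at h4
  have hu : ∀ ζ ∈ K, ∀ z ∈ K, ‖fderiv ℂ (fun w => ι (f w)) ζ (z - z₀)‖ ≤ D := by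
    intro ζ hζ z hz
    rw [hD]
    exact (ContinuousLinearMap.le_opNorm _ _).trans (mul_le_mul (coef_cauchy hϱ hG hM hζ)
      (hR z hz) (norm_nonneg _) (by positivity))
  have huw : ∀ ζ ∈ K, ∀ z ∈ K,
      ‖fderiv ℂ (fun w => ι (f w)) ζ (z - z₀) - fderiv ℂ P ζ (z - z₀)‖ ≤ δ₂ * c := by
    intro ζ hζ z hz
    have h4 : ‖fderiv ℂ (fun w => ι (f w) - P w) ζ‖ ≤ δ₂ / ϱ :=
      coef_cauchy (G := fun w => ι (f w) - P w) hϱ (fun w hw => (hG w hw).fun_sub (hP1 w))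
        (fun w hw => by
          rw [norm_sub_rev]
          exact hP2 w hw) hζ
    rw [fderiv_fun_sub (hG ζ (hKK₁ hζ)) (hP1 ζ)] at h4
    rw [← sub_apply, hc]
    calc _ ≤ δ₂ / ϱ * R := (ContinuousLinearMap.le_opNorm _ _).trans (mul_le_mul h4
            (hR z hz) (norm_nonneg _) (by positivity))
      _ = δ₂ * (R / ϱ) := by ring
  refine ⟨fun τ z i => g (finProdFinEquiv.symm i).1 (z₀ + (τ : ℂ) • (z - z₀)) *
    fderiv ℂ P (z₀ + (τ : ℂ) • (z - z₀)) (z - z₀) (finProdFinEquiv.symm i).2, ?_, ?_, ?_, ?_⟩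
  · intro τ i
    have hζ : Differentiable ℂ fun z : Cn n => z₀ + (τ : ℂ) • (z - z₀) := by fun_prop
    have h4 : Differentiable ℂ fun z : Cn n => fderiv ℂ P (z₀ + (τ : ℂ) • (z - z₀)) (z - z₀) :=
      (hPd.comp hζ).clm_apply (differentiable_id.sub_const z₀)
    exact ((hg1 _).comp hζ).mul (differentiable_pi.1 h4 _)
  · refine continuous_pi fun i => ?_
    have hζ : Continuous fun q : ℝ × Cn n => z₀ + (q.1 : ℂ) • (q.2 - z₀) := by fun_prop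
    have h4 : Continuous fun q : ℝ × Cn n =>
        fderiv ℂ P (z₀ + (q.1 : ℂ) • (q.2 - z₀)) (q.2 - z₀) :=
      (hPd.continuous.comp hζ).clm_apply (continuous_snd.sub continuous_const)
    exact ((hg1 _).continuous.comp hζ).mul (continuous_pi_iff.1 h4 _)
  · intro τ hτ z hz i
    have hζ := hseg τ hτ z hz
    rw [norm_mul]
    refine mul_le_mul (hg2 _ _ (hKK₁ hζ)) ?_ (norm_nonneg _) hB
    have h4 := hu _ hζ z hz
    have h5 := huw _ hζ z hz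
    have h6 := norm_le_pi_norm (fderiv ℂ P (z₀ + (τ : ℂ) • (z - z₀)) (z - z₀))
      (finProdFinEquiv.symm i).2
    have h7 := norm_sub_norm_le (fderiv ℂ P (z₀ + (τ : ℂ) • (z - z₀)) (z - z₀))
      (fderiv ℂ (fun w => ι (f w)) (z₀ + (τ : ℂ) • (z - z₀)) (z - z₀))
    rw [norm_sub_rev] at h7
    linarith
  · intro τ hτ z hz
    have hζ := hseg τ hτ z hz
    obtain ⟨ζ, hζe⟩ : ∃ ζ, ζ = z₀ + (τ : ℂ) • (z - z₀) := ⟨_, rfl⟩
    simp only [← hζe] at hζ ⊢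
    obtain ⟨t, ht⟩ := (coef_chain hι (hK₁ ζ (hKK₁ hζ)).1.self_of_nhds).2 (z - z₀)
    have h4 := coef_alg (φ := fun j => F j (f ζ)) (v := fun j k => v j k (f ζ)) hB hB₁0 hδ₂0.le hc0
      (hu ζ hζ z hz) (huw ζ hζ z hz) (fun j => hg2 j ζ (hKK₁ hζ)) (hg3 ζ (hKK₁ hζ))
      (fun j k => hvB j k _ ⟨ζ, hKK₁ hζ, rfl⟩) (fun j => by
        rw [← ht]
        exact hfr j (f ζ) t)
    rw [← hE] at h4
    refine le_trans (le_of_eq ?_) (h4.trans hδ₂E)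
    congr 2
    rw [← Fintype.sum_prod_type' (f := fun j k => (g j ζ * fderiv ℂ P ζ (z - z₀) k) • v j k (f ζ))]
    exact Equiv.sum_comp finProdFinEquiv.symm
      (fun p : Fin r × Fin N => (g p.1 ζ * fderiv ℂ P ζ (z - z₀) p.2) • v p.1 p.2 (f ζ))

end Pool.Agent.Lib.MP_c2a04f_an
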