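import Pool.Agent.Lib.MP_c2a04f_an.SpecC

/-!
# A plurisubharmonic function which separates a convex compact set from a compact set
-/

set_option autoImplicit false

open scoped Manifold ContDiff Topology
open Set Filter Metric

namespace Pool.Agent.Lib.MP_c2a04f_an

open Pool.Agent.Lib.MP_55bc5f_an

theorem convSep_norm (w : ℂ) : ‖Complex.exp w‖ ^ 2 = Real.exp (2 * w.re) := by
  rw [Complex.norm_exp, ← Real.exp_nat_mul]
  norm_num

theorem convSep_point {n : ℕ} {K : Set (Cn n)} (hK : IsCompact K) (hKc : Convex ℝ K) {z : Cn n}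
    (hz : z ∉ K) : ∃ (ℓ : Cn n →L[ℂ] ℂ) (c : ℂ), (∀ a ∈ K, (ℓ a + c).re ≤ -1) ∧
      1 ≤ (ℓ z + c).re := by
  obtain ⟨f, u, hfK, hfz⟩ := RCLike.geometric_hahn_banach_closed_point (𝕜 := ℂ) hKc hK.isClosed hz
  have hfK' : ∀ a ∈ K, (f a).re < u := hfK
  have hfz' : u < (f z).re := hfz
  set κ : ℝ := ((f z).re - u) / 2 with hκ
  set v : ℝ := (u + (f z).re) / 2 with hv
  have hκ0 : 0 < κ := by
    rw [hκ]
    linarith
  have hre : ∀ a, (((κ⁻¹ : ℝ) : ℂ) • f a + ((-(κ⁻¹ * v) : ℝ) : ℂ)).re = κ⁻¹ * ((f a).re - v) := by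
    intro a
    rw [Complex.add_re, smul_eq_mul, Complex.re_ofReal_mul, Complex.ofReal_re]
    ring
  refine ⟨((κ⁻¹ : ℝ) : ℂ) • f, ((-(κ⁻¹ * v) : ℝ) : ℂ), fun a ha => ?_, ?_⟩
  · have h1 := hre a
    rw [ContinuousLinearMap.smul_apply, h1, inv_mul_le_iff₀ hκ0]
    have := hfK' a ha
    rw [hv, hκ]
    linarith
  · have h1 := hre z
    rw [ContinuousLinearMap.smul_apply, h1, le_inv_mul_iff₀ hκ0]
    rw [hv, hκ]
    linarith

theorem s_ConvSep : S_ConvSep := by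
  intro n K G hK hKc hG hKG
  have hpt : ∀ z : G, ∃ (ℓ : Cn n →L[ℂ] ℂ) (c : ℂ), (∀ a ∈ K, (ℓ a + c).re ≤ -1) ∧
      1 ≤ (ℓ z + c).re := fun z =>
    convSep_point hK hKc (fun hz => (Set.disjoint_left.mp hKG) hz z.2)
  choose ℓ c hℓK hℓz using hpt
  obtain ⟨t, ht⟩ := hG.elim_nhds_subcover' (fun z hz => {w | 1 / 2 < (ℓ ⟨z, hz⟩ w + c ⟨z, hz⟩).re})
    (fun z hz => by
      have hcont : Continuous (fun w => (ℓ ⟨z, hz⟩ w + c ⟨z, hz⟩).re) :=
        Complex.continuous_re.comp ((ℓ ⟨z, hz⟩).continuous.add continuous_const)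
      refine (isOpen_lt continuous_const hcont).mem_nhds ?_
      have := hℓz ⟨z, hz⟩
      show (1 : ℝ) / 2 < (ℓ ⟨z, hz⟩ z + c ⟨z, hz⟩).re
      linarith)
  set q : ℕ := t.card with hq
  let e : t ≃ Fin q := t.equivFin
  set T : ℝ := 2 * q + 2 with hT
  have hT0 : 0 < T := by positivity
  have hnorm : ∀ (j : Fin q) (w : Cn n),
      ‖Complex.exp ((((T / 2 : ℝ) : ℂ) • ℓ (e.symm j).1) w + ((T / 2 : ℝ) : ℂ) * c (e.symm j).1)‖ ^ 2 =
      Real.exp (T * (ℓ (e.symm j).1 w + c (e.symm j).1).re) := by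
    intro j w
    rw [convSep_norm]
    congr 1
    have e1 : (((T / 2 : ℝ) : ℂ) • ℓ (e.symm j).1) w + ((T / 2 : ℝ) : ℂ) * c (e.symm j).1 =
        ((T / 2 : ℝ) : ℂ) * (ℓ (e.symm j).1 w + c (e.symm j).1) := by
      rw [ContinuousLinearMap.smul_apply, smul_eq_mul]
      ring
    rw [e1, Complex.re_ofReal_mul]
    ring
  refine ⟨q, fun j => ((T / 2 : ℝ) : ℂ) • ℓ (e.symm j).1,
    fun j => ((T / 2 : ℝ) : ℂ) * c (e.symm j).1, fun z hz => ?_, fun z hz => ?_⟩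
  · have h1 : ∀ j : Fin q, Real.exp (T * (ℓ (e.symm j).1 z + c (e.symm j).1).re) ≤
        1 / (T + 1) := by
      intro j
      have h2 := hℓK (e.symm j).1 z hz
      have h3 : T * (ℓ (e.symm j).1 z + c (e.symm j).1).re ≤ -T := by nlinarith
      refine (Real.exp_le_exp.mpr h3).trans ?_
      rw [Real.exp_neg, one_div]
      exact inv_anti₀ (by positivity) (Real.add_one_le_exp T)
    calc ∑ j, ‖Complex.exp ((((T / 2 : ℝ) : ℂ) • ℓ (e.symm j).1) z +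
          ((T / 2 : ℝ) : ℂ) * c (e.symm j).1)‖ ^ 2 ≤ ∑ _j : Fin q, 1 / (T + 1) := by
          refine Finset.sum_le_sum fun j _ => ?_
          rw [hnorm]
          exact h1 j
      _ = q * (1 / (T + 1)) := by simp
      _ ≤ 1 / 2 := by
          rw [mul_one_div, div_le_div_iff₀ (by positivity) (by norm_num)]
          rw [hT]
          linarith
  · have hz' := ht hz
    simp only [mem_iUnion] at hz'
    obtain ⟨y, hyt, hy⟩ := hz'
    have hy' : 1 / 2 < (ℓ y z + c y).re := hy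
    have h1 : ‖Complex.exp ((((T / 2 : ℝ) : ℂ) • ℓ (e.symm (e ⟨y, hyt⟩)).1) z +
        ((T / 2 : ℝ) : ℂ) * c (e.symm (e ⟨y, hyt⟩)).1)‖ ^ 2 ≤
        ∑ j, ‖Complex.exp ((((T / 2 : ℝ) : ℂ) • ℓ (e.symm j).1) z +
          ((T / 2 : ℝ) : ℂ) * c (e.symm j).1)‖ ^ 2 :=
      Finset.single_le_sum (f := fun j => ‖Complex.exp ((((T / 2 : ℝ) : ℂ) • ℓ (e.symm j).1) z +
          ((T / 2 : ℝ) : ℂ) * c (e.symm j).1)‖ ^ 2) (fun j _ => by positivity)
        (Finset.mem_univ (e ⟨y, hyt⟩))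
    refine le_trans ?_ h1
    rw [hnorm, e.symm_apply_apply]
    have h2 : (q : ℝ) + 1 ≤ T * (ℓ y z + c y).re := by
      have : T * (1 / 2) ≤ T * (ℓ y z + c y).re := mul_le_mul_of_nonneg_left hy'.le hT0.le
      rw [hT] at this ⊢
      linarith
    have h3 := Real.add_one_le_exp (T * (ℓ y z + c y).re)
    have h4 : (0 : ℝ) ≤ q := by positivity
    show 2 ≤ Real.exp (T * (ℓ y z + c y).re)
    linarith

end Pool.Agent.Lib.MP_c2a04f_an
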