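import Mathlib
import Pool.Agent.Lib.Osgood
import Pool.Agent.Lib.MP_c2a04f_an.SpecA
import Pool.Agent.Lib.MP_c2a04f_an.SpecB
import Pool.Agent.Lib.MP_c2a04f_an.SpecC

/-!
# MP_c2a04f_an: correction at finitely many points by flows
-/

set_option autoImplicit false

open scoped Manifold ContDiff Topology
open Set Filter Metric

namespace Pool.Agent.Lib.MP_c2a04f_an

open Pool.Agent.Lib.MP_55bc5f_an

namespace Corr

variable {V : Type} [NormedAddCommGroup V] [NormedSpace ℂ V] {X : CMan V} {N : ℕ}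

lemma tan_smul {ι : X → Cn N} {h : X → ℂ} {v : X → Cn N} (hh : MDifferentiable 𝓘(ℂ, V) 𝓘(ℂ, ℂ) h)
    (hv : Tan X ι v) : Tan X ι (fun x => h x • v x) := by
  refine ⟨hh.smul hv.hol, fun x => ?_⟩
  obtain ⟨u, hu⟩ := hv.tan x
  refine ⟨h x • u, ?_⟩
  rw [← hu]
  unfold dF
  rw [map_smul]
  rfl

lemma tan_sum {ι : X → Cn N} {J : Type} (t : Finset J) {v : J → X → Cn N}
    (hv : ∀ j, Tan X ι (v j)) : Tan X ι (fun x => ∑ j ∈ t, v j x) := by
  refine ⟨?_, fun x => ?_⟩
  · have h := MDifferentiable.sum (t := t) (f := v) (fun i _ => (hv i).hol)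
    have e : (∑ j ∈ t, v j) = fun x => ∑ j ∈ t, v j x := by
      funext x
      rw [Finset.sum_apply]
    rwa [e] at h
  · choose u hu using fun j => (hv j).tan x
    refine ⟨∑ j ∈ t, u j, ?_⟩
    unfold dF
    rw [map_sum]
    exact Finset.sum_congr rfl fun j _ => hu j

/-- a holomorphic function with prescribed values `1` at `s i` and `0` at the other points -/
lemma exists_sep {ι : X → Cn N} (hι : Emb X ι) {r : ℕ} {s : Fin r → X}
    (hs : Function.Injective s) (i : Fin r) : ∃ g : X → ℂ, MDifferentiable 𝓘(ℂ, V) 𝓘(ℂ, ℂ) g ∧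
      g (s i) = 1 ∧ ∀ j, j ≠ i → g (s j) = 0 := by
  classical
  have hne : ∀ j, ∃ G : X → ℂ, MDifferentiable 𝓘(ℂ, V) 𝓘(ℂ, ℂ) G ∧
      (j ≠ i → G (s i) = 1 ∧ G (s j) = 0) := by
    intro j
    by_cases hj : j = i
    · exact ⟨fun _ => 0, mdifferentiable_const, fun h => absurd hj h⟩
    · have h1 : ι (s i) ≠ ι (s j) := fun h => hj (hs (hι.closed.injective h)).symm
      obtain ⟨a, ha⟩ := Function.ne_iff.mp h1
      refine ⟨fun x => (ι x a - ι (s j) a) * (ι (s i) a - ι (s j) a)⁻¹, ?_, fun _ => ⟨?_, ?_⟩⟩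
      · have h2 : Differentiable ℂ (fun y : Cn N =>
          (y a - ι (s j) a) * (ι (s i) a - ι (s j) a)⁻¹) := by fun_prop
        exact h2.mdifferentiable.comp hι.hol
      · exact mul_inv_cancel₀ (sub_ne_zero.mpr ha)
      · show (ι (s j) a - ι (s j) a) * (ι (s i) a - ι (s j) a)⁻¹ = 0
        rw [sub_self, zero_mul]
  choose G hG hG1 using hne
  refine ⟨fun x => ∏ j ∈ Finset.univ.erase i, G j x, ?_, ?_, ?_⟩
  · have h := MDifferentiable.prod (I := 𝓘(ℂ, V)) (t := Finset.univ.erase i)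
      (f := fun j (x : X) => G j x) (fun j _ => hG j)
    have e : (∏ j ∈ Finset.univ.erase i, fun (x : X) => G j x) = fun x =>
        ∏ j ∈ Finset.univ.erase i, G j x := by
      funext x
      rw [Finset.prod_apply]
    rwa [e] at h
  · exact Finset.prod_eq_one fun j hj => (hG1 j (Finset.ne_of_mem_erase hj)).1
  · intro j hj
    exact Finset.prod_eq_zero (Finset.mem_erase.mpr ⟨hj, Finset.mem_univ j⟩) (hG1 j hj).2

/-- interpolation by tangent fields -/
lemma exists_tan {ι : X → Cn N} (hι : Emb X ι) (hF : Frames X ι) {r : ℕ} {s : Fin r → X}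
    (hs : Function.Injective s) (u : (i : Fin r) → TangentSpace 𝓘(ℂ, V) (s i)) :
    ∃ b : X → Cn N, Tan X ι b ∧ ∀ i, b (s i) = dF ι (s i) (u i) := by
  classical
  choose F v hFh hF0 hv hfr using fun i => hF (s i)
  choose g hg hg1 hg0 using fun i => exists_sep hι hs i
  refine ⟨fun x => ∑ i, g i x • ∑ k, (((F i (s i))⁻¹ * dF ι (s i) (u i) k) • v i k x), ?_, ?_⟩
  · refine tan_sum _ fun i => tan_smul (hg i) (tan_sum _ fun k => ?_)
    exact tan_smul mdifferentiable_const (hv i k)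
  · intro i
    beta_reduce
    rw [Finset.sum_eq_single i]
    · rw [hg1, one_smul]
      simp only [mul_smul]
      rw [← Finset.smul_sum, ← hfr i (s i) (u i), smul_smul, inv_mul_cancel₀ (hF0 i), one_smul]
    · intro j _ hj
      show g j (s i) • _ = 0
      rw [hg0 j i hj.symm, zero_smul]
    · intro h
      exact absurd (Finset.mem_univ i) h

/-- the values at the points `s i` of the fields of the flows span the product of the tangent
spaces -/
lemma span_top [FiniteDimensional ℂ V] {ι : X → Cn N} (hι : Emb X ι) (hD : Dens X ι)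
    (hF : Frames X ι) {r : ℕ} {s : Fin r → X} (hs : Function.Injective s)
    (vf : Flow X → (x : X) → TangentSpace 𝓘(ℂ, V) x)
    (hvf : ∀ φ x, dF ι x (vf φ x) = φ.vel ι x) :
    Submodule.span ℂ (range fun φ : Flow X => (fun i => (show V from vf φ (s i)) : Fin r → V)) =
      ⊤ := by
  set vv : Flow X → Fin r → V := fun φ i => (show V from vf φ (s i)) with hvv
  let Dm : (i : Fin r) → V →L[ℂ] Cn N := fun i => mfderiv 𝓘(ℂ, V) 𝓘(ℂ, Cn N) ι (s i)
  let D : (Fin r → V) →ₗ[ℂ] (Fin r → Cn N) :=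
    LinearMap.pi fun i => (Dm i : V →ₗ[ℂ] Cn N) ∘ₗ LinearMap.proj i
  have hDi : ∀ w i, D w i = Dm i (w i) := fun w i => rfl
  have hinj : Function.Injective D := by
    intro w w' h
    funext i
    have h1 := congrFun h i
    rw [hDi, hDi] at h1
    exact hι.inj (s i) h1
  set S := Submodule.span ℂ (range vv) with hS
  rw [eq_top_iff]
  rintro w -
  have hcl : IsClosed ((S.map D : Submodule ℂ (Fin r → Cn N)) : Set (Fin r → Cn N)) :=
    Submodule.closed_of_finiteDimensional _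
  have hmem : D w ∈ closure ((S.map D : Submodule ℂ (Fin r → Cn N)) : Set (Fin r → Cn N)) := by
    rw [Metric.mem_closure_iff]
    intro ε hε
    obtain ⟨b, hb, hbs⟩ := exists_tan hι hF hs (fun i => w i)
    obtain ⟨M, φ, hφ⟩ := hD b hb (range s) (finite_range s).isCompact ε hε
    refine ⟨D (∑ k, vv (φ k)), ?_, ?_⟩
    · refine Submodule.mem_map_of_mem ?_
      exact Submodule.sum_mem _ fun k _ => Submodule.subset_span (mem_range_self _)
    · rw [dist_pi_lt_iff hε]
      intro i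
      have h2 := hφ (s i) (mem_range_self i)
      rw [hbs] at h2
      rw [dist_eq_norm, map_sum, Finset.sum_apply]
      have h3 : ∀ k, D (vv (φ k)) i = (φ k).vel ι (s i) := fun k => hvf (φ k) (s i)
      simp only [h3]
      exact h2
  rw [hcl.closure_eq] at hmem
  obtain ⟨w', hw', hww⟩ := hmem
  rw [← hinj hww]
  exact hw'

/-! ### The composition of the flows -/

lemma goE_zero {M : ℕ} (Φ : Fin M → Flow X) (l : List (Fin M × ℂ)) (h : ∀ q ∈ l, q.2 = 0)
    (x : X) : goE Φ l x = x := by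
  induction l generalizing x with
  | nil => rfl
  | cons p l ih =>
    show goE Φ l ((Φ p.1).φ p.2 x) = x
    rw [h p (List.mem_cons_self ..), (Φ p.1).zero]
    exact ih (fun q hq => h q (List.mem_cons_of_mem _ hq)) x

lemma goE_single {M : ℕ} (Φ : Fin M → Flow X) (k : Fin M) (c : ℂ) (x : X) :
    goE Φ ((List.finRange M).map fun j => (j, (c • (Pi.single k 1 : Fin M → ℂ)) j)) x =
      (Φ k).φ c x := by
  obtain ⟨L1, L2, hL⟩ := List.append_of_mem (List.mem_finRange k)
  have hnd := List.nodup_finRange M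
  rw [hL] at hnd ⊢
  rw [List.nodup_append'] at hnd
  obtain ⟨-, h2, h3⟩ := hnd
  rw [List.nodup_cons] at h2
  have hk1 : k ∉ L1 := fun h => h3 h (List.mem_cons_self ..)
  have hz : ∀ L : List (Fin M), k ∉ L → ∀ q ∈ L.map (fun j => (j,
      (c • (Pi.single k 1 : Fin M → ℂ)) j)), q.2 = 0 := by
    intro L hkL q hq
    obtain ⟨j, hj, rfl⟩ := List.mem_map.1 hq
    have hjk : j ≠ k := fun h => hkL (h ▸ hj)
    simp [hjk]
  rw [List.map_append, goE_append, Equiv.trans_apply, goE_zero Φ _ (hz L1 hk1), List.map_cons]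
  show goE Φ (L2.map fun j => (j, (c • (Pi.single k 1 : Fin M → ℂ)) j))
    ((Φ k).φ ((c • (Pi.single k 1 : Fin M → ℂ)) k) x) = _
  rw [goE_zero Φ _ (hz L2 h2.1)]
  simp

/-- The derivative of a flow in the chart. -/
lemma flow_chart {φ : Flow X} {v : (x : X) → TangentSpace 𝓘(ℂ, V) x}
    (h : ∀ (x : X) (t : ℂ), HasMFDerivAt 𝓘(ℂ, ℂ) 𝓘(ℂ, V) (fun s => φ.φ s x) t
      ((1 : ℂ →L[ℂ] ℂ).smulRight (v (φ.φ t x)))) (x : X) :
    HasDerivAt (fun c => chartAt V x (φ.φ c x)) (show V from v x) 0 := by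
  have h1 := (h x 0).2
  have e0 : φ.φ 0 x = x := φ.zero x
  have h2 : HasFDerivWithinAt (fun c => chartAt V x (φ.φ c x))
      ((1 : ℂ →L[ℂ] ℂ).smulRight (show V from v x)) (range (𝓘(ℂ, ℂ) : ModelWithCorners ℂ ℂ ℂ))
      (extChartAt 𝓘(ℂ, ℂ) (0 : ℂ) 0) := by
    have h3 : ∀ y : X, y = x → HasFDerivWithinAt (writtenInExtChartAt 𝓘(ℂ, ℂ) 𝓘(ℂ, V) 0
        (fun s => φ.φ s x)) ((1 : ℂ →L[ℂ] ℂ).smulRight (show V from v y))
        (range (𝓘(ℂ, ℂ) : ModelWithCorners ℂ ℂ ℂ)) (extChartAt 𝓘(ℂ, ℂ) (0 : ℂ) 0) →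
        HasFDerivWithinAt (fun c => chartAt V y (φ.φ c x))
          ((1 : ℂ →L[ℂ] ℂ).smulRight (show V from v y))
          (range (𝓘(ℂ, ℂ) : ModelWithCorners ℂ ℂ ℂ)) (extChartAt 𝓘(ℂ, ℂ) (0 : ℂ) 0) := by
      rintro y rfl h4
      have e1 : writtenInExtChartAt 𝓘(ℂ, ℂ) 𝓘(ℂ, V) 0 (fun s => φ.φ s y) =
          fun c => chartAt V y (φ.φ c y) := by
        funext c
        simp only [writtenInExtChartAt, e0, Function.comp_apply, mfld_simps]
      rwa [e1] at h4
    have h5 := h3 (φ.φ 0 x) e0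
    rw [e0] at h5
    refine h5 ?_
    have h6 := h1
    rw [e0] at h6
    exact h6
  simp only [mfld_simps, hasFDerivWithinAt_univ] at h2
  have h7 := h2.hasDerivAt
  simpa using h7

/-- The inverse function theorem in the needed form. -/
lemma local_inverse {W W' : Type} [NormedAddCommGroup W] [NormedSpace ℂ W] [FiniteDimensional ℂ W]
    [NormedAddCommGroup W'] [NormedSpace ℂ W'] [FiniteDimensional ℂ W'] {Q : W → W'} {O : Set W}
    {a : W} (hO : IsOpen O) (ha : a ∈ O) (hQ : DifferentiableOn ℂ Q O) (Lc : W ≃L[ℂ] W')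
    (hL : HasFDerivAt Q (Lc : W →L[ℂ] W') a) :
    ∃ J : W' → W, J (Q a) = a ∧
      ∀ᶠ q in 𝓝 (Q a), DifferentiableAt ℂ J q ∧ Q (J q) = q ∧ J q ∈ O := by
  have : CompleteSpace W := FiniteDimensional.complete ℂ W
  have : CompleteSpace W' := FiniteDimensional.complete ℂ W'
  have hAn : AnalyticAt ℂ Q a := Osgood.analyticOnNhd hO hQ a ha
  have hcd : ContDiffAt ℂ ω Q a := hAn.contDiffAt
  let φ : OpenPartialHomeomorph W W' := hcd.toOpenPartialHomeomorph Q hL (by simp)
  have hφf : ∀ w, φ w = Q w := fun w => by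
    have := hcd.toOpenPartialHomeomorph_coe (f := Q) hL (by simp)
    exact congrFun this w
  have hφa : a ∈ φ.source := hcd.mem_toOpenPartialHomeomorph_source hL (by simp)
  have hinv : ContDiffAt ℂ ω φ.symm (Q a) := hcd.to_localInverse hL (by simp)
  have hinv' : ∀ᶠ w in 𝓝 (Q a), DifferentiableAt ℂ φ.symm w := by
    have h1 : ContDiffAt ℂ 1 φ.symm (Q a) := hinv.of_le (by simp)
    have h2 := h1.eventually (by simp)
    filter_upwards [h2] with w hw
    exact hw.differentiableAt (by simp)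
  have hJa : φ.symm (Q a) = a := by
    rw [← hφf a]
    exact φ.left_inv hφa
  have htar : φ.target ∈ 𝓝 (Q a) := by
    rw [← hφf a]
    exact φ.open_target.mem_nhds (φ.map_source hφa)
  have hO' : ∀ᶠ q in 𝓝 (Q a), φ.symm q ∈ O := by
    have h3 : ContinuousAt φ.symm (Q a) := hinv.continuousAt
    rw [ContinuousAt, hJa] at h3
    exact h3 (hO.mem_nhds ha)
  refine ⟨φ.symm, hJa, ?_⟩
  filter_upwards [hinv', htar, hO'] with q h1 h2 h3
  refine ⟨h1, ?_, h3⟩
  rw [← hφf]
  exact φ.right_inv h2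

end Corr

open Corr in
theorem s_Corr (h1 : S_Rho) (h2 : S_Vel) (h3 : S_GoHol) : S_Corr := by
  intro V _ _ _ X N ι hι hD hF r s hs
  -- the fields of the flows
  choose vf hvf1 hvf2 using fun φ : Flow X => h2 V X φ
  have hvf : ∀ (φ : Flow X) x, dF ι x (vf φ x) = φ.vel ι x := fun φ => (hvf2 φ N ι hι.hol).1
  have hspan := span_top hι hD hF hs vf hvf
  set vv : Flow X → Fin r → V := fun φ i => (show V from vf φ (s i)) with hvv
  obtain ⟨f, hf, hfs, hfl⟩ := Submodule.exists_fun_fin_finrank_span_eq ℂ (range vv)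
  choose Φ hΦ using hf
  generalize hM : Module.finrank ℂ (Submodule.span ℂ (range vv)) = M at f hfs hfl Φ hΦ
  rw [hspan] at hfs
  let b : Module.Basis (Fin M) ℂ (Fin r → V) := Module.Basis.mk hfl hfs.ge
  -- the composition of the flows
  let Θ : (Fin M → ℂ) → (X ≃ X) := fun t => goE Φ ((List.finRange M).map fun k => (k, t k))
  have hΘ : ∀ i t, MDifferentiableAt 𝓘(ℂ, Cn M) 𝓘(ℂ, V) (fun t => Θ t (s i)) t := by
    intro i t
    have h := ((h3 V X M M M Φ id).1 ((List.finRange M).map fun k => (k, fun t : Cn M => t k)) t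
      (fun _ => s i) (by
        intro q hq
        obtain ⟨k, -, rfl⟩ := List.mem_map.1 hq
        show DifferentiableAt ℂ (fun t : Cn M => t k) t
        fun_prop) mdifferentiableAt_const).1
    have e : (fun z : Cn M => goE Φ (((List.finRange M).map fun k =>
        (k, fun t : Cn M => t k)).map fun q => (q.1, q.2 z)) (s i)) = fun t => Θ t (s i) := by
      funext z
      rw [List.map_map]
      rfl
    rwa [e] at h
  have hΘc : ∀ i, Continuous (fun t => Θ t (s i)) := fun i =>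
    continuous_iff_continuousAt.mpr fun t => (hΘ i t).continuousAt
  have hΘ0 : ∀ x, Θ 0 x = x := by
    intro x
    refine goE_zero Φ _ ?_ x
    intro q hq
    obtain ⟨k, -, rfl⟩ := List.mem_map.1 hq
    rfl
  let O : Set (Fin M → ℂ) := {t | ∀ i, Θ t (s i) ∈ (chartAt V (s i)).source}
  have hO : IsOpen O := by
    have : O = ⋂ i, (fun t => Θ t (s i)) ⁻¹' (chartAt V (s i)).source := by
      ext t
      simp [O]
    rw [this]
    exact isOpen_iInter_of_finite fun i => (chartAt V (s i)).open_source.preimage (hΘc i)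
  have h0O : (0 : Fin M → ℂ) ∈ O := by
    intro i
    rw [hΘ0]
    exact mem_chart_source V (s i)
  let Q : (Fin M → ℂ) → (Fin r → V) := fun t i => chartAt V (s i) (Θ t (s i))
  have hchart : ∀ (i : Fin r) (x : X), x ∈ (chartAt V (s i)).source →
      MDifferentiableAt 𝓘(ℂ, V) 𝓘(ℂ, V) (chartAt V (s i)) x := fun i x hx =>
    mdifferentiableAt_atlas (chart_mem_atlas V (s i)) hx
  have hQd : ∀ t ∈ O, DifferentiableAt ℂ Q t := by
    intro t ht
    rw [differentiableAt_pi]
    intro i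
    rw [← mdifferentiableAt_iff_differentiableAt]
    exact (hchart i _ (ht i)).comp t (hΘ i t)
  have hQ0 : DifferentiableAt ℂ Q 0 := hQd 0 h0O
  have hder : ∀ k, fderiv ℂ Q 0 (Pi.single k 1) = b k := by
    intro k
    have e1 : b k = vv (Φ k) := by
      rw [hΦ, Module.Basis.mk_apply]
    rw [e1]
    funext i
    have h4 : HasDerivAt (fun c : ℂ => chartAt V (s i) ((Φ k).φ c (s i))) (vv (Φ k) i) 0 :=
      flow_chart (hvf1 (Φ k)) (s i)
    have h5 : HasDerivAt (fun c : ℂ => c • (Pi.single k 1 : Fin M → ℂ)) (Pi.single k 1) 0 := by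
      simpa using (hasDerivAt_id (0 : ℂ)).smul_const (Pi.single k 1 : Fin M → ℂ)
    have h6 : HasFDerivAt Q (fderiv ℂ Q 0) ((0 : ℂ) • (Pi.single k 1 : Fin M → ℂ)) := by
      rw [zero_smul]
      exact hQ0.hasFDerivAt
    have h7 := h6.comp_hasDerivAt (0 : ℂ) h5
    have h8 := (hasDerivAt_pi.mp h7) i
    have e2 : (fun c : ℂ => (Q ∘ fun c : ℂ => c • (Pi.single k 1 : Fin M → ℂ)) c i) =
        fun c : ℂ => chartAt V (s i) ((Φ k).φ c (s i)) := by
      funext c
      show chartAt V (s i) (Θ (c • (Pi.single k 1 : Fin M → ℂ)) (s i)) = _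
      rw [show Θ (c • (Pi.single k 1 : Fin M → ℂ)) (s i) = (Φ k).φ c (s i) from
        goE_single Φ k c (s i)]
    rw [e2] at h8
    exact h8.unique h4
  let Lc : (Fin M → ℂ) ≃L[ℂ] (Fin r → V) := b.equivFun.symm.toContinuousLinearEquiv
  have hLc : (Lc : (Fin M → ℂ) →L[ℂ] (Fin r → V)) = fderiv ℂ Q 0 := by
    apply ContinuousLinearMap.coe_injective
    refine LinearMap.pi_ext' fun k => ?_
    refine LinearMap.ext_ring ?_
    show b.equivFun.symm (Pi.single k 1) = fderiv ℂ Q 0 (Pi.single k 1)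
    rw [hder k, Module.Basis.equivFun_symm_apply]
    simp [Pi.single_apply]
  obtain ⟨J, hJ0, hJ⟩ := local_inverse hO h0O (fun t ht => (hQd t ht).differentiableWithinAt) Lc
    (by rw [hLc]; exact hQ0.hasFDerivAt)
  -- the retractions
  choose ρr ρ hρr hρ hρ0 hρ1 using fun i => h1 V X N ι hι (s i) (chartAt V (s i)).source
    ((chartAt V (s i)).open_source.mem_nhds (mem_chart_source V (s i)))
  let P : (Fin r → Cn N) → (Fin r → V) := fun y i => chartAt V (s i) (ρ i (y i))
  have hP0 : P (fun i => ι (s i)) = Q 0 := by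
    funext i
    show chartAt V (s i) (ρ i (ι (s i))) = chartAt V (s i) (Θ 0 (s i))
    rw [hρ0, hΘ0]
  have hPd : ∀ y : Fin r → Cn N, (∀ i, y i ∈ ball (ι (s i)) (ρr i)) → DifferentiableAt ℂ P y := by
    intro y hy
    rw [differentiableAt_pi]
    intro i
    have h9 : DifferentiableAt ℂ (fun w : Cn N => chartAt V (s i) (ρ i w)) (y i) := by
      rw [← mdifferentiableAt_iff_differentiableAt]
      exact (hchart i _ (hρ i (y i) (hy i)).2).comp (y i) (hρ i (y i) (hy i)).1
    exact DifferentiableAt.comp (g := fun w : Cn N => chartAt V (s i) (ρ i w))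
      (f := fun y : Fin r → Cn N => y i) y h9 (differentiableAt_apply i y)
  have hev1 : ∀ᶠ y : Fin r → Cn N in 𝓝 (fun i => ι (s i)), ∀ i, y i ∈ ball (ι (s i)) (ρr i) := by
    rw [eventually_all]
    intro i
    exact (continuous_apply i).continuousAt (ball_mem_nhds _ (hρr i))
  have hev2 : ∀ᶠ y : Fin r → Cn N in 𝓝 (fun i => ι (s i)),
      DifferentiableAt ℂ J (P y) ∧ Q (J (P y)) = P y ∧ J (P y) ∈ O := by
    have h10 : ContinuousAt P (fun i => ι (s i)) :=
      (hPd _ fun i => mem_ball_self (hρr i)).continuousAt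
    rw [← hP0] at hJ
    exact h10.eventually hJ
  obtain ⟨η, hη, hη'⟩ := Metric.eventually_nhds_iff.mp (hev1.and hev2)
  have hgood : ∀ y : Fin r → Cn N, (∀ i, ‖y i - ι (s i)‖ < η) →
      (∀ i, y i ∈ ball (ι (s i)) (ρr i)) ∧
      DifferentiableAt ℂ J (P y) ∧ Q (J (P y)) = P y ∧ J (P y) ∈ O := by
    intro y hy
    apply hη'
    rw [dist_pi_lt_iff hη]
    intro i
    rw [dist_eq_norm]
    exact hy i
  refine ⟨M, Φ, η, fun y => J (P y), hη, ?_, ?_, ?_⟩
  · intro y hy
    obtain ⟨g1, g2, -, -⟩ := hgood y hy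
    exact (DifferentiableAt.comp y g2 (hPd y g1)).differentiableWithinAt
  · show J (P fun i => ι (s i)) = 0
    rw [hP0, hJ0]
  · intro x hx i
    obtain ⟨g1, -, g3, g4⟩ := hgood (fun i => ι (x i)) hx
    show Θ (J (P fun i => ι (x i))) (s i) = x i
    have e3 : ρ i (ι (x i)) = x i := hρ1 i (x i) (by
      have := g1 i
      rwa [mem_ball, dist_eq_norm] at this)
    have e4 : chartAt V (s i) (Θ (J (P fun i => ι (x i))) (s i)) = chartAt V (s i) (x i) := by
      have := congrFun g3 i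
      have e5 : P (fun i => ι (x i)) i = chartAt V (s i) (x i) := by
        show chartAt V (s i) (ρ i (ι (x i))) = _
        rw [e3]
      rw [e5] at this
      exact this
    refine (chartAt V (s i)).injOn (g4 i) ?_ e4
    have := (hρ i (ι (x i)) (g1 i)).2
    rwa [e3] at this

end Pool.Agent.Lib.MP_c2a04f_an
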