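import Mathlib
import Pool.Agent.Lib.MP_c2a04f_an.SpecB

/-!
# MP_c2a04f_an: polynomials close to `0` near `0` and close to `1` near `1`
-/

set_option autoImplicit false

open scoped Topology
open Set Filter Metric

namespace Pool.Agent.Lib.MP_c2a04f_an

namespace Cut

/-- the polynomial `3 w² - 2 w³` -/
def P (w : ℂ) : ℂ := 3 * w ^ 2 - 2 * w ^ 3

lemma diff_P : Differentiable ℂ P := by unfold P; fun_prop

lemma P_one_sub (w : ℂ) : P (1 - w) = 1 - P w := by unfold P; ring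

lemma norm_P {w : ℂ} (hw : ‖w‖ ≤ 1 / 5) : ‖P w‖ ≤ 17 / 25 * ‖w‖ := by
  have h0 := norm_nonneg w
  calc ‖P w‖ ≤ ‖3 * w ^ 2‖ + ‖2 * w ^ 3‖ := norm_sub_le _ _
    _ = 3 * ‖w‖ ^ 2 + 2 * ‖w‖ ^ 3 := by simp
    _ ≤ 17 / 25 * ‖w‖ := by
      nlinarith [mul_nonneg h0 h0, mul_nonneg (mul_nonneg h0 h0) h0,
        mul_nonneg h0 (sub_nonneg.mpr hw), mul_nonneg (mul_nonneg h0 h0) (sub_nonneg.mpr hw)]

lemma iter_diff (n : ℕ) : Differentiable ℂ (P^[n]) := by
  induction n with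
  | zero => exact differentiable_id
  | succ n ih => rw [Function.iterate_succ]; exact ih.comp diff_P

lemma iter_norm (n : ℕ) : ∀ w : ℂ, ‖w‖ ≤ 1 / 5 → ‖P^[n] w‖ ≤ (17 / 25 : ℝ) ^ n * ‖w‖ := by
  induction n with
  | zero => intro w _; simp
  | succ n ih =>
    intro w hw
    have h1 := norm_P hw
    have h2 : ‖P w‖ ≤ 1 / 5 := by linarith [norm_nonneg w]
    rw [Function.iterate_succ, Function.comp_apply]
    refine (ih _ h2).trans ?_
    rw [pow_succ, mul_assoc]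
    exact mul_le_mul_of_nonneg_left h1 (by positivity)

lemma iter_one_sub (n : ℕ) : ∀ w : ℂ, P^[n] (1 - w) = 1 - P^[n] w := by
  induction n with
  | zero => intro w; rfl
  | succ n ih =>
    intro w
    rw [Function.iterate_succ, Function.comp_apply, Function.comp_apply, P_one_sub, ih]

end Cut

open Cut in
theorem s_Cut : S_Cut := by
  intro ε hε
  have h1 : Tendsto (fun n : ℕ => (17 / 25 : ℝ) ^ n) atTop (𝓝 0) :=
    tendsto_pow_atTop_nhds_zero_of_lt_one (by norm_num) (by norm_num)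
  obtain ⟨n, hn⟩ := (h1.eventually (gt_mem_nhds hε)).exists
  have key : ∀ w : ℂ, ‖w‖ ≤ 1 / 5 → ‖P^[n] w‖ ≤ ε := by
    intro w hw
    refine (iter_norm n w hw).trans ?_
    have h3 : (0 : ℝ) ≤ (17 / 25 : ℝ) ^ n := by positivity
    nlinarith [norm_nonneg w]
  refine ⟨P^[n], iter_diff n, key, fun w hw => ?_⟩
  have h4 : P^[n] w = 1 - P^[n] (1 - w) := by
    rw [← iter_one_sub, sub_sub_cancel]
  rw [h4, sub_sub_cancel_left, norm_neg]
  exact key _ (by rwa [norm_sub_rev])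

end Pool.Agent.Lib.MP_c2a04f_an
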