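import Mathlib
import Pool.Agent.Lib.Osgood
import Pool.Agent.Lib.MP_c2a04f_an.SpecA

/-!
# MP_c2a04f_an: the density property implies `Dens`
-/

set_option autoImplicit false

open scoped Manifold ContDiff Topology
open Set Filter Metric

namespace Pool.Agent.Lib.MP_c2a04f_an

open Pool.Agent.Lib.MP_55bc5f_an

namespace DensAux

variable {V : Type} [NormedAddCommGroup V] [NormedSpace ℂ V] {X : CMan V}
variable {W : Type} [NormedAddCommGroup W] [NormedSpace ℂ W]

/-- holomorphic functions are `C¹` -/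
lemma contMDiff_of_hol [FiniteDimensional ℂ V] [CompleteSpace W] {f : X → W}
    (hf : MDifferentiable 𝓘(ℂ, V) 𝓘(ℂ, W) f) : ContMDiff 𝓘(ℂ, V) 𝓘(ℂ, W) 1 f := by
  intro x₀
  rw [contMDiffAt_iff]
  refine ⟨(hf x₀).continuousAt, ?_⟩
  set e := extChartAt 𝓘(ℂ, V) x₀ with he
  have heto : IsOpen e.target := isOpen_extChartAt_target x₀
  have hmem : e x₀ ∈ e.target := e.map_source (mem_extChartAt_source x₀)
  have hd : DifferentiableOn ℂ (f ∘ e.symm) e.target := by
    intro w hw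
    refine DifferentiableAt.differentiableWithinAt ?_
    rw [← mdifferentiableAt_iff_differentiableAt]
    have h2 : MDifferentiableAt 𝓘(ℂ, V) 𝓘(ℂ, V) e.symm w := by
      have h3 := mdifferentiableWithinAt_extChartAt_symm (I := 𝓘(ℂ, V)) (x := x₀) hw
      exact h3.mdifferentiableAt (by simp)
    exact (hf _).comp w h2
  have ha := Osgood.analyticOnNhd heto hd
  have hc : ContDiffAt ℂ 1 (f ∘ e.symm) (e x₀) := (ha _ hmem).contDiffAt
  exact hc.contDiffWithinAt

/-- the second component of the tangent map is continuous -/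
lemma continuous_dF [FiniteDimensional ℂ V] {N : ℕ} {ι : X → Cn N}
    (hι : MDifferentiable 𝓘(ℂ, V) 𝓘(ℂ, Cn N) ι) :
    Continuous fun p : TangentBundle 𝓘(ℂ, V) X => dF ι p.1 p.2 := by
  have h1 : Continuous (tangentMap 𝓘(ℂ, V) 𝓘(ℂ, Cn N) ι) :=
    (contMDiff_of_hol hι).continuous_tangentMap le_rfl
  have h2 : Continuous fun p : TangentBundle 𝓘(ℂ, Cn N) (Cn N) => p.2 :=
    (contMDiff_snd_tangentBundle_modelSpace (Cn N) 𝓘(ℂ, Cn N) (n := 1)).continuous
  exact h2.comp h1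

end DensAux

open DensAux in
theorem s_Dens (h1 : S_Span) (h2 : S_SecIff) : S_Dens := by
  intro V _ _ _ X N ι hι hD b hb K hK ε hε
  choose v hv using hb.tan
  have hvf : (fun x => dF ι x (v x)) = b := funext hv
  have hvhol : IsHolField X v := (h2 V X N ι hι v).mpr (by rw [hvf]; exact hb.hol)
  have hbc : Continuous b := hb.hol.continuous
  have hproj : Continuous fun p : TangentBundle 𝓘(ℂ, V) X => p.1 :=
    FiberBundle.continuous_proj V (TangentSpace 𝓘(ℂ, V))
  have hO : IsOpen {p : TangentBundle 𝓘(ℂ, V) X | ‖dF ι p.1 p.2 - b p.1‖ < ε / 2} :=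
    isOpen_lt ((continuous_dF hι.hol).sub (hbc.comp hproj)).norm continuous_const
  obtain ⟨w, hw, hwK⟩ := hD v hvhol K hK _ hO (fun x _ => by
    show ‖dF ι x (v x) - b x‖ < ε / 2
    rw [hv x, sub_self, norm_zero]
    linarith)
  obtain ⟨M, Φ, hΦ⟩ := (h1 V X N ι hι w hw).2 K hK (ε / 2) (by linarith)
  refine ⟨M, Φ, fun x hx => ?_⟩
  have a1 : ‖dF ι x (w x) - b x‖ < ε / 2 := hwK x hx
  have a2 := hΦ x hx
  calc ‖b x - ∑ k, (Φ k).vel ι x‖ =
      ‖(dF ι x (w x) - ∑ k, (Φ k).vel ι x) - (dF ι x (w x) - b x)‖ := by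
        congr 1; abel
    _ ≤ ‖dF ι x (w x) - ∑ k, (Φ k).vel ι x‖ + ‖dF ι x (w x) - b x‖ := norm_sub_le _ _
    _ < ε := by linarith

end Pool.Agent.Lib.MP_c2a04f_an
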