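import Mathlib
import Pool.Agent.Lib.MP_c2a04f_an.SpecB

/-!
# MP_c2a04f_an, C6: difference quotients of a compact family of curves
-/

set_option autoImplicit false

open scoped Manifold ContDiff Topology
open Set Filter Metric

namespace Pool.Agent.Lib.MP_c2a04f_an

open Pool.Agent.Lib.MP_55bc5f_an

theorem s_Disc : S_Disc := by
  intro n N P hP c c' hd hc δ hδ
  have huc := (isCompact_Icc.prod hP).uniformContinuousOn_of_continuous hc
  rw [Metric.uniformContinuousOn_iff] at huc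
  obtain ⟨κ, hκ, hu⟩ := huc δ hδ
  obtain ⟨p₀, hp₀⟩ := exists_nat_gt (1 / κ)
  refine ⟨p₀, fun p hp hp1 m hm z hz => ?_⟩
  have hpos : (0 : ℝ) < p := by exact_mod_cast hp1
  have hpκ : 1 / (p : ℝ) < κ := by
    have h1 : 1 / κ < (p : ℝ) := hp₀.trans_le (by exact_mod_cast hp)
    rw [div_lt_iff₀ hκ] at h1
    rw [div_lt_iff₀ hpos]
    linarith
  set a : ℝ := (m : ℝ) / p with ha
  set b : ℝ := ((m + 1 : ℕ) : ℝ) / p with hb
  have hab : b - a = 1 / p := by
    rw [ha, hb]; push_cast; ring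
  have ha0 : 0 ≤ a := by positivity
  have hb1 : b ≤ 1 := by
    rw [hb, div_le_one hpos]
    exact_mod_cast hm
  have hle : a ≤ b := by
    have : (0 : ℝ) ≤ 1 / p := by positivity
    linarith
  have hsub : Icc a b ⊆ Icc (0 : ℝ) 1 := Icc_subset_Icc ha0 hb1
  have haI : a ∈ Icc (0 : ℝ) 1 := hsub (left_mem_Icc.mpr hle)
  have hder : ∀ τ ∈ Icc a b, HasDerivWithinAt (fun s => c s z - s • c' a z)
      (c' τ z - c' a z) (Icc a b) τ := by
    intro τ hτ
    have h1 := (hd z hz τ (hsub hτ)).mono hsub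
    have h2 : HasDerivWithinAt (fun s : ℝ => s • c' a z) ((1 : ℝ) • c' a z) (Icc a b) τ :=
      (hasDerivWithinAt_id τ _).smul_const (c' a z)
    rw [one_smul] at h2
    exact h1.sub h2
  have hbound : ∀ τ ∈ Icc a b, ‖c' τ z - c' a z‖ ≤ δ := by
    intro τ hτ
    have h1 := hu (τ, z) ⟨hsub hτ, hz⟩ (a, z) ⟨haI, hz⟩ (by
      rw [Prod.dist_eq, dist_self, Real.dist_eq]
      refine max_lt ?_ hκ
      rw [abs_of_nonneg (by linarith [hτ.1])]
      have := hτ.2
      linarith)
    rw [dist_eq_norm] at h1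
    exact h1.le
  have hmv := Convex.norm_image_sub_le_of_norm_hasDerivWithin_le hder hbound (convex_Icc a b)
    (left_mem_Icc.mpr hle) (right_mem_Icc.mpr hle)
  have e1 : c b z - b • c' a z - (c a z - a • c' a z) =
      c b z - c a z - (1 / p : ℂ) • c' a z := by
    have e2 : (1 / p : ℂ) • c' a z = (b - a) • c' a z := by
      rw [hab, ← Complex.coe_smul]
      push_cast
      rfl
    rw [e2, sub_smul]
    abel
  rw [e1, Real.norm_eq_abs, hab, abs_of_nonneg (by positivity)] at hmv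
  calc ‖c b z - c a z - (1 / p : ℂ) • c' a z‖ ≤ δ * (1 / p) := hmv
    _ = δ / p := by ring

end Pool.Agent.Lib.MP_c2a04f_an
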