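import Pool.Agent.Lib.MP_c2a04f_an.SpecA
import Pool.Agent.Lib.MP_c2a04f_an.SpecC

/-!
# G2 Ent: from `Avoid` to entire maps
-/

set_option autoImplicit false

open scoped Manifold ContDiff Topology
open Set Filter Metric

namespace Pool.Agent.Lib.MP_c2a04f_an

open Pool.Agent.Lib.MP_55bc5f_an

namespace EntAux

variable {V : Type} [NormedAddCommGroup V] [NormedSpace ℂ V] {X : CMan V} {N n : ℕ}

lemma gap {ι : X → Cn N} (hE : Emb X ι) {Z : Set X} (hZ : IsClosed Z) {L : Set (Cn n)}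
    (hL : IsCompact L) {f : Cn n → X} (hf : HolN X f L) (hfZ : ∀ z ∈ L, f z ∉ Z) :
    ∃ η > (0 : ℝ), ∀ z ∈ L, ∀ q ∈ Z, η ≤ ‖ι (f z) - ι q‖ := by
  have hfc : ContinuousOn f L := fun z hz =>
    (hf z hz).self_of_nhds.continuousAt.continuousWithinAt
  have hA : IsCompact ((fun z => ι (f z)) '' L) :=
    hL.image_of_continuousOn (hE.closed.continuous.comp_continuousOn hfc)
  have hO : IsOpen (ι '' Z)ᶜ := (hE.closed.isClosedMap Z hZ).isOpen_compl
  have hsub : (fun z => ι (f z)) '' L ⊆ (ι '' Z)ᶜ := by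
    rintro _ ⟨z, hz, rfl⟩ ⟨q, hq, hqz⟩
    have : q = f z := hE.closed.injective hqz
    rw [this] at hq
    exact hfZ z hz hq
  obtain ⟨δ, hδ, hδs⟩ := hA.exists_cthickening_subset_open hO hsub
  refine ⟨δ, hδ, fun z hz q hq => ?_⟩
  by_contra hcon
  push Not at hcon
  have h1 : ι q ∈ cthickening δ ((fun z => ι (f z)) '' L) := by
    refine mem_cthickening_of_dist_le (ι q) (ι (f z)) δ _
      (mem_image_of_mem (fun z => ι (f z)) hz) ?_
    rw [dist_comm, dist_eq_norm]
    exact hcon.le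
  exact hδs h1 (mem_image_of_mem _ hq)

end EntAux

open EntAux in
theorem s_Ent (h1 : S_HolLim) (h2 : S_MDiff) : S_Ent := by
  intro V _ _ _ X N ι hE Z hZ hAv n K f hK hKc hKne hf hfZ ε hε
  obtain ⟨R, hR⟩ := hK.isBounded.subset_closedBall (0 : Cn n)
  obtain ⟨R', hR'⟩ : ∃ R' : ℝ, R' = max R 0 := ⟨_, rfl⟩
  have hR'0 : 0 ≤ R' := by rw [hR']; exact le_max_right _ _
  have hKR' : K ⊆ closedBall 0 R' := hR.trans (closedBall_subset_closedBall (by
    rw [hR']; exact le_max_left _ _))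
  let L : ℕ → Set (Cn n) := fun i => Nat.casesOn i K fun i => closedBall 0 (R' + i + 1)
  have hL0 : L 0 = K := rfl
  have hLs : ∀ i : ℕ, L (i + 1) = closedBall 0 (R' + i + 1) := fun i => rfl
  have hLc : ∀ i, IsCompact (L i) := by
    intro i
    cases i with
    | zero => exact hK
    | succ i => rw [hLs]; exact isCompact_closedBall _ _
  have hLconv : ∀ i, Convex ℝ (L i) := by
    intro i
    cases i with
    | zero => exact hKc
    | succ i => rw [hLs]; exact convex_closedBall _ _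
  have hLstep : ∀ i, L i ⊆ L (i + 1) := by
    intro i
    cases i with
    | zero =>
      rw [hL0, hLs]
      exact hKR'.trans (closedBall_subset_closedBall (by push_cast; linarith))
    | succ i =>
      rw [hLs, hLs]
      exact closedBall_subset_closedBall (by push_cast; linarith)
  have hLmono : Monotone L := monotone_nat_of_le_succ hLstep
  have hLne : ∀ i, (L i).Nonempty := fun i => hKne.mono (hLmono (Nat.zero_le i))
  let P : ℕ → (Cn n → X) × ℝ → Prop := fun i q => HolN X q.1 (L i) ∧ (∀ z ∈ L i, q.1 z ∉ Z) ∧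
    0 < q.2 ∧ ∀ z ∈ L i, ∀ s ∈ Z, 4 * q.2 ≤ ‖ι (q.1 z) - ι s‖
  have hnext : ∀ i (q : (Cn n → X) × ℝ), P i q → ∃ q' : (Cn n → X) × ℝ, P (i + 1) q' ∧
      (∀ z ∈ L i, ‖ι (q'.1 z) - ι (q.1 z)‖ ≤ q.2) ∧ q'.2 ≤ q.2 / 2 := by
    rintro i q ⟨hq1, hq2, hq3, hq4⟩
    obtain ⟨g, hg1, hg2, hg3⟩ := hAv n (L i) (L (i + 1)) (hLc i) (hLconv i) (hLne i)
      (hLc (i + 1)) (hLconv (i + 1)) (hLstep i) q.1 hq1 hq2 q.2 hq3
    obtain ⟨η, hη, hη2⟩ := gap hE hZ (hLc (i + 1)) hg1 hg2
    refine ⟨(g, min (q.2 / 2) (η / 4)), ⟨hg1, hg2, lt_min (by positivity) (by positivity), ?_⟩,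
      hg3, min_le_left _ _⟩
    intro z hz s hs
    have h3 : min (q.2 / 2) (η / 4) ≤ η / 4 := min_le_right _ _
    have h4 := hη2 z hz s hs
    simp only
    linarith
  obtain ⟨q0, hq0, hq01, hq02⟩ : ∃ q : (Cn n → X) × ℝ, P 0 q ∧ q.1 = f ∧ q.2 ≤ ε / 4 := by
    obtain ⟨η, hη, hη2⟩ := gap hE hZ hK hf hfZ
    refine ⟨(f, min (ε / 4) (η / 4)), ⟨hf, hfZ, lt_min (by positivity) (by positivity), ?_⟩, rfl,
      min_le_left _ _⟩
    intro z hz s hs
    have h3 : min (ε / 4) (η / 4) ≤ η / 4 := min_le_right _ _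
    have h4 := hη2 z hz s hs
    simp only
    linarith
  choose nx hnx1 hnx2 hnx3 using hnext
  let sq : (i : ℕ) → {q : (Cn n → X) × ℝ // P i q} := fun i =>
    Nat.rec (motive := fun i => {q : (Cn n → X) × ℝ // P i q}) ⟨q0, hq0⟩
      (fun i q => ⟨nx i q.1 q.2, hnx1 i q.1 q.2⟩) i
  let F : ℕ → Cn n → X := fun i => (sq i).1.1
  let e : ℕ → ℝ := fun i => (sq i).1.2
  have hF0 : F 0 = f := hq01
  have he0 : e 0 ≤ ε / 4 := hq02
  have hFhol : ∀ i, HolN X (F i) (L i) := fun i => (sq i).2.1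
  have hepos : ∀ i, 0 < e i := fun i => (sq i).2.2.2.1
  have hgap : ∀ i, ∀ z ∈ L i, ∀ s ∈ Z, 4 * e i ≤ ‖ι (F i z) - ι s‖ := fun i => (sq i).2.2.2.2
  have hstep : ∀ i, ∀ z ∈ L i, ‖ι (F (i + 1) z) - ι (F i z)‖ ≤ e i := fun i =>
    hnx2 i (sq i).1 (sq i).2
  have hehalf : ∀ i, e (i + 1) ≤ e i / 2 := fun i => hnx3 i (sq i).1 (sq i).2
  have hegeo : ∀ i, e i ≤ e 0 / 2 ^ i := by
    intro i
    induction i with
    | zero => simp
    | succ i ih =>
      calc e (i + 1) ≤ e i / 2 := hehalf i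
        _ ≤ e 0 / 2 ^ i / 2 := by linarith
        _ = e 0 / 2 ^ (i + 1) := by rw [pow_succ]; field_simp
  have he_tend : Tendsto e atTop (𝓝 0) := by
    refine squeeze_zero (fun i => (hepos i).le) hegeo ?_
    have h3 : Tendsto (fun i : ℕ => e 0 * (1 / 2 : ℝ) ^ i) atTop (𝓝 (e 0 * 0)) :=
      (tendsto_pow_atTop_nhds_zero_of_lt_one (by norm_num) (by norm_num)).const_mul _
    rw [mul_zero] at h3
    refine h3.congr fun i => ?_
    rw [one_div, inv_pow]; rfl
  have hdist : ∀ i k, i ≤ k → ∀ z ∈ L i, ‖ι (F k z) - ι (F i z)‖ ≤ 2 * e i - 2 * e k := by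
    intro i k hik z hz
    induction k, hik using Nat.le_induction with
    | base => simp
    | succ k hk ih =>
      have h3 := hstep k z (hLmono hk hz)
      have h4 := hehalf k
      calc ‖ι (F (k + 1) z) - ι (F i z)‖
          = ‖(ι (F (k + 1) z) - ι (F k z)) + (ι (F k z) - ι (F i z))‖ := by
            congr 1; abel
        _ ≤ e k + (2 * e i - 2 * e k) := (norm_add_le _ _).trans (add_le_add h3 ih)
        _ ≤ 2 * e i - 2 * e (k + 1) := by linarith
  have hexL : ∀ z : Cn n, ∃ i : ℕ, z ∈ ball (0 : Cn n) (R' + i + 1) := by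
    intro z
    obtain ⟨i, hi⟩ := exists_nat_ge ‖z‖
    exact ⟨i, by rw [mem_ball_zero_iff]; linarith⟩
  have hballL : ∀ i : ℕ, ball (0 : Cn n) (R' + i + 1) ⊆ L (i + 1) := fun i => by
    rw [hLs]; exact ball_subset_closedBall
  -- the pointwise limit
  have hlim : ∀ z, ∃ w : Cn N, Tendsto (fun k => ι (F k z)) atTop (𝓝 w) := by
    intro z
    obtain ⟨i, hi⟩ := hexL z
    have hzL := hballL i hi
    apply cauchySeq_tendsto_of_complete
    rw [Metric.cauchySeq_iff]
    intro δ hδ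
    obtain ⟨j, hj⟩ := (he_tend.eventually (gt_mem_nhds (show (0 : ℝ) < δ / 4 by positivity))).exists_forall_of_atTop
    refine ⟨max (i + 1) j, fun k hk k' hk' => ?_⟩
    obtain ⟨m, hm⟩ : ∃ m, m = max (i + 1) j := ⟨_, rfl⟩
    rw [← hm] at hk hk'
    have him : i + 1 ≤ m := by rw [hm]; exact le_max_left _ _
    have hzm : z ∈ L m := hLmono him hzL
    have hem : e m < δ / 4 := hj m (by rw [hm]; exact le_max_right _ _)
    have h3 := hdist m k hk z hzm
    have h4 := hdist m k' hk' z hzm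
    have h5 := hepos k
    have h6 := hepos k'
    rw [dist_eq_norm]
    calc ‖ι (F k z) - ι (F k' z)‖
        = ‖(ι (F k z) - ι (F m z)) - (ι (F k' z) - ι (F m z))‖ := by congr 1; abel
      _ ≤ (2 * e m - 2 * e k) + (2 * e m - 2 * e k') :=
          (norm_sub_le _ _).trans (add_le_add h3 h4)
      _ < δ := by linarith
  choose G hG using hlim
  have hGdist : ∀ i, ∀ z ∈ L i, ‖G z - ι (F i z)‖ ≤ 2 * e i := by
    intro i z hz
    have h3 : Tendsto (fun k => ‖ι (F k z) - ι (F i z)‖) atTop (𝓝 ‖G z - ι (F i z)‖) :=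
      ((hG z).sub_const _).norm
    refine le_of_tendsto h3 ?_
    filter_upwards [eventually_ge_atTop i] with k hk
    have h4 := hdist i k hk z hz
    have h5 := hepos k
    linarith
  have hGr : ∀ z, ∃ x : X, ι x = G z := by
    intro z
    exact hE.closed.isClosed_range.mem_of_tendsto (hG z)
      (Eventually.of_forall fun k => mem_range_self _)
  choose g hg using hGr
  refine ⟨g, fun z => ?_, fun z hz => ?_, fun z hz => ?_⟩
  · -- holomorphy
    obtain ⟨i, hi⟩ := hexL z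
    have hdiff : DifferentiableOn ℂ G (ball (0 : Cn n) (R' + i + 1)) := by
      refine h1 n N _ (fun k z => ι (F (k + (i + 1)) z)) G isOpen_ball (fun k z hz => ?_) ?_
      · have hzk : z ∈ L (k + (i + 1)) := hLmono (show i + 1 ≤ k + (i + 1) by omega) (hballL i hz)
        have h3 : MDifferentiableAt 𝓘(ℂ, Cn n) 𝓘(ℂ, V) (F (k + (i + 1))) z :=
          (hFhol (k + (i + 1)) z hzk).self_of_nhds
        exact ((h2 V X N ι hE (Cn n) _ z).2 h3).differentiableWithinAt
      · rw [Metric.tendstoUniformlyOn_iff]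
        intro δ hδ
        have h3 : Tendsto (fun k => e (k + (i + 1))) atTop (𝓝 0) :=
          he_tend.comp (tendsto_add_atTop_nat (i + 1))
        filter_upwards [h3.eventually (gt_mem_nhds (show (0 : ℝ) < δ / 2 by positivity))]
          with k hk z hz
        have hzk : z ∈ L (k + (i + 1)) := hLmono (show i + 1 ≤ k + (i + 1) by omega) (hballL i hz)
        rw [dist_eq_norm]
        have := hGdist (k + (i + 1)) z hzk
        linarith
    have h3 : DifferentiableAt ℂ G z := (hdiff z hi).differentiableAt (isOpen_ball.mem_nhds hi)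
    have h4 : (fun w => ι (g w)) = G := funext hg
    rw [← h4] at h3
    exact (h2 V X N ι hE (Cn n) g z).1 h3
  · obtain ⟨i, hi⟩ := hexL z
    have hzL := hballL i hi
    have h3 := hgap (i + 1) z hzL (g z) hz
    have h4 := hGdist (i + 1) z hzL
    have h5 := hepos (i + 1)
    rw [hg, norm_sub_rev] at h3
    linarith
  · have h3 := hGdist 0 z hz
    rw [hF0] at h3
    rw [hg]
    linarith

end Pool.Agent.Lib.MP_c2a04f_an
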