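import Mathlib
import Pool.Agent.Lib.MP_c2a04f_an.SpecB

/-!
# MP_c2a04f_an: Euler's method for families of flows
-/

set_option autoImplicit false

open scoped Manifold ContDiff Topology
open Set Filter Metric

namespace Pool.Agent.Lib.MP_c2a04f_an

open Pool.Agent.Lib.MP_55bc5f_an

namespace EulerAux

variable {V : Type} [NormedAddCommGroup V] [NormedSpace ℂ V] {X : CMan V} {N M r : ℕ}

/-- the inverse list -/
noncomputable def inv (l : List (Fin M × ℂ)) : List (Fin M × ℂ) :=
  (l.map fun p => (p.1, -p.2)).reverse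

lemma gosE_succ' (Φ : Fin M → Flow X) (l : ℕ → List (Fin M × ℂ)) (p : ℕ) :
    gosE Φ l (p + 1) = (goE Φ (l 0)).trans (gosE Φ (fun m => l (m + 1)) p) := by
  induction p with
  | zero =>
    ext x
    simp [gosE]
  | succ p ih =>
    rw [gosE, ih]
    ext x
    simp [gosE]

lemma gosE_symm (Φ : Fin M → Flow X) (l : ℕ → List (Fin M × ℂ)) (p : ℕ) :
    (gosE Φ l p).symm = gosE Φ (fun m => inv (l (p - 1 - m))) p := by
  induction p with
  | zero => rfl
  | succ p ih =>
    have h1 : (fun m => inv (l (p + 1 - 1 - (m + 1)))) = fun m => inv (l (p - 1 - m)) := by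
      funext m
      have : p + 1 - 1 - (m + 1) = p - 1 - m := by omega
      rw [this]
    have h2 : gosE Φ (fun m => inv (l (p + 1 - 1 - m))) (p + 1) =
        (goE Φ (inv (l (p + 1 - 1 - 0)))).trans
          (gosE Φ (fun m => inv (l (p + 1 - 1 - (m + 1)))) p) :=
      gosE_succ' Φ (fun m => inv (l (p + 1 - 1 - m))) p
    rw [h2, h1, ← ih]
    have h3 : inv (l (p + 1 - 1 - 0)) = inv (l p) := by simp
    have h4 : goE Φ (inv (l p)) = (goE Φ (l p)).symm := (goE_symm Φ (l p)).symm
    rw [h3, h4]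
    rfl

lemma gen_inv (Φ : Fin M → Flow X) (ι : X → Cn N) (l : List (Fin M × ℂ)) (x : X) :
    gen Φ ι (inv l) x = - gen Φ ι l x := by
  unfold gen inv
  rw [List.map_reverse, List.sum_reverse, List.map_map]
  induction l with
  | nil => simp
  | cons q l ih =>
    simp only [List.map_cons, List.sum_cons, Function.comp] at ih ⊢
    rw [ih, neg_add, neg_smul]

lemma gen_stp (Φ : Fin M → Flow X) (ι : X → Cn N) (σ : Fin M → Fin r) (p : ℕ) (hp : 1 ≤ p)
    (a : Fin r → ℂ) (x : X) :
    (p : ℂ) • gen Φ ι (stp σ p a) x = ∑ j, a j • appr Φ ι σ j x := by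
  have hp0 : (p : ℂ) ≠ 0 := by
    have : p ≠ 0 := by omega
    exact_mod_cast this
  have h1 : gen Φ ι (stp σ p a) x = ∑ k, (a (σ k) / p) • (Φ k).vel ι x := by
    unfold gen stp
    rw [List.map_map, Fin.sum_univ_def]
    rfl
  have h2 : ∑ j, a j • appr Φ ι σ j x = ∑ k, a (σ k) • (Φ k).vel ι x := by
    unfold appr
    simp only [Finset.smul_sum]
    rw [Finset.sum_comm]
    refine Finset.sum_congr rfl fun k _ => ?_
    rw [Finset.sum_eq_single (σ k)]
    · rw [if_pos rfl]
    · intro j _ hj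
      rw [if_neg (Ne.symm hj), smul_zero]
    · intro h
      exact absurd (Finset.mem_univ _) h
  rw [h1, h2, Finset.smul_sum]
  refine Finset.sum_congr rfl fun k _ => ?_
  rw [smul_smul, mul_div_cancel₀ _ hp0]

lemma stp_length (σ : Fin M → Fin r) (p : ℕ) (a : Fin r → ℂ) : (stp σ p a).length = M := by
  simp [stp]

lemma stp_bound (σ : Fin M → Fin r) (p : ℕ) (a : Fin r → ℂ) (A : ℝ)
    (ha : ∀ j, ‖a j‖ ≤ A) : ∀ q ∈ stp σ p a, ‖q.2‖ ≤ A / p := by
  intro q hq
  unfold stp at hq
  obtain ⟨k, -, rfl⟩ := List.mem_map.1 hq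
  show ‖a (σ k) / (p : ℂ)‖ ≤ A / p
  rw [norm_div, Complex.norm_natCast]
  exact div_le_div_of_nonneg_right (ha _) (Nat.cast_nonneg _)

end EulerAux

open EulerAux in
/-- Euler's method for families of flows. -/
theorem s_Euler (h : S_Shadow) : S_Euler := by
  intro V _ _ _ X N ι hι M r Φ σ C hC A η ε hA hη hε
  obtain ⟨p₀, hp₀⟩ := h V X N ι hι M Φ C hC M A η ε hA hη hε
  refine ⟨p₀, fun p hp hp1 a ha => ⟨?_, ?_⟩⟩
  · intro y w Λ δ hΛ hδ hy hw hstep hexp
    refine hp₀ p hp hp1 (fun m => stp σ p (a m)) ?_ y w Λ δ hΛ hδ hy ?_ hstep hexp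
    · intro m _
      exact ⟨(stp_length σ p (a m)).le, stp_bound σ p (a m) A (ha m)⟩
    · intro m hm x hx
      rw [gen_stp Φ ι σ p hp1]
      exact hw m hm x hx
  · intro x hx δ hδ hle hsmall
    rw [gosE_symm]
    have e1 : Real.exp 0 * (2 * δ + ε) = 2 * δ + ε := by rw [Real.exp_zero, one_mul]
    have h1 := hp₀ p hp hp1 (fun m => inv (stp σ p (a (p - 1 - m)))) ?_ (fun _ => x)
      (fun _ _ => 0) 0 δ le_rfl hδ (fun _ _ => hx) ?_ ?_ (by rw [e1]; exact hle)
    · rw [e1] at h1
      exact h1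
    · intro m _
      refine ⟨?_, ?_⟩
      · simp only [inv, List.length_reverse, List.length_map, stp_length, le_refl]
      · intro q hq
        unfold inv at hq
        rw [List.mem_reverse] at hq
        obtain ⟨q', hq', rfl⟩ := List.mem_map.1 hq
        show ‖-q'.2‖ ≤ A / p
        rw [norm_neg]
        exact stp_bound σ p _ A (ha _) q' hq'
    · intro m hm x' hx'
      refine ⟨by simp, ?_⟩
      rw [gen_inv, smul_neg, gen_stp Φ ι σ p hp1, sub_zero, norm_neg]
      exact hsmall (p - 1 - m) (by omega) x' hx'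
    · intro m _
      simp only [sub_self, smul_zero, norm_zero]
      positivity

end Pool.Agent.Lib.MP_c2a04f_an
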