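import Pool.Agent.Lib.MP_c2a04f_an.SpecA
import Pool.Agent.Lib.MP_c2a04f_an.SpecB
import Pool.Agent.Lib.MP_c2a04f_an.SpecC

/-!
# F6 FA1
-/

set_option autoImplicit false
set_option maxSynthPendingDepth 3

open scoped Manifold ContDiff Topology
open Set Filter Metric

namespace Pool.Agent.Lib.MP_c2a04f_an

open Pool.Agent.Lib.MP_55bc5f_an

namespace FA1Aux

variable {V : Type} [NormedAddCommGroup V] [NormedSpace ℂ V] {X : CMan V} {N n : ℕ}

lemma diff_comp {ι : X → Cn N} (hE : Emb X ι) {f : Cn n → X} {K : Set (Cn n)} (hf : HolN X f K)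
    {z : Cn n} (hz : z ∈ K) : ∀ᶠ w in 𝓝 z, DifferentiableAt ℂ (fun w => ι (f w)) w := by
  filter_upwards [hf z hz] with w hw
  have h1 : MDifferentiableAt 𝓘(ℂ, Cn n) 𝓘(ℂ, Cn N) (fun w => ι (f w)) w :=
    (hE.hol (f w)).comp w hw
  exact h1.differentiableAt

lemma contAt_fderiv {g : Cn n → Cn N} {z : Cn n}
    (hg : ∀ᶠ w in 𝓝 z, DifferentiableAt ℂ g w) : ContinuousAt (fderiv ℂ g) z := by
  obtain ⟨O, hO1, hO2, hO3⟩ := _root_.eventually_nhds_iff.1 hg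
  have hd : DifferentiableOn ℂ g O := fun w hw => (hO1 w hw).differentiableWithinAt
  have hA : AnalyticOnNhd ℂ g O := Osgood.analyticOnNhd hO2 hd
  exact (hA z hO3).fderiv.continuousAt

/-- The point `z₀ + τ (z - z₀)`. -/
noncomputable def pt (z₀ : Cn n) (τ : ℝ) (z : Cn n) : Cn n := z₀ + (τ : ℂ) • (z - z₀)

lemma pt_mem {K : Set (Cn n)} (hK : Convex ℝ K) {z₀ z : Cn n} (h0 : z₀ ∈ K) (hz : z ∈ K) {τ : ℝ}
    (hτ : τ ∈ Icc (0 : ℝ) 1) : pt z₀ τ z ∈ K := by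
  have h1 : pt z₀ τ z = z₀ + τ • (z - z₀) := by
    unfold pt
    rw [Complex.coe_smul]
  rw [h1]
  exact hK.add_smul_sub_mem h0 hz hτ

lemma hasDeriv {g : Cn n → Cn N} {z₀ z : Cn n} {τ : ℝ}
    (hg : DifferentiableAt ℂ g (pt z₀ τ z)) :
    HasDerivAt (fun s : ℝ => g (pt z₀ s z)) (fderiv ℂ g (pt z₀ τ z) (z - z₀)) τ := by
  have h1 : HasDerivAt (fun t : ℂ => z₀ + t • (z - z₀)) (z - z₀) (τ : ℂ) := by
    simpa using ((hasDerivAt_id (τ : ℂ)).smul_const (z - z₀)).const_add z₀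
  have h2 : HasDerivAt (fun t : ℂ => g (z₀ + t • (z - z₀))) (fderiv ℂ g (pt z₀ τ z) (z - z₀))
      (τ : ℂ) :=
    HasFDerivAt.comp_hasDerivAt (x := (τ : ℂ)) (f := fun t : ℂ => z₀ + t • (z - z₀))
      (l := g) hg.hasFDerivAt h1
  have h3 : HasDerivAt (fun s : ℝ => (s : ℂ)) 1 τ := by
    simpa using (hasDerivAt_id τ).ofReal_comp
  have h4 := HasDerivAt.scomp (h := fun s : ℝ => (s : ℂ)) τ h2 h3
  simpa [Function.comp_def, pt] using h4

lemma sum_lip {r : ℕ} {ι : X → Cn N} {v : Fin r → X → Cn N} {a : Fin r → ℂ} {A : ℝ}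
    {L : Fin r → ℝ} (hA : 0 ≤ A) (ha : ∀ j, ‖a j‖ ≤ A) (hL : ∀ j, 0 ≤ L j) {x y : X}
    (h : ∀ j, ‖v j x - v j y‖ ≤ L j * ‖ι x - ι y‖) :
    ‖(∑ j, a j • v j x) - ∑ j, a j • v j y‖ ≤ (A * ∑ j, L j) * ‖ι x - ι y‖ := by
  rw [← Finset.sum_sub_distrib]
  calc ‖∑ j, (a j • v j x - a j • v j y)‖ ≤ ∑ j, ‖a j • v j x - a j • v j y‖ := norm_sum_le _ _
    _ ≤ ∑ j, A * (L j * ‖ι x - ι y‖) := by
        refine Finset.sum_le_sum fun j _ => ?_
        rw [← smul_sub, norm_smul]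
        exact mul_le_mul (ha j) (h j) (norm_nonneg _) hA
    _ = (A * ∑ j, L j) * ‖ι x - ι y‖ := by
        rw [Finset.mul_sum, Finset.sum_mul]
        exact Finset.sum_congr rfl fun j _ => by ring

lemma sum_apr {r : ℕ} {v v' : Fin r → Cn N} {a : Fin r → ℂ} {A e : ℝ}
    (hA : 0 ≤ A) (ha : ∀ j, ‖a j‖ ≤ A) (h : ∀ j, ‖v j - v' j‖ ≤ e) :
    ‖(∑ j, a j • v' j) - ∑ j, a j • v j‖ ≤ r * A * e := by
  rw [← Finset.sum_sub_distrib]
  calc ‖∑ j, (a j • v' j - a j • v j)‖ ≤ ∑ j, ‖a j • v' j - a j • v j‖ := norm_sum_le _ _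
    _ ≤ ∑ _j : Fin r, A * e := by
        refine Finset.sum_le_sum fun j _ => ?_
        rw [← smul_sub, norm_smul, norm_sub_rev]
        exact mul_le_mul (ha j) (h j) (norm_nonneg _) hA
    _ = r * A * e := by
        rw [Finset.sum_const, Finset.card_univ, Fintype.card_fin, nsmul_eq_mul]; ring

end FA1Aux

open FA1Aux in
theorem s_FA1 (h1 : S_Coef) (h2 : S_Apx) (h3 : S_Euler) (h4 : S_Disc) (h5 : S_GoHol)
    (h6 : S_Lip) (h7 : S_NbF) : S_FA1 := by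
  intro V _ _ _ X N ι hE hD hF n K L z₀ f S hK hKc hz₀ hL hKL hf hfS ε hε
  obtain ⟨r, v, A, hA, hT, hv0, hcoef⟩ := h1 V X N ι hE hF n K z₀ f S hK hKc hz₀ hf hfS
  obtain ⟨hN1, hN2, hN3, hN4⟩ := h7 V X N ι hE
  -- the compact sets
  have hfc : ContinuousOn f K := fun z hz =>
    (hf z hz).self_of_nhds.continuousAt.continuousWithinAt
  obtain ⟨C, hCdef⟩ : ∃ C : Set X, C = f '' K ∪ (S : Set X) := ⟨_, rfl⟩
  have hC : IsCompact C := by
    rw [hCdef]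
    exact (hK.image_of_continuousOn hfc).union S.finite_toSet.isCompact
  have hC' : IsCompact (Nb ι C 1) := hN2 C 1 hC
  -- Lipschitz constants
  choose Lc hLc0 hLc using fun j => h6 V X N ι hE N (v j) (hT j).hol (Nb ι C 1) hC'
  obtain ⟨Ls, hLs⟩ : ∃ Ls : ℝ, Ls = ∑ j, Lc j := ⟨_, rfl⟩
  have hLs0 : 0 ≤ Ls := by rw [hLs]; exact Finset.sum_nonneg fun j _ => hLc0 j
  obtain ⟨e, he⟩ : ∃ e : ℝ, e = min ε 1 := ⟨_, rfl⟩
  have he0 : 0 < e := by rw [he]; exact lt_min hε one_pos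
  have heε : e ≤ ε := by rw [he]; exact min_le_left _ _
  have he1 : e ≤ 1 := by rw [he]; exact min_le_right _ _
  obtain ⟨δ, hδ⟩ : ∃ δ : ℝ, δ = e / (5 * Real.exp (A * Ls)) := ⟨_, rfl⟩
  have hexp : 0 < Real.exp (A * Ls) := Real.exp_pos _
  have hδ0 : 0 < δ := by rw [hδ]; positivity
  have hδ1 : Real.exp (A * Ls) * (5 * δ) = e := by
    rw [hδ]; field_simp
  obtain ⟨a, ha1, ha2, ha3, ha4⟩ := hcoef δ hδ0
  -- bound on L
  obtain ⟨B, hB⟩ := (isCompact_Icc.prod hL : IsCompact (Icc (0 : ℝ) 1 ×ˢ L)).exists_bound_of_continuousOn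
    ha2.continuousOn
  obtain ⟨AL, hAL⟩ : ∃ AL : ℝ, AL = max A B := ⟨_, rfl⟩
  have hAL0 : 0 ≤ AL := by rw [hAL]; exact hA.trans (le_max_left _ _)
  have haL : ∀ τ ∈ Icc (0 : ℝ) 1, ∀ z ∈ L, ∀ j, ‖a τ z j‖ ≤ AL := by
    intro τ hτ z hz j
    calc ‖a τ z j‖ ≤ ‖a τ z‖ := norm_le_pi_norm (a τ z) j
      _ ≤ B := hB (τ, z) ⟨hτ, hz⟩
      _ ≤ AL := by rw [hAL]; exact le_max_right _ _
  have hexpL : 0 < Real.exp (AL * Ls) := Real.exp_pos _
  obtain ⟨δ₃, hδ₃⟩ : ∃ δ₃ : ℝ, δ₃ = min δ (e / (3 * Real.exp (AL * Ls))) := ⟨_, rfl⟩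
  have hδ₃0 : 0 < δ₃ := by rw [hδ₃]; exact lt_min hδ0 (by positivity)
  have hδ₃δ : δ₃ ≤ δ := by rw [hδ₃]; exact min_le_left _ _
  have hδ₃L : Real.exp (AL * Ls) * (3 * δ₃) ≤ e := by
    have h : δ₃ ≤ e / (3 * Real.exp (AL * Ls)) := by rw [hδ₃]; exact min_le_right _ _
    calc Real.exp (AL * Ls) * (3 * δ₃) ≤
        Real.exp (AL * Ls) * (3 * (e / (3 * Real.exp (AL * Ls)))) := by gcongr
      _ = e := by field_simp
  obtain ⟨e₃, he₃⟩ : ∃ e₃ : ℝ, e₃ = δ₃ / (r * AL + 1) := ⟨_, rfl⟩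
  have hrAL : 0 ≤ (r : ℝ) * AL := by positivity
  have he₃0 : 0 < e₃ := by rw [he₃]; positivity
  have he₃1 : r * AL * e₃ ≤ δ₃ := by
    rw [he₃, mul_div_assoc', div_le_iff₀ (by positivity)]
    nlinarith
  obtain ⟨M, Φ, σ, hΦ⟩ := h2 V X N ι hD r v hT (Nb ι C 1) hC' e₃ he₃0
  obtain ⟨p₁, hp₁⟩ := h3 V X N ι hE M r Φ σ C hC AL 1 δ₃ hAL0 one_pos hδ₃0
  -- the curves
  obtain ⟨p₂, hp₂⟩ := h4 n N K hK (fun τ z => ι (f (pt z₀ τ z)))
    (fun τ z => fderiv ℂ (fun w => ι (f w)) (pt z₀ τ z) (z - z₀))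
    (fun z hz τ hτ => (hasDeriv (g := fun w => ι (f w))
      (diff_comp hE hf (pt_mem hKc hz₀ hz hτ)).self_of_nhds).hasDerivWithinAt)
    (by
      rintro ⟨τ, z⟩ ⟨hτ, hz⟩
      apply ContinuousAt.continuousWithinAt
      have hpc : Continuous fun q : ℝ × Cn n => pt z₀ q.1 q.2 := by
        unfold pt
        fun_prop
      have hA1 : ContinuousAt (fun q : ℝ × Cn n => fderiv ℂ (fun w => ι (f w)) (pt z₀ q.1 q.2))
          (τ, z) := by
        have h8 : ContinuousAt (fderiv ℂ (fun w => ι (f w))) (pt z₀ τ z) :=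
          contAt_fderiv (diff_comp hE hf (pt_mem hKc hz₀ hz hτ))
        exact ContinuousAt.comp (f := fun q : ℝ × Cn n => pt z₀ q.1 q.2) (x := (τ, z)) h8
          hpc.continuousAt
      have hA2 : ContinuousAt (fun q : ℝ × Cn n => q.2 - z₀) (τ, z) := by fun_prop
      exact hA1.clm_apply hA2) δ hδ0
  obtain ⟨p, hp⟩ : ∃ p : ℕ, p = max (max p₁ p₂) 1 := ⟨_, rfl⟩
  have hpp₁ : p₁ ≤ p := by rw [hp]; exact (le_max_left _ _).trans (le_max_left _ _)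
  have hpp₂ : p₂ ≤ p := by rw [hp]; exact (le_max_right _ _).trans (le_max_left _ _)
  have hp1 : 1 ≤ p := by rw [hp]; exact le_max_right _ _
  have hpR : (0 : ℝ) < p := by exact_mod_cast hp1
  -- the times
  obtain ⟨τ, hτdef⟩ : ∃ τ : ℕ → ℝ, τ = fun m => ((min m p : ℕ) : ℝ) / p := ⟨_, rfl⟩
  have hτ : ∀ m, τ m ∈ Icc (0 : ℝ) 1 := by
    intro m
    rw [hτdef]
    refine ⟨by positivity, ?_⟩
    rw [div_le_one hpR]
    exact_mod_cast min_le_right m p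
  have hτm : ∀ m ≤ p, τ m = (m : ℝ) / p := by
    intro m hm
    rw [hτdef]
    simp only [min_eq_left hm]
  obtain ⟨H, hH⟩ := (h5 V X M r n Φ σ).2 p p (fun m z => a (τ m) z) (fun m j => ha1 (τ m) j)
  -- approximation of the fields
  have happ : ∀ m, ∀ z ∈ L, ∀ x ∈ Nb ι C 1,
      ‖(∑ j, a (τ m) z j • appr Φ ι σ j x) - ∑ j, a (τ m) z j • v j x‖ ≤ δ₃ := by
    intro m z hz x hx
    exact (sum_apr hAL0 (fun j => haL (τ m) (hτ m) z hz j) (fun j => hΦ x hx j)).trans he₃1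
  have hmemNb : ∀ c ∈ C, ∀ x, ‖ι x - ι c‖ ≤ 1 → x ∈ Nb ι C 1 := fun c hc x hx => ⟨c, hc, hx⟩
  have hmemC : ∀ c ∈ C, c ∈ Nb ι C 1 := fun c hc => ⟨c, hc, by simp⟩
  refine ⟨H, fun z hz => ?_, fun z hz s hs => ?_⟩
  · -- trajectories of `f`
    have hzL := hKL hz
    obtain ⟨hEu, -⟩ := hp₁ p hpp₁ hp1 (fun m => a (τ m) z) (fun m j => haL _ (hτ m) z hzL j)
    have hyC : ∀ m, f (pt z₀ (τ m) z) ∈ C := by
      intro m
      rw [hCdef]
      exact Or.inl ⟨_, pt_mem hKc hz₀ hz (hτ m), rfl⟩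
    have key := hEu (fun m => f (pt z₀ (τ m) z)) (fun m x => ∑ j, a (τ m) z j • v j x)
      (A * Ls) (2 * δ) (by positivity) (by positivity) (fun m _ => hyC m)
      (fun m _ x hx => ⟨?_, ?_⟩) (fun m hm => ?_) ?_
    · have hτ0 : τ 0 = 0 := by rw [hτm 0 (Nat.zero_le _)]; simp
      have hτp : τ p = 1 := by rw [hτm p le_rfl]; exact div_self hpR.ne'
      have e0 : pt z₀ (τ 0) z = z₀ := by rw [hτ0]; simp [pt]
      have e1 : pt z₀ (τ p) z = z := by rw [hτp]; simp [pt]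
      simp only [e0, e1] at key
      rw [hH]
      refine key.trans ?_
      calc Real.exp (A * Ls) * (2 * (2 * δ) + δ₃) ≤ Real.exp (A * Ls) * (5 * δ) := by
            apply mul_le_mul_of_nonneg_left _ hexp.le
            linarith
        _ = e := hδ1
        _ ≤ ε := heε
    · rw [hLs]
      exact sum_lip hA (fun j => ha3 (τ m) (hτ m) z hz j) hLc0
        (fun j => hLc j x (hmemNb _ (hyC m) x hx) _ (hmemC _ (hyC m)))
    · have := happ m z hzL x (hmemNb _ (hyC m) x hx)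
      linarith
    · have hm1 : m + 1 ≤ p := hm
      have hd := hp₂ p hpp₂ hp1 m hm z hz
      have e0 : τ (m + 1) = ((m + 1 : ℕ) : ℝ) / p := hτm (m + 1) hm1
      have e1 : τ m = (m : ℝ) / p := hτm m hm.le
      have hc := ha4 (τ m) (hτ m) z hz
      change ‖fderiv ℂ (fun w => ι (f w)) (pt z₀ (τ m) z) (z - z₀) -
        ∑ j, a (τ m) z j • v j (f (pt z₀ (τ m) z))‖ ≤ δ at hc
      rw [← e0, ← e1] at hd
      have hpC : ‖(1 / p : ℂ)‖ = 1 / p := by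
        rw [norm_div, norm_one, Complex.norm_natCast]
      calc ‖ι (f (pt z₀ (τ (m + 1)) z)) - ι (f (pt z₀ (τ m) z)) -
            (1 / p : ℂ) • ∑ j, a (τ m) z j • v j (f (pt z₀ (τ m) z))‖
          = ‖(ι (f (pt z₀ (τ (m + 1)) z)) - ι (f (pt z₀ (τ m) z)) -
              (1 / p : ℂ) • fderiv ℂ (fun w => ι (f w)) (pt z₀ (τ m) z) (z - z₀)) +
            (1 / p : ℂ) • (fderiv ℂ (fun w => ι (f w)) (pt z₀ (τ m) z) (z - z₀) -
              ∑ j, a (τ m) z j • v j (f (pt z₀ (τ m) z)))‖ := by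
            congr 1
            rw [smul_sub]
            abel
        _ ≤ δ / p + 1 / p * δ := by
            refine (norm_add_le _ _).trans (add_le_add hd ?_)
            rw [norm_smul, hpC]
            exact mul_le_mul_of_nonneg_left hc (by positivity)
        _ = 2 * δ / p := by ring
    · calc Real.exp (A * Ls) * (2 * (2 * δ) + δ₃) ≤ Real.exp (A * Ls) * (5 * δ) := by
            apply mul_le_mul_of_nonneg_left _ hexp.le
            linarith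
        _ = e := hδ1
        _ ≤ 1 := he1
  · -- the points of `S`
    obtain ⟨hEu, -⟩ := hp₁ p hpp₁ hp1 (fun m => a (τ m) z) (fun m j => haL _ (hτ m) z hz j)
    have hsC : s ∈ C := by rw [hCdef]; exact Or.inr hs
    have hw0 : ∀ m, (∑ j, a (τ m) z j • v j s) = 0 := by
      intro m
      refine Finset.sum_eq_zero fun j _ => ?_
      rw [hv0 j s hs, smul_zero]
    have key := hEu (fun _ => s) (fun m x => ∑ j, a (τ m) z j • v j x)
      (AL * Ls) δ₃ (by positivity) hδ₃0.le (fun m _ => hsC)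
      (fun m _ x hx => ⟨?_, ?_⟩) (fun m hm => ?_) ?_
    · rw [hH]
      refine key.trans ?_
      calc Real.exp (AL * Ls) * (2 * δ₃ + δ₃) = Real.exp (AL * Ls) * (3 * δ₃) := by ring
        _ ≤ e := hδ₃L
        _ ≤ ε := heε
    · rw [hLs]
      exact sum_lip hAL0 (fun j => haL (τ m) (hτ m) z hz j) hLc0
        (fun j => hLc j x (hmemNb _ hsC x hx) _ (hmemC _ hsC))
    · exact happ m z hz x (hmemNb _ hsC x hx)
    · simp only [hw0, smul_zero, sub_self, norm_zero]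
      positivity
    · calc Real.exp (AL * Ls) * (2 * δ₃ + δ₃) = Real.exp (AL * Ls) * (3 * δ₃) := by ring
        _ ≤ e := hδ₃L
        _ ≤ 1 := he1

end Pool.Agent.Lib.MP_c2a04f_an
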