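import Pool.Agent.Lib.MP_c2a04f_an.SpecC

/-!
# F4 FieldsS: fields vanishing on a finite set
-/

set_option autoImplicit false

open scoped Manifold ContDiff Topology
open Set Filter Metric

namespace Pool.Agent.Lib.MP_c2a04f_an

open Pool.Agent.Lib.MP_55bc5f_an

namespace FieldsAux

variable {V : Type} [NormedAddCommGroup V] [NormedSpace ℂ V] {X : CMan V} {N : ℕ}

lemma md_mul {f g : X → ℂ} (hf : MDifferentiable 𝓘(ℂ, V) 𝓘(ℂ, ℂ) f)
    (hg : MDifferentiable 𝓘(ℂ, V) 𝓘(ℂ, ℂ) g) :
    MDifferentiable 𝓘(ℂ, V) 𝓘(ℂ, ℂ) (fun x => f x * g x) := by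
  have h1 : Differentiable ℂ (fun p : ℂ × ℂ => p.1 * p.2) := by fun_prop
  exact h1.mdifferentiable.comp (hf.prodMk_space hg)

lemma md_smul {f : X → ℂ} {g : X → Cn N} (hf : MDifferentiable 𝓘(ℂ, V) 𝓘(ℂ, ℂ) f)
    (hg : MDifferentiable 𝓘(ℂ, V) 𝓘(ℂ, Cn N) g) :
    MDifferentiable 𝓘(ℂ, V) 𝓘(ℂ, Cn N) (fun x => f x • g x) := by
  have h1 : Differentiable ℂ (fun p : ℂ × Cn N => p.1 • p.2) := by fun_prop
  exact h1.mdifferentiable.comp (hf.prodMk_space hg)

lemma tan_smul {ι : X → Cn N} {f : X → ℂ} {v : X → Cn N}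
    (hf : MDifferentiable 𝓘(ℂ, V) 𝓘(ℂ, ℂ) f) (hv : Tan X ι v) : Tan X ι (fun x => f x • v x) := by
  refine ⟨md_smul hf hv.hol, fun x => ?_⟩
  obtain ⟨u, hu⟩ := hv.tan x
  refine ⟨f x • u, ?_⟩
  rw [← hu]
  unfold dF
  exact map_smul _ _ _

end FieldsAux

open FieldsAux in
theorem s_FieldsS : S_FieldsS := by
  classical
  intro V _ _ X N ι hE hF S C hC hCS
  -- functionals
  have hlam : ∀ e s : X, ∃ l : Cn N →L[ℂ] ℂ, e ≠ s → l (ι e - ι s) ≠ 0 := by
    intro e s
    by_cases hes : e = s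
    · exact ⟨0, fun h => absurd hes h⟩
    · have h1 : ι e - ι s ≠ 0 := sub_ne_zero.2 fun h => hes (hE.closed.injective h)
      obtain ⟨k, hk⟩ := Function.ne_iff.1 h1
      exact ⟨ContinuousLinearMap.proj k, fun _ => hk⟩
  choose l hl using hlam
  choose F v hFd hFe hvT hFv using hF
  let g : X → X → ℂ := fun e x => ∏ s ∈ S, (l e s (ι x - ι s) / l e s (ι e - ι s))
  have hgd : ∀ e, MDifferentiable 𝓘(ℂ, V) 𝓘(ℂ, ℂ) (g e) := by
    intro e
    have h2 : ∀ T : Finset X, Differentiable ℂ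
        (fun w : Cn N => ∏ s ∈ T, (l e s (w - ι s) / l e s (ι e - ι s))) := by
      intro T
      induction T using Finset.induction_on with
      | empty => simp
      | insert a T ha ih =>
        have h3 : Differentiable ℂ (fun w : Cn N => l e a (w - ι a) / l e a (ι e - ι a)) :=
          by
            have h4 : Differentiable ℂ (fun w : Cn N => l e a (w - ι a)) :=
              (l e a).differentiable.comp (differentiable_id.sub_const _)
            simpa only [div_eq_mul_inv] using h4.mul_const _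
        simpa only [Finset.prod_insert ha] using h3.fun_mul ih
    have h1 : Differentiable ℂ (fun w : Cn N => ∏ s ∈ S, (l e s (w - ι s) / l e s (ι e - ι s))) :=
      h2 S
    exact h1.mdifferentiable.comp hE.hol
  have hge : ∀ e ∉ S, g e e = 1 := by
    intro e he
    refine Finset.prod_eq_one fun s hs => div_self (hl e s ?_)
    rintro rfl
    exact he hs
  have hgs : ∀ e, ∀ s ∈ S, g e s = 0 := by
    intro e s hs
    refine Finset.prod_eq_zero hs ?_
    simp
  have hnhds : ∀ e ∈ C, {x | g e x * F e x ≠ 0} ∈ 𝓝 e := by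
    intro e he
    have hes : e ∉ S := fun h => disjoint_left.1 hCS he h
    have hc : Continuous fun x => g e x * F e x := (hgd e).continuous.mul (hFd e).continuous
    have hne : g e e * F e e ≠ 0 := by rw [hge e hes, one_mul]; exact hFe e
    exact hc.continuousAt.eventually_ne hne
  obtain ⟨t, ht1, ht2⟩ := hC.elim_nhds_subcover (fun e => {x | g e x * F e x ≠ 0}) hnhds
  let E : Fin t.card ≃ t := t.equivFin.symm
  refine ⟨t.card, fun j x => g (E j) x * F (E j) x, fun j k x => g (E j) x • v (E j) k x,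
    fun j => md_mul (hgd _) (hFd _), fun j k => tan_smul (hgd _) (hvT _ k), fun j k s hs => ?_,
    fun x hx => ?_, fun j x u => ?_⟩
  · simp only [hgs _ s hs, zero_smul]
  · obtain ⟨e, he, hx2⟩ := mem_iUnion₂.1 (ht2 hx)
    refine ⟨E.symm ⟨e, he⟩, ?_⟩
    simpa using hx2
  · rw [mul_smul, hFv, Finset.smul_sum]
    exact Finset.sum_congr rfl fun k _ => smul_comm _ _ _

end Pool.Agent.Lib.MP_c2a04f_an
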