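import Pool.Agent.Lib.MP_c2a04f_an.SpecC
import Pool.Agent.Lib.MP_c2a04f_an.SpecD

/-!
# Global frames on Stein manifolds which are not connected
-/

set_option autoImplicit false

open scoped Manifold ContDiff Topology
open Set Filter Metric

namespace Pool.Agent.Lib.MP_c2a04f_an

open Pool.Agent.Lib.MP_55bc5f_an

section

variable {V : Type} [NormedAddCommGroup V] [NormedSpace ℂ V] {X : CMan V}

open Classical in
/-- The extension of `b` by `0`. -/
noncomputable def extZ {W : Type} [Zero W] (D : TopologicalSpace.Opens X) (b : X.sub D → W)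
    (x : X) : W :=
  if h : x ∈ D then b (⟨x, h⟩ : D) else 0

theorem extZ_mem {W : Type} [Zero W] (D : TopologicalSpace.Opens X) (b : X.sub D → W)
    (y : X.sub D) : extZ D b (subInc X D y) = b y := by
  have h : subInc X D y ∈ D := (y : D).2
  rw [extZ, dif_pos h]
  rfl

theorem extZ_notMem {W : Type} [Zero W] (D : TopologicalSpace.Opens X) (b : X.sub D → W)
    {x : X} (h : x ∉ D) : extZ D b x = 0 := by
  rw [extZ, dif_neg h]

open Classical in
theorem extZ_mdiff (h2 : S_SubHol) {W : Type} [NormedAddCommGroup W] [NormedSpace ℂ W]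
    (D : TopologicalSpace.Opens X) (hD : IsClosed (D : Set X)) (b : X.sub D → W)
    (hb : MDifferentiable 𝓘(ℂ, V) 𝓘(ℂ, W) b) :
    MDifferentiable 𝓘(ℂ, V) 𝓘(ℂ, W) (extZ D b) := by
  obtain ⟨hs, -, -⟩ := h2 V X D
  intro x
  by_cases hx : x ∈ D
  · let y₀ : X.sub D := (⟨x, hx⟩ : D)
    let r : X → X.sub D := fun w => if h : w ∈ D then (⟨w, h⟩ : D) else y₀
    have hr : ∀ w ∈ D, subInc X D (r w) = w := by
      intro w hw
      have e : r w = (⟨w, hw⟩ : D) := dif_pos hw
      rw [e]
      rfl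
    have h3 : (fun w => subInc X D (r w)) =ᶠ[𝓝 x] id := by
      filter_upwards [D.isOpen.mem_nhds hx] with w hw
      exact hr w hw
    have h4 : MDifferentiableAt 𝓘(ℂ, V) 𝓘(ℂ, V) (fun w => subInc X D (r w)) x :=
      mdifferentiableAt_id.congr_of_eventuallyEq h3
    have h5 : MDifferentiableAt 𝓘(ℂ, V) 𝓘(ℂ, V) r x := (hs V X r x).mp h4
    have h6 : MDifferentiableAt 𝓘(ℂ, V) 𝓘(ℂ, W) (fun w => b (r w)) x :=
      (hb (r x)).comp x h5
    refine h6.congr_of_eventuallyEq ?_
    filter_upwards [D.isOpen.mem_nhds hx] with w hw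
    have e : r w = (⟨w, hw⟩ : D) := dif_pos hw
    have e2 : extZ D b w = b (⟨w, hw⟩ : D) := dif_pos hw
    rw [e2, e]
  · have h3 : extZ D b =ᶠ[𝓝 x] fun _ => 0 := by
      filter_upwards [hD.isOpen_compl.mem_nhds hx] with w hw
      exact extZ_notMem D b hw
    exact mdifferentiableAt_const.congr_of_eventuallyEq h3

end

theorem s_FramesAll (h1 : S_FramesC) (h2 : S_SubHol) : S_FramesAll := by
  intro V _ _ _ X N ι hι hV e
  have hlc : LocallyConnectedSpace X := ChartedSpace.locallyConnectedSpace V X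
  let D : TopologicalSpace.Opens X := ⟨connectedComponent e, isOpen_connectedComponent⟩
  have hD : IsClosed (D : Set X) := isClosed_connectedComponent
  obtain ⟨-, hinc, hbij⟩ := h2 V X D
  let ι' : X.sub D → Cn N := fun y => ι (subInc X D y)
  have hder : ∀ (y : X.sub D), mfderiv 𝓘(ℂ, V) 𝓘(ℂ, Cn N) ι' y =
      (mfderiv 𝓘(ℂ, V) 𝓘(ℂ, Cn N) ι (subInc X D y)).comp
        (mfderiv 𝓘(ℂ, V) 𝓘(ℂ, V) (subInc X D) y) := fun y =>
    mfderiv_comp y (hι.hol (subInc X D y)) (hinc y)
  have hι' : Emb (X.sub D) ι' := by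
    refine ⟨hι.hol.comp hinc, fun y => ?_, ?_⟩
    · rw [hder y]
      exact (hι.inj _).comp (hbij y).1
    · exact hι.closed.comp hD.isClosedEmbedding_subtypeVal
  have hconn : ConnectedSpace (X.sub D) := by
    have h3 : IsConnected (connectedComponent e) := isConnected_connectedComponent
    exact isConnected_iff_connectedSpace.mp h3
  let e' : X.sub D := (⟨e, mem_connectedComponent⟩ : D)
  obtain ⟨F, v, hF, hFe, hv, hid⟩ := h1 V (X.sub D) N ι' hι' hV hconn e'
  have hdF : ∀ (y : X.sub D) (u : TangentSpace 𝓘(ℂ, V) y),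
      dF ι' y u = dF ι (subInc X D y) (mfderiv 𝓘(ℂ, V) 𝓘(ℂ, V) (subInc X D) y u) := by
    intro y u
    unfold dF
    rw [hder y]
    rfl
  refine ⟨extZ D F, fun k => extZ D (v k), extZ_mdiff h2 D hD F hF, ?_, fun k => ⟨?_, ?_⟩, ?_⟩
  · have h3 := extZ_mem D F e'
    have h4 : subInc X D e' = e := rfl
    rw [h4] at h3
    rw [h3]
    exact hFe
  · exact extZ_mdiff h2 D hD (v k) (hv k).hol
  · intro x
    by_cases hx : x ∈ D
    · let y : X.sub D := (⟨x, hx⟩ : D)
      obtain ⟨u, hu⟩ := (hv k).tan y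
      refine ⟨mfderiv 𝓘(ℂ, V) 𝓘(ℂ, V) (subInc X D) y u, ?_⟩
      have h3 := extZ_mem D (v k) y
      have h4 := hdF y u
      exact (h4.symm.trans hu).trans h3.symm
    · refine ⟨0, ?_⟩
      refine Eq.trans ?_ (extZ_notMem D (v k) hx).symm
      exact map_zero _
  · intro x u
    by_cases hx : x ∈ D
    · let y : X.sub D := (⟨x, hx⟩ : D)
      obtain ⟨u', hu'⟩ := (hbij y).2 u
      have h3 := hid y u'
      have h4 : dF ι x u = dF ι' y u' := by
        rw [hdF y u', hu']
        rfl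
      have h5 : extZ D F x = F y := extZ_mem D F y
      have h6 : ∀ k, extZ D (v k) x = v k y := fun k => extZ_mem D (v k) y
      rw [h4, h5]
      simp only [h6]
      exact h3
    · rw [extZ_notMem D F hx, zero_smul]
      symm
      refine Finset.sum_eq_zero fun k _ => ?_
      show dF ι x u k • extZ D (v k) x = 0
      rw [extZ_notMem D (v k) hx, smul_zero]

end Pool.Agent.Lib.MP_c2a04f_an
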