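import Mathlib
import Pool.Agent.Lib.MP_c2a04f_an.SpecD
import Pool.Agent.Lib.MP_55bc5f_an.Full.EtA

/-!
# MP_c2a04f_an: global frames on connected Stein manifolds
-/

set_option autoImplicit false

open scoped Manifold ContDiff Topology
open Set Filter Metric

namespace Pool.Agent.Lib.MP_c2a04f_an

open Pool.Agent.Lib.MP_55bc5f_an

namespace FramesCAux

variable {V : Type} [NormedAddCommGroup V] [NormedSpace ℂ V] {X : CMan V} {N : ℕ}

/-- the derivative of `ι` factors through the coordinates -/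
lemma factor {n : ℕ} {ι : X → Cn N} (hι : MDifferentiable 𝓘(ℂ, V) 𝓘(ℂ, Cn N) ι)
    {I : Fin n → Fin N} {x : X} {A : Cn n →L[ℂ] Cn N} (hA : HasRD (zc ι I) ι A x)
    (u : TangentSpace 𝓘(ℂ, V) x) : dF ι x u = A (prI I (dF ι x u)) := by
  obtain ⟨g, hg1, hg2⟩ := hA
  have h1 : HasMFDerivAt 𝓘(ℂ, V) 𝓘(ℂ, Cn N) ι x (mfderiv 𝓘(ℂ, V) 𝓘(ℂ, Cn N) ι x) :=
    (hι x).hasMFDerivAt
  have h2 : HasMFDerivAt 𝓘(ℂ, Cn N) 𝓘(ℂ, Cn n) (prI I : Cn N → Cn n) (ι x) (prI I) :=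
    (prI I).hasFDerivAt.hasMFDerivAt
  have h3 : HasMFDerivAt 𝓘(ℂ, Cn n) 𝓘(ℂ, Cn N) g (prI I (ι x)) A := hg1.hasMFDerivAt
  have h4 := h3.comp x (h2.comp x h1)
  have h5 := h4.congr_of_eventuallyEq hg2
  have h6 := hasMFDerivAt_unique h1 h5
  have h7 := congrArg (fun L : TangentSpace 𝓘(ℂ, V) x →L[ℂ] Cn N => L u) h6
  exact h7

/-- the tangent space -/
lemma surj [FiniteDimensional ℂ V] {ι : X → Cn N} {x : X}
    (hinj : Function.Injective (mfderiv 𝓘(ℂ, V) 𝓘(ℂ, Cn N) ι x))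
    {I : Fin (Module.finrank ℂ V) → Fin N} {A : Cn (Module.finrank ℂ V) →L[ℂ] Cn N}
    (hA : ∀ u : TangentSpace 𝓘(ℂ, V) x, dF ι x u = A (prI I (dF ι x u)))
    (c : Cn (Module.finrank ℂ V)) : ∃ u : TangentSpace 𝓘(ℂ, V) x, dF ι x u = A c := by
  let D0 : V →L[ℂ] Cn N := mfderiv 𝓘(ℂ, V) 𝓘(ℂ, Cn N) ι x
  let D : V →ₗ[ℂ] Cn N := (D0 : V →ₗ[ℂ] Cn N)
  have hD : ∀ u : V, D u = dF ι x u := fun u => rfl
  have hDinj : Function.Injective D := hinj
  let B : Cn (Module.finrank ℂ V) →ₗ[ℂ] Cn N := (A : Cn (Module.finrank ℂ V) →ₗ[ℂ] Cn N)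
  have hle : LinearMap.range D ≤ LinearMap.range B := by
    rintro _ ⟨u, rfl⟩
    exact ⟨prI I (dF ι x u), (hA u).symm⟩
  have h1 : Module.finrank ℂ (LinearMap.range D) = Module.finrank ℂ V :=
    LinearMap.finrank_range_of_inj hDinj
  have h2 : Module.finrank ℂ (LinearMap.range B) ≤ Module.finrank ℂ V := by
    have := LinearMap.finrank_range_le B
    rwa [Module.finrank_fin_fun] at this
  have heq : LinearMap.range D = LinearMap.range B :=
    Submodule.eq_of_le_of_finrank_le hle (by rw [h1]; exact h2)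
  have hmem : A c ∈ LinearMap.range D := by
    rw [heq]
    exact ⟨c, rfl⟩
  obtain ⟨u, hu⟩ := hmem
  exact ⟨u, hu⟩

end FramesCAux

open FramesCAux in
theorem s_FramesC (h1 : S_FramesLM) (h2 : MP_55bc5f_an.S_TrLM) (h3 : MP_55bc5f_an.S_TrHol) :
    S_FramesC := by
  intro V _ _ _ X N ι hι hn hX e
  have himm : Imm X ι := ⟨hι.hol, hι.inj⟩
  have het := h2 V X N ι himm
  let E : LM (Module.finrank ℂ V) N :=
    { carrier := X
      z := ι
      cont := hι.hol.continuous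
      et := het }
  obtain ⟨F, v, hF, hFe, hv, hvA, hFv⟩ := h1 (Module.finrank ℂ V) N hn E hι.closed hX e
  have hRD : ∀ (x : X) (I : Fin (Module.finrank ℂ V) → Fin N), Et ι I x →
      HasRD (zc ι I) ι (E.A I x) x := fun x I hI => Et.hasRD_A (M := E) hI
  refine ⟨F, v, ?_, hFe, ?_, ?_⟩
  · intro x
    exact ((h3 V X N ι himm ℂ F x).mp (hF x)).self_of_nhds
  · intro k
    refine ⟨fun x => ((h3 V X N ι himm (Cn N) (v k) x).mp (hv k x)).self_of_nhds, fun x => ?_⟩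
    obtain ⟨I, hI⟩ := het x
    obtain ⟨c, hc⟩ := hvA k I x hI
    obtain ⟨u, hu⟩ := surj (hι.inj x) (fun u => factor hι.hol (hRD x I hI) u) c
    exact ⟨u, hu.trans hc⟩
  · intro x u
    obtain ⟨I, hI⟩ := het x
    have h4 := hFv I x hI (prI I (dF ι x u))
    have h5 : E.A I x (prI I (dF ι x u)) = dF ι x u := (factor hι.hol (hRD x I hI) u).symm
    rw [h5] at h4
    exact h4

end Pool.Agent.Lib.MP_c2a04f_an
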