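import Mathlib
import Pool.Agent.Lib.MP_c2a04f_an.SpecD
import Pool.Agent.Lib.MP_55bc5f_an.Full.EtA

/-!
# MP_c2a04f_an : H1, global frames on connected closed submanifolds
-/

set_option autoImplicit false

open scoped Manifold ContDiff Topology
open Set Filter Metric

namespace Pool.Agent.Lib.MP_c2a04f_an

open Pool.Agent.Lib.MP_55bc5f_an

namespace FramesLMAux

/-- The algebraic identity behind the last claim. -/
lemma alg {n N : ℕ} (I : Fin n → Fin N) (u : Cn N) (f : ℂ) (W : Fin n → Cn N)
    (A : Cn n →L[ℂ] Cn N) (hu : A (prI I u) = u) (hW : ∀ b, W b = f • A (Pi.single b 1)) :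
    f • u = ∑ k, u k • ∑ b ∈ Finset.univ.filter (fun b => I b = k), W b := by
  have h1 : prI I u = ∑ b, u (I b) • (Pi.single b 1 : Cn n) := by
    funext d
    simp [Finset.sum_apply, Pi.single_apply]
  have h2 : f • u = ∑ b, u (I b) • W b := by
    conv_lhs => rw [← hu, h1, map_sum, Finset.smul_sum]
    apply Finset.sum_congr rfl
    intro b _
    rw [map_smul, hW, smul_comm]
  rw [h2]
  have h3 : ∀ k, u k • ∑ b ∈ Finset.univ.filter (fun b => I b = k), W b =
      ∑ b ∈ Finset.univ.filter (fun b => I b = k), u (I b) • W b := by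
    intro k
    rw [Finset.smul_sum]
    apply Finset.sum_congr rfl
    intro b hb
    rw [(Finset.mem_filter.1 hb).2]
  simp only [h3]
  exact (Finset.sum_fiberwise (s := Finset.univ) (g := I) (f := fun b => u (I b) • W b)).symm

end FramesLMAux

/-- **H1 FramesLM.** -/
theorem s_FramesLM (h1 : MP_55bc5f_an.S_Fun) (h2 : MP_55bc5f_an.S_VF) (h3 : MP_55bc5f_an.S_Conn) :
    S_FramesLM := by
  intro n N hn E hE hconn e
  obtain ⟨I, hI⟩ := E.et e
  have he : e ∈ E.E I := hI
  obtain ⟨F, hF, hFe, -, hQ⟩ := h1 n N hn E hE hconn I e he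
  have hd : Dense (E.E I) := (h3 n N E hconn I).1 ⟨e, he⟩
  choose W hW1 hW2 hW3 using fun b => h2 n N E I hd F hF hQ b
  refine ⟨F, fun k x => ∑ b ∈ Finset.univ.filter (fun b => I b = k), W b x, hF, hFe, ?_, ?_, ?_⟩
  · intro k x
    exact HolAt.sum' _ fun b _ => hW1 b x
  · intro k I' x hx
    have h4 : ∑ b ∈ Finset.univ.filter (fun b => I b = k), W b x ∈
        LinearMap.range (E.A I' x : Cn n →ₗ[ℂ] Cn N) := by
      apply Submodule.sum_mem
      intro b _
      exact ⟨prI I' (W b x), hW3 b I' x hx⟩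
    obtain ⟨c, hc⟩ := h4
    exact ⟨c, hc⟩
  · intro I' x hx c
    -- the identity on the intersection
    have key : ∀ y ∈ E.E I' ∩ E.E I, F y • E.A I' y c =
        ∑ k, (E.A I' y c) k • ∑ b ∈ Finset.univ.filter (fun b => I b = k), W b y := by
      rintro y ⟨hy', hy⟩
      exact FramesLMAux.alg I (E.A I' y c) (F y) (fun b => W b y) (E.A I y)
        (A_change hy' hy c).symm (fun b => hW2 b y hy)
    have hcl : x ∈ closure (E.E I' ∩ E.E I) := hd.open_subset_closure_inter (E.isOpen_E I') hx
    have hA : HolAt E.z (fun y => E.A I' y c) x :=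
      (Et.holAt_A (show Et E.z I' x from hx)).comp_clm (ContinuousLinearMap.apply ℂ (Cn N) c)
    have hAc : ContinuousAt (fun y => E.A I' y c) x := hA.continuousAt E.cont.continuousAt
    have hFc : ContinuousAt F x := (hF x).continuousAt E.cont.continuousAt
    have hL : ContinuousAt (fun y => F y • E.A I' y c) x := hFc.smul hAc
    have hR : ContinuousAt (fun y => ∑ k, (E.A I' y c) k •
        ∑ b ∈ Finset.univ.filter (fun b => I b = k), W b y) x := by
      apply tendsto_finsetSum
      intro k _
      have h5 : ContinuousAt (fun y => (E.A I' y c) k) x := continuousAt_pi.1 hAc k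
      have h6 : ContinuousAt (fun y => ∑ b ∈ Finset.univ.filter (fun b => I b = k), W b y) x :=
        (HolAt.sum' _ fun b _ => hW1 b x).continuousAt E.cont.continuousAt
      exact h5.smul h6
    have hfreq : ∃ᶠ y in 𝓝 x, F y • E.A I' y c =
        ∑ k, (E.A I' y c) k • ∑ b ∈ Finset.univ.filter (fun b => I b = k), W b y :=
      (mem_closure_iff_frequently.1 hcl).mono fun y hy => key y hy
    exact tendsto_nhds_unique_of_frequently_eq hL hR hfreq

end Pool.Agent.Lib.MP_c2a04f_an
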