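import Pool.Agent.Lib.MP_c2a04f_an.SpecB

/-!
# MP_c2a04f_an, C5: holomorphic dependence of compositions of flows on parameters
-/

set_option autoImplicit false

open scoped Manifold ContDiff Topology
open Set Filter Metric

namespace Pool.Agent.Lib.MP_c2a04f_an

open Pool.Agent.Lib.MP_55bc5f_an

namespace GoHolAux

variable {V : Type} [NormedAddCommGroup V] [NormedSpace ℂ V] {X : CMan V} {n : ℕ}

lemma flow_comp (φ : Flow X) {a : Cn n → ℂ} {x : Cn n → X} {z₀ : Cn n}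
    (ha : DifferentiableAt ℂ a z₀) (hx : MDifferentiableAt 𝓘(ℂ, Cn n) 𝓘(ℂ, V) x z₀) :
    MDifferentiableAt 𝓘(ℂ, Cn n) 𝓘(ℂ, V) (fun z => φ.φ (a z) (x z)) z₀ :=
  (φ.hol (a z₀, x z₀)).comp z₀ (ha.mdifferentiableAt.prodMk hx)

lemma goE_hol {M : ℕ} (Φ : Fin M → Flow X) (l : List (Fin M × (Cn n → ℂ))) (z₀ : Cn n) :
    ∀ (x : Cn n → X), (∀ q ∈ l, DifferentiableAt ℂ q.2 z₀) →
      MDifferentiableAt 𝓘(ℂ, Cn n) 𝓘(ℂ, V) x z₀ →
      MDifferentiableAt 𝓘(ℂ, Cn n) 𝓘(ℂ, V)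
        (fun z => goE Φ (l.map fun q => (q.1, q.2 z)) (x z)) z₀ ∧
      MDifferentiableAt 𝓘(ℂ, Cn n) 𝓘(ℂ, V)
        (fun z => (goE Φ (l.map fun q => (q.1, q.2 z))).symm (x z)) z₀ := by
  induction l with
  | nil =>
    intro x _ hx
    exact ⟨hx, hx⟩
  | cons p l ih =>
    intro x hl hx
    have hp : DifferentiableAt ℂ p.2 z₀ := hl p (by simp)
    have hl' : ∀ q ∈ l, DifferentiableAt ℂ q.2 z₀ := fun q hq => hl q (by simp [hq])
    constructor
    · exact (ih (fun z => (Φ p.1).φ (p.2 z) (x z)) hl' (flow_comp (Φ p.1) hp hx)).1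
    · have h := (ih x hl' hx).2
      exact flow_comp (Φ p.1) (a := fun z => -p.2 z) hp.neg h

lemma stp_eq {M r : ℕ} (σ : Fin M → Fin r) (p : ℕ) (a : Cn n → Fin r → ℂ) (z : Cn n) :
    stp σ p (a z) = ((List.finRange M).map fun k => (k, fun z => a z (σ k) / (p : ℂ))).map
      (fun q : Fin M × (Cn n → ℂ) => (q.1, q.2 z)) := by
  unfold stp
  rw [List.map_map]
  rfl

end GoHolAux

theorem s_GoHol : S_GoHol := by
  intro V _ _ X M r n Φ σ
  refine ⟨fun l z₀ x hl hx => GoHolAux.goE_hol Φ l z₀ x hl hx, ?_⟩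
  intro p q a ha
  refine ⟨⟨fun z => gosE Φ (fun m => stp σ p (a m z)) q, ?_⟩, fun z => rfl⟩
  induction q with
  | zero =>
    intro x z hx
    exact hx
  | succ m ih =>
    intro x z hx
    have h1 := ih x z hx
    have h2 := (GoHolAux.goE_hol Φ ((List.finRange M).map fun k =>
      (k, fun z => a m z (σ k) / (p : ℂ))) z
      (fun w => gosE Φ (fun m => stp σ p (a m w)) m (x w)) (by
        intro q hq
        rw [List.mem_map] at hq
        obtain ⟨k, _, rfl⟩ := hq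
        have h3 : DifferentiableAt ℂ (fun z => a m z (σ k)) z := ha m (σ k) z
        simp only [div_eq_mul_inv]
        exact h3.mul_const ((p : ℂ)⁻¹)) h1).1
    simp only [← GoHolAux.stp_eq] at h2
    exact h2

end Pool.Agent.Lib.MP_c2a04f_an
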