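import Mathlib
import Pool.Agent.Lib.Osgood
import Pool.Agent.Lib.MP_c2a04f_an.SpecA

/-!
# MP_c2a04f_an: uniform limits of holomorphic maps
-/

set_option autoImplicit false

open scoped Manifold ContDiff Topology
open Set Filter Metric

namespace Pool.Agent.Lib.MP_c2a04f_an

open Pool.Agent.Lib.MP_55bc5f_an

theorem s_HolLim : S_HolLim := by
  intro n N O g h hO hg hgh z hz
  obtain ⟨R', hR', hRO⟩ := Metric.isOpen_iff.mp hO z hz
  set R : ℝ := R' / 2 with hR
  have hRpos : 0 < R := by positivity
  have hsub : ∀ y ∈ ball z R, ball y R ⊆ O := by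
    intro y hy
    refine Subset.trans (ball_subset_ball' ?_) hRO
    rw [mem_ball] at hy
    linarith
  have hyO : ∀ y ∈ ball z R, y ∈ O := fun y hy => hsub y hy (mem_ball_self hRpos)
  have hC : UniformCauchySeqOn (fun j => fderiv ℂ (g j)) atTop (ball z R) := by
    rw [Metric.uniformCauchySeqOn_iff]
    intro ε hε
    have hc := hgh.uniformCauchySeqOn
    rw [Metric.uniformCauchySeqOn_iff] at hc
    obtain ⟨k, hk⟩ := hc (ε * R / 2) (by positivity)
    refine ⟨k, fun a ha b hb y hy => ?_⟩
    have h1 : DifferentiableOn ℂ (fun w => g a w - g b w) (ball y R) :=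
      ((hg a).mono (hsub y hy)).sub ((hg b).mono (hsub y hy))
    have h2 := Osgood.norm_fderiv_le (M := ε * R / 2) hRpos h1 (fun w hw => by
      have := (hk a ha b hb w (hsub y hy hw)).le
      rwa [dist_eq_norm] at this)
    have h3 : fderiv ℂ (fun w => g a w - g b w) y = fderiv ℂ (g a) y - fderiv ℂ (g b) y :=
      fderiv_fun_sub ((hg a).differentiableAt (hO.mem_nhds (hyO y hy)))
        ((hg b).differentiableAt (hO.mem_nhds (hyO y hy)))
    rw [h3] at h2
    rw [dist_eq_norm]
    refine lt_of_le_of_lt h2 ?_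
    have : ε * R / 2 / R = ε / 2 := by field_simp
    rw [this]
    linarith
  have hlim : ∀ y ∈ ball z R, ∃ L : Cn n →L[ℂ] Cn N,
      Tendsto (fun j => fderiv ℂ (g j) y) atTop (𝓝 L) := fun y hy =>
    cauchySeq_tendsto_of_complete (hC.cauchySeq hy)
  choose! L hL using hlim
  have hU := hC.tendstoUniformlyOn_of_tendsto hL
  exact (hasFDerivAt_of_tendstoUniformlyOn isOpen_ball hU
    (fun j y hy => ((hg j).differentiableAt (hO.mem_nhds (hyO y hy))).hasFDerivAt)
    (fun y hy => hgh.tendsto_at (hyO y hy)) (mem_ball_self hRpos)).differentiableAt.differentiableWithinAt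

end Pool.Agent.Lib.MP_c2a04f_an
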