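import Pool.Agent.Lib.MP_c2a04f_an.SpecC
import Pool.Agent.Lib.MP_55bc5f_an.Full.SpecL2

/-!
# Hörmander's theorem on `ℂⁿ`
-/

set_option autoImplicit false

open scoped Manifold ContDiff Topology
open Set Filter Metric MeasureTheory

namespace Pool.Agent.Lib.MP_c2a04f_an

open Pool.Agent.Lib.MP_55bc5f_an

/-- The domain `ℂⁿ`. -/
noncomputable def XCn (n : ℕ) : Dom n where
  carrier := Cn n
  π := id
  hπ := (Homeomorph.refl (Cn n)).isLocalHomeomorph

/-- The identity. -/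
noncomputable def hCn (n : ℕ) : Cn n ≃ₜ XCn n := Homeomorph.refl (Cn n)

/-- The identity. -/
noncomputable def eCn (n : ℕ) : Cn n ≃ᵐ XCn n := (hCn n).toMeasurableEquiv

theorem eCn_apply {n : ℕ} (z : Cn n) : eCn n z = z := rfl

theorem XCn_pi {n : ℕ} (x : XCn n) : (XCn n).π x = x := rfl

section

variable {n : ℕ} {W : Type} [NormedAddCommGroup W] [NormedSpace ℝ W]

theorem XCn_sm {u : Cn n → W} (hu : ContDiff ℝ ∞ u) : Sm (XCn n) u :=
  fun x => ⟨u, (hu.contDiffAt : ContDiffAt ℝ ∞ u (x : Cn n)), EventuallyEq.refl _ _⟩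

theorem XCn_dR (u : Cn n → W) (x : Cn n) : dR (XCn n) u x = fderiv ℝ u x :=
  dR_eq (X := XCn n) (x := x) (u := u) (g := u) (EventuallyEq.refl _ _)

theorem XCn_hol {h : Cn n → ℂ} (hh : Differentiable ℂ h) (x : XCn n) :
    HolAt (XCn n).π h x :=
  ⟨h, Filter.Eventually.of_forall fun z => hh z, EventuallyEq.refl _ _⟩

theorem XCn_diff {h : Cn n → ℂ} (hh : ∀ x : XCn n, HolAt (XCn n).π h x) : Differentiable ℂ h := by
  intro x
  obtain ⟨g, hg1, hg2⟩ := hh x
  have h1 : DifferentiableAt ℂ g x := hg1.self_of_nhds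
  exact h1.congr_of_eventuallyEq hg2

end

theorem XCn_nsq_smooth (n : ℕ) : ContDiff ℝ ∞ (nsq : Cn n → ℝ) := by
  unfold nsq
  refine ContDiff.sum fun j _ => ?_
  exact (contDiff_apply ℝ ℂ j).norm_sq ℝ

theorem XCn_nsq_nonneg {n : ℕ} (z : Cn n) : 0 ≤ nsq z := by
  unfold nsq
  positivity

theorem XCn_lev_sum (h2 : MP_55bc5f_an.S_LevComp) {n : ℕ} {ι : Type} (s : Finset ι)
    (u : ι → Cn n → ℝ) (hu : ∀ i, ContDiff ℝ ∞ (u i)) (x w : Cn n) :
    Lev (XCn n) (fun y => ∑ i ∈ s, u i y) x w = ∑ i ∈ s, Lev (XCn n) (u i) x w := by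
  classical
  obtain ⟨-, hadd, hmul, -, -⟩ := h2 n (XCn n)
  induction s using Finset.induction_on with
  | empty =>
    simp only [Finset.sum_empty]
    have h3 := hmul (fun _ => 0) 0 (XCn_sm contDiff_const) x w
    simpa using h3
  | insert a s ha ih =>
    simp only [Finset.sum_insert ha]
    rw [← ih]
    exact hadd (u a) (fun y => ∑ i ∈ s, u i y) (XCn_sm (hu a))
      (XCn_sm (ContDiff.sum fun i _ => hu i)) x w

theorem XCn_lev_nsq (h2 : MP_55bc5f_an.S_LevComp) {n : ℕ} (x w : Cn n) :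
    Lev (XCn n) (nsq : Cn n → ℝ) x w = nsq w := by
  have e : (nsq : Cn n → ℝ) = fun y : Cn n => ∑ j ∈ Finset.univ, ‖y j‖ ^ 2 := rfl
  rw [e]
  refine (XCn_lev_sum h2 Finset.univ (fun (j : Fin n) (y : Cn n) => ‖y j‖ ^ 2)
    (fun j => (contDiff_apply ℝ ℂ j).norm_sq ℝ) x w).trans ?_
  refine Finset.sum_congr rfl fun j _ => ?_
  obtain ⟨-, -, -, hsq, -⟩ := h2 n (XCn n)
  have hd : Differentiable ℂ (fun y : Cn n => y j) := by fun_prop
  have h3 := hsq (fun y : Cn n => y j) (XCn_hol hd) x w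
  refine h3.trans ?_
  have h4 : rd (XCn n).hπ (fun y : Cn n => y j) x = ContinuousLinearMap.proj j := by
    apply HasRD.rd_eq
    exact ⟨fun y : Cn n => y j, (ContinuousLinearMap.proj (R := ℂ) (φ := fun _ : Fin n => ℂ)
      j).hasFDerivAt, EventuallyEq.refl _ _⟩
  rw [h4]
  rfl

theorem XCn_norm_le {n : ℕ} (z : Cn n) (a : ℝ) (h : nsq z ≤ a) : ‖z‖ ≤ Real.sqrt a := by
  rw [pi_norm_le_iff_of_nonneg (Real.sqrt_nonneg a)]
  intro i
  apply Real.le_sqrt_of_sq_le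
  refine le_trans ?_ h
  unfold nsq
  exact Finset.single_le_sum (f := fun j => ‖z j‖ ^ 2) (fun j _ => by positivity)
    (Finset.mem_univ i)

theorem XCn_compact (n : ℕ) (a : ℝ) : IsCompact {z : Cn n | nsq z ≤ a} := by
  apply isCompact_of_isClosed_isBounded
  · exact isClosed_le (XCn_nsq_smooth n).continuous continuous_const
  · rw [isBounded_iff_forall_norm_le]
    exact ⟨Real.sqrt a, fun z hz => XCn_norm_le z a hz⟩

theorem XCn_dR_one {n : ℕ} (β : Cn n → ℝ) (x : Cn n) (h3 : (fun _ : Cn n => (1 : ℝ)) =ᶠ[𝓝 x] β) :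
    ‖dR (XCn n) β x‖ = 0 := by
  have h4 : fderiv ℝ β x = 0 := by
    rw [← h3.fderiv_eq]
    simp
  have h5 : dR (XCn n) β x = 0 := (XCn_dR β x).trans h4
  rw [h5]
  exact norm_zero

theorem XCn_exh (h2 : MP_55bc5f_an.S_LevComp) (n : ℕ) : Exh (XCn n) (nsq : Cn n → ℝ) where
  sm := XCn_sm (XCn_nsq_smooth n)
  nonneg := XCn_nsq_nonneg
  lev := fun a => ⟨1, one_pos, fun x _ w =>
    (one_mul (nsq w)).le.trans (XCn_lev_nsq h2 x w).ge⟩
  grad := fun a => by
    have hc : Continuous (fderiv ℝ (nsq : Cn n → ℝ)) :=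
      (XCn_nsq_smooth n).continuous_fderiv (by simp)
    obtain ⟨B, hB⟩ := (XCn_compact n a).bddAbove_image hc.norm.continuousOn
    refine ⟨B, fun x hx => ?_⟩
    exact (congrArg norm (XCn_dR (nsq : Cn n → ℝ) x)).le.trans (hB ⟨x, hx, rfl⟩)
  cut := fun c => by
    have hcont := (XCn_nsq_smooth n).continuous
    obtain ⟨β, hβ, hβr, hβs, hβ1⟩ := exists_contMDiff_support_eq_eq_one_iff (n := ⊤)
      (I := 𝓘(ℝ, Cn n)) (s := {z : Cn n | nsq z < c + 1}) (t := {z : Cn n | nsq z ≤ c})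
      (isOpen_lt hcont continuous_const) (isClosed_le hcont continuous_const)
      (fun z hz => lt_of_le_of_lt (show nsq z ≤ c from hz) (by linarith))
    have hβ' : ContDiff ℝ ∞ β := hβ.contDiff
    refine ⟨0, fun _ => β, fun _ => ⟨⟨XCn_sm hβ', ?_⟩, fun x => ?_⟩, fun _ x hx => ?_,
      fun x hx => Filter.Eventually.of_forall fun _ => ?_⟩
    · refine HasCompactSupport.intro (K := {z : Cn n | nsq z ≤ c + 1}) (XCn_compact n (c + 1)) ?_
      intro z hz
      by_contra h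
      have h3 : z ∈ {z : Cn n | nsq z < c + 1} := by
        rw [← hβs]
        exact h
      exact hz (le_of_lt (show nsq z < c + 1 from h3))
    · exact hβr ⟨x, rfl⟩
    · have h3 : (fun _ : Cn n => (1 : ℝ)) =ᶠ[𝓝 (x : Cn n)] β := by
        filter_upwards [(isOpen_lt hcont continuous_const).mem_nhds
          (show (x : Cn n) ∈ {z : Cn n | nsq z < c} from hx)] with z hz
        exact ((hβ1 z).mp (le_of_lt (show nsq z < c from hz))).symm
      exact (XCn_dR_one β x h3).le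
    · filter_upwards [(isOpen_lt hcont continuous_const).mem_nhds
          (show (x : Cn n) ∈ {z : Cn n | nsq z < c} from hx)] with z hz
      exact (hβ1 z).mp (le_of_lt (show nsq z < c from hz))

theorem s_L2Cn (h1 : MP_55bc5f_an.S_L2) (h2 : MP_55bc5f_an.S_LevComp) : S_L2Cn := by
  intro n hn q ℓ c m hm χ hχ hχs
  set μ : Measure (XCn n) := (volume : Measure (Cn n)).map (eCn n) with hμ
  have hpull : Pull (XCn n) μ := by
    intro U _ _ A _ _
    rw [hμ, MeasurableEquiv.map_apply]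
    congr 1
    ext z
    constructor
    · intro hz
      exact ⟨z, hz, rfl⟩
    · rintro ⟨y, hy, rfl⟩
      exact hy
  have hexp : ∀ j : Fin q, Differentiable ℂ (fun z : Cn n => Complex.exp (ℓ j z + c j)) := by
    intro j
    fun_prop
  have hexps : ∀ j : Fin q, ContDiff ℝ ∞ (fun z : Cn n => ‖Complex.exp (ℓ j z + c j)‖ ^ 2) := by
    intro j
    have h3 : ContDiff ℂ ∞ (fun z : Cn n => Complex.exp (ℓ j z + c j)) :=
      ((ℓ j).contDiff.add contDiff_const).cexp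
    exact (h3.restrict_scalars ℝ).norm_sq ℝ
  set φ : Cn n → ℝ := fun z => m * (∑ j, ‖Complex.exp (ℓ j z + c j)‖ ^ 2) + 2 * nsq z with hφ
  have hsum : ContDiff ℝ ∞ (fun z : Cn n => ∑ j, ‖Complex.exp (ℓ j z + c j)‖ ^ 2) :=
    ContDiff.sum fun j _ => hexps j
  have hφs : ContDiff ℝ ∞ φ :=
    (contDiff_const.mul hsum).add (contDiff_const.mul (XCn_nsq_smooth n))
  have hlev : ∀ x w, 2 * nsq w ≤ Lev (XCn n) φ x w := by
    intro x w
    obtain ⟨-, hadd, hmul, hsq, -⟩ := h2 n (XCn n)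
    have e1 : Lev (XCn n) φ x w = Lev (XCn n) (fun z => m * ∑ j, ‖Complex.exp (ℓ j z + c j)‖ ^ 2)
        x w + Lev (XCn n) (fun z => 2 * nsq z) x w :=
      hadd _ _ (XCn_sm (contDiff_const.mul hsum)) (XCn_sm (contDiff_const.mul (XCn_nsq_smooth n)))
        x w
    have e2 : Lev (XCn n) (fun z => m * ∑ j, ‖Complex.exp (ℓ j z + c j)‖ ^ 2) x w =
        m * Lev (XCn n) (fun z => ∑ j, ‖Complex.exp (ℓ j z + c j)‖ ^ 2) x w :=
      hmul _ _ (XCn_sm hsum) x w
    have e3 : Lev (XCn n) (fun z => 2 * nsq z) x w = 2 * Lev (XCn n) nsq x w :=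
      hmul _ _ (XCn_sm (XCn_nsq_smooth n)) x w
    have e4 : Lev (XCn n) (fun z => ∑ j, ‖Complex.exp (ℓ j z + c j)‖ ^ 2) x w =
        ∑ j, Lev (XCn n) (fun z => ‖Complex.exp (ℓ j z + c j)‖ ^ 2) x w :=
      XCn_lev_sum h2 Finset.univ (fun j z => ‖Complex.exp (ℓ j z + c j)‖ ^ 2) hexps x w
    have e5 : 0 ≤ Lev (XCn n) (fun z => ∑ j, ‖Complex.exp (ℓ j z + c j)‖ ^ 2) x w := by
      rw [e4]
      refine Finset.sum_nonneg fun j _ => ?_
      have h4 := hsq (fun z : Cn n => Complex.exp (ℓ j z + c j)) (XCn_hol (hexp j)) x w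
      rw [h4]
      positivity
    have e6 : Lev (XCn n) (nsq : Cn n → ℝ) x w = nsq w := XCn_lev_nsq h2 x w
    rw [e1, e2, e3, e6]
    have := mul_nonneg hm e5
    linarith
  obtain ⟨h, hh, hint, hle⟩ := h1 n (XCn n) μ hpull (nsq : Cn n → ℝ) φ (XCn_exh h2 n) (XCn_sm hφs)
    hlev χ ⟨XCn_sm hχ, hχs⟩
  refine ⟨h, XCn_diff hh, ?_, ?_⟩
  · rw [hμ, integrable_map_equiv] at hint
    exact hint
  · rw [hμ, integral_map_equiv, integral_map_equiv] at hle
    refine hle.trans (le_of_eq ?_)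
    refine integral_congr_ae (Filter.Eventually.of_forall fun z => ?_)
    show (∑ j, ‖wdb (XCn n) j χ z‖ ^ 2) * Real.exp (-φ z) = _
    congr 1
    refine Finset.sum_congr rfl fun j _ => ?_
    have h5 : dR (XCn n) χ z = fderiv ℝ χ z := XCn_dR χ z
    have h6 : wdb (XCn n) j χ z = (1 / 2) * (fderiv ℝ χ z (Pi.single j 1) +
        Complex.I * fderiv ℝ χ z (Pi.single j Complex.I)) := by
      unfold wdb
      rw [h5]
    exact congrArg (fun t : ℂ => ‖t‖ ^ 2) h6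

end Pool.Agent.Lib.MP_c2a04f_an
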