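import Mathlib
import Pool.Agent.Lib.Osgood
import Pool.Agent.Lib.MP_c2a04f_an.SpecA

/-!
# MP_c2a04f_an : A4, holomorphic functions are Lipschitz on compact sets
-/

set_option autoImplicit false

open scoped Manifold ContDiff Topology
open Set Filter Metric

namespace Pool.Agent.Lib.MP_c2a04f_an

open Pool.Agent.Lib.MP_55bc5f_an

namespace LipAux

/-- The local estimate. -/
lemma loc (h : S_Rho) {V : Type} [NormedAddCommGroup V] [NormedSpace ℂ V] [FiniteDimensional ℂ V]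
    (X : CMan V) (N : ℕ) (ι : X → Cn N) (hι : Emb X ι) (N' : ℕ) (b : X → Cn N')
    (hb : MDifferentiable 𝓘(ℂ, V) 𝓘(ℂ, Cn N') b) (x : X) :
    ∃ r > (0 : ℝ), ∃ L : ℝ, 0 ≤ L ∧ ∀ y y' : X, ‖ι y - ι x‖ < r → ‖ι y' - ι x‖ < r →
      ‖b y - b y'‖ ≤ L * ‖ι y - ι y'‖ := by
  obtain ⟨r, ρ, hr, hρ, hρx, hρy⟩ := h V X N ι hι x univ univ_mem
  have hd : DifferentiableOn ℂ (fun w => b (ρ w)) (ball (ι x) r) := by
    intro w hw
    have h1 : MDifferentiableAt 𝓘(ℂ, Cn N) 𝓘(ℂ, Cn N') (fun w => b (ρ w)) w :=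
      (hb (ρ w)).comp w (hρ w hw).1
    exact (mdifferentiableAt_iff_differentiableAt.1 h1).differentiableWithinAt
  have ha : AnalyticAt ℂ (fun w => b (ρ w)) (ι x) :=
    Osgood.analyticOnNhd isOpen_ball hd (ι x) (mem_ball_self hr)
  have hc : ContDiffAt ℂ 1 (fun w => b (ρ w)) (ι x) := ha.contDiffAt
  obtain ⟨K, t, ht, hK⟩ := hc.exists_lipschitzOnWith
  obtain ⟨r', hr', hball⟩ := Metric.mem_nhds_iff.1 ht
  refine ⟨min r r', lt_min hr hr', K, K.2, fun y y' hy hy' => ?_⟩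
  have h1 : ι y ∈ t := hball (by
    rw [mem_ball, dist_eq_norm]
    exact lt_of_lt_of_le hy (min_le_right _ _))
  have h2 : ι y' ∈ t := hball (by
    rw [mem_ball, dist_eq_norm]
    exact lt_of_lt_of_le hy' (min_le_right _ _))
  have h3 := hK.dist_le_mul (ι y) h1 (ι y') h2
  rw [hρy y (lt_of_lt_of_le hy (min_le_left _ _)),
    hρy y' (lt_of_lt_of_le hy' (min_le_left _ _)), dist_eq_norm, dist_eq_norm] at h3
  exact h3

end LipAux

/-- **A4 Lip.** -/
theorem s_Lip (h : S_Rho) : S_Lip := by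
  intro V _ _ _ X N ι hι N' b hb K hK
  have hιc : Continuous ι := hι.closed.continuous
  have hbc : Continuous b := hb.continuous
  have key : ∃ L : ℝ, 0 ≤ L ∧ ∀ q ∈ K ×ˢ K, ‖b q.1 - b q.2‖ ≤ L * ‖ι q.1 - ι q.2‖ := by
    refine (hK.prod hK).induction_on
      (p := fun S => ∃ L : ℝ, 0 ≤ L ∧ ∀ q ∈ S, ‖b q.1 - b q.2‖ ≤ L * ‖ι q.1 - ι q.2‖) ?_ ?_ ?_ ?_
    · exact ⟨0, le_rfl, fun q hq => absurd hq (Set.notMem_empty q)⟩
    · rintro s t hst ⟨L, hL, hLt⟩
      exact ⟨L, hL, fun q hq => hLt q (hst hq)⟩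
    · rintro s t ⟨L, hL, hLs⟩ ⟨L', hL', hLt⟩
      refine ⟨max L L', le_max_of_le_left hL, fun q hq => ?_⟩
      rcases hq with hq | hq
      · exact (hLs q hq).trans (mul_le_mul_of_nonneg_right (le_max_left _ _) (norm_nonneg _))
      · exact (hLt q hq).trans (mul_le_mul_of_nonneg_right (le_max_right _ _) (norm_nonneg _))
    · rintro ⟨x, y⟩ -
      by_cases hxy : x = y
      · subst hxy
        obtain ⟨r, hr, L, hL, hloc⟩ := LipAux.loc h X N ι hι N' b hb x
        refine ⟨{q : X × X | ‖ι q.1 - ι x‖ < r ∧ ‖ι q.2 - ι x‖ < r}, ?_, L, hL,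
          fun q hq => hloc q.1 q.2 hq.1 hq.2⟩
        apply mem_nhdsWithin_of_mem_nhds
        have ho1 : IsOpen {q : X × X | ‖ι q.1 - ι x‖ < r} :=
          isOpen_lt (((hιc.comp continuous_fst).sub continuous_const).norm) continuous_const
        have ho2 : IsOpen {q : X × X | ‖ι q.2 - ι x‖ < r} :=
          isOpen_lt (((hιc.comp continuous_snd).sub continuous_const).norm) continuous_const
        apply (ho1.inter ho2).mem_nhds
        constructor
        · show ‖ι x - ι x‖ < r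
          simpa using hr
        · show ‖ι x - ι x‖ < r
          simpa using hr
      · have hne : ι x ≠ ι y := fun e => hxy (hι.closed.injective e)
        have hc : 0 < ‖ι x - ι y‖ := norm_pos_iff.2 (sub_ne_zero.2 hne)
        refine ⟨{q : X × X | ‖ι x - ι y‖ / 2 < ‖ι q.1 - ι q.2‖ ∧
          ‖b q.1 - b q.2‖ < ‖b x - b y‖ + 1}, ?_, (‖b x - b y‖ + 1) / (‖ι x - ι y‖ / 2),
          by positivity, ?_⟩
        · apply mem_nhdsWithin_of_mem_nhds
          have ho1 : IsOpen {q : X × X | ‖ι x - ι y‖ / 2 < ‖ι q.1 - ι q.2‖} :=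
            isOpen_lt continuous_const
              (((hιc.comp continuous_fst).sub (hιc.comp continuous_snd)).norm)
          have ho2 : IsOpen {q : X × X | ‖b q.1 - b q.2‖ < ‖b x - b y‖ + 1} :=
            isOpen_lt (((hbc.comp continuous_fst).sub (hbc.comp continuous_snd)).norm)
              continuous_const
          apply (ho1.inter ho2).mem_nhds
          constructor
          · show ‖ι x - ι y‖ / 2 < ‖ι x - ι y‖
            linarith
          · show ‖b x - b y‖ < ‖b x - b y‖ + 1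
            linarith
        · rintro q ⟨hq1, hq2⟩
          rw [div_mul_eq_mul_div, le_div_iff₀ (by positivity)]
          have h1 : 0 ≤ ‖b q.1 - b q.2‖ := norm_nonneg _
          have h2 : 0 ≤ ‖b x - b y‖ := norm_nonneg _
          nlinarith
  obtain ⟨L, hL, hLq⟩ := key
  exact ⟨L, hL, fun x hx y hy => hLq (x, y) ⟨hx, hy⟩⟩

end Pool.Agent.Lib.MP_c2a04f_an
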