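import Pool.Agent.Lib.MP_c2a04f_an.SpecA
import Pool.Agent.Lib.MP_c2a04f_an.SpecB
import Pool.Agent.Lib.Osgood

/-!
# D3 LocMove: local moves
-/

set_option autoImplicit false
set_option maxSynthPendingDepth 3

open scoped Manifold ContDiff Topology
open Set Filter Metric

namespace Pool.Agent.Lib.MP_c2a04f_an

open Pool.Agent.Lib.MP_55bc5f_an

namespace LocMoveAux

/-- Short smooth curves in a chart. -/
lemma curve {V : Type} [NormedAddCommGroup V] [NormedSpace ℂ V] [FiniteDimensional ℂ V]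
    (X : CMan V) (N : ℕ) (ι : X → Cn N) (hE : Emb X ι) (W : Set X) (hW : IsOpen W) (u₀ : X)
    (hu₀ : u₀ ∈ W) :
    ∃ (C₀ O : Set X), IsCompact C₀ ∧ C₀ ⊆ W ∧ O ∈ 𝓝 u₀ ∧ ∀ u ∈ O, ∀ u' ∈ O,
      ∃ (c : ℝ → X) (γ' : ℝ → Cn N), c 0 = u ∧ c 1 = u' ∧ (∀ τ ∈ Icc (0 : ℝ) 1, c τ ∈ C₀) ∧
        ContinuousOn c (Icc (0 : ℝ) 1) ∧
        (∀ τ ∈ Icc (0 : ℝ) 1, HasDerivWithinAt (fun s => ι (c s)) (γ' τ) (Icc 0 1) τ) ∧
        ContinuousOn γ' (Icc (0 : ℝ) 1) ∧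
        ∀ τ ∈ Icc (0 : ℝ) 1, ∃ t : TangentSpace 𝓘(ℂ, V) (c τ), dF ι (c τ) t = γ' τ := by
  have : ProperSpace V := FiniteDimensional.proper ℂ V
  obtain ⟨e, he⟩ : ∃ e : PartialEquiv X V, e = extChartAt 𝓘(ℂ, V) u₀ := ⟨_, rfl⟩
  have het : IsOpen e.target := by rw [he]; exact isOpen_extChartAt_target u₀
  have hes : ∀ u ∈ e.target, MDifferentiableAt 𝓘(ℂ, V) 𝓘(ℂ, V) e.symm u := by
    intro u hu
    have h1 : ContMDiffOn 𝓘(ℂ, V) 𝓘(ℂ, V) ω (extChartAt 𝓘(ℂ, V) u₀).symm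
        (extChartAt 𝓘(ℂ, V) u₀).target := contMDiffOn_extChartAt_symm u₀
    rw [← he] at h1
    exact ((h1 u hu).contMDiffAt (het.mem_nhds hu)).mdifferentiableAt (by simp)
  have hesc : ContinuousOn e.symm e.target := fun u hu => (hes u hu).continuousAt.continuousWithinAt
  have hsrc : e.source ∈ 𝓝 u₀ := by rw [he]; exact extChartAt_source_mem_nhds u₀
  have hec : ContinuousAt e u₀ := by rw [he]; exact continuousAt_extChartAt u₀
  have hu₀s : u₀ ∈ e.source := mem_of_mem_nhds hsrc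
  -- the ball
  have hW' : IsOpen (e.target ∩ e.symm ⁻¹' W) := hesc.isOpen_inter_preimage het hW
  have hmem : e u₀ ∈ e.target ∩ e.symm ⁻¹' W := by
    refine ⟨e.map_source hu₀s, ?_⟩
    change e.symm (e u₀) ∈ W
    rw [e.left_inv hu₀s]
    exact hu₀
  obtain ⟨ρ, hρ, hρW⟩ := Metric.nhds_basis_closedBall.mem_iff.1 (hW'.mem_nhds hmem)
  have hball : closedBall (e u₀) ρ ⊆ e.target := fun y hy => (hρW hy).1
  obtain ⟨G, hG⟩ : ∃ G : V → Cn N, G = fun y => ι (e.symm y) := ⟨_, rfl⟩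
  have hGmf : ∀ y ∈ e.target, ∃ (A : V →L[ℂ] Cn N) (B : V →L[ℂ] V), HasFDerivAt G (A.comp B) y ∧
      ∀ t : V, dF ι (e.symm y) t = A t := by
    intro y hy
    have h2 : HasMFDerivAt 𝓘(ℂ, V) 𝓘(ℂ, V) e.symm y (mfderiv 𝓘(ℂ, V) 𝓘(ℂ, V) e.symm y) :=
      (hes y hy).hasMFDerivAt
    have h3 : HasMFDerivAt 𝓘(ℂ, V) 𝓘(ℂ, Cn N) ι (e.symm y)
        (mfderiv 𝓘(ℂ, V) 𝓘(ℂ, Cn N) ι (e.symm y)) := (hE.hol _).hasMFDerivAt
    have h4 := HasMFDerivAt.comp y h3 h2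
    refine ⟨mfderiv 𝓘(ℂ, V) 𝓘(ℂ, Cn N) ι (e.symm y), mfderiv 𝓘(ℂ, V) 𝓘(ℂ, V) e.symm y, ?_,
      fun t => rfl⟩
    rw [hG]
    exact h4.hasFDerivAt
  have hGd : DifferentiableOn ℂ G e.target := fun y hy => by
    obtain ⟨A, B, h, -⟩ := hGmf y hy
    exact h.differentiableAt.differentiableWithinAt
  have hGA : AnalyticOnNhd ℂ G e.target := Osgood.analyticOnNhd het hGd
  have hGc : ContinuousOn (fderiv ℂ G) e.target := fun y hy =>
    (hGA y hy).fderiv.continuousAt.continuousWithinAt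
  refine ⟨e.symm '' closedBall (e u₀) ρ, e.source ∩ e ⁻¹' ball (e u₀) ρ, ?_, ?_, ?_, ?_⟩
  · exact (isCompact_closedBall _ _).image_of_continuousOn (hesc.mono hball)
  · rintro _ ⟨y, hy, rfl⟩
    exact (hρW hy).2
  · exact inter_mem hsrc (hec.preimage_mem_nhds (ball_mem_nhds _ hρ))
  · intro u hu u' hu'
    obtain ⟨d, hd⟩ : ∃ d : V, d = e u' - e u := ⟨_, rfl⟩
    obtain ⟨p, hp⟩ : ∃ p : ℝ → V, p = fun τ => e u + τ • d := ⟨_, rfl⟩
    have hpb : ∀ τ ∈ Icc (0 : ℝ) 1, p τ ∈ closedBall (e u₀) ρ := by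
      intro τ hτ
      rw [hp, hd]
      exact (convex_closedBall (e u₀) ρ).add_smul_sub_mem (ball_subset_closedBall hu.2)
        (ball_subset_closedBall hu'.2) hτ
    have hpd : ∀ τ, HasDerivAt p d τ := by
      intro τ
      have h1 : HasDerivAt (fun s : ℝ => e u + s • d) ((1 : ℝ) • d) τ :=
        ((hasDerivAt_id τ).smul_const d).const_add (e u)
      rw [one_smul] at h1
      rw [hp]
      exact h1
    have hpc : Continuous p := continuous_iff_continuousAt.2 fun τ => (hpd τ).continuousAt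
    have hpm : MapsTo p (Icc (0 : ℝ) 1) e.target := fun τ hτ => hball (hpb τ hτ)
    refine ⟨fun τ => e.symm (p τ), fun τ => fderiv ℂ G (p τ) d, ?_, ?_, ?_, ?_, ?_, ?_, ?_⟩
    · change e.symm (p 0) = u
      rw [hp]
      simp only [zero_smul, add_zero]
      exact e.left_inv hu.1
    · change e.symm (p 1) = u'
      rw [hp, hd]
      simp only [one_smul, add_sub_cancel]
      exact e.left_inv hu'.1
    · intro τ hτ
      exact ⟨p τ, hpb τ hτ, rfl⟩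
    · exact hesc.comp hpc.continuousOn hpm
    · intro τ hτ
      have h1 : HasFDerivAt G (fderiv ℂ G (p τ)) (p τ) :=
        (hGA _ (hpm hτ)).differentiableAt.hasFDerivAt
      have h2 : HasDerivAt (fun s => G (p s)) (fderiv ℂ G (p τ) d) τ :=
        HasFDerivAt.comp_hasDerivAt (x := τ) (f := p) (l := G) (h1.restrictScalars ℝ) (hpd τ)
      have h3 : (fun s => ι (e.symm (p s))) = fun s => G (p s) := by
        funext s; rw [hG]
      change HasDerivWithinAt (fun s => ι (e.symm (p s))) _ _ _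
      rw [h3]
      exact h2.hasDerivWithinAt
    · exact (hGc.comp hpc.continuousOn hpm).clm_apply continuousOn_const
    · intro τ hτ
      obtain ⟨A, B, h1, h2⟩ := hGmf (p τ) (hpm hτ)
      refine ⟨(B d : V), ?_⟩
      have h3 : fderiv ℂ G (p τ) = A.comp B := h1.fderiv
      change dF ι (e.symm (p τ)) (B d : V) = fderiv ℂ G (p τ) d
      rw [h3]
      exact h2 (B d)

/-- The scalar multiple of a field. -/
lemma tan_smul {V : Type} [NormedAddCommGroup V] [NormedSpace ℂ V]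
    (X : CMan V) (N : ℕ) (ι : X → Cn N) (f : X → ℂ) (hf : MDifferentiable 𝓘(ℂ, V) 𝓘(ℂ, ℂ) f)
    (v : X → Cn N) (hv : Tan X ι v) : Tan X ι (fun x => f x • v x) := by
  constructor
  · intro x
    exact (hf x).smul (hv.hol x)
  · intro x
    obtain ⟨u, hu⟩ := hv.tan x
    refine ⟨f x • u, ?_⟩
    rw [← hu]
    exact ContinuousLinearMap.map_smul (mfderiv 𝓘(ℂ, V) 𝓘(ℂ, Cn N) ι x) (f x) u

lemma norm_sum_smul_le {N N' : ℕ} (a : Fin N → ℂ) (w : Fin N → Cn N') (A B : ℝ) (hA : 0 ≤ A)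
    (ha : ∀ j, ‖a j‖ ≤ A) (hw : ∀ j, ‖w j‖ ≤ B) : ‖∑ j, a j • w j‖ ≤ N * A * B := by
  have h1 : ‖∑ j, a j • w j‖ ≤ ∑ _j : Fin N, A * B := by
    refine norm_sum_le_of_le _ fun j _ => ?_
    rw [norm_smul]
    exact mul_le_mul (ha j) (hw j) (norm_nonneg _) hA
  rw [Finset.sum_const, Finset.card_univ, Fintype.card_fin, nsmul_eq_mul] at h1
  linarith

end LocMoveAux

open LocMoveAux in
theorem s_LocMove (h1 : S_Euler) (h2 : S_Disc) (h3 : S_Apx) (h4 : S_Cut) (h5 : S_Lip)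
    (h6 : S_NbF) : S_LocMove := by
  intro V _ _ _ X N ι hE hD hFr Q u₀ h δ hQ hh hh1 hδ hhQ
  obtain ⟨F, v, hF, hF0, hv, hfr⟩ := hFr u₀
  obtain ⟨-, nb2, nb3, -⟩ := h6 V X N ι hE
  have hFc : Continuous F := hF.continuous
  have hhc : Continuous h := hh.continuous
  have hW : IsOpen ({x : X | F x ≠ 0} ∩ {x : X | ‖h x - 1‖ < 1 / 5}) :=
    (isOpen_ne_fun hFc continuous_const).inter
      (isOpen_lt (hhc.sub continuous_const).norm continuous_const)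
  have hu₀W : u₀ ∈ ({x : X | F x ≠ 0} ∩ {x : X | ‖h x - 1‖ < 1 / 5}) := by
    refine ⟨hF0, ?_⟩
    change ‖h u₀ - 1‖ < 1 / 5
    rw [hh1, sub_self, norm_zero]
    norm_num
  obtain ⟨W, hWdef⟩ : ∃ W : Set X, W = {x : X | F x ≠ 0} ∩ {x : X | ‖h x - 1‖ < 1 / 5} := ⟨_, rfl⟩
  rw [← hWdef] at hW hu₀W
  obtain ⟨C₀, O, hC₀, hC₀W, hO, hcurve⟩ := curve X N ι hE W hW u₀ hu₀W
  obtain ⟨η₀, hη₀, hη₀W⟩ := nb3 C₀ W hC₀ hW hC₀W
  refine ⟨O, hO, fun u hu u' hu' => ?_⟩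
  obtain ⟨c, γ', hc0, hc1, hcC, hcc, hder, hcont, htan⟩ := hcurve u hu u' hu'
  -- the coefficients
  obtain ⟨κ, hκ⟩ : ∃ κ : ℝ → Fin N → ℂ, κ = fun τ k => γ' τ k / F (c τ) := ⟨_, rfl⟩
  have hFne : ∀ τ ∈ Icc (0 : ℝ) 1, F (c τ) ≠ 0 := by
    intro τ hτ
    have := hC₀W (hcC τ hτ)
    rw [hWdef] at this
    exact this.1
  have hκc : ContinuousOn κ (Icc (0 : ℝ) 1) := by
    rw [hκ]
    refine continuousOn_pi.2 fun k => ?_
    exact ((continuous_apply k).comp_continuousOn hcont).div (hFc.comp_continuousOn hcc) hFne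
  have hκv : ∀ τ ∈ Icc (0 : ℝ) 1, γ' τ = ∑ k, κ τ k • v k (c τ) := by
    intro τ hτ
    obtain ⟨t, ht⟩ := htan τ hτ
    have h7 := hfr (c τ) t
    rw [ht] at h7
    have h8 : γ' τ = (F (c τ))⁻¹ • (F (c τ) • γ' τ) := by
      rw [smul_smul, inv_mul_cancel₀ (hFne τ hτ), one_smul]
    rw [h8, h7, Finset.smul_sum]
    refine Finset.sum_congr rfl fun k _ => ?_
    rw [smul_smul, hκ]
    congr 1
    change (F (c τ))⁻¹ * γ' τ k = γ' τ k / F (c τ)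
    rw [div_eq_mul_inv, mul_comm]
  obtain ⟨A, hA0, hAκ⟩ : ∃ A : ℝ, 0 ≤ A ∧ ∀ τ ∈ Icc (0 : ℝ) 1, ∀ k, ‖κ τ k‖ ≤ A := by
    obtain ⟨A, hA⟩ := isCompact_Icc.exists_bound_of_continuousOn hκc
    refine ⟨A, (norm_nonneg _).trans (hA 0 ⟨le_refl _, zero_le_one⟩), fun τ hτ k => ?_⟩
    exact (norm_le_pi_norm (κ τ) k).trans (hA τ hτ)
  refine ⟨δ / 2, by positivity, fun ε hε => ?_⟩
  obtain ⟨η, hη⟩ : ∃ η : ℝ, η = min η₀ (δ / 2) := ⟨_, rfl⟩
  have hη0 : 0 < η := by rw [hη]; exact lt_min hη₀ (by positivity)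
  have hηη₀ : η ≤ η₀ := by rw [hη]; exact min_le_left _ _
  have hηδ : η ≤ δ / 2 := by rw [hη]; exact min_le_right _ _
  obtain ⟨C, hC⟩ : ∃ C : Set X, C = C₀ ∪ Nb ι Q (δ / 2) := ⟨_, rfl⟩
  have hCc : IsCompact C := by rw [hC]; exact hC₀.union (nb2 Q (δ / 2) hQ)
  obtain ⟨C', hC'⟩ : ∃ C' : Set X, C' = Nb ι C η := ⟨_, rfl⟩
  have hC'c : IsCompact C' := by rw [hC']; exact nb2 C η hCc
  have f1 : ∀ x ∈ C, ∀ x' : X, ‖ι x' - ι x‖ ≤ η → x' ∈ C' := by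
    intro x hx x' hx'
    rw [hC']
    exact ⟨x, hx, hx'⟩
  have f2 : ∀ x ∈ C, x ∈ C' := fun x hx => f1 x hx x (by rw [sub_self, norm_zero]; exact hη0.le)
  have f3 : ∀ x ∈ C₀, ∀ x' : X, ‖ι x' - ι x‖ ≤ η → ‖h x' - 1‖ ≤ 1 / 5 := by
    intro x hx x' hx'
    have : x' ∈ W := hη₀W ⟨x, hx, hx'.trans hηη₀⟩
    rw [hWdef] at this
    exact this.2.le
  have f4 : ∀ x ∈ Nb ι Q (δ / 2), ∀ x' : X, ‖ι x' - ι x‖ ≤ η → ‖h x'‖ ≤ 1 / 5 := by
    rintro x ⟨q, hq, hqx⟩ x' hx'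
    refine hhQ x' ⟨q, hq, ?_⟩
    have : ι x' - ι q = (ι x' - ι x) + (ι x - ι q) := by abel
    rw [this]
    exact (norm_add_le _ _).trans (by linarith)
  -- bounds
  obtain ⟨B₁, hB0, hB₁⟩ : ∃ B₁ : ℝ, 0 ≤ B₁ ∧ ∀ x ∈ C', ∀ k, ‖v k x‖ ≤ B₁ := by
    have hvc : Continuous (fun x => fun k => v k x) := continuous_pi fun k => (hv k).hol.continuous
    obtain ⟨B, hB⟩ := hC'c.exists_bound_of_continuousOn hvc.continuousOn
    refine ⟨max B 0, le_max_right _ _, fun x hx k => ?_⟩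
    exact ((norm_le_pi_norm (fun k => v k x) k).trans (hB x hx)).trans (le_max_left _ _)
  obtain ⟨Λ₁, hΛ0, hΛ₁⟩ : ∃ Λ₁ : ℝ, 0 ≤ Λ₁ ∧ ∀ k, ∀ x ∈ C', ∀ y ∈ C',
      ‖v k x - v k y‖ ≤ Λ₁ * ‖ι x - ι y‖ := by
    have h7 : ∀ k, ∃ L : ℝ, 0 ≤ L ∧ ∀ x ∈ C', ∀ y ∈ C', ‖v k x - v k y‖ ≤ L * ‖ι x - ι y‖ :=
      fun k => h5 V X N ι hE N (v k) (hv k).hol C' hC'c
    choose L hL0 hL using h7
    refine ⟨∑ k, L k, Finset.sum_nonneg fun k _ => hL0 k, fun k x hx y hy => ?_⟩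
    refine (hL k x hx y hy).trans (mul_le_mul_of_nonneg_right ?_ (norm_nonneg _))
    exact Finset.single_le_sum (fun k _ => hL0 k) (Finset.mem_univ k)
  obtain ⟨Λ, hΛ⟩ : ∃ Λ : ℝ, Λ = N * A * Λ₁ := ⟨_, rfl⟩
  have hΛnn : 0 ≤ Λ := by rw [hΛ]; positivity
  obtain ⟨D, hDdef⟩ : ∃ D : ℝ, D = N * A * (1 + B₁) + 1 := ⟨_, rfl⟩
  have hD0 : 0 < D := by rw [hDdef]; positivity
  obtain ⟨δ₁, hδ₁⟩ : ∃ δ₁ : ℝ, δ₁ = min ε η / (3 * Real.exp Λ) := ⟨_, rfl⟩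
  have hexp : 0 < Real.exp Λ := Real.exp_pos _
  have hexp1 : 1 ≤ Real.exp Λ := Real.one_le_exp hΛnn
  have hmin0 : 0 < min ε η := lt_min hε hη0
  have hδ₁0 : 0 < δ₁ := by rw [hδ₁]; positivity
  have hδ₁e : Real.exp Λ * (2 * δ₁ + δ₁) = min ε η := by
    rw [hδ₁]; field_simp; ring
  have hδ₁3 : 2 * δ₁ + δ₁ ≤ min ε η := by
    rw [← hδ₁e]
    nlinarith
  obtain ⟨s, hs, hs0, hs1⟩ := h4 (δ₁ / D) (by positivity)
  have hsh : MDifferentiable 𝓘(ℂ, V) 𝓘(ℂ, ℂ) (fun x => s (h x)) := by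
    intro x
    exact MDifferentiableAt.comp x (hs (h x)).mdifferentiableAt (hh x)
  obtain ⟨M, Φ, σ, hΦ⟩ := h3 V X N ι hD N (fun k x => s (h x) • v k x)
    (fun k => tan_smul X N ι _ hsh (v k) (hv k)) C' hC'c (δ₁ / D) (by positivity)
  have hND : N * A * (δ₁ / D + δ₁ / D * B₁) ≤ δ₁ := by
    have h7 : N * A * (δ₁ / D + δ₁ / D * B₁) = δ₁ * (N * A * (1 + B₁) / D) := by
      field_simp
    rw [h7]
    have h8 : N * A * (1 + B₁) / D ≤ 1 := by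
      rw [div_le_one hD0, hDdef]
      linarith
    nlinarith
  have E1 : ∀ x ∈ C', ‖h x‖ ≤ 1 / 5 → ∀ a : Fin N → ℂ, (∀ j, ‖a j‖ ≤ A) →
      ‖∑ j, a j • appr Φ ι σ j x‖ ≤ δ₁ := by
    intro x hx hhx a ha
    refine (norm_sum_smul_le a (fun j => appr Φ ι σ j x) A (δ₁ / D + δ₁ / D * B₁) hA0 ha
      fun j => ?_).trans hND
    have h7 := hΦ x hx j
    have h8 : ‖s (h x) • v j x‖ ≤ δ₁ / D * B₁ := by
      rw [norm_smul]
      exact mul_le_mul (hs0 _ hhx) (hB₁ x hx j) (norm_nonneg _) (by positivity)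
    have h9 : appr Φ ι σ j x = s (h x) • v j x - (s (h x) • v j x - appr Φ ι σ j x) := by abel
    rw [h9]
    refine (norm_sub_le _ _).trans ?_
    linarith
  have E2 : ∀ x ∈ C', ‖h x - 1‖ ≤ 1 / 5 → ∀ a : Fin N → ℂ, (∀ j, ‖a j‖ ≤ A) →
      ‖(∑ j, a j • appr Φ ι σ j x) - ∑ j, a j • v j x‖ ≤ δ₁ := by
    intro x hx hhx a ha
    have h6' : (∑ j, a j • appr Φ ι σ j x) - ∑ j, a j • v j x =
        ∑ j, a j • (appr Φ ι σ j x - v j x) := by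
      rw [← Finset.sum_sub_distrib]
      exact Finset.sum_congr rfl fun j _ => (smul_sub _ _ _).symm
    rw [h6']
    refine (norm_sum_smul_le a (fun j => appr Φ ι σ j x - v j x) A (δ₁ / D + δ₁ / D * B₁) hA0 ha
      fun j => ?_).trans hND
    have h7 := hΦ x hx j
    have h8 : ‖(s (h x) - 1) • v j x‖ ≤ δ₁ / D * B₁ := by
      rw [norm_smul]
      exact mul_le_mul (hs1 _ hhx) (hB₁ x hx j) (norm_nonneg _) (by positivity)
    have h9 : appr Φ ι σ j x - v j x =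
        (s (h x) - 1) • v j x - (s (h x) • v j x - appr Φ ι σ j x) := by
      rw [sub_smul, one_smul]; abel
    rw [h9]
    refine (norm_sub_le _ _).trans ?_
    linarith
  -- discretisation
  obtain ⟨p₁, hp₁⟩ := h2 0 N {0} isCompact_singleton (fun τ _ => ι (c τ)) (fun τ _ => γ' τ)
    (fun z _ τ hτ => hder τ hτ)
    (hcont.comp continuousOn_fst fun q hq => hq.1) δ₁ hδ₁0
  obtain ⟨p₂, hp₂⟩ := h1 V X N ι hE M N Φ σ C hCc A η δ₁ hA0 hη0 hδ₁0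
  obtain ⟨p, hp⟩ : ∃ p : ℕ, p = max (max p₁ p₂) 1 := ⟨_, rfl⟩
  have hpp₁ : p₁ ≤ p := by rw [hp]; exact (le_max_left _ _).trans (le_max_left _ _)
  have hpp₂ : p₂ ≤ p := by rw [hp]; exact (le_max_right _ _).trans (le_max_left _ _)
  have hp1 : 1 ≤ p := by rw [hp]; exact le_max_right _ _
  have hp0 : (0 : ℝ) < p := by exact_mod_cast hp1
  have hmI : ∀ m : ℕ, m ≤ p → ((m : ℝ) / p) ∈ Icc (0 : ℝ) 1 := by
    intro m hm
    refine ⟨by positivity, ?_⟩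
    rw [div_le_one hp0]
    exact_mod_cast hm
  obtain ⟨a, ha⟩ : ∃ a : ℕ → Fin N → ℂ, a = fun m k => if m < p then κ ((m : ℝ) / p) k else 0 :=
    ⟨_, rfl⟩
  have haA : ∀ m j, ‖a m j‖ ≤ A := by
    intro m j
    rw [ha]
    by_cases hm : m < p
    · simp only [hm, if_true]
      exact hAκ _ (hmI m hm.le) j
    · simp only [hm, if_false, norm_zero]
      exact hA0
  obtain ⟨e1, e2⟩ := hp₂ p hpp₂ hp1 a haA
  have hδε : 2 * δ₁ + δ₁ ≤ ε := hδ₁3.trans (min_le_left _ _)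
  have hδη : 2 * δ₁ + δ₁ ≤ η := hδ₁3.trans (min_le_right _ _)
  refine ⟨gosE Φ (fun m => stp σ p (a m)) p, isAut_gosE _ _ _, ?_, ?_⟩
  · intro x hx
    have hxC : x ∈ C := by rw [hC]; exact Or.inr hx
    constructor
    · have h7 := e1 (fun _ => x) (fun _ _ => 0) 0 δ₁ le_rfl hδ₁0.le (fun _ _ => hxC)
        (fun m _ x' hx' => by
          refine ⟨by simp, ?_⟩
          rw [sub_zero]
          exact E1 x' (f1 x hxC x' hx') (f4 x hx x' hx') (a m) (haA m))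
        (fun m _ => by
          rw [sub_self, smul_zero, sub_zero, norm_zero]
          positivity)
        (by rw [Real.exp_zero, one_mul]; exact hδη)
      rw [Real.exp_zero, one_mul] at h7
      exact h7.trans hδε
    · have h7 := e2 x hxC δ₁ hδ₁0.le hδη
        (fun m _ x' hx' => E1 x' (f1 x hxC x' hx') (f4 x hx x' hx') (a m) (haA m))
      exact h7.trans hδε
  · have hyC : ∀ m : ℕ, m ≤ p → c ((m : ℝ) / p) ∈ C₀ := fun m hm => hcC _ (hmI m hm)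
    have hyC' : ∀ m : ℕ, m ≤ p → c ((m : ℝ) / p) ∈ C := fun m hm => by
      rw [hC]; exact Or.inl (hyC m hm)
    have h7 := e1 (fun m => c ((m : ℝ) / p)) (fun m x => ∑ k, a m k • v k x) Λ δ₁ hΛnn hδ₁0.le
      hyC'
      (fun m hm x hx => by
        have hxC' : x ∈ C' := f1 _ (hyC' m hm.le) x hx
        refine ⟨?_, E2 x hxC' (f3 _ (hyC m hm.le) x hx) (a m) (haA m)⟩
        have h8 : (∑ k, a m k • v k x) - ∑ k, a m k • v k (c ((m : ℝ) / p)) =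
            ∑ k, a m k • (v k x - v k (c ((m : ℝ) / p))) := by
          rw [← Finset.sum_sub_distrib]
          exact Finset.sum_congr rfl fun j _ => (smul_sub _ _ _).symm
        change ‖(∑ k, a m k • v k x) - ∑ k, a m k • v k (c ((m : ℝ) / p))‖ ≤ _
        rw [h8]
        refine (norm_sum_smul_le (a m) (fun k => v k x - v k (c ((m : ℝ) / p))) A
          (Λ₁ * ‖ι x - ι (c ((m : ℝ) / p))‖) hA0 (haA m) fun k =>
            hΛ₁ k x hxC' _ (f2 _ (hyC' m hm.le))).trans ?_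
        rw [hΛ]
        exact le_of_eq (by ring))
      (fun m hm => by
        have h8 := hp₁ p hpp₁ hp1 m hm 0 (Set.mem_singleton _)
        have h9 : (∑ k, a m k • v k (c ((m : ℝ) / p))) = γ' ((m : ℝ) / p) := by
          rw [hκv _ (hmI m hm.le), ha]
          simp only [hm, if_true]
        change ‖ι (c (((m + 1 : ℕ) : ℝ) / p)) - ι (c ((m : ℝ) / p)) -
          (1 / p : ℂ) • (∑ k, a m k • v k (c ((m : ℝ) / p)))‖ ≤ δ₁ / p
        rw [h9]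
        exact h8)
      (by rw [hδ₁e]; exact min_le_right _ _)
    rw [hδ₁e] at h7
    have h8 : c (((0 : ℕ) : ℝ) / p) = u := by
      rw [Nat.cast_zero, zero_div]; exact hc0
    have h9 : c (((p : ℕ) : ℝ) / p) = u' := by
      rw [div_self hp0.ne']; exact hc1
    change ‖ι ((gosE Φ (fun m => stp σ p (a m)) p) (c (((0 : ℕ) : ℝ) / p))) -
      ι (c (((p : ℕ) : ℝ) / p))‖ ≤ min ε η at h7
    rw [h8, h9] at h7
    exact h7.trans (min_le_left _ _)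

end Pool.Agent.Lib.MP_c2a04f_an
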