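import Mathlib
import Pool.Agent.Lib.MP_c2a04f_an.SpecA

/-!
# MP_c2a04f_an, A2: maps into `X` are holomorphic if and only if they are so as maps to `ℂᴺ`
-/

set_option autoImplicit false

open scoped Manifold ContDiff Topology
open Set Filter Metric

namespace Pool.Agent.Lib.MP_c2a04f_an

open Pool.Agent.Lib.MP_55bc5f_an

set_option maxSynthPendingDepth 3 in
theorem s_MDiff (h : S_Rho) : S_MDiff := by
  intro V _ _ _ X N ι hι W _ _ f z
  constructor
  · intro hd
    obtain ⟨r, ρ, hr, hρ, hρx, hρy⟩ := h V X N ι hι (f z) univ univ_mem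
    -- continuity of `ι ∘ f` at `z`
    have hc : ContinuousAt (fun w => ι (f w)) z := hd.continuousAt
    have hev : ∀ᶠ w in 𝓝 z, ‖ι (f w) - ι (f z)‖ < r := by
      have := hc (ball_mem_nhds (ι (f z)) hr)
      filter_upwards [this] with w hw
      simpa [dist_eq_norm] using hw
    have heq : f =ᶠ[𝓝 z] fun w => ρ (ι (f w)) := by
      filter_upwards [hev] with w hw
      exact (hρy (f w) hw).symm
    have h1 : MDifferentiableAt 𝓘(ℂ, Cn N) 𝓘(ℂ, V) ρ (ι (f z)) :=
      (hρ (ι (f z)) (mem_ball_self hr)).1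
    have h2 : MDifferentiableAt 𝓘(ℂ, W) 𝓘(ℂ, Cn N) (fun w => ι (f w)) z :=
      hd.mdifferentiableAt
    have h3 : MDifferentiableAt 𝓘(ℂ, W) 𝓘(ℂ, V) (fun w => ρ (ι (f w))) z :=
      MDifferentiableAt.comp (g := ρ) (f := fun w => ι (f w)) z h1 h2
    exact h3.congr_of_eventuallyEq heq
  · intro hm
    have h1 : MDifferentiableAt 𝓘(ℂ, V) 𝓘(ℂ, Cn N) ι (f z) := hι.hol (f z)
    have h2 : MDifferentiableAt 𝓘(ℂ, W) 𝓘(ℂ, Cn N) (fun w => ι (f w)) z :=
      MDifferentiableAt.comp (g := ι) (f := f) z h1 hm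
    exact h2.differentiableAt

end Pool.Agent.Lib.MP_c2a04f_an
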