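import Mathlib
import Pool.Agent.Lib.MP_c2a04f_an.SpecB

/-!
# MP_c2a04f_an: transitivity of `Mv`
-/

set_option autoImplicit false

open scoped Manifold ContDiff Topology
open Set Filter Metric

namespace Pool.Agent.Lib.MP_c2a04f_an

open Pool.Agent.Lib.MP_55bc5f_an

theorem s_MvTrans : S_MvTrans := by
  intro V _ _ X N ι hι Q u u' u'' h1 h2
  obtain ⟨δ₁, hδ₁, h1⟩ := h1
  obtain ⟨δ₂, hδ₂, h2⟩ := h2
  have hδ : 0 < min δ₁ δ₂ / 2 := by positivity
  set δ := min δ₁ δ₂ / 2 with hδdef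
  have hd1 : 2 * δ ≤ δ₁ := by rw [hδdef]; linarith [min_le_left δ₁ δ₂]
  have hd2 : 2 * δ ≤ δ₂ := by rw [hδdef]; linarith [min_le_right δ₁ δ₂]
  refine ⟨δ, hδ, fun ε hε => ?_⟩
  have hε₂ : 0 < min (ε / 2) δ := lt_min (by linarith) hδ
  set ε₂ := min (ε / 2) δ with hε₂def
  have he1 : ε₂ ≤ ε / 2 := min_le_left _ _
  have he2 : ε₂ ≤ δ := min_le_right _ _
  obtain ⟨β, hβa, hβn, hβu⟩ := h2 ε₂ hε₂
  have hιc : Continuous ι := hι.closed.continuous
  have hopen : {x : X | ‖ι (β x) - ι (β u')‖ < ε / 2} ∈ 𝓝 u' := by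
    have hc : Continuous fun x : X => ‖ι (β x) - ι (β u')‖ :=
      ((hιc.comp hβa.continuous).sub continuous_const).norm
    refine (isOpen_lt hc continuous_const).mem_nhds ?_
    show ‖ι (β u') - ι (β u')‖ < ε / 2
    rw [sub_self, norm_zero]
    linarith
  rw [hι.closed.isEmbedding.isInducing.nhds_eq_comap, Filter.mem_comap] at hopen
  obtain ⟨t, ht, htsub⟩ := hopen
  obtain ⟨r, hr, hrt⟩ := Metric.mem_nhds_iff.mp ht
  have hε₁ : 0 < min (r / 2) ε₂ := lt_min (by linarith) hε₂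
  set ε₁ := min (r / 2) ε₂ with hε₁def
  have he3 : ε₁ ≤ r / 2 := min_le_left _ _
  have he4 : ε₁ ≤ ε₂ := min_le_right _ _
  obtain ⟨α, hαa, hαn, hαu⟩ := h1 ε₁ hε₁
  have hcl : ∀ x : X, ‖ι x - ι u'‖ ≤ ε₁ → ‖ι (β x) - ι (β u')‖ < ε / 2 := by
    intro x hx
    refine htsub (hrt ?_)
    rw [Metric.mem_ball, dist_eq_norm]
    linarith
  refine ⟨α.trans β, hαa.trans hβa, ?_, ?_⟩
  · rintro x ⟨q, hq, hxq⟩
    have hx1 : x ∈ Nb ι Q δ₁ := ⟨q, hq, by linarith⟩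
    have hx2 : x ∈ Nb ι Q δ₂ := ⟨q, hq, by linarith⟩
    have a1 := (hαn x hx1).1
    have b1 := (hβn x hx2).2
    have hax : α x ∈ Nb ι Q δ₂ := by
      refine ⟨q, hq, ?_⟩
      have := norm_sub_le_norm_sub_add_norm_sub (ι (α x)) (ι x) (ι q)
      linarith
    have hbx : β.symm x ∈ Nb ι Q δ₁ := by
      refine ⟨q, hq, ?_⟩
      have := norm_sub_le_norm_sub_add_norm_sub (ι (β.symm x)) (ι x) (ι q)
      linarith
    have a2 := (hβn (α x) hax).1
    have b2 := (hαn (β.symm x) hbx).2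
    constructor
    · show ‖ι (β (α x)) - ι x‖ ≤ ε
      have := norm_sub_le_norm_sub_add_norm_sub (ι (β (α x))) (ι (α x)) (ι x)
      linarith
    · show ‖ι (α.symm (β.symm x)) - ι x‖ ≤ ε
      have := norm_sub_le_norm_sub_add_norm_sub (ι (α.symm (β.symm x))) (ι (β.symm x)) (ι x)
      linarith
  · show ‖ι (β (α u)) - ι u''‖ ≤ ε
    have c1 := hcl (α u) hαu
    have := norm_sub_le_norm_sub_add_norm_sub (ι (β (α u))) (ι (β u')) (ι u'')
    linarith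

end Pool.Agent.Lib.MP_c2a04f_an
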