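import Pool.Agent.Lib.MP_c2a04f_an.SpecA

/-!
# MP_c2a04f_an, A3: neighbourhoods of compact sets
-/

set_option autoImplicit false

open scoped Manifold ContDiff Topology
open Set Filter Metric

namespace Pool.Agent.Lib.MP_c2a04f_an

open Pool.Agent.Lib.MP_55bc5f_an

namespace NbFAux

variable {V : Type} [NormedAddCommGroup V] [NormedSpace ℂ V] {X : CMan V} {N : ℕ}

lemma nb_eq {ι : X → Cn N} (hι : Emb X ι) {Q : Set X} {δ : ℝ} (hQ : IsCompact Q) (hδ : 0 ≤ δ) :
    Nb ι Q δ = ι ⁻¹' cthickening δ (ι '' Q) := by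
  have hc : IsCompact (ι '' Q) := hQ.image hι.closed.continuous
  rw [hc.cthickening_eq_biUnion_closedBall hδ]
  ext x
  simp only [Nb, mem_setOf_eq, mem_preimage, mem_iUnion, mem_closedBall, exists_prop,
    exists_mem_image, dist_eq_norm]

end NbFAux

theorem s_NbF : S_NbF := by
  intro V _ _ X N ι hι
  refine ⟨?_, ?_, ?_, ?_⟩
  · intro ρ
    have h1 : Bl ι ρ = ι ⁻¹' closedBall 0 ρ := by
      ext x
      simp [Bl]
    rw [h1]
    exact hι.closed.isCompact_preimage (isCompact_closedBall 0 ρ)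
  · intro Q δ hQ
    rcases lt_or_ge δ 0 with hδ | hδ
    · have h1 : Nb ι Q δ = ∅ := by
        ext x
        simp only [Nb, mem_setOf_eq, mem_empty_iff_false, iff_false, not_exists, not_and, not_le]
        intro q _
        exact lt_of_lt_of_le hδ (norm_nonneg _)
      rw [h1]
      exact isCompact_empty
    · rw [NbFAux.nb_eq hι hQ hδ]
      exact hι.closed.isCompact_preimage (hQ.image hι.closed.continuous).cthickening
  · intro Q O hQ hO hQO
    obtain ⟨O', hO', rfl⟩ := hι.closed.isInducing.isOpen_iff.mp hO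
    have hc : IsCompact (ι '' Q) := hQ.image hι.closed.continuous
    obtain ⟨δ, hδ, hsub⟩ := hc.exists_cthickening_subset_open hO' (by
      rintro _ ⟨q, hq, rfl⟩
      exact hQO hq)
    refine ⟨δ, hδ, ?_⟩
    rw [NbFAux.nb_eq hι hQ hδ.le]
    exact preimage_mono hsub
  · intro Q δ hδ q hq
    rw [mem_interior]
    refine ⟨ι ⁻¹' ball (ι q) δ, ?_, isOpen_ball.preimage hι.closed.continuous, ?_⟩
    · intro x hx
      refine ⟨q, hq, ?_⟩
      rw [mem_preimage, mem_ball, dist_eq_norm] at hx
      exact hx.le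
    · rw [mem_preimage, mem_ball, dist_self]
      exact hδ

end Pool.Agent.Lib.MP_c2a04f_an
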