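import Pool.Agent.Lib.MP_c2a04f_an.SpecB

/-!
# MP_c2a04f_an, D5: no compact open subsets
-/

set_option autoImplicit false

open scoped Manifold ContDiff Topology
open Set Filter Metric

namespace Pool.Agent.Lib.MP_c2a04f_an

open Pool.Agent.Lib.MP_55bc5f_an

theorem s_NoCpt : S_NoCpt := by
  intro V _ _ _ X N ι hι hdim A hAc hAo
  by_contra hne
  obtain ⟨x, hx⟩ := nonempty_iff_ne_empty.mpr hne
  have hV : Nontrivial V := Module.finrank_pos_iff.mp hdim
  have hlcV : LocallyConnectedSpace V := inferInstance
  have hlc : LocallyConnectedSpace X := ChartedSpace.locallyConnectedSpace V X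
  have hmfd : IsManifold 𝓘(ℂ, V) 1 X := IsManifold.of_le (n := ω) le_top
  -- the connected component of `x` is compact, open and contained in `A`
  have hclopen : IsClopen A := ⟨hAc.isClosed, hAo⟩
  have hsub : connectedComponent x ⊆ A := hclopen.connectedComponent_subset hx
  have hUo : IsOpen (connectedComponent x) := isOpen_connectedComponent
  have hUc : IsCompact (connectedComponent x) := hAc.of_isClosed_subset
    isClosed_connectedComponent hsub
  -- `ι` is constant on it
  have hconst : ∀ y ∈ connectedComponent x, y = x := by
    intro y hy
    apply hι.closed.injective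
    exact MDifferentiableOn.apply_eq_of_isPreconnected_isCompact_isOpen (I := 𝓘(ℂ, V))
      hι.hol.mdifferentiableOn isPreconnected_connectedComponent hUc hUo hy
      mem_connectedComponent
  have hsing : connectedComponent x = {x} := by
    ext y
    constructor
    · intro hy
      exact hconst y hy
    · rintro rfl
      exact mem_connectedComponent
  rw [hsing] at hUo
  -- transport by the chart
  set e := chartAt V x with he
  have hxe : x ∈ e.source := mem_chart_source V x
  have h1 : IsOpen (e '' {x}) := e.isOpen_image_of_subset_source hUo (by
    rintro _ rfl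
    exact hxe)
  rw [image_singleton] at h1
  have h2 : (𝓝[≠] (e x)).NeBot := Module.punctured_nhds_neBot ℂ V (e x)
  exact h2.ne (isOpen_singleton_iff_punctured_nhds (e x) |>.mp h1)

end Pool.Agent.Lib.MP_c2a04f_an
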