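import Pool.Agent.Lib.MP_c2a04f_an.SpecC

/-!
# F3 Null: a Nullstellensatz on convex compact sets
-/

set_option autoImplicit false

open scoped Manifold ContDiff Topology
open Set Filter Metric

namespace Pool.Agent.Lib.MP_c2a04f_an

open Pool.Agent.Lib.MP_55bc5f_an

namespace NullAux

variable {n : ℕ} (K : Set (Cn n))

/-- The coordinates as continuous functions on `K`. -/
noncomputable def crd (i : Fin n) : C(K, ℂ) :=
  ⟨fun z => z.1 i, (continuous_apply i).comp continuous_subtype_val⟩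

/-- Polynomials as continuous functions on `K`. -/
noncomputable def pol : MvPolynomial (Fin n) ℂ →ₐ[ℂ] C(K, ℂ) := MvPolynomial.aeval (crd K)

omit K in
lemma differentiable_eval (P : MvPolynomial (Fin n) ℂ) :
    Differentiable ℂ (fun z : Cn n => MvPolynomial.eval z P) := by
  induction P using MvPolynomial.induction_on with
  | C a => simp
  | add p q hp hq =>
    have h2 : (fun z : Cn n => MvPolynomial.eval z (p + q)) =
        fun z => MvPolynomial.eval z p + MvPolynomial.eval z q := by funext z; simp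
    rw [h2]
    exact hp.add hq
  | mul_X p i hp =>
    have h : Differentiable ℂ (fun z : Cn n => z i) := by fun_prop
    have h2 : (fun z : Cn n => MvPolynomial.eval z (p * MvPolynomial.X i)) =
        fun z => MvPolynomial.eval z p * z i := by funext z; simp
    rw [h2]
    exact hp.mul h

lemma pol_apply (P : MvPolynomial (Fin n) ℂ) (z : K) : pol K P z = MvPolynomial.eval z.1 P := by
  have h : (ContinuousMap.evalAlgHom ℂ ℂ z).comp (pol K) = MvPolynomial.aeval z.1 := by
    apply MvPolynomial.algHom_ext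
    intro i
    simp [pol, crd]
  have h2 := congrArg (fun F : MvPolynomial (Fin n) ℂ →ₐ[ℂ] ℂ => F P) h
  simpa [MvPolynomial.coe_aeval_eq_eval] using h2

variable [CompactSpace K]

/-- The closure of the polynomials. -/
noncomputable def Alg : Subalgebra ℂ C(K, ℂ) := (pol K).range.topologicalClosure

lemma isClosed_Alg : IsClosed (Alg K : Set C(K, ℂ)) := Subalgebra.isClosed_topologicalClosure _

noncomputable instance : CompleteSpace (Alg K) := (isClosed_Alg K).completeSpace_coe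

lemma mem_Alg {f : C(K, ℂ)} :
    f ∈ Alg K ↔ ∀ ε > (0 : ℝ), ∃ P : MvPolynomial (Fin n) ℂ, ‖f - pol K P‖ < ε := by
  have h1 : f ∈ Alg K ↔ f ∈ closure ((pol K).range : Set C(K, ℂ)) := by
    unfold Alg
    rw [← SetLike.mem_coe, Subalgebra.topologicalClosure_coe]
  rw [h1, Metric.mem_closure_iff]
  constructor
  · intro h ε hε
    obtain ⟨g, ⟨P, hP⟩, hg⟩ := h ε hε
    refine ⟨P, ?_⟩
    rw [← dist_eq_norm]
    have : pol K P = g := hP
    rw [this]
    exact hg
  · intro h ε hε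
    obtain ⟨P, hP⟩ := h ε hε
    exact ⟨pol K P, ⟨P, rfl⟩, by rwa [dist_eq_norm]⟩

lemma norm_le' {f : C(K, ℂ)} {c : ℝ} (hc : 0 ≤ c) (h : ∀ z : K, ‖f z‖ ≤ c) : ‖f‖ ≤ c :=
  (ContinuousMap.norm_le f hc).2 h

end NullAux

open NullAux in
theorem s_Null (h1 : S_Runge) (h2 : S_Taylor) : S_Null := by
  intro n K hK hKc hKne r φ hφ hφ0
  have : CompactSpace K := isCompact_iff_compactSpace.1 hK
  have : Nonempty K := hKne.to_subtype
  -- the functions as elements of the algebra
  have hcont : ∀ j, ContinuousOn (φ j) K := fun j z hz =>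
    (hφ j z hz).self_of_nhds.continuousAt.continuousWithinAt
  let f : Fin r → C(K, ℂ) := fun j => ⟨fun z => φ j z.1, (hcont j).domRestrict⟩
  have hf : ∀ j, f j ∈ Alg K := by
    intro j
    rw [mem_Alg]
    intro ε hε
    obtain ⟨g, hg1, hg2⟩ := h1 n K (φ j) hK hKc (hφ j) (ε / 4) (by positivity)
    obtain ⟨P, hP⟩ := h2 n g hg1 K hK (ε / 4) (by positivity)
    refine ⟨P, lt_of_le_of_lt (norm_le' K (c := ε / 2) (by positivity) fun z => ?_) (by linarith)⟩
    have e1 : (f j - pol K P) z = φ j z.1 - MvPolynomial.eval z.1 P := by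
      rw [ContinuousMap.sub_apply, pol_apply]
      rfl
    rw [e1]
    calc ‖φ j z.1 - MvPolynomial.eval z.1 P‖
        = ‖(g z.1 - MvPolynomial.eval z.1 P) - (g z.1 - φ j z.1)‖ := by congr 1; ring
      _ ≤ ε / 4 + ε / 4 := (norm_sub_le _ _).trans (add_le_add (hP _ z.2) (hg2 _ z.2))
      _ = ε / 2 := by ring
  let F : Fin r → Alg K := fun j => ⟨f j, hf j⟩
  -- the ideal generated is everything
  have htop : Ideal.span (range F) = ⊤ := by
    by_contra hne
    obtain ⟨I, hI, hle⟩ := Ideal.exists_le_maximal _ hne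
    let χ : Alg K →ₐ[ℂ] ℂ := WeakDual.CharacterSpace.toAlgHom I.toCharacterSpace
    have hχ0 : ∀ j, χ (F j) = 0 := fun j =>
      I.toCharacterSpace_apply_eq_zero_of_mem (hle (Ideal.subset_span ⟨j, rfl⟩))
    have hχn : ∀ a : Alg K, ‖χ a‖ ≤ ‖(a : C(K, ℂ))‖ := by
      intro a
      have h3 := AlgHom.norm_apply_le_self_mul_norm_one χ a
      have h4 : ‖(1 : Alg K)‖ = 1 := by
        have : ‖((1 : Alg K) : C(K, ℂ))‖ = 1 := by simp
        exact this
      rw [h4, mul_one] at h3
      exact h3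
    -- polynomials in the algebra
    have hpolmem : ∀ P : MvPolynomial (Fin n) ℂ, pol K P ∈ Alg K := fun P =>
      Subalgebra.le_topologicalClosure _ ⟨P, rfl⟩
    let polA : MvPolynomial (Fin n) ℂ →ₐ[ℂ] Alg K := (pol K).codRestrict (Alg K) hpolmem
    let a : Cn n := fun i => χ (polA (MvPolynomial.X i))
    have hpa : ∀ P, χ (polA P) = MvPolynomial.eval a P := by
      intro P
      have h3 : χ.comp polA = MvPolynomial.aeval a := by
        apply MvPolynomial.algHom_ext
        intro i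
        simp [a]
      have h4 := congrArg (fun G : MvPolynomial (Fin n) ℂ →ₐ[ℂ] ℂ => G P) h3
      simpa [MvPolynomial.coe_aeval_eq_eval] using h4
    have hpb : ∀ (P : MvPolynomial (Fin n) ℂ) (c : ℝ), 0 ≤ c →
        (∀ z ∈ K, ‖MvPolynomial.eval z P‖ ≤ c) → ‖MvPolynomial.eval a P‖ ≤ c := by
      intro P c hc h
      rw [← hpa]
      refine (hχn _).trans (norm_le' K hc fun z => ?_)
      change ‖pol K P z‖ ≤ c
      rw [pol_apply]
      exact h _ z.2
    -- the point `a` belongs to `K`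
    have haK : a ∈ K := by
      by_contra haK
      obtain ⟨ℓ, u, hu1, hu2⟩ := RCLike.geometric_hahn_banach_closed_point (𝕜 := ℂ) hKc
        hK.isClosed haK
      have hpos : 0 < Real.exp (ℓ a).re - Real.exp u := sub_pos.2 (Real.exp_lt_exp.2 hu2)
      obtain ⟨P, hP⟩ := h2 n (fun z => Complex.exp (ℓ z)) (by fun_prop) (insert a K)
        (hK.insert a) ((Real.exp (ℓ a).re - Real.exp u) / 4) (by positivity)
      have hb := hpb P (Real.exp u + (Real.exp (ℓ a).re - Real.exp u) / 4) (by positivity) (by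
        intro z hz
        have h3 := hP z (mem_insert_of_mem _ hz)
        have h4 : ‖Complex.exp (ℓ z)‖ ≤ Real.exp u := by
          rw [Complex.norm_exp]
          exact Real.exp_le_exp.2 (hu1 z hz).le
        calc ‖MvPolynomial.eval z P‖
            = ‖Complex.exp (ℓ z) - (Complex.exp (ℓ z) - MvPolynomial.eval z P)‖ := by
              congr 1; ring
          _ ≤ _ := (norm_sub_le _ _).trans (add_le_add h4 h3))
      have h5 := hP a (mem_insert _ _)
      have h6 : Real.exp (ℓ a).re = ‖Complex.exp (ℓ a)‖ := by rw [Complex.norm_exp]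
      have h7 : ‖Complex.exp (ℓ a)‖ ≤ ‖MvPolynomial.eval a P‖ +
          (Real.exp (ℓ a).re - Real.exp u) / 4 := by
        calc ‖Complex.exp (ℓ a)‖
            = ‖MvPolynomial.eval a P + (Complex.exp (ℓ a) - MvPolynomial.eval a P)‖ := by
              congr 1; ring
          _ ≤ _ := (norm_add_le _ _).trans (add_le_add le_rfl h5)
      rw [← h6] at h7
      linarith
    -- all functions vanish at `a`
    obtain ⟨j, hj⟩ := hφ0 a haK
    apply hj
    have : ∀ ε > (0 : ℝ), ‖φ j a‖ ≤ ε := by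
      intro ε hε
      obtain ⟨P, hP⟩ := (mem_Alg K).1 (hf j) (ε / 2) (by positivity)
      have e1 : ‖φ j a - MvPolynomial.eval a P‖ ≤ ε / 2 := by
        have h3 := (f j - pol K P).norm_coe_le_norm ⟨a, haK⟩
        rw [ContinuousMap.sub_apply, pol_apply] at h3
        exact h3.trans hP.le
      have e2 : ‖MvPolynomial.eval a P‖ ≤ ε / 2 := by
        have h3 := hχn (F j - polA P)
        rw [map_sub, hχ0, zero_sub, norm_neg, hpa] at h3
        exact h3.trans hP.le
      calc ‖φ j a‖ = ‖(φ j a - MvPolynomial.eval a P) + MvPolynomial.eval a P‖ := by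
            congr 1; ring
        _ ≤ ε / 2 + ε / 2 := (norm_add_le _ _).trans (add_le_add e1 e2)
        _ = ε := by ring
    have h3 : ‖φ j a‖ ≤ 0 := le_of_forall_pos_le_add fun ε hε => by simpa using this ε hε
    simpa using h3
  have h1mem : (1 : Alg K) ∈ Ideal.span (range F) := by rw [htop]; trivial
  obtain ⟨c, hc⟩ := Ideal.mem_span_range_iff_exists_fun.1 h1mem
  have hcz : ∀ z : K, ∑ j, (c j : C(K, ℂ)) z * φ j z.1 = 1 := by
    intro z
    have h3 := congrArg (fun g : Alg K => (g : C(K, ℂ)) z) hc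
    simpa [F, f, ContinuousMap.coe_sum] using h3
  refine ⟨1 + ∑ j, ‖(c j : C(K, ℂ))‖, by positivity, fun δ hδ => ?_⟩
  obtain ⟨η, hη⟩ : ∃ η : ℝ, η = min 1 (δ / (1 + ∑ j, ‖f j‖)) := ⟨_, rfl⟩
  have hS0 : 0 ≤ ∑ j, ‖f j‖ := by positivity
  have hη0 : 0 < η := by rw [hη]; exact lt_min one_pos (by positivity)
  have hη1 : η ≤ 1 := by rw [hη]; exact min_le_left _ _
  have hηδ : η * ∑ j, ‖f j‖ ≤ δ := by
    have h3 : η ≤ δ / (1 + ∑ j, ‖f j‖) := by rw [hη]; exact min_le_right _ _
    calc η * ∑ j, ‖f j‖ ≤ δ / (1 + ∑ j, ‖f j‖) * (1 + ∑ j, ‖f j‖) := by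
          apply mul_le_mul h3 (by linarith) hS0 (by positivity)
      _ = δ := by field_simp
  choose P hP using fun j => (mem_Alg K).1 (c j).2 η hη0
  have hPz : ∀ j, ∀ z (hz : z ∈ K), ‖(c j : C(K, ℂ)) ⟨z, hz⟩ - MvPolynomial.eval z (P j)‖ ≤ η := by
    intro j z hz
    have h3 := ((c j : C(K, ℂ)) - pol K (P j)).norm_coe_le_norm ⟨z, hz⟩
    rw [ContinuousMap.sub_apply, pol_apply] at h3
    exact h3.trans (hP j).le
  refine ⟨fun j z => MvPolynomial.eval z (P j), fun j => ?_, fun j z hz => ?_, fun z hz => ?_⟩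
  · exact differentiable_eval (P j)
  · have h3 : ‖(c j : C(K, ℂ)) ⟨z, hz⟩‖ ≤ ‖(c j : C(K, ℂ))‖ :=
      (c j : C(K, ℂ)).norm_coe_le_norm _
    have h4 : ‖(c j : C(K, ℂ))‖ ≤ ∑ j, ‖(c j : C(K, ℂ))‖ :=
      Finset.single_le_sum (f := fun j => ‖(c j : C(K, ℂ))‖) (fun i _ => norm_nonneg _)
        (Finset.mem_univ j)
    calc ‖MvPolynomial.eval z (P j)‖
        = ‖(c j : C(K, ℂ)) ⟨z, hz⟩ - ((c j : C(K, ℂ)) ⟨z, hz⟩ - MvPolynomial.eval z (P j))‖ := by
          congr 1; ring
      _ ≤ ‖(c j : C(K, ℂ)) ⟨z, hz⟩‖ + η :=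
          (norm_sub_le _ _).trans (add_le_add le_rfl (hPz j z hz))
      _ ≤ 1 + ∑ j, ‖(c j : C(K, ℂ))‖ := by linarith
  · have e1 : (∑ j, MvPolynomial.eval z (P j) * φ j z) - 1 =
        ∑ j, (MvPolynomial.eval z (P j) - (c j : C(K, ℂ)) ⟨z, hz⟩) * φ j z := by
      rw [← hcz ⟨z, hz⟩, ← Finset.sum_sub_distrib]
      exact Finset.sum_congr rfl fun j _ => by ring
    rw [e1]
    calc ‖∑ j, (MvPolynomial.eval z (P j) - (c j : C(K, ℂ)) ⟨z, hz⟩) * φ j z‖
        ≤ ∑ j, ‖(MvPolynomial.eval z (P j) - (c j : C(K, ℂ)) ⟨z, hz⟩) * φ j z‖ :=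
          norm_sum_le _ _
      _ ≤ ∑ j, η * ‖f j‖ := by
          refine Finset.sum_le_sum fun j _ => ?_
          rw [norm_mul, norm_sub_rev]
          exact mul_le_mul (hPz j z hz) ((f j).norm_coe_le_norm ⟨z, hz⟩) (norm_nonneg _) hη0.le
      _ = η * ∑ j, ‖f j‖ := by rw [Finset.mul_sum]
      _ ≤ δ := hηδ

end Pool.Agent.Lib.MP_c2a04f_an
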