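import Mathlib
import Pool.Agent.Lib.MP_c2a04f_an.SpecA
import Pool.Agent.Lib.MP_c2a04f_an.SpecC

/-!
# G3 OkaSub: from entire maps avoiding `Z` to the Oka property of the complement
-/

set_option autoImplicit false

open scoped Manifold ContDiff Topology
open Set Filter Metric

namespace Pool.Agent.Lib.MP_c2a04f_an

open Pool.Agent.Lib.MP_55bc5f_an

namespace OkaSubAux

variable {V : Type} [NormedAddCommGroup V] [NormedSpace ℂ V] {X : CMan V} {N : ℕ}

lemma subInc_openMap (X : CMan V) (D : TopologicalSpace.Opens X) : IsOpenMap (subInc X D) :=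
  D.isOpen.isOpenMap_subtype_val

lemma subInc_inj (X : CMan V) (D : TopologicalSpace.Opens X) :
    Function.Injective (subInc X D) :=
  Subtype.val_injective

/-- A uniform neighbourhood of the graph of `F` over a compact set. -/
lemma graph_nbhd {n : ℕ} {ι : X → Cn N} (hι : Emb X ι) {K : Set (Cn n)} (hK : IsCompact K)
    {F : Cn n → X} (hF : ContinuousOn F K) {O : Set (Cn n × X)} (hO : IsOpen O)
    (hFO : ∀ z ∈ K, (z, F z) ∈ O) :
    ∃ ε > (0 : ℝ), ∀ z ∈ K, ∀ x : X, ‖ι x - ι (F z)‖ ≤ ε → (z, x) ∈ O := by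
  have hemb : Topology.IsEmbedding (Prod.map (id : Cn n → Cn n) ι) :=
    Topology.IsEmbedding.id.prodMap hι.closed.isEmbedding
  obtain ⟨W, hW, hWO⟩ := hemb.isInducing.isOpen_iff.1 hO
  have hG : IsCompact ((fun z => (z, ι (F z))) '' K) := by
    refine hK.image_of_continuousOn (continuousOn_id.prodMk ?_)
    exact hι.hol.continuous.comp_continuousOn hF
  have hGW : (fun z => (z, ι (F z))) '' K ⊆ W := by
    rintro _ ⟨z, hz, rfl⟩
    have h1 : (z, F z) ∈ Prod.map (id : Cn n → Cn n) ι ⁻¹' W := by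
      rw [hWO]
      exact hFO z hz
    exact h1
  obtain ⟨δ, hδ, hδW⟩ := hG.exists_thickening_subset_open hW hGW
  refine ⟨δ / 2, by positivity, fun z hz x hx => ?_⟩
  have h2 : (z, ι x) ∈ W := by
    apply hδW
    rw [mem_thickening_iff]
    refine ⟨(z, ι (F z)), ⟨z, hz, rfl⟩, ?_⟩
    rw [Prod.dist_eq, dist_self, dist_eq_norm]
    exact max_lt hδ (by linarith)
  have h3 : (z, x) ∈ Prod.map (id : Cn n → Cn n) ι ⁻¹' W := h2
  rw [hWO] at h3
  exact h3

end OkaSubAux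

open OkaSubAux in
theorem s_OkaSub (h1 : S_Ent) (h2 : S_SubHol) (_h3 : S_NbF) : S_OkaSub := by
  intro V _ _ _ X N ι hι Z hZ hA
  obtain ⟨D, hD⟩ : ∃ D : TopologicalSpace.Opens X, D = ⟨Zᶜ, hZ.isOpen_compl⟩ := ⟨_, rfl⟩
  rw [← hD]
  have hDZ : ∀ x : X, x ∈ D ↔ x ∉ Z := by
    intro x
    rw [hD]
    rfl
  intro n K U _ hK hKconv hU hKU f hf O hO hfO
  rcases K.eq_empty_or_nonempty with rfl | hne
  · exact ⟨fun _ => f 0, mdifferentiable_const, fun z hz => absurd hz (Set.notMem_empty z)⟩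
  obtain ⟨hS, -, -⟩ := h2 V X D
  have hFat : ∀ w ∈ U, MDifferentiableAt 𝓘(ℂ, Cn n) 𝓘(ℂ, V) (fun w => subInc X D (f w)) w := by
    intro w hw
    refine (hS (Cn n) (Cn n) f w).2 ?_
    exact (hf w hw).mdifferentiableAt (hU.mem_nhds hw)
  have hHol : HolN X (fun w => subInc X D (f w)) K := by
    intro z hz
    filter_upwards [hU.mem_nhds (hKU hz)] with w hw
    exact hFat w hw
  have hFZ : ∀ z ∈ K, subInc X D (f z) ∉ Z := fun z _ => (hDZ _).1 (f z).2
  have hFc : ContinuousOn (fun w => subInc X D (f w)) K := fun z hz =>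
    (hFat z (hKU hz)).continuousAt.continuousWithinAt
  have hO' : IsOpen (Prod.map (id : Cn n → Cn n) (subInc X D) '' O) :=
    (IsOpenMap.id.prodMap (subInc_openMap X D)) O hO
  have hFO' : ∀ z ∈ K, (z, subInc X D (f z)) ∈ Prod.map (id : Cn n → Cn n) (subInc X D) '' O :=
    fun z hz => ⟨(z, f z), hfO z hz, rfl⟩
  obtain ⟨ε, hε, hεO⟩ := graph_nbhd hι hK hFc hO' hFO'
  obtain ⟨g, hg, hgZ, hgK⟩ := h1 V X N ι hι Z hZ hA n K (fun w => subInc X D (f w)) hK hKconv hne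
    hHol hFZ ε hε
  refine ⟨fun z => ⟨g z, (hDZ _).2 (hgZ z)⟩, fun z => ?_, fun z hz => ?_⟩
  · exact (hS (Cn n) (Cn n) _ z).1 (hg z)
  · obtain ⟨⟨z', y⟩, hy, hzy⟩ := hεO z hz (g z) (hgK z hz)
    have e1 : z' = z := congrArg Prod.fst hzy
    have e2 : subInc X D y = g z := congrArg Prod.snd hzy
    have e3 : y = ⟨g z, (hDZ _).2 (hgZ z)⟩ := subInc_inj X D e2
    rw [e1, e3] at hy
    exact hy

end Pool.Agent.Lib.MP_c2a04f_an
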