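import Pool.Agent.Lib.MP_c2a04f_an.SpecB

/-!
# Second order estimate for a flow
-/

set_option autoImplicit false

open scoped Manifold ContDiff Topology
open Set Filter Metric

namespace Pool.Agent.Lib.MP_c2a04f_an

open Pool.Agent.Lib.MP_55bc5f_an

/-- Taylor's formula of second order for entire functions. -/
theorem oneFlow_taylor {E : Type*} [NormedAddCommGroup E] [NormedSpace ℂ E] [CompleteSpace E]
    (g : ℂ → E) (hg : Differentiable ℂ g) (C : ℝ) (hC : ∀ t, ‖t‖ ≤ 1 → ‖g t‖ ≤ C) (t : ℂ)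
    (ht : ‖t‖ ≤ 1) : ‖g t - g 0 - t • deriv g 0‖ ≤ 3 * C * ‖t‖ ^ 2 := by
  set k₁ : ℂ → E := dslope g 0 with hk₁
  set k₂ : ℂ → E := dslope k₁ 0 with hk₂
  have h1 : Differentiable ℂ k₁ := by
    rw [← differentiableOn_univ, hk₁, Complex.differentiableOn_dslope univ_mem]
    exact hg.differentiableOn
  have h2 : Differentiable ℂ k₂ := by
    rw [← differentiableOn_univ, hk₂, Complex.differentiableOn_dslope univ_mem]
    exact h1.differentiableOn
  have hk10 : k₁ 0 = deriv g 0 := dslope_same g 0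
  have e1 : ∀ s : ℂ, s • k₁ s = g s - g 0 := fun s => by
    have := sub_smul_dslope g 0 s
    rwa [sub_zero] at this
  have e2 : ∀ s : ℂ, s • k₂ s = k₁ s - k₁ 0 := fun s => by
    have := sub_smul_dslope k₁ 0 s
    rwa [sub_zero] at this
  have hd : ‖deriv g 0‖ ≤ C := by
    have h3 := Complex.norm_deriv_le_of_forall_mem_sphere_norm_le (c := (0 : ℂ)) (R := 1) (C := C)
      (f := g) one_pos hg.diffContOnCl (fun z hz => hC z (by
        rw [mem_sphere_zero_iff_norm] at hz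
        exact hz.le))
    simpa using h3
  have h3 : ∀ s : ℂ, ‖s‖ = 1 → ‖k₂ s‖ ≤ 3 * C := by
    intro s hs
    have h4 : ‖k₁ s‖ ≤ 2 * C := by
      have h5 : ‖s • k₁ s‖ ≤ C + C := by
        rw [e1 s]
        exact (norm_sub_le _ _).trans (add_le_add (hC s hs.le) (hC 0 (by simp)))
      rw [norm_smul, hs, one_mul] at h5
      linarith
    have h5 : ‖s • k₂ s‖ ≤ 2 * C + C := by
      rw [e2 s, hk10]
      exact (norm_sub_le _ _).trans (add_le_add h4 hd)
    rw [norm_smul, hs, one_mul] at h5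
    linarith
  have h4 : ‖k₂ t‖ ≤ 3 * C := by
    refine Complex.norm_le_of_forall_mem_frontier_norm_le (U := ball (0 : ℂ) 1) isBounded_ball
      h2.diffContOnCl (fun z hz => h3 z ?_) ?_
    · rw [frontier_ball (0 : ℂ) one_ne_zero] at hz
      exact mem_sphere_zero_iff_norm.mp hz
    · rw [closure_ball (0 : ℂ) one_ne_zero]
      exact mem_closedBall_zero_iff.mpr ht
  have e3 : g t - g 0 - t • deriv g 0 = (t * t) • k₂ t := by
    rw [mul_smul, e2, ← e1, smul_sub, hk10]
  rw [e3, norm_smul, norm_mul]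
  have := mul_le_mul_of_nonneg_left h4 (by positivity : 0 ≤ ‖t‖ * ‖t‖)
  nlinarith

theorem s_OneFlow : S_OneFlow := by
  intro V _ _ _ X N ι hι φ K hK
  have hcont : Continuous (fun p : ℂ × X => ι (φ.φ p.1 p.2)) := hι.hol.continuous.comp φ.continuous
  have hcomp : IsCompact ((closedBall (0 : ℂ) 1) ×ˢ K) := (isCompact_closedBall 0 1).prod hK
  obtain ⟨C, hC⟩ := hcomp.bddAbove_image hcont.norm.continuousOn
  have hC' : ∀ x ∈ K, ∀ t : ℂ, ‖t‖ ≤ 1 → ‖ι (φ.φ t x)‖ ≤ max C 0 := fun x hx t ht =>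
    (hC ⟨(t, x), ⟨mem_closedBall_zero_iff.mpr ht, hx⟩, rfl⟩).trans (le_max_left _ _)
  refine ⟨3 * max C 0, by positivity, fun x hx t ht => ?_⟩
  have hd : Differentiable ℂ (fun s : ℂ => ι (φ.φ s x)) :=
    mdifferentiable_iff_differentiable.mp (hι.hol.comp (φ.hol_x x))
  have h1 := oneFlow_taylor (fun s : ℂ => ι (φ.φ s x)) hd (max C 0) (hC' x hx) t ht
  simp only [φ.zero] at h1
  exact h1

end Pool.Agent.Lib.MP_c2a04f_an
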