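import Mathlib
import Pool.Agent.Lib.MP_c2a04f_an.SpecA
import Pool.Agent.Lib.MP_c2a04f_an.SpecB

/-!
# MP_c2a04f_an: the push lemma for finite sets
-/

set_option autoImplicit false

open scoped Manifold ContDiff Topology
open Set Filter Metric

namespace Pool.Agent.Lib.MP_c2a04f_an

open Pool.Agent.Lib.MP_55bc5f_an

namespace Push

variable {V : Type} [NormedAddCommGroup V] [NormedSpace ℂ V] {X : CMan V} {N : ℕ}

/-- A number strictly between `ρ` and all the numbers `f s`. -/
lemma exists_between_finset {X : Type*} (f : X → ℝ) (S : Finset X) (ρ : ℝ) (h : ∀ s ∈ S, ρ < f s) :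
    ∃ ρ' : ℝ, ρ < ρ' ∧ ∀ s ∈ S, ρ' < f s := by
  classical
  induction S using Finset.induction_on with
  | empty => exact ⟨ρ + 1, by linarith, by simp⟩
  | insert q S hq ih =>
    obtain ⟨ρ₁, h1, h2⟩ := ih fun s hs => h s (Finset.mem_insert_of_mem hs)
    have h3 : ρ < f q := h q (Finset.mem_insert_self q S)
    obtain ⟨ρ₂, h4, h5⟩ := exists_between h3
    refine ⟨min ρ₁ ρ₂, lt_min h1 h4, fun s hs => ?_⟩
    rcases Finset.mem_insert.mp hs with rfl | hs
    · exact (min_le_right _ _).trans_lt h5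
    · exact (min_le_left _ _).trans_lt (h2 s hs)

end Push

open Push in
theorem s_Push (h : S_Push1) : S_Push := by
  intro V _ _ _ X N ι hι hD hF hV S
  classical
  induction S using Finset.induction_on with
  | empty =>
    intro ρ R ε hε _
    refine ⟨Equiv.refl X, isAut_refl, fun x _ => ?_, by simp⟩
    simp [hε.le]
  | insert q S hq ih =>
    intro ρ R ε hε hS
    obtain ⟨ρ', hρ1, hρ2⟩ := exists_between_finset (fun s => ‖ι s‖) _ ρ hS
    obtain ⟨ρ₂, hρ3, hρ4⟩ := exists_between hρ1
    set e : ℝ := min (min (ε / 2) 1) (min ((ρ₂ - ρ) / 2) ((ρ' - ρ₂) / 2)) with he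
    have he0 : 0 < e := by
      refine lt_min (lt_min (by linarith) one_pos) (lt_min (by linarith) (by linarith))
    have he1 : e ≤ ε / 2 := (min_le_left _ _).trans (min_le_left _ _)
    have he2 : e ≤ 1 := (min_le_left _ _).trans (min_le_right _ _)
    have he3 : e ≤ (ρ₂ - ρ) / 2 := (min_le_right _ _).trans (min_le_left _ _)
    have he4 : e ≤ (ρ' - ρ₂) / 2 := (min_le_right _ _).trans (min_le_right _ _)
    obtain ⟨α, hα, hαn, hαS⟩ := ih ρ' (R + 1) e he0
      fun s hs => hρ2 s (Finset.mem_insert_of_mem hs)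
    have hq1 : ρ' < ‖ι q‖ := hρ2 q (Finset.mem_insert_self q S)
    have hαq : ρ₂ < ‖ι (α q)‖ := by
      by_contra hlt
      push Not at hlt
      have h1 : α q ∈ Bl ι ρ' := by
        show ‖ι (α q)‖ ≤ ρ'
        linarith
      have h2 := (hαn _ h1).2
      rw [Equiv.symm_apply_apply] at h2
      have h3 := norm_sub_norm_le (ι q) (ι (α q))
      linarith
    obtain ⟨β, hβ, hβn, hβq⟩ := h V X N ι hι hD hF hV ρ₂ R e (S.image α) (α q) he0 hαq (by
      intro hmem
      obtain ⟨s, hs, hs1⟩ := Finset.mem_image.mp hmem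
      exact hq (α.injective hs1 ▸ hs))
    refine ⟨α.trans β, hα.trans hβ, fun x hx => ⟨?_, ?_⟩, fun s hs => ?_⟩
    · have hx0 : ‖ι x‖ ≤ ρ := hx
      have hx1 : x ∈ Bl ι ρ' := by
        show ‖ι x‖ ≤ ρ'
        linarith
      have h1 := (hαn x hx1).1
      have h2 : α x ∈ Bl ι ρ₂ := by
        show ‖ι (α x)‖ ≤ ρ₂
        have h3 := norm_sub_norm_le (ι (α x)) (ι x)
        linarith
      have h3 := (hβn (α x) (Or.inl h2)).1
      have h4 : ι ((α.trans β) x) - ι x = (ι (β (α x)) - ι (α x)) + (ι (α x) - ι x) := by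
        simp
      rw [h4]
      refine (norm_add_le _ _).trans ?_
      linarith
    · have hx0 : ‖ι x‖ ≤ ρ := hx
      have hx1 : x ∈ Bl ι ρ₂ := by
        show ‖ι x‖ ≤ ρ₂
        linarith
      have h1 := (hβn x (Or.inl hx1)).2
      have h2 : β.symm x ∈ Bl ι ρ' := by
        show ‖ι (β.symm x)‖ ≤ ρ'
        have h3 := norm_sub_norm_le (ι (β.symm x)) (ι x)
        linarith
      have h3 := (hαn (β.symm x) h2).2
      have h4 : ι ((α.trans β).symm x) - ι x =
          (ι (α.symm (β.symm x)) - ι (β.symm x)) + (ι (β.symm x) - ι x) := by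
        simp
      rw [h4]
      refine (norm_add_le _ _).trans ?_
      linarith
    · rcases Finset.mem_insert.mp hs with rfl | hs
      · exact hβq
      · have h1 := hαS s hs
        have h2 := (hβn (α s) (Or.inr (by
          rw [Finset.mem_coe]
          exact Finset.mem_image_of_mem α hs))).1
        have h3 := norm_sub_norm_le (ι (α s)) (ι (β (α s)))
        rw [norm_sub_rev] at h3
        show R < ‖ι (β (α s))‖
        linarith

end Pool.Agent.Lib.MP_c2a04f_an
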