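import Mathlib
import Pool.Agent.Lib.MP_c2a04f_an.SpecA
import Pool.Agent.Lib.MP_c2a04f_an.SpecB

/-!
# MP_c2a04f_an: one point can be pushed to infinity
-/

set_option autoImplicit false

open scoped Manifold ContDiff Topology
open Set Filter Metric

namespace Pool.Agent.Lib.MP_c2a04f_an

open Pool.Agent.Lib.MP_55bc5f_an

namespace Push1

variable {V : Type} [NormedAddCommGroup V] [NormedSpace ℂ V] {X : CMan V} {N : ℕ}

lemma mv_refl (ι : X → Cn N) (Q : Set X) (q : X) : Mv X ι Q q q := by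
  refine ⟨1, one_pos, fun ε hε => ⟨Equiv.refl X, isAut_refl, fun x _ => ?_, ?_⟩⟩
  · simp [hε.le]
  · simp [hε.le]

lemma sub_nb (ι : X → Cn N) (Q : Set X) {δ : ℝ} (hδ : 0 < δ) : Q ⊆ Nb ι Q δ := by
  intro x hx
  refine ⟨x, hx, ?_⟩
  simp [hδ.le]

end Push1

open Push1 in
theorem s_Push1 (h1 : S_SepF) (h2 : S_LocMove) (h3 : S_MvTrans) (h4 : S_NoCpt) (h5 : S_NbF) :
    S_Push1 := by
  intro V _ _ _ X N ι hι hD hF hV ρ R ε T q hε hρq hqT
  classical
  by_contra hno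
  push Not at hno
  obtain ⟨hB, -, -, -⟩ := h5 V X N ι hι
  have hιc : Continuous ι := hι.hol.continuous
  set Q : Set X := Bl ι ρ ∪ T with hQ
  have hQc : IsCompact Q := (hB ρ).union T.finite_toSet.isCompact
  have hQcl : IsClosed Q := hQc.isClosed
  have hsep : ∀ u ∉ Q, ρ < ‖ι u‖ ∧ u ∉ T := by
    intro u hu
    refine ⟨?_, fun h => hu (Or.inr h)⟩
    by_contra h
    exact hu (Or.inl (not_lt.mp h))
  have hqQ : q ∉ Q := by
    rintro (h | h)
    · exact absurd hρq (not_lt.mpr h)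
    · exact hqT h
  have hloc : ∀ u₀ ∉ Q, ∃ O ∈ 𝓝 u₀, ∀ u ∈ O, ∀ u' ∈ O, Mv X ι Q u u' := by
    intro u₀ hu₀
    obtain ⟨a, b⟩ := hsep u₀ hu₀
    obtain ⟨h, hh, hh1, δ, hδ, hhδ⟩ := h1 V X N ι hι ρ T u₀ a b
    exact h2 V X N ι hι hD hF Q u₀ h δ hQc hh hh1 hδ hhδ
  set U : Set X := {u | u ∉ Q ∧ Mv X ι Q q u} with hU
  have hqU : q ∈ U := ⟨hqQ, mv_refl ι Q q⟩
  have hUo : IsOpen U := by
    rw [isOpen_iff_mem_nhds]
    rintro u₀ ⟨hu₀, hm⟩
    obtain ⟨O, hO, hO1⟩ := hloc u₀ hu₀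
    filter_upwards [hO, hQcl.isOpen_compl.mem_nhds hu₀] with u hu huQ
    exact ⟨huQ, h3 V X N ι hι Q q u₀ u hm (hO1 u₀ (mem_of_mem_nhds hO) u hu)⟩
  have hcl : ∀ u ∈ closure U, u ∉ Q → u ∈ U := by
    intro u hu huQ
    obtain ⟨O, hO, hO1⟩ := hloc u huQ
    obtain ⟨w, hw, hwU⟩ := mem_closure_iff_nhds.mp hu O hO
    exact ⟨huQ, h3 V X N ι hι Q q w u hwU.2 (hO1 w hw u (mem_of_mem_nhds hO))⟩
  have hbd : ∀ u ∈ U, ‖ι u‖ ≤ R + ε := by
    rintro u ⟨huQ, δ, hδ, hm⟩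
    by_contra hlt
    push Not at hlt
    obtain ⟨α, hα, hn, hq⟩ := hm ε hε
    have h6 : Near ι α (Bl ι ρ ∪ T) ε := fun x hx => hn x (sub_nb ι Q hδ hx)
    have h7 := hno α hα h6
    have h8 : ‖ι u‖ ≤ ‖ι (α q)‖ + ‖ι (α q) - ι u‖ := by
      have := norm_sub_norm_le (ι u) (ι (α q))
      rw [norm_sub_rev] at this
      linarith
    linarith
  have hclc : IsCompact (closure U) := by
    refine (hB (R + ε)).of_isClosed_subset isClosed_closure ?_
    refine closure_minimal hbd ?_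
    exact isClosed_le hιc.norm continuous_const
  obtain ⟨h, hh, hh1, δ, hδ, hhδ⟩ := h1 V X N ι hι ρ T q hρq hqT
  have hhc : Continuous h := hh.continuous
  obtain ⟨xs, hxs, hmax⟩ := hclc.exists_isMaxOn ⟨q, subset_closure hqU⟩
    (f := fun x => ‖h x‖) hhc.norm.continuousOn
  have hxs1 : 1 ≤ ‖h xs‖ := by
    have := hmax (subset_closure hqU)
    simp only [mem_setOf_eq] at this
    rwa [hh1, norm_one] at this
  have hA := h4 V X N ι hι hV {x | x ∈ closure U ∧ ‖h x‖ = ‖h xs‖} ?_ ?_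
  · have : xs ∈ ({x | x ∈ closure U ∧ ‖h x‖ = ‖h xs‖} : Set X) := ⟨hxs, rfl⟩
    rw [hA] at this
    exact this
  · refine hclc.of_isClosed_subset ?_ fun x hx => hx.1
    exact isClosed_closure.inter (isClosed_eq hhc.norm continuous_const)
  · rw [isOpen_iff_mem_nhds]
    rintro x ⟨hx, hx1⟩
    have hxQ : x ∉ Q := by
      intro hxQ
      have := hhδ x (sub_nb ι _ hδ hxQ)
      rw [hx1] at this
      linarith
    have hxU : x ∈ U := hcl x hx hxQ
    have hlm : IsLocalMax (norm ∘ h) x := by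
      filter_upwards [hUo.mem_nhds hxU] with y hy
      have := hmax (subset_closure hy)
      simp only [mem_setOf_eq] at this
      show ‖h y‖ ≤ ‖h x‖
      rw [hx1]
      exact this
    have hev := Complex.norm_eventually_eq_of_mdifferentiableAt_of_isLocalMax (I := 𝓘(ℂ, V))
      (Eventually.of_forall fun z => hh z) hlm
    filter_upwards [hUo.mem_nhds hxU, hev] with y hy hy1
    exact ⟨subset_closure hy, hy1.trans hx1⟩

end Pool.Agent.Lib.MP_c2a04f_an
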