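import Mathlib
import Pool.Agent.Lib.MP_55bc5f_an.Full.Mfd.Retr
import Pool.Agent.Lib.MP_c2a04f_an.SpecA

/-!
# MP_c2a04f_an: local holomorphic retractions
-/

set_option autoImplicit false

open scoped Manifold ContDiff Topology
open Set Filter Metric

namespace Pool.Agent.Lib.MP_c2a04f_an

open Pool.Agent.Lib.MP_55bc5f_an

theorem s_Rho : S_Rho := by
  intro V _ _ _ X N ι hι x K' hK'
  obtain ⟨ρ, h1, h2, h3⟩ := s_Retr V X N ι ⟨hι.hol, hι.inj⟩ x
  have hc : ContinuousAt ρ (ι x) := (h1.self_of_nhds).continuousAt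
  have h4 : ∀ᶠ w in 𝓝 (ι x), ρ w ∈ K' := by
    rw [ContinuousAt, h2] at hc
    exact hc hK'
  have h5 : ∀ᶠ w in 𝓝 (ι x), ∀ y : X, ι y = w → ρ (ι y) = y := by
    rw [hι.closed.isInducing.nhds_eq_comap x, eventually_comap] at h3
    exact h3
  obtain ⟨r, hr, hball⟩ := Metric.eventually_nhds_iff.mp (h1.and (h4.and h5))
  refine ⟨r, ρ, hr, fun w hw => ?_, h2, fun y hy => ?_⟩
  · have := hball (mem_ball.mp hw)
    exact ⟨this.1, this.2.1⟩
  · rw [← dist_eq_norm] at hy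
    exact (hball hy).2.2 y rfl

end Pool.Agent.Lib.MP_c2a04f_an
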