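import Pool.Agent.Lib.MP_c2a04f_an.SpecC
import Pool.Agent.Lib.MP_55bc5f_an.Full.L2.MeanRad
import Pool.Agent.Lib.Osgood

/-!
# Approximation of holomorphic functions near convex compact sets by entire functions
-/

set_option autoImplicit false

open scoped Manifold ContDiff Topology
open Set Filter Metric MeasureTheory

namespace Pool.Agent.Lib.MP_c2a04f_an

open Pool.Agent.Lib.MP_55bc5f_an

theorem runge_nsq_nonneg {n : ℕ} (z : Cn n) : 0 ≤ nsq z := by
  unfold nsq
  positivity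

theorem runge_nsq_continuous {n : ℕ} : Continuous (nsq : Cn n → ℝ) := by
  unfold nsq
  fun_prop

/-- The sum of the squares of the absolute values of the derivatives `∂χ/∂z̄_i`. -/
noncomputable def rungeF {n : ℕ} (χ : Cn n → ℂ) (z : Cn n) : ℝ :=
  ∑ i : Fin n, ‖(1 / 2 : ℂ) * (fderiv ℝ χ z (Pi.single i 1) +
          Complex.I * fderiv ℝ χ z (Pi.single i Complex.I))‖ ^ 2

theorem rungeF_nonneg {n : ℕ} (χ : Cn n → ℂ) (z : Cn n) : 0 ≤ rungeF χ z := by
  unfold rungeF
  positivity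

theorem rungeF_continuous {n : ℕ} {χ : Cn n → ℂ} (hχ : ContDiff ℝ ∞ χ) :
    Continuous (rungeF χ) := by
  unfold rungeF
  have h : Continuous (fderiv ℝ χ) := hχ.continuous_fderiv (by simp)
  fun_prop

theorem rungeF_eq_zero_of_zero {n : ℕ} {χ : Cn n → ℂ} {z : Cn n} (h : χ =ᶠ[𝓝 z] fun _ => 0) :
    rungeF χ z = 0 := by
  unfold rungeF
  rw [h.fderiv_eq]
  simp

theorem rungeF_eq_zero_of_hol {n : ℕ} {χ φ : Cn n → ℂ} {z : Cn n} (h : χ =ᶠ[𝓝 z] φ)
    (hφ : DifferentiableAt ℂ φ z) : rungeF χ z = 0 := by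
  unfold rungeF
  rw [h.fderiv_eq, hφ.fderiv_restrictScalars ℝ]
  refine Finset.sum_eq_zero fun i _ => ?_
  have e : (Pi.single i Complex.I : Cn n) = Complex.I • Pi.single i 1 := by
    ext j
    by_cases hj : j = i
    · subst hj
      simp
    · simp [Pi.single_eq_of_ne hj]
  have h1 : (fderiv ℂ φ z).restrictScalars ℝ (Pi.single i Complex.I) =
      Complex.I * fderiv ℂ φ z (Pi.single i 1) := by
    rw [ContinuousLinearMap.coe_restrictScalars', e, map_smul, smul_eq_mul]
  rw [h1]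
  have h2 : (fderiv ℂ φ z).restrictScalars ℝ (Pi.single i 1) =
      fderiv ℂ φ z (Pi.single i 1) := rfl
  rw [h2, ← mul_assoc, Complex.I_mul_I]
  simp

theorem s_Runge (h1 : S_ConvSep) (h2 : S_L2Cn) : S_Runge := by
  intro n K φ hK hKc hφ ε hε
  rcases Nat.eq_zero_or_pos n with hn | hn
  · subst hn
    refine ⟨fun _ => φ 0, differentiable_const _, fun z _ => ?_⟩
    have hz : z = 0 := Subsingleton.elim _ _
    rw [hz, sub_self, norm_zero]
    exact hε.le
  -- the open set on which `φ` is holomorphic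
  set U : Set (Cn n) := interior {w | DifferentiableAt ℂ φ w} with hU
  have hUo : IsOpen U := isOpen_interior
  have hKU : K ⊆ U := fun z hz => mem_interior_iff_mem_nhds.mpr (hφ z hz)
  have hφU : ∀ z ∈ U, DifferentiableAt ℂ φ z := fun z hz => by
    have h : z ∈ {w | DifferentiableAt ℂ φ w} := interior_subset hz
    exact h
  have hφan : AnalyticOnNhd ℂ φ U := Osgood.analyticOnNhd hUo
    (fun z hz => (hφU z hz).differentiableWithinAt)
  have hφsm : ∀ z ∈ U, ContDiffAt ℝ ∞ φ z := fun z hz =>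
    ((hφan z hz).contDiffAt (n := ∞)).restrict_scalars ℝ
  obtain ⟨δ, hδ, hδU⟩ := hK.exists_cthickening_subset_open hUo hKU
  set ϱ : ℝ := δ / 3 with hϱdef
  have hϱ : 0 < ϱ := by positivity
  have h3ϱ : 3 * ϱ = δ := by rw [hϱdef]; ring
  set K₁ : Set (Cn n) := cthickening ϱ K with hK₁
  set K₂ : Set (Cn n) := cthickening (2 * ϱ) K with hK₂
  set K₃ : Set (Cn n) := cthickening (3 * ϱ) K with hK₃
  have hK₃U : K₃ ⊆ U := by rw [hK₃, h3ϱ]; exact hδU
  have hK₁c : IsCompact K₁ := hK.cthickening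
  have hK₃c : IsCompact K₃ := hK.cthickening
  have h12 : K₁ ⊆ thickening (2 * ϱ) K :=
    cthickening_subset_thickening' (by positivity) (by linarith) K
  have h23 : K₂ ⊆ thickening (3 * ϱ) K :=
    cthickening_subset_thickening' (by positivity) (by linarith) K
  have hT2 : thickening (2 * ϱ) K ⊆ K₂ := thickening_subset_cthickening _ _
  have h13 : K₁ ⊆ K₃ := cthickening_mono (by linarith) K
  -- the cut-off function
  obtain ⟨β, hβ, -, hβs, hβ1⟩ := exists_contMDiff_support_eq_eq_one_iff (n := ⊤)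
    (I := 𝓘(ℝ, Cn n)) (isOpen_thickening (δ := 3 * ϱ) (E := K))
    (isClosed_cthickening (δ := 2 * ϱ) (E := K)) h23
  have hβ' : ContDiff ℝ ∞ β := hβ.contDiff
  have hβt : tsupport β ⊆ K₃ := by
    rw [tsupport, hβs]
    exact closure_thickening_subset_cthickening _ _
  set χ : Cn n → ℂ := fun z => (β z : ℂ) * φ z with hχdef
  have hχ0 : ∀ z, z ∉ K₃ → χ =ᶠ[𝓝 z] fun _ => 0 := by
    intro z hz
    have h3 : K₃ᶜ ∈ 𝓝 z := isClosed_cthickening.isOpen_compl.mem_nhds hz
    filter_upwards [h3] with w hw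
    have h4 : β w = 0 := by
      by_contra h5
      exact hw (hβt (subset_tsupport _ h5))
    simp [hχdef, h4]
  have hχφ : ∀ z ∈ thickening (2 * ϱ) K, χ =ᶠ[𝓝 z] φ := by
    intro z hz
    filter_upwards [isOpen_thickening.mem_nhds hz] with w hw
    have h4 : β w = 1 := (hβ1 w).mp (hT2 hw)
    simp [hχdef, h4]
  have hχ : ContDiff ℝ ∞ χ := by
    rw [contDiff_iff_contDiffAt]
    intro z
    by_cases hz : z ∈ K₃
    · have h5 : ContDiffAt ℝ ∞ (fun z => (β z : ℂ)) z :=
        (Complex.ofRealCLM.contDiff.comp hβ').contDiffAt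
      exact h5.mul (hφsm z (hK₃U hz))
    · exact (contDiffAt_const (c := (0 : ℂ))).congr_of_eventuallyEq (hχ0 z hz)
  have hχs : HasCompactSupport χ := by
    refine HasCompactSupport.intro hK₃c fun z hz => (hχ0 z hz).self_of_nhds
  -- the compact set which carries `∂̄χ`
  set G : Set (Cn n) := K₃ \ thickening (2 * ϱ) K with hG
  have hGc : IsCompact G := hK₃c.diff isOpen_thickening
  have hKG : Disjoint K₁ G := by
    rw [Set.disjoint_left]
    exact fun z hz hzG => hzG.2 (h12 hz)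
  have hF0 : ∀ z, z ∉ G → rungeF χ z = 0 := by
    intro z hz
    by_cases hz3 : z ∈ K₃
    · have hz2 : z ∈ thickening (2 * ϱ) K := by
        by_contra h
        exact hz ⟨hz3, h⟩
      exact rungeF_eq_zero_of_hol (hχφ z hz2) (hφU z (hK₃U hz3))
    · exact rungeF_eq_zero_of_zero (hχ0 z hz3)
  have hFint : Integrable (rungeF χ) := by
    refine (rungeF_continuous hχ).integrable_of_hasCompactSupport ?_
    exact HasCompactSupport.intro hGc hF0
  obtain ⟨q, ℓ, c, hψK, hψG⟩ := h1 n K₁ G hK₁c (hKc.cthickening ϱ) hGc hKG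
  set ψ : Cn n → ℝ := fun z => ∑ j, ‖Complex.exp (ℓ j z + c j)‖ ^ 2 with hψdef
  set C : ℝ := ∫ z, rungeF χ z with hC
  have hC0 : 0 ≤ C := integral_nonneg fun z => rungeF_nonneg χ z
  obtain ⟨M, hM⟩ := hK₁c.bddAbove_image (runge_nsq_continuous (n := n)).continuousOn
  have hM' : ∀ z ∈ K₁, nsq z ≤ M := fun z hz => hM (mem_image_of_mem _ hz)
  set v : ℝ := ∫ z in ball (0 : Cn n) ϱ, (1 : ℝ) with hv
  have hv0 : 0 < v := by
    rw [hv]
    simp only [integral_const, smul_eq_mul, mul_one, measureReal_restrict_apply_univ]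
    exact ENNReal.toReal_pos (measure_ball_pos volume 0 hϱ).ne' measure_ball_lt_top.ne
  -- the choice of `m`
  set A : ℝ := Real.exp (2 * M) * C / v with hA
  have hA0 : 0 ≤ A := by positivity
  obtain ⟨m, hm0, hm⟩ : ∃ m : ℝ, 0 ≤ m ∧ A * Real.exp (-m) ≤ ε ^ 2 := by
    have h3 : Tendsto (fun m : ℝ => A * Real.exp (-m)) atTop (𝓝 (A * 0)) :=
      (Real.tendsto_exp_neg_atTop_nhds_zero).const_mul A
    rw [mul_zero] at h3
    have h4 : ∀ᶠ m : ℝ in atTop, A * Real.exp (-m) < ε ^ 2 :=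
      h3.eventually_lt_const (by positivity)
    obtain ⟨m, hm, hm'⟩ := (h4.and (eventually_ge_atTop (0 : ℝ))).exists
    exact ⟨m, hm', hm.le⟩
  obtain ⟨h, hhol, hint, hle⟩ := h2 n hn q ℓ c m hm0 χ hχ hχs
  refine ⟨h, hhol, fun z hz => ?_⟩
  set H : Cn n → ℝ := fun z => ‖χ z - h z‖ ^ 2 *
      Real.exp (-(m * (∑ j, ‖Complex.exp (ℓ j z + c j)‖ ^ 2) + 2 * nsq z)) with hH
  have hH0 : ∀ z, 0 ≤ H z := fun z => by positivity
  -- the upper bound
  have hup : ∫ z, H z ≤ Real.exp (-(2 * m)) * C := by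
    refine hle.trans ?_
    rw [hC, ← integral_const_mul]
    refine integral_mono_of_nonneg (Filter.Eventually.of_forall fun w => by positivity)
      (hFint.const_mul _) (Filter.Eventually.of_forall fun w => ?_)
    show rungeF χ w * Real.exp (-(m * ψ w + 2 * nsq w)) ≤ Real.exp (-(2 * m)) * rungeF χ w
    by_cases hw : w ∈ G
    · have h5 : 2 ≤ ψ w := hψG w hw
      have h6 := runge_nsq_nonneg w
      have h7 : Real.exp (-(m * ψ w + 2 * nsq w)) ≤ Real.exp (-(2 * m)) := by
        apply Real.exp_le_exp.mpr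
        nlinarith
      rw [mul_comm]
      exact mul_le_mul_of_nonneg_right h7 (rungeF_nonneg χ w)
    · rw [hF0 w hw]
      simp
  -- the ball around `z`
  have hball : ∀ w ∈ closedBall (0 : Cn n) ϱ, z + w ∈ K₁ := by
    intro w hw
    refine closedBall_subset_cthickening hz ϱ ?_
    rw [mem_closedBall, dist_eq_norm, add_sub_cancel_left]
    exact mem_closedBall_zero_iff.mp hw
  set g : Cn n → ℂ := fun w => φ (z + w) - h (z + w) with hg
  have hgd : ∀ w ∈ closedBall (0 : Cn n) ϱ, DifferentiableAt ℂ g w := by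
    intro w hw
    have h5 : DifferentiableAt ℂ (fun w : Cn n => z + w) w := by fun_prop
    have h6 : DifferentiableAt ℂ φ (z + w) := hφU _ (hK₃U (h13 (hball w hw)))
    exact (DifferentiableAt.comp w h6 h5).sub (DifferentiableAt.comp w (hhol (z + w)) h5)
  have hgint : IntegrableOn (fun w => ‖g w‖ ^ 2 * (1 : ℝ)) (ball 0 ϱ) := by
    have h5 : ContinuousOn (fun w => ‖g w‖ ^ 2 * (1 : ℝ)) (closedBall 0 ϱ) := by
      have h6 : ContinuousOn g (closedBall 0 ϱ) := fun w hw =>
        (hgd w hw).continuousAt.continuousWithinAt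
      exact (h6.norm.pow 2).mul continuousOn_const
    exact (h5.integrableOn_compact (isCompact_closedBall _ _)).mono_set ball_subset_closedBall
  have hmean := s_MeanRad n ϱ hϱ g (fun _ => 1)
    (fun w hw => (hgd w (ball_subset_closedBall hw)).differentiableWithinAt) continuous_const
    (fun _ => zero_le_one) (fun _ _ _ => rfl) hgint
  have hHz : Integrable (fun w => H (z + w)) := hint.comp_add_left z
  have hlow : ∫ w in ball (0 : Cn n) ϱ, ‖g w‖ ^ 2 * (1 : ℝ) ≤
      Real.exp (m / 2 + 2 * M) * ∫ w, H w := by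
    have h5 : ∫ w in ball (0 : Cn n) ϱ, ‖g w‖ ^ 2 * (1 : ℝ) ≤
        ∫ w in ball (0 : Cn n) ϱ, Real.exp (m / 2 + 2 * M) * H (z + w) := by
      refine setIntegral_mono_on hgint (hHz.integrableOn.const_mul _) measurableSet_ball
        fun w hw => ?_
      have hw1 : z + w ∈ K₁ := hball w (ball_subset_closedBall hw)
      have h6 : χ (z + w) = φ (z + w) := (hχφ _ (h12 hw1)).self_of_nhds
      have h7 : ψ (z + w) ≤ 1 / 2 := hψK _ hw1
      have h8 := hM' _ hw1
      have h9 : 1 ≤ Real.exp (m / 2 + 2 * M) *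
          Real.exp (-(m * ψ (z + w) + 2 * nsq (z + w))) := by
        rw [← Real.exp_add]
        apply Real.one_le_exp
        nlinarith
      have h10 : H (z + w) = ‖g w‖ ^ 2 * Real.exp (-(m * ψ (z + w) + 2 * nsq (z + w))) := by
        rw [hH, hg]
        simp only [h6, hψdef]
      rw [h10]
      have h11 : 0 ≤ ‖g w‖ ^ 2 := by positivity
      nlinarith [mul_le_mul_of_nonneg_left h9 h11]
    refine h5.trans ?_
    rw [integral_const_mul]
    refine mul_le_mul_of_nonneg_left ?_ (Real.exp_pos _).le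
    refine (setIntegral_le_integral hHz (Filter.Eventually.of_forall fun w => hH0 _)).trans ?_
    rw [integral_add_left_eq_self H z]
  have hg0 : g 0 = φ z - h z := by simp [hg]
  have hfin : ‖φ z - h z‖ ^ 2 ≤ ε ^ 2 := by
    have h5 : ‖φ z - h z‖ ^ 2 * v ≤ Real.exp (m / 2 + 2 * M) * (Real.exp (-(2 * m)) * C) := by
      rw [← hg0]
      exact (hmean.trans hlow).trans (mul_le_mul_of_nonneg_left hup (Real.exp_pos _).le)
    have h6 : Real.exp (m / 2 + 2 * M) * (Real.exp (-(2 * m)) * C) =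
        Real.exp (-(3 / 2 * m)) * (Real.exp (2 * M) * C) := by
      rw [← mul_assoc, ← mul_assoc, ← Real.exp_add, ← Real.exp_add]
      congr 2
      ring
    have h7 : Real.exp (-(3 / 2 * m)) ≤ Real.exp (-m) := by
      apply Real.exp_le_exp.mpr
      linarith
    have h8 : ‖φ z - h z‖ ^ 2 * v ≤ Real.exp (-m) * (Real.exp (2 * M) * C) := by
      rw [h6] at h5
      exact h5.trans (mul_le_mul_of_nonneg_right h7 (by positivity))
    have h9 : ‖φ z - h z‖ ^ 2 ≤ A * Real.exp (-m) := by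
      rw [hA, div_mul_eq_mul_div, le_div_iff₀ hv0]
      linarith
    exact h9.trans hm
  rw [norm_sub_rev]
  exact abs_le_of_sq_le_sq' hfin hε.le |>.2

end Pool.Agent.Lib.MP_c2a04f_an
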