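import Mathlib
import Pool.Agent.Lib.Osgood
import Pool.Agent.Lib.MP_c2a04f_an.SpecA

/-!
# MP_c2a04f_an: holomorphic vector fields as functions to `ℂᴺ`
-/

set_option autoImplicit false

open scoped Manifold ContDiff Topology
open Set Filter Metric

namespace Pool.Agent.Lib.MP_c2a04f_an

open Pool.Agent.Lib.MP_55bc5f_an

namespace SecIff

variable {V : Type} [NormedAddCommGroup V] [NormedSpace ℂ V] {X : CMan V}
variable {W : Type} [NormedAddCommGroup W] [NormedSpace ℂ W]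
variable {W' : Type} [NormedAddCommGroup W'] [NormedSpace ℂ W']

/-- the derivative of `p` at `x` in the direction `u` -/
noncomputable def dd (p : X → W) (x : X) (u : TangentSpace 𝓘(ℂ, V) x) : W :=
  mfderiv 𝓘(ℂ, V) 𝓘(ℂ, W) p x u

lemma push [FiniteDimensional ℂ W] [CompleteSpace W'] {p : X → W} {q : X → W'} {g : W → W'}
    {x₀ : X} {v : (x : X) → TangentSpace 𝓘(ℂ, V) x} (hq : q =ᶠ[𝓝 x₀] g ∘ p)
    (hp : ∀ᶠ x in 𝓝 x₀, MDifferentiableAt 𝓘(ℂ, V) 𝓘(ℂ, W) p x)
    (hg : ∀ᶠ w in 𝓝 (p x₀), DifferentiableAt ℂ g w)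
    (h : MDifferentiableAt 𝓘(ℂ, V) 𝓘(ℂ, W) (fun x => dd p x (v x)) x₀) :
    MDifferentiableAt 𝓘(ℂ, V) 𝓘(ℂ, W') (fun x => dd q x (v x)) x₀ := by
  have hpc : ContinuousAt p x₀ := hp.self_of_nhds.continuousAt
  have hg' : ∀ᶠ x in 𝓝 x₀, DifferentiableAt ℂ g (p x) := hpc.eventually hg
  have e : (fun x => dd q x (v x)) =ᶠ[𝓝 x₀] fun x => fderiv ℂ g (p x) (dd p x (v x)) := by
    filter_upwards [eventually_eventually_nhds.mpr hq, hp, hg'] with x h1 h2 h3
    show mfderiv 𝓘(ℂ, V) 𝓘(ℂ, W') q x (v x) = fderiv ℂ g (p x) (mfderiv 𝓘(ℂ, V) 𝓘(ℂ, W) p x (v x))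
    have h4 : q =ᶠ[𝓝 x] g ∘ p := h1
    rw [h4.mfderiv_eq, mfderiv_comp x h3.mdifferentiableAt h2, mfderiv_eq_fderiv]
    rfl
  obtain ⟨U, hUg, hUo, hU0⟩ := _root_.eventually_nhds_iff.mp hg
  have h1 : DifferentiableOn ℂ (fderiv ℂ g) U :=
    Osgood.differentiableOn_fderiv hUo fun w hw => (hUg w hw).differentiableWithinAt
  have h2 : DifferentiableAt ℂ (fderiv ℂ g) (p x₀) := h1.differentiableAt (hUo.mem_nhds hU0)
  have h3 : MDifferentiableAt 𝓘(ℂ, V) 𝓘(ℂ, W →L[ℂ] W') (fun x => fderiv ℂ g (p x)) x₀ :=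
    h2.mdifferentiableAt.comp x₀ hp.self_of_nhds
  exact (h3.clm_apply h).congr_of_eventuallyEq e

lemma sec_at (v : (x : X) → TangentSpace 𝓘(ℂ, V) x) (x₀ : X) :
    MDifferentiableAt 𝓘(ℂ, V) 𝓘(ℂ, V).tangent
      (fun x => (⟨x, v x⟩ : TangentBundle 𝓘(ℂ, V) X)) x₀ ↔
    MDifferentiableAt 𝓘(ℂ, V) 𝓘(ℂ, V) (fun x => dd (extChartAt 𝓘(ℂ, V) x₀) x (v x)) x₀ := by
  rw [mdifferentiableAt_section]
  have e : (fun x => (trivializationAt V (TangentSpace 𝓘(ℂ, V)) x₀
      (⟨x, v x⟩ : TangentBundle 𝓘(ℂ, V) X)).2) =ᶠ[𝓝 x₀]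
      fun x => dd (extChartAt 𝓘(ℂ, V) x₀) x (v x) := by
    filter_upwards [(chartAt V x₀).open_source.mem_nhds (mem_chart_source V x₀)] with x hx
    have h1 := TangentBundle.continuousLinearMapAt_trivializationAt (I := 𝓘(ℂ, V)) hx
    have hb : x ∈ (trivializationAt V (TangentSpace 𝓘(ℂ, V) : X → Type) x₀).baseSet := by
      rwa [TangentBundle.trivializationAt_baseSet]
    have h2 : (trivializationAt V (TangentSpace 𝓘(ℂ, V) : X → Type) x₀).continuousLinearMapAt ℂ x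
        (v x) = (trivializationAt V (TangentSpace 𝓘(ℂ, V)) x₀
          (⟨x, v x⟩ : TangentBundle 𝓘(ℂ, V) X)).2 := by
      rw [Bundle.Trivialization.continuousLinearMapAt_apply,
        Bundle.Trivialization.linearMapAt_apply, if_pos hb]
    exact h2.symm.trans (congrArg (fun L : V →L[ℂ] V => L (v x)) h1)
  exact ⟨fun h => h.congr_of_eventuallyEq e.symm, fun h => h.congr_of_eventuallyEq e⟩

end SecIff

open SecIff in
theorem s_SecIff (h : S_Rho) : S_SecIff := by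
  intro V _ _ _ X N ι hι v
  have hfc : FiniteDimensional ℂ (Cn N) := inferInstance
  have hcV : CompleteSpace V := FiniteDimensional.complete ℂ V
  have key : ∀ x₀ : X, MDifferentiableAt 𝓘(ℂ, V) 𝓘(ℂ, V).tangent
      (fun x => (⟨x, v x⟩ : TangentBundle 𝓘(ℂ, V) X)) x₀ ↔
      MDifferentiableAt 𝓘(ℂ, V) 𝓘(ℂ, Cn N) (fun x => dF ι x (v x)) x₀ := by
    intro x₀
    rw [sec_at]
    set e := extChartAt 𝓘(ℂ, V) x₀ with he
    have hes : e.source ∈ 𝓝 x₀ := extChartAt_source_mem_nhds x₀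
    have heo : IsOpen e.source := isOpen_extChartAt_source x₀
    have heto : IsOpen e.target := isOpen_extChartAt_target x₀
    have he1 : ∀ x ∈ e.source, MDifferentiableAt 𝓘(ℂ, V) 𝓘(ℂ, V) e x := fun x hx =>
      mdifferentiableAt_extChartAt (by rwa [he, extChartAt_source] at hx)
    constructor
    · intro h1
      refine push (p := e) (q := ι) (g := ι ∘ e.symm) ?_ ?_ ?_ h1
      · filter_upwards [hes] with x hx
        show ι x = ι (e.symm (e x))
        rw [e.left_inv hx]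
      · filter_upwards [hes] with x hx using he1 x hx
      · filter_upwards [heto.mem_nhds (e.map_source (mem_extChartAt_source x₀))] with w hw
        rw [← mdifferentiableAt_iff_differentiableAt]
        have h2 : MDifferentiableAt 𝓘(ℂ, V) 𝓘(ℂ, V) e.symm w := by
          have h3 := mdifferentiableWithinAt_extChartAt_symm (I := 𝓘(ℂ, V)) (x := x₀) hw
          exact h3.mdifferentiableAt (by simp)
        exact (hι.hol _).comp w h2
    · intro h1
      obtain ⟨r, ρ, hr, hρ, hρ0, hρ1⟩ := h V X N ι hι x₀ e.source hes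
      have hball : ∀ᶠ w in 𝓝 (ι x₀), w ∈ ball (ι x₀) r := ball_mem_nhds _ hr
      have hιc : ContinuousAt ι x₀ := (hι.hol x₀).continuousAt
      refine push (p := ι) (q := e) (g := e ∘ ρ) ?_ ?_ ?_ h1
      · filter_upwards [hιc.eventually hball] with x hx
        show e x = e (ρ (ι x))
        rw [hρ1 x (by rwa [mem_ball, dist_eq_norm] at hx)]
      · exact Eventually.of_forall fun x => hι.hol x
      · filter_upwards [hball] with w hw
        rw [← mdifferentiableAt_iff_differentiableAt]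
        exact (he1 _ (hρ w hw).2).comp w (hρ w hw).1
  exact ⟨fun h1 x => (key x).mp (h1 x), fun h1 x => (key x).mpr (h1 x)⟩

end Pool.Agent.Lib.MP_c2a04f_an
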