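import Mathlib
import Pool.Agent.Lib.MP_c2a04f_an.SpecA
import Pool.Agent.Lib.MP_c2a04f_an.SpecB

/-!
# MP_c2a04f_an: holomorphic functions which separate a point from a ball and a finite set
-/

set_option autoImplicit false

open scoped Manifold ContDiff Topology
open Set Filter Metric

namespace Pool.Agent.Lib.MP_c2a04f_an

open Pool.Agent.Lib.MP_55bc5f_an

namespace SepF

variable {V : Type} [NormedAddCommGroup V] [NormedSpace ℂ V] {X : CMan V} {N : ℕ}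

/-- a holomorphic function with value `1` at `u` and `0` on `T` -/
lemma exists_g {ι : X → Cn N} (hι : Emb X ι) (T : Finset X) (u : X) (hu : u ∉ T) :
    ∃ g : X → ℂ, MDifferentiable 𝓘(ℂ, V) 𝓘(ℂ, ℂ) g ∧ g u = 1 ∧ ∀ t ∈ T, g t = 0 := by
  classical
  have hne : ∀ t : X, ∃ G : X → ℂ, MDifferentiable 𝓘(ℂ, V) 𝓘(ℂ, ℂ) G ∧
      (t ∈ T → G u = 1 ∧ G t = 0) := by
    intro t
    by_cases ht : t ∈ T
    · have h1 : ι u ≠ ι t := fun h => hu (by rw [hι.closed.injective h]; exact ht)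
      obtain ⟨a, ha⟩ := Function.ne_iff.mp h1
      refine ⟨fun x => (ι x a - ι t a) * (ι u a - ι t a)⁻¹, ?_, fun _ => ⟨?_, ?_⟩⟩
      · have h2 : Differentiable ℂ (fun y : Cn N =>
          (y a - ι t a) * (ι u a - ι t a)⁻¹) := by fun_prop
        exact h2.mdifferentiable.comp hι.hol
      · exact mul_inv_cancel₀ (sub_ne_zero.mpr ha)
      · show (ι t a - ι t a) * (ι u a - ι t a)⁻¹ = 0
        rw [sub_self, zero_mul]
    · exact ⟨fun _ => 0, mdifferentiable_const, fun h => absurd h ht⟩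
  choose G hG hG1 using hne
  refine ⟨fun x => ∏ t ∈ T, G t x, ?_, ?_, ?_⟩
  · have h := MDifferentiable.prod (I := 𝓘(ℂ, V)) (t := T)
      (f := fun t (x : X) => G t x) (fun t _ => hG t)
    have e : (∏ t ∈ T, fun (x : X) => G t x) = fun x => ∏ t ∈ T, G t x := by
      funext x
      rw [Finset.prod_apply]
    rwa [e] at h
  · exact Finset.prod_eq_one fun t ht => (hG1 t ht).1
  · intro t ht
    exact Finset.prod_eq_zero ht (hG1 t ht).2

/-- a holomorphic function with value `1` at `u`, at most `θ < 1` on the ball -/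
lemma exists_f {ι : X → Cn N} (hι : Emb X ι) (ρ : ℝ) (u : X) (hu : ρ < ‖ι u‖) :
    ∃ (f : X → ℂ) (θ : ℝ), MDifferentiable 𝓘(ℂ, V) 𝓘(ℂ, ℂ) f ∧ f u = 1 ∧ 0 ≤ θ ∧ θ < 1 ∧
      ∀ x ∈ Bl ι ρ, ‖f x‖ ≤ θ := by
  by_cases hρ : 0 ≤ ρ
  · have hpos : 0 < ‖ι u‖ := lt_of_le_of_lt hρ hu
    have hk : ∃ k, ρ < ‖ι u k‖ := by
      by_contra hno
      push Not at hno
      exact absurd hu (not_lt.mpr ((pi_norm_le_iff_of_nonneg hρ).mpr hno))
    obtain ⟨k, hk⟩ := hk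
    have hk0 : 0 < ‖ι u k‖ := lt_of_le_of_lt hρ hk
    refine ⟨fun x => ι x k * (ι u k)⁻¹, ρ / ‖ι u k‖, ?_, ?_, by positivity, ?_, ?_⟩
    · have h2 : Differentiable ℂ (fun y : Cn N => y k * (ι u k)⁻¹) := by fun_prop
      exact h2.mdifferentiable.comp hι.hol
    · exact mul_inv_cancel₀ (norm_pos_iff.mp hk0)
    · rwa [div_lt_one hk0]
    · intro x hx
      show ‖ι x k * (ι u k)⁻¹‖ ≤ ρ / ‖ι u k‖
      rw [norm_mul, norm_inv, div_eq_mul_inv]
      exact mul_le_mul_of_nonneg_right ((norm_le_pi_norm _ k).trans hx) (by positivity)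
  · refine ⟨fun _ => 1, 0, mdifferentiable_const, rfl, le_rfl, one_pos, fun x hx => ?_⟩
    exact absurd ((norm_nonneg _).trans hx) hρ

end SepF

open SepF in
theorem s_SepF (h : S_NbF) : S_SepF := by
  intro V _ _ X N ι hι ρ T u hu huT
  obtain ⟨hB, -, hN, -⟩ := h V X N ι hι
  obtain ⟨g, hg, hgu, hgT⟩ := exists_g hι T u huT
  obtain ⟨f, θ, hf, hfu, hθ0, hθ1, hfB⟩ := exists_f hι ρ u hu
  obtain ⟨G, hG⟩ := (hB ρ).exists_bound_of_continuousOn hg.continuous.continuousOn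
  have hm : ∃ m : ℕ, θ ^ m * (|G| + 1) < 1 / 5 := by
    have h1 : Tendsto (fun m : ℕ => θ ^ m * (|G| + 1)) atTop (𝓝 (0 * (|G| + 1))) :=
      (tendsto_pow_atTop_nhds_zero_of_lt_one hθ0 hθ1).mul_const _
    rw [zero_mul] at h1
    exact (h1.eventually (gt_mem_nhds (by norm_num : (0 : ℝ) < 1 / 5))).exists
  obtain ⟨m, hm⟩ := hm
  have hh : MDifferentiable 𝓘(ℂ, V) 𝓘(ℂ, ℂ) (fun x => f x ^ m * g x) := by
    have h2 : MDifferentiable 𝓘(ℂ, V) 𝓘(ℂ, ℂ) (fun x => f x ^ m) :=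
      (Differentiable.mdifferentiable (f := fun w : ℂ => w ^ m) (by fun_prop)).comp hf
    exact h2.mul hg
  have hQc : IsCompact (Bl ι ρ ∪ (T : Set X)) := (hB ρ).union T.finite_toSet.isCompact
  have hO : IsOpen {x : X | ‖f x ^ m * g x‖ < 1 / 5} :=
    isOpen_lt hh.continuous.norm continuous_const
  have hsub : Bl ι ρ ∪ (T : Set X) ⊆ {x : X | ‖f x ^ m * g x‖ < 1 / 5} := by
    rintro x (hx | hx)
    · show ‖f x ^ m * g x‖ < 1 / 5
      rw [norm_mul, norm_pow]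
      refine lt_of_le_of_lt ?_ hm
      have h3 : ‖g x‖ ≤ |G| + 1 := (hG x hx).trans ((le_abs_self G).trans (by linarith))
      exact mul_le_mul (pow_le_pow_left₀ (norm_nonneg _) (hfB x hx) m) h3 (norm_nonneg _)
        (pow_nonneg hθ0 m)
    · show ‖f x ^ m * g x‖ < 1 / 5
      rw [hgT x hx, mul_zero, norm_zero]
      norm_num
  obtain ⟨δ, hδ, hδ1⟩ := hN _ _ hQc hO hsub
  refine ⟨fun x => f x ^ m * g x, hh, ?_, δ, hδ, fun x hx => (hδ1 hx).le⟩
  show f u ^ m * g u = 1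
  rw [hfu, hgu, one_pow, one_mul]

end Pool.Agent.Lib.MP_c2a04f_an
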