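import Pool.Agent.Lib.MP_c2a04f_an.SpecA
import Pool.Agent.Lib.MP_c2a04f_an.SpecB

/-!
# Euler's method with flows
-/

set_option autoImplicit false

open scoped Manifold ContDiff Topology
open Set Filter Metric

namespace Pool.Agent.Lib.MP_c2a04f_an

open Pool.Agent.Lib.MP_55bc5f_an

theorem shadow_pow {Λ : ℝ} (hΛ : 0 ≤ Λ) {p m : ℕ} (hp : 1 ≤ p) (hm : m ≤ p) :
    (1 + Λ / p) ^ m ≤ Real.exp Λ := by
  have hp0 : (0 : ℝ) < p := by exact_mod_cast hp
  have h0 : 0 ≤ Λ / p := by positivity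
  have h1 : (1 + Λ / p) ^ m ≤ (1 + Λ / p) ^ p := pow_le_pow_right₀ (by linarith) hm
  have h2 : 1 + Λ / p ≤ Real.exp (Λ / p) := by
    rw [add_comm]
    exact Real.add_one_le_exp _
  have h3 : (1 + Λ / p) ^ p ≤ Real.exp (Λ / p) ^ p := pow_le_pow_left₀ (by linarith) h2 p
  have h4 : Real.exp (Λ / p) ^ p = Real.exp Λ := by
    rw [← Real.exp_nat_mul]
    congr 1
    field_simp
  rw [h4] at h3
  exact h1.trans h3

theorem s_Shadow (h1 : S_Step) (h2 : S_NbF) : S_Shadow := by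
  intro V _ _ _ X N ι hι M Φ C hC R A η ε hA hη hε
  obtain ⟨-, hNb, -, -⟩ := h2 V X N ι hι
  obtain ⟨B, h₀, hB, hh₀, hstep⟩ := h1 V X N ι hι M Φ (Nb ι C η) (hNb C η hC) R A hA
  refine ⟨max ⌈1 / h₀⌉₊ ⌈B / ε⌉₊, fun p hp hp1 l hl y w Λ δ hΛ hδ hyC hw hy hexp => ?_⟩
  have hp0 : (0 : ℝ) < p := by exact_mod_cast hp1
  have hph : 1 / (p : ℝ) ≤ h₀ := by
    have h3 : 1 / h₀ ≤ p := (Nat.le_ceil _).trans (by exact_mod_cast (le_max_left _ _).trans hp)
    rw [div_le_iff₀ hh₀] at h3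
    rw [div_le_iff₀ hp0]
    linarith
  have hpB : B / p ≤ ε := by
    have h3 : B / ε ≤ p := (Nat.le_ceil _).trans (by exact_mod_cast (le_max_right _ _).trans hp)
    rw [div_le_iff₀ hε] at h3
    rw [div_le_iff₀ hp0]
    linarith
  have hT : 0 ≤ 2 * δ + ε := by positivity
  have hp0' : (p : ℂ) ≠ 0 := by
    exact_mod_cast hp0.ne'
  have hnp : ‖(1 / p : ℂ)‖ = 1 / p := by
    rw [norm_div, norm_one, Complex.norm_natCast]
  -- the bound of the claim is at most `η`
  have hbound : ∀ m ≤ p, (m / p : ℝ) * (2 * δ + ε) * (1 + Λ / p) ^ m ≤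
      Real.exp Λ * (2 * δ + ε) := by
    intro m hm
    have h3 : (m / p : ℝ) ≤ 1 := by
      rw [div_le_one hp0]
      exact_mod_cast hm
    have h4 := shadow_pow hΛ hp1 hm
    have h5 : 0 ≤ (m / p : ℝ) := by positivity
    have h6 : (m / p : ℝ) * (2 * δ + ε) ≤ 2 * δ + ε := by nlinarith
    have h7 : 0 ≤ (1 + Λ / p) ^ m := by positivity
    calc (m / p : ℝ) * (2 * δ + ε) * (1 + Λ / p) ^ m ≤ (2 * δ + ε) * (1 + Λ / p) ^ m :=
          mul_le_mul_of_nonneg_right h6 h7
      _ ≤ (2 * δ + ε) * Real.exp Λ := mul_le_mul_of_nonneg_left h4 hT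
      _ = Real.exp Λ * (2 * δ + ε) := mul_comm _ _
  have key : ∀ m ≤ p, ‖ι (gosE Φ l m (y 0)) - ι (y m)‖ ≤
      (m / p : ℝ) * (2 * δ + ε) * (1 + Λ / p) ^ m := by
    intro m
    induction m with
    | zero =>
      intro _
      simp [gosE]
    | succ m ih =>
      intro hm
      have hm' : m < p := hm
      have ihm := ih hm'.le
      set x : X := gosE Φ l m (y 0) with hx
      have hxη : ‖ι x - ι (y m)‖ ≤ η := ihm.trans ((hbound m hm'.le).trans hexp)
      have hxC : x ∈ Nb ι C η := ⟨y m, hyC m hm'.le, hxη⟩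
      obtain ⟨hlip, hgen⟩ := hw m hm' x hxη
      have e1 : gosE Φ l (m + 1) (y 0) = goE Φ (l m) x := rfl
      have h3 := hstep (1 / p) (by positivity) hph (l m) (hl m hm').1
        (fun q hq => by
          have := (hl m hm').2 q hq
          rw [mul_one_div]
          exact this) x hxC
      have h4 : ‖gen Φ ι (l m) x - (1 / p : ℂ) • w m x‖ ≤ δ / p := by
        have e2 : gen Φ ι (l m) x - (1 / p : ℂ) • w m x =
            (1 / p : ℂ) • ((p : ℂ) • gen Φ ι (l m) x - w m x) := by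
          rw [smul_sub, smul_smul, one_div, inv_mul_cancel₀ hp0', one_smul]
        rw [e2, norm_smul, hnp, one_div, ← div_eq_inv_mul]
        exact div_le_div_of_nonneg_right hgen hp0.le
      have h5 : ‖(1 / p : ℂ) • (w m x - w m (y m))‖ ≤ Λ / p * ‖ι x - ι (y m)‖ := by
        rw [norm_smul, hnp]
        calc 1 / (p : ℝ) * ‖w m x - w m (y m)‖ ≤ 1 / (p : ℝ) * (Λ * ‖ι x - ι (y m)‖) :=
              mul_le_mul_of_nonneg_left hlip (by positivity)
          _ = Λ / p * ‖ι x - ι (y m)‖ := by ring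
      have h6 := hy m hm'
      have e3 : ι (gosE Φ l (m + 1) (y 0)) - ι (y (m + 1)) =
          (ι (goE Φ (l m) x) - ι x - gen Φ ι (l m) x) +
          (gen Φ ι (l m) x - (1 / p : ℂ) • w m x) +
          ((1 / p : ℂ) • (w m x - w m (y m))) + (ι x - ι (y m)) -
          (ι (y (m + 1)) - ι (y m) - (1 / p : ℂ) • w m (y m)) := by
        rw [e1, smul_sub]
        abel
      have h7 : ‖ι (gosE Φ l (m + 1) (y 0)) - ι (y (m + 1))‖ ≤
          B * (1 / p) ^ 2 + δ / p + Λ / p * ‖ι x - ι (y m)‖ + ‖ι x - ι (y m)‖ + δ / p := by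
        rw [e3]
        refine (norm_sub_le _ _).trans (add_le_add ?_ h6)
        refine (norm_add_le _ _).trans (add_le_add ?_ le_rfl)
        refine (norm_add_le _ _).trans (add_le_add ?_ h5)
        exact (norm_add_le _ _).trans (add_le_add h3 h4)
      have h8 : B * (1 / p : ℝ) ^ 2 ≤ ε / p := by
        have : B * (1 / p : ℝ) ^ 2 = B / p / p := by
          field_simp
        rw [this]
        exact div_le_div_of_nonneg_right hpB hp0.le
      have hΛp : 0 ≤ Λ / p := by positivity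
      have h9 : (1 : ℝ) ≤ (1 + Λ / p) ^ (m + 1) := one_le_pow₀ (by linarith)
      have h10 : (1 + Λ / p) * ‖ι x - ι (y m)‖ ≤
          (1 + Λ / p) * ((m / p : ℝ) * (2 * δ + ε) * (1 + Λ / p) ^ m) :=
        mul_le_mul_of_nonneg_left ihm (by linarith)
      have h11 : (2 * δ + ε) / p ≤ (2 * δ + ε) / p * (1 + Λ / p) ^ (m + 1) :=
        le_mul_of_one_le_right (by positivity) h9
      have e4 : (((m + 1 : ℕ) : ℝ) / p) * (2 * δ + ε) * (1 + Λ / p) ^ (m + 1) =
          (1 + Λ / p) * ((m / p : ℝ) * (2 * δ + ε) * (1 + Λ / p) ^ m) +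
          (2 * δ + ε) / p * (1 + Λ / p) ^ (m + 1) := by
        push_cast
        ring
      rw [e4]
      refine h7.trans ?_
      have e5 : (2 * δ + ε) / p = δ / p + δ / p + ε / p := by ring
      have h12 : δ / p + δ / p + ε / p ≤ (2 * δ + ε) / p * (1 + Λ / p) ^ (m + 1) := by
        rw [← e5]
        exact h11
      linarith
  exact (key p le_rfl).trans (hbound p le_rfl)

end Pool.Agent.Lib.MP_c2a04f_an
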