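import Mathlib
import Pool.Agent.Lib.MP_c2a04f_an.SpecA

/-!
# MP_c2a04f_an: the Lie algebra generated by the complete fields
-/

set_option autoImplicit false

open scoped Manifold ContDiff Topology
open Set Filter Metric

namespace Pool.Agent.Lib.MP_c2a04f_an

open Pool.Agent.Lib.MP_55bc5f_an

namespace SpanAux

variable {V : Type} [NormedAddCommGroup V] [NormedSpace ℂ V] {X : CMan V} {N N' : ℕ}

/-! ### the derivative `dF` -/

lemma dF_add_right (b : X → Cn N) (x : X) (u u' : TangentSpace 𝓘(ℂ, V) x) :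
    dF b x (u + u') = dF b x u + dF b x u' := by
  unfold dF
  exact map_add _ _ _

lemma dF_sub_right (b : X → Cn N) (x : X) (u u' : TangentSpace 𝓘(ℂ, V) x) :
    dF b x (u - u') = dF b x u - dF b x u' := by
  unfold dF
  exact map_sub _ _ _

lemma dF_smul_right (b : X → Cn N) (x : X) (c : ℂ) (u : TangentSpace 𝓘(ℂ, V) x) :
    dF b x (c • u) = c • dF b x u := by
  unfold dF
  exact map_smul _ _ _

lemma dF_sum_right {J : Type} (s : Finset J) (b : X → Cn N) (x : X)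
    (u : J → TangentSpace 𝓘(ℂ, V) x) : dF b x (∑ j ∈ s, u j) = ∑ j ∈ s, dF b x (u j) := by
  unfold dF
  exact map_sum _ _ _

lemma dF_sub_left {b b' : X → Cn N} (hb : MDifferentiable 𝓘(ℂ, V) 𝓘(ℂ, Cn N) b)
    (hb' : MDifferentiable 𝓘(ℂ, V) 𝓘(ℂ, Cn N) b') (x : X) (u : TangentSpace 𝓘(ℂ, V) x) :
    dF (fun y => b y - b' y) x u = dF b x u - dF b' x u := by
  unfold dF
  have h := mfderiv_sub (hb x) (hb' x)
  have h2 : (fun y => b y - b' y) = b - b' := rfl
  rw [h2, h]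
  rfl

lemma dF_add_left {b b' : X → Cn N} (hb : MDifferentiable 𝓘(ℂ, V) 𝓘(ℂ, Cn N) b)
    (hb' : MDifferentiable 𝓘(ℂ, V) 𝓘(ℂ, Cn N) b') (x : X) (u : TangentSpace 𝓘(ℂ, V) x) :
    dF (fun y => b y + b' y) x u = dF b x u + dF b' x u := by
  unfold dF
  have h := mfderiv_add (hb x) (hb' x)
  have h2 : (fun y => b y + b' y) = b + b' := rfl
  rw [h2, h]
  rfl

lemma mdiff_sum {J : Type} (s : Finset J) {b : J → X → Cn N}
    (hb : ∀ j, MDifferentiable 𝓘(ℂ, V) 𝓘(ℂ, Cn N) (b j)) :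
    MDifferentiable 𝓘(ℂ, V) 𝓘(ℂ, Cn N) (fun y => ∑ j ∈ s, b j y) := by
  classical
  induction s using Finset.induction_on with
  | empty =>
    simp only [Finset.sum_empty]
    exact mdifferentiable_const
  | insert a s ha ih =>
    simp only [Finset.sum_insert ha]
    exact (hb a).add ih

lemma dF_sum_left {J : Type} (s : Finset J) {b : J → X → Cn N}
    (hb : ∀ j, MDifferentiable 𝓘(ℂ, V) 𝓘(ℂ, Cn N) (b j)) (x : X)
    (u : TangentSpace 𝓘(ℂ, V) x) :
    dF (fun y => ∑ j ∈ s, b j y) x u = ∑ j ∈ s, dF (b j) x u := by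
  classical
  induction s using Finset.induction_on with
  | empty =>
    simp only [Finset.sum_empty]
    unfold dF
    rw [mfderiv_const]
    rfl
  | insert a s ha ih =>
    simp only [Finset.sum_insert ha]
    rw [dF_add_left (hb a) (mdiff_sum s hb), ih]

/-- the derivative of a holomorphic map along a flow -/
lemma hasDeriv_flow (φ : Flow X) {v : (x : X) → TangentSpace 𝓘(ℂ, V) x}
    (hv : ∀ (x : X) (t : ℂ), HasMFDerivAt 𝓘(ℂ, ℂ) 𝓘(ℂ, V) (fun s => φ.φ s x) t
      ((1 : ℂ →L[ℂ] ℂ).smulRight (v (φ.φ t x))))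
    {b : X → Cn N'} (hb : MDifferentiable 𝓘(ℂ, V) 𝓘(ℂ, Cn N') b) (x : X) (t : ℂ) :
    HasDerivAt (fun t : ℂ => b (φ.φ t x)) (dF b (φ.φ t x) (v (φ.φ t x))) t := by
  have h1 := (hb (φ.φ t x)).hasMFDerivAt.comp t (hv x t)
  have h2 : HasFDerivAt (𝕜 := ℂ) (E := ℂ) (F := Cn N') (fun t : ℂ => b (φ.φ t x)) _ t :=
    h1.hasFDerivAt
  rw [hasDerivAt_iff_hasFDerivAt]
  refine h2.congr_fderiv ?_
  ext1
  show (mfderiv 𝓘(ℂ, V) 𝓘(ℂ, Cn N') b (φ.φ t x)) ((1 : ℂ) • (v (φ.φ t x))) =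
    (1 : ℂ) • (mfderiv 𝓘(ℂ, V) 𝓘(ℂ, Cn N') b (φ.φ t x)) (v (φ.φ t x))
  rw [map_smul]

lemma deriv_flow (φ : Flow X) {v : (x : X) → TangentSpace 𝓘(ℂ, V) x}
    (hv : ∀ (x : X) (t : ℂ), HasMFDerivAt 𝓘(ℂ, ℂ) 𝓘(ℂ, V) (fun s => φ.φ s x) t
      ((1 : ℂ →L[ℂ] ℂ).smulRight (v (φ.φ t x))))
    {b : X → Cn N'} (hb : MDifferentiable 𝓘(ℂ, V) 𝓘(ℂ, Cn N') b) (x : X) :
    deriv (fun t : ℂ => b (φ.φ t x)) 0 = dF b x (v x) := by
  rw [(hasDeriv_flow φ hv hb x 0).deriv]
  exact congrArg (fun y => dF b y (v y)) (φ.zero x)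

/-! ### approximation by sums of complete fields -/

/-- `b` is a uniform limit on `K` of sums of complete fields. -/
def App (ι : X → Cn N) (K : Set X) (b : X → Cn N) : Prop :=
  ∀ ε > (0 : ℝ), ∃ (M : ℕ) (Φ : Fin M → Flow X), ∀ x ∈ K, ‖b x - ∑ k, (Φ k).vel ι x‖ < ε

lemma App.zero (ι : X → Cn N) (K : Set X) : App ι K (fun _ => 0) := by
  intro ε hε
  refine ⟨0, fun k => Fin.elim0 k, fun x _ => ?_⟩
  simpa using hε

lemma App.add {ι : X → Cn N} {K : Set X} {b b' : X → Cn N} (h : App ι K b) (h' : App ι K b') :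
    App ι K (fun x => b x + b' x) := by
  intro ε hε
  obtain ⟨M, Φ, h1⟩ := h (ε / 2) (half_pos hε)
  obtain ⟨M', Φ', h2⟩ := h' (ε / 2) (half_pos hε)
  refine ⟨M + M', Fin.append Φ Φ', fun x hx => ?_⟩
  rw [Fin.sum_univ_add]
  simp only [Fin.append_left, Fin.append_right]
  have e1 : b x + b' x - (∑ k, (Φ k).vel ι x + ∑ k, (Φ' k).vel ι x) =
      (b x - ∑ k, (Φ k).vel ι x) + (b' x - ∑ k, (Φ' k).vel ι x) := by abel
  rw [e1]
  calc ‖(b x - ∑ k, (Φ k).vel ι x) + (b' x - ∑ k, (Φ' k).vel ι x)‖ ≤ _ := norm_add_le _ _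
    _ < ε / 2 + ε / 2 := add_lt_add (h1 x hx) (h2 x hx)
    _ = ε := by ring

lemma App.sum {J : Type} (s : Finset J) {ι : X → Cn N} {K : Set X} {b : J → X → Cn N}
    (h : ∀ j, App ι K (b j)) : App ι K (fun x => ∑ j ∈ s, b j x) := by
  classical
  induction s using Finset.induction_on with
  | empty => simpa only [Finset.sum_empty] using App.zero ι K
  | insert a s ha ih =>
    simp only [Finset.sum_insert ha]
    exact (h a).add ih

lemma vel_scale (c : ℂ) (φ : Flow X) (ι : X → Cn N) (x : X) :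
    (φ.scale c).vel ι x = c • φ.vel ι x := by
  unfold Flow.vel Flow.scale
  have h := deriv_comp_mul_left c (fun t : ℂ => ι (φ.φ t x)) 0
  rw [mul_zero] at h
  exact h

lemma App.smul {ι : X → Cn N} {K : Set X} {b : X → Cn N} (c : ℂ) (h : App ι K b) :
    App ι K (fun x => c • b x) := by
  intro ε hε
  have hc : 0 < ‖c‖ + 1 := by positivity
  obtain ⟨M, Φ, h1⟩ := h (ε / (‖c‖ + 1)) (by positivity)
  refine ⟨M, fun k => (Φ k).scale c, fun x hx => ?_⟩
  simp only [vel_scale]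
  rw [← Finset.smul_sum, ← smul_sub, norm_smul]
  have h2 := h1 x hx
  calc ‖c‖ * ‖b x - ∑ k, (Φ k).vel ι x‖ ≤ (‖c‖ + 1) * ‖b x - ∑ k, (Φ k).vel ι x‖ := by
        apply mul_le_mul_of_nonneg_right _ (norm_nonneg _); linarith
    _ < (‖c‖ + 1) * (ε / (‖c‖ + 1)) := mul_lt_mul_of_pos_left h2 hc
    _ = ε := by field_simp

lemma App.of_near {ι : X → Cn N} {K : Set X} {b : X → Cn N}
    (h : ∀ ε > (0 : ℝ), ∃ b' : X → Cn N, App ι K b' ∧ ∀ x ∈ K, ‖b x - b' x‖ ≤ ε) :
    App ι K b := by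
  intro ε hε
  obtain ⟨b', h1, h2⟩ := h (ε / 2) (half_pos hε)
  obtain ⟨M, Φ, h3⟩ := h1 (ε / 2) (half_pos hε)
  refine ⟨M, Φ, fun x hx => ?_⟩
  have e1 : b x - ∑ k, (Φ k).vel ι x = (b x - b' x) + (b' x - ∑ k, (Φ k).vel ι x) := by abel
  rw [e1]
  calc ‖(b x - b' x) + (b' x - ∑ k, (Φ k).vel ι x)‖ ≤ _ := norm_add_le _ _
    _ < ε / 2 + ε / 2 := add_lt_add_of_le_of_lt (h2 x hx) (h3 x hx)
    _ = ε := by ring

/-! ### the graph embedding -/

/-- first component -/
noncomputable def pr1 (N : ℕ) : Cn (N + N) →L[ℂ] Cn N :=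
  ContinuousLinearMap.pi fun i => ContinuousLinearMap.proj (Fin.castAdd N i)

/-- second component -/
noncomputable def pr2 (N : ℕ) : Cn (N + N) →L[ℂ] Cn N :=
  ContinuousLinearMap.pi fun i => ContinuousLinearMap.proj (Fin.natAdd N i)

/-- the pair -/
noncomputable def pairC (ι b : X → Cn N) (x : X) : Cn (N + N) := Fin.append (ι x) (b x)

lemma pr1_pair (ι b : X → Cn N) (x : X) : pr1 N (pairC ι b x) = ι x := by
  funext i
  simp [pr1, pairC]

lemma pr2_pair (ι b : X → Cn N) (x : X) : pr2 N (pairC ι b x) = b x := by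
  funext i
  show Fin.append (ι x) (b x) (Fin.natAdd N i) = b x i
  exact Fin.append_right _ _ _

lemma mdiff_pair {ι b : X → Cn N} (hι : MDifferentiable 𝓘(ℂ, V) 𝓘(ℂ, Cn N) ι)
    (hb : MDifferentiable 𝓘(ℂ, V) 𝓘(ℂ, Cn N) b) :
    MDifferentiable 𝓘(ℂ, V) 𝓘(ℂ, Cn (N + N)) (pairC ι b) := by
  have h1 : ∃ L : (Cn N × Cn N) →L[ℂ] Cn (N + N), ∀ p, L p = Fin.append p.1 p.2 := by
    refine ⟨LinearMap.toContinuousLinearMap
      { toFun := fun p => Fin.append p.1 p.2
        map_add' := ?_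
        map_smul' := ?_ }, fun p => rfl⟩
    · intro p q
      funext i
      refine Fin.addCases (fun j => ?_) (fun j => ?_) i
      · simp
      · show Fin.append (p.1 + q.1) (p.2 + q.2) (Fin.natAdd N j) =
          Fin.append p.1 p.2 (Fin.natAdd N j) + Fin.append q.1 q.2 (Fin.natAdd N j)
        rw [Fin.append_right, Fin.append_right, Fin.append_right]
        rfl
    · intro c p
      funext i
      refine Fin.addCases (fun j => ?_) (fun j => ?_) i
      · simp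
      · show Fin.append (c • p.1) (c • p.2) (Fin.natAdd N j) =
          c • Fin.append p.1 p.2 (Fin.natAdd N j)
        rw [Fin.append_right, Fin.append_right]
        rfl
  obtain ⟨L, hL⟩ := h1
  have h2 : pairC ι b = (L ∘ fun x => (ι x, b x)) := by
    funext x
    simp only [Function.comp, hL]
    rfl
  rw [h2]
  have h3 : MDifferentiable 𝓘(ℂ, Cn N × Cn N) 𝓘(ℂ, Cn (N + N)) L :=
    L.differentiable.mdifferentiable
  exact h3.comp (hι.prodMk_space hb)

lemma dF_clm {N₁ N₂ : ℕ} (L : Cn N₁ →L[ℂ] Cn N₂) {b : X → Cn N₁}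
    (hb : MDifferentiable 𝓘(ℂ, V) 𝓘(ℂ, Cn N₁) b) (x : X) (u : TangentSpace 𝓘(ℂ, V) x) :
    dF (fun y => L (b y)) x u = L (dF b x u) := by
  unfold dF
  have h1 := (L.hasMFDerivAt (x := b x)).comp x (hb x).hasMFDerivAt
  have h2 := h1.mfderiv
  have h3 : (fun y => L (b y)) = L ∘ b := rfl
  rw [h3, h2]
  rfl

lemma emb_pair {ι b : X → Cn N} (hι : Emb X ι) (hb : MDifferentiable 𝓘(ℂ, V) 𝓘(ℂ, Cn N) b) :
    Emb X (pairC ι b) := by
  have hp := mdiff_pair hι.hol hb
  refine ⟨hp, ?_, ?_⟩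
  · intro x u u' huu
    apply hι.inj x
    have h1 := dF_clm (pr1 N) hp x u
    have h2 := dF_clm (pr1 N) hp x u'
    have h3 : (fun y => pr1 N (pairC ι b y)) = ι := by
      funext y; exact pr1_pair ι b y
    rw [h3] at h1 h2
    have h4 : dF (pairC ι b) x u = dF (pairC ι b) x u' := huu
    rw [h4] at h1
    exact h1.trans h2.symm
  · have h3 : (pr1 N) ∘ (pairC ι b) = ι := by
      funext y; exact pr1_pair ι b y
    have h4 : IsProperMap ((pr1 N) ∘ (pairC ι b)) := by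
      rw [h3]; exact hι.closed.isProperMap
    have h5 : IsProperMap (pairC ι b) :=
      isProperMap_of_comp_of_t2 hp.continuous (pr1 N).continuous h4
    refine Topology.IsClosedEmbedding.of_continuous_injective_isClosedMap hp.continuous ?_
      h5.isClosedMap
    intro x y hxy
    apply hι.closed.injective
    rw [← pr1_pair ι b x, ← pr1_pair ι b y, hxy]

/-- derivatives of holomorphic functions along holomorphic fields are holomorphic -/
lemma mdiff_dF [FiniteDimensional ℂ V] (h5 : S_SecIff) {ι b : X → Cn N} (hι : Emb X ι)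
    (hb : MDifferentiable 𝓘(ℂ, V) 𝓘(ℂ, Cn N) b) {v : (x : X) → TangentSpace 𝓘(ℂ, V) x}
    (hv : IsHolField X v) : MDifferentiable 𝓘(ℂ, V) 𝓘(ℂ, Cn N) (fun x => dF b x (v x)) := by
  have h1 := (h5 V X (N + N) (pairC ι b) (emb_pair hι hb) v).1 hv
  have h2 : (fun x => dF b x (v x)) = fun x => pr2 N (dF (pairC ι b) x (v x)) := by
    funext x
    rw [← dF_clm (pr2 N) (mdiff_pair hι.hol hb) x (v x)]
    have h3 : (fun y => pr2 N (pairC ι b y)) = b := by
      funext y; exact pr2_pair ι b y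
    rw [h3]
  rw [h2]
  exact ((pr2 N).differentiable.mdifferentiable).comp h1

/-- the bracket step of the approximation -/
lemma app_bracket [FiniteDimensional ℂ V] (h2 : S_BrFlow) (h3 : S_Cauchy) (h4 : S_Vel)
    (h6 : S_NbF) {ι : X → Cn N} (hι : Emb X ι) {v w : (x : X) → TangentSpace 𝓘(ℂ, V) x}
    (hv : MDifferentiable 𝓘(ℂ, V) 𝓘(ℂ, Cn N) (fun x => dF ι x (v x)))
    (hw : MDifferentiable 𝓘(ℂ, V) 𝓘(ℂ, Cn N) (fun x => dF ι x (w x)))
    (av : ∀ K : Set X, IsCompact K → App ι K (fun x => dF ι x (v x)))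
    (aw : ∀ K : Set X, IsCompact K → App ι K (fun x => dF ι x (w x)))
    (K : Set X) (hK : IsCompact K) :
    App ι K (fun x => dF (fun y => dF ι y (w y)) x (v x) - dF (fun y => dF ι y (v y)) x (w x)) := by
  obtain ⟨-, hN2, -, hN4⟩ := h6 V X N ι hι
  have hK' : IsCompact (Nb ι K 1) := hN2 K 1 hK
  have hKK : K ⊆ interior (Nb ι K 1) := hN4 K 1 one_pos
  obtain ⟨C, hC0, hC⟩ := h3 V X N ι hι K (Nb ι K 1) hK hKK
  obtain ⟨B1, hB1⟩ := hK'.exists_bound_of_continuousOn hv.continuous.continuousOn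
  obtain ⟨B2, hB2⟩ := hK'.exists_bound_of_continuousOn hw.continuous.continuousOn
  set B := max (max B1 B2) 0 with hB
  have hB0 : 0 ≤ B := le_max_right _ _
  have hv1 : ∀ x ∈ Nb ι K 1, ‖dF ι x (v x)‖ ≤ B := fun x hx =>
    (hB1 x hx).trans ((le_max_left _ _).trans (le_max_left _ _))
  have hw1 : ∀ x ∈ Nb ι K 1, ‖dF ι x (w x)‖ ≤ B := fun x hx =>
    (hB2 x hx).trans ((le_max_right _ _).trans (le_max_left _ _))
  apply App.of_near
  intro ε hε
  -- the choice of delta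
  set δ := min 1 (ε / (4 * (C + 1) * (B + 1))) with hδ
  have hδ0 : 0 < δ := lt_min one_pos (by positivity)
  have hδ1 : δ ≤ 1 := min_le_left _ _
  have hδ2 : 4 * (C + 1) * (B + 1) * δ ≤ ε := by
    have : δ ≤ ε / (4 * (C + 1) * (B + 1)) := min_le_right _ _
    rw [le_div_iff₀ (by positivity)] at this
    linarith
  obtain ⟨M, Φ, hΦ⟩ := av (Nb ι K 1) hK' δ hδ0
  obtain ⟨M', Ψ, hΨ⟩ := aw (Nb ι K 1) hK' δ hδ0
  choose vf hvf using fun i : Fin M => h4 V X (Φ i)
  choose wf hwf using fun j : Fin M' => h4 V X (Ψ j)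
  have hvT : ∀ i, (∀ x, dF ι x (vf i x) = (Φ i).vel ι x) ∧ Tan X ι ((Φ i).vel ι) := fun i =>
    (hvf i).2 N ι hι.hol
  have hwT : ∀ j, (∀ x, dF ι x (wf j x) = (Ψ j).vel ι x) ∧ Tan X ι ((Ψ j).vel ι) := fun j =>
    (hwf j).2 N ι hι.hol
  -- the approximations
  set v' : X → Cn N := fun x => ∑ i, (Φ i).vel ι x with hv'
  set w' : X → Cn N := fun x => ∑ j, (Ψ j).vel ι x with hw'
  have hv'm : MDifferentiable 𝓘(ℂ, V) 𝓘(ℂ, Cn N) v' := mdiff_sum _ fun i => (hvT i).2.hol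
  have hw'm : MDifferentiable 𝓘(ℂ, V) 𝓘(ℂ, Cn N) w' := mdiff_sum _ fun j => (hwT j).2.hol
  set VF : (x : X) → TangentSpace 𝓘(ℂ, V) x := fun x => ∑ i, vf i x with hVF
  set WF : (x : X) → TangentSpace 𝓘(ℂ, V) x := fun x => ∑ j, wf j x with hWF
  have hVF1 : ∀ x, dF ι x (VF x) = v' x := fun x => by
    rw [hVF, dF_sum_right]
    exact Finset.sum_congr rfl fun i _ => (hvT i).1 x
  have hWF1 : ∀ x, dF ι x (WF x) = w' x := fun x => by
    rw [hWF, dF_sum_right]
    exact Finset.sum_congr rfl fun j _ => (hwT j).1 x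
  refine ⟨fun x => dF w' x (VF x) - dF v' x (WF x), ?_, ?_⟩
  · -- a double sum
    have e1 : (fun x => dF w' x (VF x) - dF v' x (WF x)) = fun x =>
        ∑ i : Fin M, ∑ j : Fin M', (deriv (fun b : ℂ => (Ψ j).vel ι ((Φ i).φ b x)) 0 -
          deriv (fun t : ℂ => (Φ i).vel ι ((Ψ j).φ t x)) 0) := by
      funext x
      have e2 : dF w' x (VF x) = ∑ i : Fin M, ∑ j : Fin M',
          deriv (fun b : ℂ => (Ψ j).vel ι ((Φ i).φ b x)) 0 := by
        rw [hVF, dF_sum_right]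
        refine Finset.sum_congr rfl fun i _ => ?_
        rw [hw', dF_sum_left _ fun j => (hwT j).2.hol]
        refine Finset.sum_congr rfl fun j _ => ?_
        exact (deriv_flow (Φ i) (hvf i).1 (hwT j).2.hol x).symm
      have e3 : dF v' x (WF x) = ∑ i : Fin M, ∑ j : Fin M',
          deriv (fun t : ℂ => (Φ i).vel ι ((Ψ j).φ t x)) 0 := by
        rw [Finset.sum_comm, hWF, dF_sum_right]
        refine Finset.sum_congr rfl fun j _ => ?_
        rw [hv', dF_sum_left _ fun i => (hvT i).2.hol]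
        refine Finset.sum_congr rfl fun i _ => ?_
        exact (deriv_flow (Ψ j) (hwf j).1 (hvT i).2.hol x).symm
      rw [e2, e3, ← Finset.sum_sub_distrib]
      refine Finset.sum_congr rfl fun i _ => ?_
      rw [← Finset.sum_sub_distrib]
    rw [e1]
    apply App.sum
    intro i
    apply App.sum
    intro j
    intro ε' hε'
    exact h2 V X N ι hι (Φ i) (Ψ j) K hK ε' hε'
  · -- the estimate
    have key : ∀ (a b : (x : X) → TangentSpace 𝓘(ℂ, V) x) (b' a' : X → Cn N)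
        (AF : (x : X) → TangentSpace 𝓘(ℂ, V) x),
        MDifferentiable 𝓘(ℂ, V) 𝓘(ℂ, Cn N) (fun x => dF ι x (b x)) →
        MDifferentiable 𝓘(ℂ, V) 𝓘(ℂ, Cn N) b' →
        (∀ x ∈ Nb ι K 1, ‖dF ι x (a x)‖ ≤ B) → (∀ x ∈ Nb ι K 1, ‖dF ι x (b x)‖ ≤ B) →
        (∀ x ∈ Nb ι K 1, ‖dF ι x (a x) - a' x‖ ≤ δ) →
        (∀ x ∈ Nb ι K 1, ‖dF ι x (b x) - b' x‖ ≤ δ) →
        (∀ x, dF ι x (AF x) = a' x) → ∀ x ∈ K,
        ‖dF (fun y => dF ι y (b y)) x (a x) - dF b' x (AF x)‖ ≤ 2 * (C + 1) * (B + 1) * δ := by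
      intro a b b' a' AF hb hb' ha1 hb1 haa hbb hAF x hx
      have hxK : x ∈ Nb ι K 1 := interior_subset (hKK hx)
      have e1 : dF (fun y => dF ι y (b y)) x (a x) - dF b' x (AF x) =
          dF (fun y => dF ι y (b y) - b' y) x (a x) + dF b' x (a x - AF x) := by
        rw [dF_sub_left hb hb', dF_sub_right]
        abel
      have t1 : ‖dF (fun y => dF ι y (b y) - b' y) x (a x)‖ ≤ C * δ * B := by
        refine (hC N _ δ (hb.sub hb') hδ0.le hbb x hx (a x)).trans ?_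
        exact mul_le_mul_of_nonneg_left (ha1 x hxK) (by positivity)
      have t2 : ‖dF b' x (a x - AF x)‖ ≤ C * (B + 1) * δ := by
        have hb'b : ∀ y ∈ Nb ι K 1, ‖b' y‖ ≤ B + 1 := by
          intro y hy
          have e2 : b' y = dF ι y (b y) - (dF ι y (b y) - b' y) := by abel
          rw [e2]
          calc ‖dF ι y (b y) - (dF ι y (b y) - b' y)‖ ≤ ‖dF ι y (b y)‖ + ‖dF ι y (b y) - b' y‖ :=
                norm_sub_le _ _
            _ ≤ B + 1 := add_le_add (hb1 y hy) ((hbb y hy).trans hδ1)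
        refine (hC N b' (B + 1) hb' (by positivity) hb'b x hx (a x - AF x)).trans ?_
        rw [dF_sub_right, hAF]
        exact mul_le_mul_of_nonneg_left (haa x hxK) (by positivity)
      rw [e1]
      calc ‖dF (fun y => dF ι y (b y) - b' y) x (a x) + dF b' x (a x - AF x)‖
          ≤ C * δ * B + C * (B + 1) * δ := (norm_add_le _ _).trans (add_le_add t1 t2)
        _ ≤ 2 * (C + 1) * (B + 1) * δ := by
          have p1 : 0 ≤ C * δ := by positivity
          have p2 : 0 ≤ (B + 1) * δ := by positivity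
          nlinarith
    intro x hx
    have k1 := key v w w' v' VF hw hw'm hv1 hw1 (fun y hy => (hΦ y hy).le)
      (fun y hy => (hΨ y hy).le) hVF1 x hx
    have k2 := key w v v' w' WF hv hv'm hw1 hv1 (fun y hy => (hΨ y hy).le)
      (fun y hy => (hΦ y hy).le) hWF1 x hx
    have e1 : (dF (fun y => dF ι y (w y)) x (v x) - dF (fun y => dF ι y (v y)) x (w x)) -
        (dF w' x (VF x) - dF v' x (WF x)) =
        (dF (fun y => dF ι y (w y)) x (v x) - dF w' x (VF x)) -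
          (dF (fun y => dF ι y (v y)) x (w x) - dF v' x (WF x)) := by abel
    rw [e1]
    calc ‖(dF (fun y => dF ι y (w y)) x (v x) - dF w' x (VF x)) -
          (dF (fun y => dF ι y (v y)) x (w x) - dF v' x (WF x))‖ ≤
        2 * (C + 1) * (B + 1) * δ + 2 * (C + 1) * (B + 1) * δ :=
          (norm_sub_le _ _).trans (add_le_add k1 k2)
      _ = 4 * (C + 1) * (B + 1) * δ := by ring
      _ ≤ ε := hδ2

end SpanAux

open SpanAux in
/-- Elements of the Lie algebra generated by the complete fields are locally uniform limits of sums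
of complete fields. -/
theorem s_Span (h1 : S_Bracket) (h2 : S_BrFlow) (h3 : S_Cauchy) (h4 : S_Vel) (h5 : S_SecIff)
    (h6 : S_NbF) : S_Span := by
  intro V _ _ _ X N ι hι v hv
  have main : IsHolField X v ∧ ∀ K : Set X, IsCompact K → App ι K (fun x => dF ι x (v x)) := by
    induction hv with
    | complete v hv =>
      obtain ⟨φ, hφ⟩ := hv
      obtain ⟨v', hv'1, hv'2⟩ := h4 V X φ
      obtain ⟨-, hT⟩ := hv'2 N ι hι.hol
      have e1 : (fun x => dF ι x (v x)) = φ.vel ι := by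
        funext x
        exact (deriv_flow φ hφ hι.hol x).symm
      refine ⟨(h5 V X N ι hι v).2 (by rw [e1]; exact hT.hol), fun K _ => ?_⟩
      rw [e1]
      intro ε hε
      refine ⟨1, fun _ => φ, fun x _ => ?_⟩
      simpa using hε
    | add v w _ _ ihv ihw =>
      have e1 : (fun x => dF ι x (v x + w x)) = fun x => dF ι x (v x) + dF ι x (w x) := by
        funext x; exact dF_add_right ι x _ _
      refine ⟨(h5 V X N ι hι _).2 ?_, fun K hK => ?_⟩
      · rw [e1]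
        exact ((h5 V X N ι hι v).1 ihv.1).add ((h5 V X N ι hι w).1 ihw.1)
      · rw [e1]
        exact (ihv.2 K hK).add (ihw.2 K hK)
    | smul c v _ ihv =>
      have e1 : (fun x => dF ι x (c • v x)) = fun x => c • dF ι x (v x) := by
        funext x; exact dF_smul_right ι x _ _
      refine ⟨(h5 V X N ι hι _).2 ?_, fun K hK => ?_⟩
      · rw [e1]
        exact ((h5 V X N ι hι v).1 ihv.1).const_smul c
      · rw [e1]
        exact (ihv.2 K hK).smul c
    | bracket v w _ _ ihv ihw =>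
      have mv := (h5 V X N ι hι v).1 ihv.1
      have mw := (h5 V X N ι hι w).1 ihw.1
      have e1 : (fun x => dF ι x (VectorField.mlieBracket 𝓘(ℂ, V) v w x)) = fun x =>
          dF (fun y => dF ι y (w y)) x (v x) - dF (fun y => dF ι y (v y)) x (w x) := by
        funext x
        exact h1 V X N ι hι v w ihv.1 ihw.1 x
      refine ⟨(h5 V X N ι hι _).2 ?_, fun K hK => ?_⟩
      · rw [e1]
        exact (mdiff_dF h5 hι mw ihv.1).sub (mdiff_dF h5 hι mv ihw.1)
      · rw [e1]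
        exact app_bracket h2 h3 h4 h6 hι mv mw ihv.2 ihw.2 K hK
  exact ⟨main.1, main.2⟩

end Pool.Agent.Lib.MP_c2a04f_an
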