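import Pool.Agent.Lib.MP_c2a04f_an.SpecA
import Pool.Agent.Lib.MP_c2a04f_an.SpecB

/-!
# E1 SparseSub: infinite closed discrete sets contain infinite sparse subsets
-/

set_option autoImplicit false

open scoped Manifold ContDiff Topology
open Set Filter Metric

namespace Pool.Agent.Lib.MP_c2a04f_an

open Pool.Agent.Lib.MP_55bc5f_an

theorem s_SparseSub (h : S_NbF) : S_SparseSub := by
  classical
  intro V _ _ X N ι hE hP Z hZ hZd hZi
  obtain ⟨hBl, -, -, -⟩ := h V X N ι hE
  obtain ⟨z0, hz0⟩ := hZi.nonempty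
  have hex : ∀ (S : Finset X) (j l r : ℕ), ∃ α : X ≃ X, IsAut X α ∧
      Near ι α (Bl ι j) (1 / ((r : ℝ) + 1)) ∧ ∀ s ∈ S, (j : ℝ) < ‖ι s‖ → (l : ℝ) < ‖ι (α s)‖ := by
    intro S j l r
    obtain ⟨α, h1, h2, h3⟩ := hP (S.filter fun s => (j : ℝ) < ‖ι s‖) j l (1 / ((r : ℝ) + 1))
      (by positivity) (fun s hs => (Finset.mem_filter.1 hs).2)
    exact ⟨α, h1, h2, fun s hs hj => h3 s (Finset.mem_filter.2 ⟨hs, hj⟩)⟩
  choose a ha1 ha2 ha3 using hex
  let pick : Set X → X := fun D => if h : ∃ p, p ∈ Z ∧ p ∉ D then h.choose else z0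
  have hpick : ∀ D : Set X, IsCompact D → pick D ∈ Z ∧ pick D ∉ D := by
    intro D hD
    have h1 : ∃ p, p ∈ Z ∧ p ∉ D := by
      by_contra hcon
      push Not at hcon
      have h2 : (Z ∩ D).Finite := by
        have h3 : IsCompact (Z ∩ D) := hD.inter_left hZ
        have h4 : DiscreteTopology ↥(Z ∩ D) := DiscreteTopology.of_subset hZd inter_subset_left
        exact h3.finite ⟨h4⟩
      have h5 : Z ∩ D = Z := inter_eq_left.2 hcon
      rw [h5] at h2
      exact hZi h2
    have h2 : pick D = h1.choose := dif_pos h1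
    rw [h2]
    exact h1.choose_spec
  let D' : ℕ → Finset X → Set X → Set X := fun i S D =>
    D ∪ Bl ι ((i + 1 : ℕ) : ℝ) ∪ ⋃ j ∈ Finset.range (i + 2), ⋃ l ∈ Finset.range (i + 2),
      ⋃ r ∈ Finset.range (i + 2), (a S j l r) ⁻¹' (Bl ι (l : ℝ))
  let seq : ℕ → Finset X × Set X := fun i => Nat.rec (∅, Bl ι 0)
    (fun i q => (insert (pick q.2) q.1, D' i (insert (pick q.2) q.1) q.2)) i
  have hs1 : ∀ i, (seq (i + 1)).1 = insert (pick (seq i).2) (seq i).1 := fun i => rfl
  have hs2 : ∀ i, (seq (i + 1)).2 = D' i (seq (i + 1)).1 (seq i).2 := fun i => rfl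
  have hcpt : ∀ i, IsCompact (seq i).2 := by
    intro i
    induction i with
    | zero => exact hBl 0
    | succ i ih =>
      rw [hs2]
      refine (ih.union (hBl _)).union ?_
      refine Finset.isCompact_biUnion _ fun j _ => Finset.isCompact_biUnion _ fun l _ =>
        Finset.isCompact_biUnion _ fun r _ => ?_
      have h1 : (a (seq (i + 1)).1 j l r : X → X) ⁻¹' (Bl ι (l : ℝ)) =
          (a (seq (i + 1)).1 j l r).symm '' (Bl ι (l : ℝ)) := by
        rw [Equiv.image_eq_preimage_symm, Equiv.symm_symm]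
      rw [h1]
      exact (hBl _).image (ha1 _ j l r).continuous_symm
  let p : ℕ → X := fun i => pick (seq i).2
  have hp : ∀ i, p i ∈ Z ∧ p i ∉ (seq i).2 := fun i => hpick _ (hcpt i)
  have hmono : Monotone fun i => (seq i).2 := by
    refine monotone_nat_of_le_succ fun i => ?_
    show (seq i).2 ⊆ (seq (i + 1)).2
    rw [hs2]
    exact fun x hx => Or.inl (Or.inl hx)
  have hmem : ∀ i k, k < i → p k ∈ (seq i).1 := by
    intro i
    induction i with
    | zero => intro k hk; omega
    | succ i ih =>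
      intro k hk
      rw [hs1, Finset.mem_insert]
      rcases Nat.lt_succ_iff_lt_or_eq.1 hk with h1 | h1
      · exact Or.inr (ih k h1)
      · left; rw [h1]
  have hball : ∀ i : ℕ, Bl ι (i : ℝ) ⊆ (seq i).2 := by
    intro i
    cases i with
    | zero =>
      intro x hx
      have h1 : (seq 0).2 = Bl ι 0 := rfl
      rw [h1]
      simpa using hx
    | succ i =>
      rw [hs2]
      exact fun x hx => Or.inl (Or.inr hx)
  have hbig : ∀ i : ℕ, (i : ℝ) < ‖ι (p i)‖ := by
    intro i
    by_contra hcon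
    exact (hp i).2 (hball i (not_lt.1 hcon))
  refine ⟨range p, ?_, ?_, ?_⟩
  · rintro x ⟨i, rfl⟩
    exact (hp i).1
  · intro hfin
    have h1 : (range fun i => ‖ι (p i)‖).Finite := by
      have : (range fun i => ‖ι (p i)‖) = (fun x => ‖ι x‖) '' range p := by
        rw [← range_comp]; rfl
      rw [this]
      exact hfin.image _
    obtain ⟨C, hC⟩ := h1.bddAbove
    obtain ⟨i, hi⟩ := exists_nat_ge C
    have h2 := hC (mem_range_self i)
    have h3 := hbig i
    have h4 : ‖ι (p i)‖ ≤ C := h2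
    linarith
  · intro j R ε hε
    obtain ⟨l, hl⟩ := exists_nat_ge R
    obtain ⟨r, hr⟩ := exists_nat_one_div_lt hε
    obtain ⟨i, hi⟩ : ∃ i : ℕ, i = max (max j l) r := ⟨_, rfl⟩
    have hij : j ≤ i := by rw [hi]; exact (le_max_left _ _).trans (le_max_left _ _)
    have hil : l ≤ i := by rw [hi]; exact (le_max_right _ _).trans (le_max_left _ _)
    have hir : r ≤ i := by rw [hi]; exact le_max_right _ _
    refine ⟨a (seq (i + 1)).1 j l r, ha1 _ _ _ _, fun x hx => ?_, ?_⟩
    · have h1 := ha2 (seq (i + 1)).1 j l r x hx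
      exact ⟨h1.1.trans hr.le, h1.2.trans hr.le⟩
    · rintro s ⟨k, rfl⟩ hjk
      rcases lt_or_ge k (i + 1) with hk | hk
      · exact lt_of_le_of_lt hl (ha3 _ j l r _ (hmem _ k hk) hjk)
      · have h1 : p k ∉ (seq (i + 1)).2 := fun h2 => (hp k).2 (hmono hk h2)
        by_contra hcon
        apply h1
        rw [hs2]
        right
        simp only [mem_iUnion, Finset.mem_range]
        refine ⟨j, by omega, l, by omega, r, by omega, ?_⟩
        exact (not_lt.1 hcon).trans hl

end Pool.Agent.Lib.MP_c2a04f_an
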