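import Pool.Agent.Lib.MP_c2a04f_an.SpecA
import Pool.Agent.Lib.MP_c2a04f_an.SpecB

/-!
# A composition of flows for short times
-/

set_option autoImplicit false

open scoped Manifold ContDiff Topology
open Set Filter Metric

namespace Pool.Agent.Lib.MP_c2a04f_an

open Pool.Agent.Lib.MP_55bc5f_an

/-- The induction over the list. -/
theorem step_aux {V : Type} [NormedAddCommGroup V] [NormedSpace ℂ V] {X : CMan V} {N : ℕ}
    {ι : X → Cn N} {M : ℕ} (Φ : Fin M → Flow X) (K₁ : Set X) (B₁ L a : ℝ) (R : ℕ)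
    (hB₁ : 0 ≤ B₁) (hL : 0 ≤ L) (ha : 0 ≤ a) (ha1 : a ≤ 1) (hR : 2 * R * B₁ * a ≤ 1)
    (hone : ∀ k, ∀ y ∈ K₁, ∀ t : ℂ, ‖t‖ ≤ 1 →
      ‖ι ((Φ k).φ t y) - ι y - t • (Φ k).vel ι y‖ ≤ B₁ * ‖t‖ ^ 2)
    (hvel : ∀ k, ∀ y ∈ K₁, ‖(Φ k).vel ι y‖ ≤ B₁)
    (hlip : ∀ k, ∀ y ∈ K₁, ∀ y' ∈ K₁, ‖(Φ k).vel ι y - (Φ k).vel ι y'‖ ≤ L * ‖ι y - ι y'‖)
    (x : X) (hx : ∀ y, ‖ι y - ι x‖ ≤ 1 → y ∈ K₁) (l : List (Fin M × ℂ)) :
    ∀ (y : X) (j : ℕ), (∀ q ∈ l, ‖q.2‖ ≤ a) → ‖ι y - ι x‖ ≤ 2 * j * B₁ * a → j + l.length ≤ R →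
      ‖ι (goE Φ l y) - ι y - gen Φ ι l x‖ ≤
        l.length * (B₁ * a ^ 2 + a * (L * (2 * R * B₁ * a))) := by
  induction l with
  | nil =>
    intro y j _ _ _
    simp [goE, gen]
  | cons p l ih =>
    intro y j hl hy hj
    have hp : ‖p.2‖ ≤ a := hl p List.mem_cons_self
    have hjR : (j : ℝ) ≤ R := by
      have : j ≤ R := by omega
      exact_mod_cast this
    have hyR : ‖ι y - ι x‖ ≤ 2 * R * B₁ * a := by
      refine hy.trans ?_
      have : 0 ≤ B₁ * a := mul_nonneg hB₁ ha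
      nlinarith
    have hyK : y ∈ K₁ := hx y (hyR.trans hR)
    have hxK : x ∈ K₁ := hx x (by simp)
    have h1 := hone p.1 y hyK p.2 (hp.trans ha1)
    have hp2 : ‖p.2‖ ^ 2 ≤ a ^ 2 := by
      have := norm_nonneg p.2
      nlinarith
    have h1' : ‖ι ((Φ p.1).φ p.2 y) - ι y - p.2 • (Φ p.1).vel ι y‖ ≤ B₁ * a ^ 2 :=
      h1.trans (mul_le_mul_of_nonneg_left hp2 hB₁)
    have h2 : ‖p.2 • (Φ p.1).vel ι y‖ ≤ a * B₁ := by
      rw [norm_smul]
      exact mul_le_mul hp (hvel p.1 y hyK) (norm_nonneg _) ha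
    have h3 : ‖ι ((Φ p.1).φ p.2 y) - ι y‖ ≤ 2 * B₁ * a := by
      have h4 : ι ((Φ p.1).φ p.2 y) - ι y = (ι ((Φ p.1).φ p.2 y) - ι y -
          p.2 • (Φ p.1).vel ι y) + p.2 • (Φ p.1).vel ι y := by abel
      rw [h4]
      refine (norm_add_le _ _).trans ?_
      have h5 : B₁ * a ^ 2 ≤ B₁ * a := by
        have : a ^ 2 ≤ a := by nlinarith
        exact mul_le_mul_of_nonneg_left this hB₁
      linarith
    have h4 : ‖ι ((Φ p.1).φ p.2 y) - ι x‖ ≤ 2 * ((j + 1 : ℕ) : ℝ) * B₁ * a := by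
      have h5 : ι ((Φ p.1).φ p.2 y) - ι x = (ι ((Φ p.1).φ p.2 y) - ι y) + (ι y - ι x) := by abel
      rw [h5]
      refine (norm_add_le _ _).trans ?_
      push_cast
      linarith
    have h5 := ih ((Φ p.1).φ p.2 y) (j + 1) (fun q hq => hl q (List.mem_cons_of_mem _ hq)) h4
      (by simp only [List.length_cons] at hj; omega)
    have h6 : ‖p.2 • ((Φ p.1).vel ι y - (Φ p.1).vel ι x)‖ ≤ a * (L * (2 * R * B₁ * a)) := by
      rw [norm_smul]
      refine mul_le_mul hp ?_ (norm_nonneg _) ha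
      exact (hlip p.1 y hyK x hxK).trans (mul_le_mul_of_nonneg_left hyR hL)
    have h7 : ι (goE Φ (p :: l) y) - ι y - gen Φ ι (p :: l) x =
        (ι (goE Φ l ((Φ p.1).φ p.2 y)) - ι ((Φ p.1).φ p.2 y) - gen Φ ι l x) +
        (ι ((Φ p.1).φ p.2 y) - ι y - p.2 • (Φ p.1).vel ι y) +
        p.2 • ((Φ p.1).vel ι y - (Φ p.1).vel ι x) := by
      have e1 : goE Φ (p :: l) y = goE Φ l ((Φ p.1).φ p.2 y) := rfl
      have e2 : gen Φ ι (p :: l) x = p.2 • (Φ p.1).vel ι x + gen Φ ι l x := by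
        simp [gen]
      rw [e1, e2, smul_sub]
      abel
    rw [h7]
    refine (norm_add₃_le).trans ?_
    simp only [List.length_cons]
    push_cast
    linarith

theorem s_Step (h1 : S_OneFlow) (h2 : S_Lip) (h3 : S_Vel) (h4 : S_NbF) : S_Step := by
  intro V _ _ _ X N ι hι M Φ K hK R A hA
  obtain ⟨-, hNb, -, -⟩ := h4 V X N ι hι
  set K₁ : Set X := Nb ι K 1 with hK₁
  have hK₁c : IsCompact K₁ := hNb K 1 hK
  have hvelhol : ∀ k, MDifferentiable 𝓘(ℂ, V) 𝓘(ℂ, Cn N) ((Φ k).vel ι) := fun k => by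
    obtain ⟨v, -, hv⟩ := h3 V X (Φ k)
    exact (hv N ι hι.hol).2.hol
  choose b hb0 hb using fun k => h1 V X N ι hι (Φ k) K₁ hK₁c
  choose c hc0 hc using fun k => h2 V X N ι hι N ((Φ k).vel ι) (hvelhol k) K₁ hK₁c
  have hbd : ∀ k, ∃ C : ℝ, 0 ≤ C ∧ ∀ y ∈ K₁, ‖(Φ k).vel ι y‖ ≤ C := by
    intro k
    obtain ⟨C, hC⟩ := hK₁c.bddAbove_image (hvelhol k).continuous.norm.continuousOn
    exact ⟨max C 0, le_max_right _ _, fun y hy => (hC ⟨y, hy, rfl⟩).trans (le_max_left _ _)⟩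
  choose d hd0 hd using hbd
  set B₁ : ℝ := ∑ k, b k + ∑ k, d k with hB₁
  have hbs : 0 ≤ ∑ k, b k := Finset.sum_nonneg fun k _ => hb0 k
  have hds : 0 ≤ ∑ k, d k := Finset.sum_nonneg fun k _ => hd0 k
  have hB₁0 : 0 ≤ B₁ := add_nonneg hbs hds
  have hbk : ∀ k, b k ≤ B₁ := fun k => by
    have := Finset.single_le_sum (f := b) (fun i _ => hb0 i) (Finset.mem_univ k)
    linarith
  have hdk : ∀ k, d k ≤ B₁ := fun k => by
    have := Finset.single_le_sum (f := d) (fun i _ => hd0 i) (Finset.mem_univ k)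
    linarith
  set L : ℝ := ∑ k, c k with hL
  have hL0 : 0 ≤ L := Finset.sum_nonneg fun k _ => hc0 k
  have hck : ∀ k, c k ≤ L := fun k =>
    Finset.single_le_sum (f := c) (fun i _ => hc0 i) (Finset.mem_univ k)
  have hden : 0 < 1 + A + 2 * R * B₁ * A := by positivity
  refine ⟨R * (B₁ * A ^ 2 + A * (L * (2 * R * B₁ * A))), 1 / (1 + A + 2 * R * B₁ * A),
    by positivity, by positivity, fun h hh0 hh l hlR hl x hx => ?_⟩
  have hh' : h * (1 + A + 2 * R * B₁ * A) ≤ 1 := by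
    rw [le_div_iff₀ hden] at hh
    exact hh
  have hq : 0 ≤ 2 * R * B₁ * A * h := by positivity
  have hq2 : 0 ≤ A * h := by positivity
  have key := step_aux (ι := ι) Φ K₁ B₁ L (A * h) R hB₁0 hL0 hq2 (by nlinarith) (by nlinarith)
    (fun k y hy t ht => (hb k y hy t ht).trans (mul_le_mul_of_nonneg_right (hbk k) (by positivity)))
    (fun k y hy => (hd k y hy).trans (hdk k))
    (fun k y hy y' hy' => (hc k y hy y' hy').trans
      (mul_le_mul_of_nonneg_right (hck k) (norm_nonneg _)))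
    x (fun y hy => ⟨x, hx, hy⟩) l x 0 hl (by simp) (by omega)
  refine key.trans ?_
  have e : (R : ℝ) * (B₁ * A ^ 2 + A * (L * (2 * R * B₁ * A))) * h ^ 2 =
      R * (B₁ * (A * h) ^ 2 + A * h * (L * (2 * R * B₁ * (A * h)))) := by ring
  rw [e]
  have hlR' : (l.length : ℝ) ≤ R := by exact_mod_cast hlR
  exact mul_le_mul_of_nonneg_right hlR' (by positivity)

end Pool.Agent.Lib.MP_c2a04f_an
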