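import Pool.Agent.Lib.MP_c2a04f_an.SpecC

/-!
# MP_c2a04f_an: subsets of closed discrete sets
-/

set_option autoImplicit false

open Set Filter Topology

namespace Pool.Agent.Lib.MP_c2a04f_an

theorem s_SubClosed : S_SubClosed := by
  intro Y _ _ Z Z₁ hZ hD hsub
  have h1 := isClosed_and_discrete_iff.1 ⟨hZ, ⟨hD⟩⟩
  have h2 := isClosed_and_discrete_iff.2 fun x => (h1 x).mono_right (principal_mono.2 hsub)
  exact ⟨h2.1, h2.2.to_subtype⟩

end Pool.Agent.Lib.MP_c2a04f_an
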