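import Mathlib
import Pool.Agent.Lib.MP_c2a04f_an.SpecC

/-!
# MP_c2a04f_an: maps into open submanifolds
-/

set_option autoImplicit false

open scoped Manifold ContDiff Topology
open Set Filter Metric

namespace Pool.Agent.Lib.MP_c2a04f_an

open Pool.Agent.Lib.MP_55bc5f_an

namespace SubHol

variable {V : Type} [NormedAddCommGroup V] [NormedSpace ℂ V] {X : CMan V}
  {D : TopologicalSpace.Opens X}

lemma isOpenEmbedding : Topology.IsOpenEmbedding (subInc X D) :=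
  D.isOpen.isOpenEmbedding_subtypeVal

lemma iff_comp {W : Type} [NormedAddCommGroup W] [NormedSpace ℂ W] {M : Type}
    [TopologicalSpace M] [ChartedSpace W M] (f : M → X.sub D) (z : M) :
    MDifferentiableAt 𝓘(ℂ, W) 𝓘(ℂ, V) (fun w => subInc X D (f w)) z ↔
      MDifferentiableAt 𝓘(ℂ, W) 𝓘(ℂ, V) f z := by
  rw [mdifferentiableAt_iff, mdifferentiableAt_iff]
  have h1 : ContinuousAt (fun w => subInc X D (f w)) z ↔ ContinuousAt f z :=
    (isOpenEmbedding.isInducing.continuousAt_iff (f := f) (x := z)).symm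
  have h2 : writtenInExtChartAt 𝓘(ℂ, W) 𝓘(ℂ, V) z (fun w => subInc X D (f w)) =
      writtenInExtChartAt 𝓘(ℂ, W) 𝓘(ℂ, V) z f := rfl
  rw [h1, h2]

lemma hol : MDifferentiable 𝓘(ℂ, V) 𝓘(ℂ, V) (subInc X D) := fun z =>
  (iff_comp (fun w : X.sub D => w) z).mpr mdifferentiableAt_id

lemma bij (y : X.sub D) : Function.Bijective (mfderiv 𝓘(ℂ, V) 𝓘(ℂ, V) (subInc X D) y) := by
  classical
  set j : X → X.sub D := fun x => if h : x ∈ D then (⟨x, h⟩ : D) else y with hj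
  have hjs : ∀ w : X.sub D, j (subInc X D w) = w := by
    intro w
    have hw : subInc X D w ∈ D := Subtype.property (p := fun x => x ∈ D) w
    show (if h : subInc X D w ∈ D then (⟨subInc X D w, h⟩ : D) else y) = w
    rw [dif_pos hw]
    rfl
  have hy : subInc X D y ∈ D := Subtype.property (p := fun x => x ∈ D) y
  have hsj : (fun x => subInc X D (j x)) =ᶠ[𝓝 (subInc X D y)] fun x => x := by
    filter_upwards [D.isOpen.mem_nhds hy] with x hx
    have hx' : x ∈ D := hx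
    show subInc X D (if h : x ∈ D then (⟨x, h⟩ : D) else y) = x
    rw [dif_pos hx']
    rfl
  have hjd : MDifferentiableAt 𝓘(ℂ, V) 𝓘(ℂ, V) j (subInc X D y) := by
    rw [← iff_comp]
    exact mdifferentiableAt_id.congr_of_eventuallyEq hsj
  have hsd : MDifferentiableAt 𝓘(ℂ, V) 𝓘(ℂ, V) (subInc X D) y := hol y
  have e1 : (mfderiv 𝓘(ℂ, V) 𝓘(ℂ, V) j (subInc X D y)).comp
      (mfderiv 𝓘(ℂ, V) 𝓘(ℂ, V) (subInc X D) y) = ContinuousLinearMap.id ℂ V := by
    rw [← mfderiv_comp y hjd hsd]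
    have : j ∘ subInc X D = id := funext hjs
    rw [this, mfderiv_id]
    rfl
  have hsd' : MDifferentiableAt 𝓘(ℂ, V) 𝓘(ℂ, V) (subInc X D) (j (subInc X D y)) := hol _
  have e2 : (mfderiv 𝓘(ℂ, V) 𝓘(ℂ, V) (subInc X D) (j (subInc X D y))).comp
      (mfderiv 𝓘(ℂ, V) 𝓘(ℂ, V) j (subInc X D y)) = ContinuousLinearMap.id ℂ V := by
    rw [← mfderiv_comp (subInc X D y) hsd' hjd]
    have : subInc X D ∘ j =ᶠ[𝓝 (subInc X D y)] id := hsj
    rw [this.mfderiv_eq, mfderiv_id]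
    rfl
  rw [hjs] at e2
  constructor
  · intro a b hab
    have h1 := congrArg (fun L : V →L[ℂ] V => L a) e1
    have h2 := congrArg (fun L : V →L[ℂ] V => L b) e1
    have h3 : mfderiv 𝓘(ℂ, V) 𝓘(ℂ, V) j (subInc X D y)
        (mfderiv 𝓘(ℂ, V) 𝓘(ℂ, V) (subInc X D) y a) = a := h1
    have h4 : mfderiv 𝓘(ℂ, V) 𝓘(ℂ, V) j (subInc X D y)
        (mfderiv 𝓘(ℂ, V) 𝓘(ℂ, V) (subInc X D) y b) = b := h2
    rw [← h3, ← h4, hab]
  · intro b
    exact ⟨mfderiv 𝓘(ℂ, V) 𝓘(ℂ, V) j (subInc X D y) b,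
      congrArg (fun L : V →L[ℂ] V => L b) e2⟩

end SubHol

theorem s_SubHol : S_SubHol := by
  intro V _ _ X D
  exact ⟨fun W _ _ M _ _ f z => SubHol.iff_comp f z, SubHol.hol, SubHol.bij⟩

end Pool.Agent.Lib.MP_c2a04f_an
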