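import Mathlib
import Pool.Agent.Lib.MP_c2a04f_an.SpecB

/-!
# MP_c2a04f_an: tame sets are equivalent to their infinite subsets
-/

set_option autoImplicit false

open scoped Manifold ContDiff Topology
open Set Filter

namespace Pool.Agent.Lib.MP_c2a04f_an

open Pool.Agent.Lib.MP_55bc5f_an

theorem s_TameRed : S_TameRed := by
  intro V _ _ X Z Z₁ hZ hsub hinf
  have : DiscreteTopology Z := hZ.discrete
  have hc : Countable Z := TopologicalSpace.separableSpace_iff_countable.1 inferInstance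
  have : Infinite Z := hZ.infinite.to_subtype
  have : Infinite Z₁ := hinf.to_subtype
  have hc1 : Z₁.Countable := (Set.countable_coe_iff.1 hc).mono hsub
  have : Countable Z₁ := hc1.to_subtype
  obtain ⟨e1⟩ := nonempty_denumerable Z
  obtain ⟨e2⟩ := nonempty_denumerable Z₁
  let g : Z ≃ Z₁ := (@Denumerable.eqv Z e1).trans (@Denumerable.eqv Z₁ e2).symm
  let f : Z → Z := fun z => ⟨g z, hsub (g z).2⟩
  have hf : Function.Injective f := by
    intro a b hab
    have h1 : ((g a : Z₁) : X) = ((g b : Z₁) : X) := congrArg (fun z : Z => (z : X)) hab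
    exact g.injective (Subtype.ext h1)
  obtain ⟨F, hF, hFz⟩ := hZ.extend f hf
  refine ⟨F, hF, ?_⟩
  ext x
  constructor
  · rintro ⟨z, hz, rfl⟩
    have h1 := hFz ⟨z, hz⟩
    change F z ∈ Z₁
    have h2 : F z = (g ⟨z, hz⟩ : X) := h1
    rw [h2]
    exact (g ⟨z, hz⟩).2
  · intro hx
    refine ⟨(g.symm ⟨x, hx⟩ : X), (g.symm ⟨x, hx⟩).2, ?_⟩
    have h1 := hFz (g.symm ⟨x, hx⟩)
    rw [h1]
    change (g (g.symm ⟨x, hx⟩) : X) = x
    rw [g.apply_symm_apply]

end Pool.Agent.Lib.MP_c2a04f_an
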