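import Pool.Agent.Lib.MP_c2a04f_an.SpecA

/-!
# A6 Vel: the vector field of a flow
-/

set_option autoImplicit false
set_option maxSynthPendingDepth 3

open scoped Manifold ContDiff Topology
open Set Filter Metric

namespace Pool.Agent.Lib.MP_c2a04f_an

open Pool.Agent.Lib.MP_55bc5f_an

namespace VelAux

variable {V : Type} [NormedAddCommGroup V] [NormedSpace ℂ V] {X : CMan V} (φ : Flow X)

/-- The field of the flow. -/
noncomputable def fld (y : X) : TangentSpace 𝓘(ℂ, V) y :=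
  (deriv (fun s : ℂ => extChartAt 𝓘(ℂ, V) y (φ.φ s y)) 0 : V)

lemma fld_hasDerivAt (y : X) :
    HasDerivAt (fun s : ℂ => extChartAt 𝓘(ℂ, V) y (φ.φ s y)) (fld φ y) 0 := by
  have h1 := (mdifferentiableAt_iff _ _).1 (φ.hol_x y 0)
  have h2 : DifferentiableAt ℂ (fun s : ℂ => extChartAt 𝓘(ℂ, V) y (φ.φ s y)) 0 := by
    have h3 := h1.2
    simp only [writtenInExtChartAt, φ.zero, Function.comp_def] at h3
    have h4 : DifferentiableWithinAt ℂ (fun s : ℂ => extChartAt 𝓘(ℂ, V) y (φ.φ s y)) univ 0 := by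
      simpa using h3
    exact differentiableWithinAt_univ.1 h4
  exact h2.hasDerivAt

lemma fld_hasMFDerivAt (x : X) (t : ℂ) :
    HasMFDerivAt 𝓘(ℂ, ℂ) 𝓘(ℂ, V) (fun s => φ.φ s x) t
      ((1 : ℂ →L[ℂ] ℂ).smulRight (fld φ (φ.φ t x))) := by
  refine ⟨(φ.hol_x x t).continuousAt, ?_⟩
  have h1 := fld_hasDerivAt φ (φ.φ t x)
  have h2 : HasDerivAt (fun s : ℂ => extChartAt 𝓘(ℂ, V) (φ.φ t x) (φ.φ s x))
      (fld φ (φ.φ t x)) t := by
    have h3 : HasDerivAt (fun s : ℂ => s - t) 1 t := by simpa using (hasDerivAt_id t).sub_const t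
    have h4 : HasDerivAt (fun s : ℂ => extChartAt 𝓘(ℂ, V) (φ.φ t x) (φ.φ s (φ.φ t x)))
        (fld φ (φ.φ t x)) (t - t) := by rw [sub_self]; exact h1
    have h5 := HasDerivAt.scomp (h := fun s : ℂ => s - t) t h4 h3
    have h6 : (fun s : ℂ => extChartAt 𝓘(ℂ, V) (φ.φ t x) (φ.φ s x)) =
        (fun s : ℂ => extChartAt 𝓘(ℂ, V) (φ.φ t x) (φ.φ s (φ.φ t x))) ∘ fun s : ℂ => s - t := by
      funext s
      simp only [Function.comp_apply]
      rw [← φ.add, sub_add_cancel]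
    rw [h6]
    simpa using h5
  have h7 : HasFDerivAt (fun s : ℂ => extChartAt 𝓘(ℂ, V) (φ.φ t x) (φ.φ s x))
      ((1 : ℂ →L[ℂ] ℂ).smulRight (fld φ (φ.φ t x) : V)) t := by
    have h9 : ∀ w : V, (1 : ℂ →L[ℂ] ℂ).smulRight w = ContinuousLinearMap.toSpanSingleton ℂ w := by
      intro w
      ext
      simp
    rw [h9]
    exact h2.hasFDerivAt
  exact h7.hasFDerivWithinAt

end VelAux

open VelAux in
theorem s_Vel : S_Vel := by
  intro V _ _ _ X φ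
  refine ⟨fld φ, fld_hasMFDerivAt φ, fun N ι hι => ?_⟩
  have hvel : ∀ x, dF ι x (fld φ x) = φ.vel ι x := by
    intro x
    have h1 := fld_hasMFDerivAt φ x 0
    have h2 : HasMFDerivAt 𝓘(ℂ, V) 𝓘(ℂ, Cn N) ι (φ.φ 0 x)
        (mfderiv 𝓘(ℂ, V) 𝓘(ℂ, Cn N) ι (φ.φ 0 x)) := (hι _).hasMFDerivAt
    have h3 := HasMFDerivAt.comp (0 : ℂ) h2 h1
    obtain ⟨A, hA⟩ : ∃ A : V →L[ℂ] Cn N, A = mfderiv 𝓘(ℂ, V) 𝓘(ℂ, Cn N) ι (φ.φ 0 x) := ⟨_, rfl⟩
    have h4 : HasFDerivAt (fun s : ℂ => ι (φ.φ s x))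
        (A.comp ((1 : ℂ →L[ℂ] ℂ).smulRight (fld φ (φ.φ 0 x) : V))) 0 := by
      rw [hA]
      exact h3.hasFDerivAt
    have h5 : HasDerivAt (fun s : ℂ => ι (φ.φ s x)) (dF ι (φ.φ 0 x) (fld φ (φ.φ 0 x))) 0 := by
      have h6 := h4.hasDerivAt
      convert h6 using 1
      have h8 : dF ι (φ.φ 0 x) (fld φ (φ.φ 0 x)) = A (fld φ (φ.φ 0 x) : V) := by
        rw [hA]; rfl
      rw [h8]
      simp
    have h7 : φ.vel ι x = dF ι (φ.φ 0 x) (fld φ (φ.φ 0 x)) := h5.deriv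
    rw [h7]
    exact (congrArg (fun y => dF ι y (fld φ y)) (φ.zero x)).symm
  refine ⟨hvel, ⟨fun x₀ => ?_, fun x => ⟨_, hvel x⟩⟩⟩
  -- the function of two variables
  obtain ⟨e, he⟩ : ∃ e : PartialEquiv X V, e = extChartAt 𝓘(ℂ, V) x₀ := ⟨_, rfl⟩
  have het : IsOpen e.target := by rw [he]; exact isOpen_extChartAt_target x₀
  have hes : ∀ u ∈ e.target, MDifferentiableAt 𝓘(ℂ, V) 𝓘(ℂ, V) e.symm u := by
    intro u hu
    have h1 : ContMDiffOn 𝓘(ℂ, V) 𝓘(ℂ, V) ω (extChartAt 𝓘(ℂ, V) x₀).symm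
        (extChartAt 𝓘(ℂ, V) x₀).target := contMDiffOn_extChartAt_symm x₀
    rw [← he] at h1
    exact ((h1 u hu).contMDiffAt (het.mem_nhds hu)).mdifferentiableAt (by simp)
  obtain ⟨G, hG⟩ : ∃ G : ℂ × V → Cn N, G = fun p => ι (φ.φ p.1 (e.symm p.2)) := ⟨_, rfl⟩
  have hGd : DifferentiableOn ℂ G ((univ : Set ℂ) ×ˢ e.target) := by
    rintro ⟨t, u⟩ ⟨-, hu⟩
    apply DifferentiableAt.differentiableWithinAt
    have h1 : MDifferentiableAt 𝓘(ℂ, ℂ × V) 𝓘(ℂ, ℂ) (fun p : ℂ × V => p.1) (t, u) :=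
      differentiableAt_fst.mdifferentiableAt
    have h2 : MDifferentiableAt 𝓘(ℂ, ℂ × V) 𝓘(ℂ, V) (fun p : ℂ × V => e.symm p.2) (t, u) :=
      MDifferentiableAt.comp (t, u) (hes u hu) differentiableAt_snd.mdifferentiableAt
    have h3 : MDifferentiableAt 𝓘(ℂ, ℂ × V) (𝓘(ℂ, ℂ).prod 𝓘(ℂ, V))
        (fun p : ℂ × V => (p.1, e.symm p.2)) (t, u) := h1.prodMk h2
    have h4 : MDifferentiableAt 𝓘(ℂ, ℂ × V) 𝓘(ℂ, Cn N) G (t, u) := by
      rw [hG]
      exact MDifferentiableAt.comp (t, u) (hι _)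
        (MDifferentiableAt.comp (t, u) (φ.hol _) h3)
    exact h4.differentiableAt
  have hGA : AnalyticOnNhd ℂ G ((univ : Set ℂ) ×ˢ e.target) :=
    Osgood.analyticOnNhd (isOpen_univ.prod het) hGd
  have hvelG : ∀ u ∈ e.target, φ.vel ι (e.symm u) = fderiv ℂ G (0, u) (1, 0) := by
    intro u hu
    have h1 : HasFDerivAt G (fderiv ℂ G (0, u)) ((0 : ℂ), u) :=
      (hGA (0, u) ⟨mem_univ _, hu⟩).differentiableAt.hasFDerivAt
    have h2 : HasDerivAt (fun t : ℂ => (t, u)) ((1 : ℂ), (0 : V)) 0 :=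
      (hasDerivAt_id (0 : ℂ)).prodMk (hasDerivAt_const (0 : ℂ) u)
    have h3 : HasDerivAt (fun t : ℂ => G (t, u)) (fderiv ℂ G (0, u) (1, 0)) 0 :=
      HasFDerivAt.comp_hasDerivAt (x := (0 : ℂ)) (f := fun t : ℂ => (t, u)) (l := G) h1 h2
    have h4 : (fun t : ℂ => G (t, u)) = fun t : ℂ => ι (φ.φ t (e.symm u)) := by
      funext t
      rw [hG]
    rw [h4] at h3
    exact h3.deriv
  have hx₀ : x₀ ∈ e.source := by rw [he]; exact mem_extChartAt_source x₀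
  have hu₀ : e x₀ ∈ e.target := e.map_source hx₀
  have hd : DifferentiableAt ℂ (fun u => fderiv ℂ G (0, u) (1, 0)) (e x₀) := by
    have h1 : DifferentiableAt ℂ (fderiv ℂ G) ((0 : ℂ), e x₀) :=
      (hGA (0, e x₀) ⟨mem_univ _, hu₀⟩).fderiv.differentiableAt
    have h2 : DifferentiableAt ℂ (fun u : V => ((0 : ℂ), u)) (e x₀) := by fun_prop
    have h3 : DifferentiableAt ℂ (fun u : V => fderiv ℂ G (0, u)) (e x₀) :=
      DifferentiableAt.comp (e x₀) h1 h2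
    exact h3.clm_apply (differentiableAt_const _)
  have hm : MDifferentiableAt 𝓘(ℂ, V) 𝓘(ℂ, Cn N) (fun x => fderiv ℂ G (0, e x) (1, 0)) x₀ := by
    have h1 : MDifferentiableAt 𝓘(ℂ, V) 𝓘(ℂ, V) e x₀ := by
      rw [he]
      exact (contMDiffAt_extChartAt (n := ω)).mdifferentiableAt (by simp)
    exact MDifferentiableAt.comp x₀ hd.mdifferentiableAt h1
  refine hm.congr_of_eventuallyEq ?_
  have hsrc : e.source ∈ 𝓝 x₀ := by rw [he]; exact extChartAt_source_mem_nhds x₀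
  filter_upwards [hsrc] with x hx
  rw [← hvelG _ (e.map_source hx), e.left_inv hx]

end Pool.Agent.Lib.MP_c2a04f_an
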