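import Mathlib
import Pool.Agent.Lib.MP_c2a04f_an.SpecC

/-!
# MP_c2a04f_an: manifolds of dimension zero are Oka
-/

set_option autoImplicit false

open scoped Manifold ContDiff Topology
open Set Filter Metric

namespace Pool.Agent.Lib.MP_c2a04f_an

open Pool.Agent.Lib.MP_55bc5f_an

theorem s_Zero : S_Zero := by
  intro V _ _ _ h0 Y
  have hV : Subsingleton V := Module.finrank_zero_iff.1 h0
  have hd : DiscreteTopology Y := by
    rw [discreteTopology_iff_isOpen_singleton]
    intro y
    have h1 : (chartAt V y).source = {y} := by
      apply Subset.antisymm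
      · intro x hx
        exact (chartAt V y).injOn hx (mem_chart_source V y) (Subsingleton.elim _ _)
      · rintro x rfl
        exact mem_chart_source V x
    rw [← h1]
    exact (chartAt V y).open_source
  intro n K U _ _ hKc _ hKU f hf O _ hO
  have hcont : ContinuousOn f K := hf.continuousOn.mono hKU
  have hpre : IsPreconnected K := hKc.isPreconnected
  rcases K.eq_empty_or_nonempty with h | ⟨z0, hz0⟩
  · refine ⟨fun _ => f 0, mdifferentiable_const, ?_⟩
    intro z hz
    rw [h] at hz
    exact absurd hz (notMem_empty z)
  · refine ⟨fun _ => f z0, mdifferentiable_const, ?_⟩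
    intro z hz
    have h1 : f z0 = f z := hpre.constant hcont hz0 hz
    rw [h1]
    exact hO z hz

end Pool.Agent.Lib.MP_c2a04f_an
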