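import Mathlib
import Pool.Agent.Lib.MP_55bc5f_an.Full.Final
import Pool.Agent.Lib.MP_c2a04f_an.Assemble
import Pool.Agent.Lib.MP_c2a04f_an.Rho
import Pool.Agent.Lib.MP_c2a04f_an.MDiff
import Pool.Agent.Lib.MP_c2a04f_an.NbF
import Pool.Agent.Lib.MP_c2a04f_an.Lip
import Pool.Agent.Lib.MP_c2a04f_an.Cauchy
import Pool.Agent.Lib.MP_c2a04f_an.Vel
import Pool.Agent.Lib.MP_c2a04f_an.SecIff
import Pool.Agent.Lib.MP_c2a04f_an.HolLim
import Pool.Agent.Lib.MP_c2a04f_an.Bracket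
import Pool.Agent.Lib.MP_c2a04f_an.BrFlow
import Pool.Agent.Lib.MP_c2a04f_an.Span
import Pool.Agent.Lib.MP_c2a04f_an.Dens
import Pool.Agent.Lib.MP_c2a04f_an.OneFlow
import Pool.Agent.Lib.MP_c2a04f_an.Step
import Pool.Agent.Lib.MP_c2a04f_an.Shadow
import Pool.Agent.Lib.MP_c2a04f_an.Euler
import Pool.Agent.Lib.MP_c2a04f_an.GoHol
import Pool.Agent.Lib.MP_c2a04f_an.Disc
import Pool.Agent.Lib.MP_c2a04f_an.Apx
import Pool.Agent.Lib.MP_c2a04f_an.SepF
import Pool.Agent.Lib.MP_c2a04f_an.Cut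
import Pool.Agent.Lib.MP_c2a04f_an.LocMove
import Pool.Agent.Lib.MP_c2a04f_an.MvTrans
import Pool.Agent.Lib.MP_c2a04f_an.NoCpt
import Pool.Agent.Lib.MP_c2a04f_an.Push1
import Pool.Agent.Lib.MP_c2a04f_an.Push
import Pool.Agent.Lib.MP_c2a04f_an.SparseSub
import Pool.Agent.Lib.MP_c2a04f_an.TameRed
import Pool.Agent.Lib.MP_c2a04f_an.ConvSep
import Pool.Agent.Lib.MP_c2a04f_an.L2Cn
import Pool.Agent.Lib.MP_c2a04f_an.Runge
import Pool.Agent.Lib.MP_c2a04f_an.Taylor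
import Pool.Agent.Lib.MP_c2a04f_an.Null
import Pool.Agent.Lib.MP_c2a04f_an.FieldsS
import Pool.Agent.Lib.MP_c2a04f_an.Coef
import Pool.Agent.Lib.MP_c2a04f_an.FA1
import Pool.Agent.Lib.MP_c2a04f_an.Corr
import Pool.Agent.Lib.MP_c2a04f_an.AvoidFin
import Pool.Agent.Lib.MP_c2a04f_an.AvoidSp
import Pool.Agent.Lib.MP_c2a04f_an.Ent
import Pool.Agent.Lib.MP_c2a04f_an.SubHol
import Pool.Agent.Lib.MP_c2a04f_an.OkaSub
import Pool.Agent.Lib.MP_c2a04f_an.OkaIso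
import Pool.Agent.Lib.MP_c2a04f_an.Zero
import Pool.Agent.Lib.MP_c2a04f_an.SubClosed
import Pool.Agent.Lib.MP_c2a04f_an.FramesLM
import Pool.Agent.Lib.MP_c2a04f_an.FramesC
import Pool.Agent.Lib.MP_c2a04f_an.FramesAll

/-!
# Complements of tame sets in Stein manifolds with the density property are Oka: assembly
-/

set_option autoImplicit false

namespace Pool.Agent.Lib.MP_c2a04f_an

/-! ## Tools -/

theorem f_MDiff : S_MDiff := s_MDiff s_Rho
theorem f_Lip : S_Lip := s_Lip s_Rho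
theorem f_Cauchy : S_Cauchy := s_Cauchy s_Rho
theorem f_SecIff : S_SecIff := s_SecIff s_Rho

/-! ## Density -/

theorem f_BrFlow : S_BrFlow := s_BrFlow s_Vel
theorem f_Span : S_Span := s_Span s_Bracket f_BrFlow f_Cauchy s_Vel f_SecIff s_NbF
theorem f_Dens : S_Dens := s_Dens f_Span f_SecIff

/-! ## Compositions of flows -/

theorem f_Step : S_Step := s_Step s_OneFlow f_Lip s_Vel s_NbF
theorem f_Shadow : S_Shadow := s_Shadow f_Step s_NbF
theorem f_Euler : S_Euler := s_Euler f_Shadow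

/-! ## Pushing finite sets to infinity -/

theorem f_SepF : S_SepF := s_SepF s_NbF
theorem f_LocMove : S_LocMove := s_LocMove f_Euler s_Disc s_Apx s_Cut f_Lip s_NbF
theorem f_Push1 : S_Push1 := s_Push1 f_SepF f_LocMove s_MvTrans s_NoCpt s_NbF
theorem f_Push : S_Push := s_Push f_Push1

/-! ## Avoiding finite sets -/

theorem f_L2Cn : S_L2Cn := s_L2Cn MP_55bc5f_an.f_L2 MP_55bc5f_an.s_LevComp
theorem f_Runge : S_Runge := s_Runge s_ConvSep f_L2Cn
theorem f_Null : S_Null := s_Null f_Runge s_Taylor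
theorem f_Coef : S_Coef := s_Coef s_FieldsS f_Null f_Runge
theorem f_FA1 : S_FA1 := s_FA1 f_Coef s_Apx f_Euler s_Disc s_GoHol f_Lip s_NbF
theorem f_Corr : S_Corr := s_Corr s_Rho s_Vel s_GoHol
theorem f_AvoidFin : S_AvoidFin := s_AvoidFin f_FA1 f_Corr s_GoHol f_MDiff s_NbF

/-! ## Tame sets, the Oka property -/

theorem f_Ent : S_Ent := s_Ent s_HolLim f_MDiff
theorem f_OkaSub : S_OkaSub := s_OkaSub f_Ent s_SubHol s_NbF
theorem f_OkaIso : S_OkaIso := s_OkaIso s_SubHol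

/-! ## Frames -/

theorem f_FramesLM : S_FramesLM :=
  s_FramesLM MP_55bc5f_an.f_Fun MP_55bc5f_an.f_VF MP_55bc5f_an.s_Conn
theorem f_FramesC : S_FramesC := s_FramesC f_FramesLM MP_55bc5f_an.f_TrLM MP_55bc5f_an.f_TrHol
theorem f_FramesAll : S_FramesAll := s_FramesAll f_FramesC s_SubHol

theorem main_full : MainStatement :=
  main_of f_Dens f_FramesAll f_Push (s_SparseSub s_NbF) s_TameRed f_AvoidFin (s_AvoidSp s_NbF)
    f_OkaSub f_OkaIso s_Zero s_SubClosed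

end Pool.Agent.Lib.MP_c2a04f_an
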