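import Pool.Agent.Lib.MP_c2a04f_an.SpecC

/-!
# G4 OkaIso: invariance of the Oka property of complements under automorphisms
-/

set_option autoImplicit false

open scoped Manifold ContDiff Topology
open Set Filter

namespace Pool.Agent.Lib.MP_c2a04f_an

open Pool.Agent.Lib.MP_55bc5f_an

theorem s_OkaIso (h : S_SubHol) : S_OkaIso := by
  intro V _ _ X Z Z₁ hZ hZ₁ F hF hFZ hO
  obtain ⟨hD1, hD2, -⟩ := h V X ⟨Zᶜ, hZ.isOpen_compl⟩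
  obtain ⟨hE1, hE2, -⟩ := h V X ⟨Z₁ᶜ, hZ₁.isOpen_compl⟩
  have hm : ∀ x ∈ Zᶜ, F x ∈ Z₁ᶜ := by
    intro x hx hx1
    rw [← hFZ] at hx1
    obtain ⟨y, hy, hyx⟩ := hx1
    exact hx (F.injective hyx ▸ hy)
  have hm' : ∀ x ∈ Z₁ᶜ, F.symm x ∈ Zᶜ := by
    intro x hx hx1
    exact hx (hFZ ▸ ⟨F.symm x, hx1, F.apply_symm_apply x⟩)
  let fw : X.sub ⟨Zᶜ, hZ.isOpen_compl⟩ → X.sub ⟨Z₁ᶜ, hZ₁.isOpen_compl⟩ := fun y =>
    (⟨F y.1, hm y.1 y.2⟩ : (⟨Z₁ᶜ, hZ₁.isOpen_compl⟩ : TopologicalSpace.Opens X))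
  let bw : X.sub ⟨Z₁ᶜ, hZ₁.isOpen_compl⟩ → X.sub ⟨Zᶜ, hZ.isOpen_compl⟩ := fun y =>
    (⟨F.symm y.1, hm' y.1 y.2⟩ : (⟨Zᶜ, hZ.isOpen_compl⟩ : TopologicalSpace.Opens X))
  have hfw : MDifferentiable 𝓘(ℂ, V) 𝓘(ℂ, V) fw := by
    intro y
    rw [← hE1]
    exact (hF.hol.comp hD2) y
  have hbw : MDifferentiable 𝓘(ℂ, V) 𝓘(ℂ, V) bw := by
    intro y
    rw [← hD1]
    exact (hF.hol_symm.comp hE2) y
  have hwf : ∀ y, bw (fw y) = y := fun y => Subtype.ext (F.symm_apply_apply _)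
  have hfwb : ∀ y, fw (bw y) = y := fun y => Subtype.ext (F.apply_symm_apply _)
  intro n K U hn hK hKc hU hKU f hf O hOo hfO
  obtain ⟨g, hg1, hg2⟩ := hO n K U hn hK hKc hU hKU (fun z => fw (f z))
    (fun z hz => (hfw (f z)).comp_mdifferentiableWithinAt z (hf z hz))
    {p | (p.1, bw p.2) ∈ O} (hOo.preimage (continuous_fst.prodMk (hbw.continuous.comp continuous_snd)))
    (fun z hz => by
      show (z, bw (fw (f z))) ∈ O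
      rw [hwf]
      exact hfO z hz)
  exact ⟨fun z => bw (g z), hbw.comp hg1, hg2⟩

end Pool.Agent.Lib.MP_c2a04f_an
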