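import Mathlib
import Pool.Agent.Lib.MP_c2a04f_an.SpecC
import Pool.Agent.Lib.Osgood

/-!
# MP_c2a04f_an, F2: entire functions are locally uniform limits of polynomials
-/

set_option autoImplicit false

open scoped Topology ENNReal NNReal
open Set Filter Metric

namespace Pool.Agent.Lib.MP_c2a04f_an

open Pool.Agent.Lib.MP_55bc5f_an

/-- A homogeneous part of a power series is a polynomial. -/
lemma taylor_poly (n k : ℕ) (p : ContinuousMultilinearMap ℂ (fun _ : Fin k => Cn n) ℂ) :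
    ∃ P : MvPolynomial (Fin n) ℂ, ∀ z : Cn n, p (fun _ => z) = MvPolynomial.eval z P := by
  classical
  refine ⟨∑ r : Fin k → Fin n, MvPolynomial.C (p fun i => Pi.single (r i) (1 : ℂ)) *
    ∏ i, MvPolynomial.X (r i), fun z => ?_⟩
  have hz : z = ∑ j : Fin n, z j • (Pi.single j (1 : ℂ) : Cn n) := by
    funext i
    simp [Finset.sum_apply, Pi.single_apply]
  have h1 : (fun _ : Fin k => z) = fun _ : Fin k => ∑ j : Fin n, z j • (Pi.single j (1 : ℂ) : Cn n) := by
    funext i; exact hz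
  rw [h1, ContinuousMultilinearMap.map_sum]
  rw [map_sum]
  refine Finset.sum_congr rfl fun r _ => ?_
  rw [ContinuousMultilinearMap.map_smul_univ, map_mul, MvPolynomial.eval_C, map_prod]
  simp only [MvPolynomial.eval_X, smul_eq_mul]
  rw [mul_comm]

theorem s_Taylor : S_Taylor := by
  intro n g hg K hK ε hε
  -- power series at the origin
  have hga : AnalyticAt ℂ g 0 :=
    Osgood.analyticAt (R := 1) one_pos hg.differentiableOn
  obtain ⟨p, hp⟩ := hga
  -- a bound
  obtain ⟨R, hR0, hR⟩ : ∃ R : ℝ, 0 < R ∧ ∀ z ∈ K, ‖z‖ ≤ R := by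
    obtain ⟨R, hR⟩ := hK.isBounded.exists_norm_le
    exact ⟨max R 1, lt_of_lt_of_le one_pos (le_max_right _ _), fun z hz =>
      le_trans (hR z hz) (le_max_left _ _)⟩
  obtain ⟨M, hM⟩ : ∃ M : ℝ, ∀ w ∈ closedBall (0 : Cn n) (2 * R), ‖g w‖ ≤ M :=
    (isCompact_closedBall (0 : Cn n) (2 * R)).exists_bound_of_continuousOn hg.continuous.continuousOn
  have hM0 : 0 ≤ M := le_trans (norm_nonneg _) (hM 0 (mem_closedBall_self (by positivity)))
  -- choose the degree
  obtain ⟨m, hm⟩ : ∃ m : ℕ, M * ((1 / 2 : ℝ) ^ m * 2) ≤ ε := by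
    have h1 : Tendsto (fun m : ℕ => M * ((1 / 2 : ℝ) ^ m * 2)) atTop (𝓝 (M * (0 * 2))) :=
      ((tendsto_pow_atTop_nhds_zero_of_lt_one (by norm_num) (by norm_num)).mul_const 2).const_mul M
    rw [zero_mul, mul_zero] at h1
    exact (h1.eventually_le_const hε).exists
  choose P hP using fun k => taylor_poly n k (p k)
  refine ⟨∑ k ∈ Finset.range m, P k, fun z hz => ?_⟩
  -- restriction to the line
  set u : ℂ →L[ℂ] Cn n := (ContinuousLinearMap.id ℂ ℂ).smulRight z with hu
  have huz : ∀ ζ : ℂ, u ζ = ζ • z := fun ζ => by simp [hu]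
  have hfd : Differentiable ℂ (g ∘ u) := hg.comp u.differentiable
  have hball := hfd.hasFPowerSeriesOnBall (0 : ℂ) (R := 2) (by norm_num)
  have hp' : HasFPowerSeriesAt (g ∘ u) (p.compContinuousLinearMap u) 0 := by
    apply HasFPowerSeriesAt.compContinuousLinearMap
    rw [map_zero]
    exact hp
  have hps : cauchyPowerSeries (g ∘ u) 0 ((2 : ℝ≥0) : ℝ) = p.compContinuousLinearMap u :=
    HasFPowerSeriesAt.eq_formalMultilinearSeries hball.hasFPowerSeriesAt hp'
  have hc : ∀ k, cauchyPowerSeries (g ∘ u) 0 ((2 : ℝ≥0) : ℝ) k (fun _ => (1 : ℂ)) =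
      MvPolynomial.eval z (P k) := by
    intro k
    rw [hps, FormalMultilinearSeries.compContinuousLinearMap_apply, ← hP k z]
    congr 1
    funext i
    simp [huz]
  have hsum : HasSum (fun k => MvPolynomial.eval z (P k)) (g z) := by
    have h1 := hball.hasSum (y := (1 : ℂ)) (by simp)
    simp_rw [hc] at h1
    have h2 : (g ∘ u) (0 + 1) = g z := by simp [huz]
    rwa [h2] at h1
  have hbd : ∀ k, ‖MvPolynomial.eval z (P k)‖ ≤ M * (1 / 2 : ℝ) ^ k := by
    intro k
    rw [← hc k]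
    have h1 : ‖cauchyPowerSeries (g ∘ u) 0 ((2 : ℝ≥0) : ℝ) k (fun _ => (1 : ℂ))‖ ≤
        ‖cauchyPowerSeries (g ∘ u) 0 ((2 : ℝ≥0) : ℝ) k‖ := by
      have h7 := (cauchyPowerSeries (g ∘ u) 0 ((2 : ℝ≥0) : ℝ) k).le_opNorm (fun _ => (1 : ℂ))
      rw [norm_one, Finset.prod_const_one, mul_one] at h7
      exact h7
    refine le_trans h1 (le_trans (norm_cauchyPowerSeries_le _ _ _ _) ?_)
    have h2 : ∀ θ : ℝ, ‖(g ∘ u) (circleMap 0 ((2 : ℝ≥0) : ℝ) θ)‖ ≤ M := by
      intro θ
      apply hM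
      rw [mem_closedBall_zero_iff, huz, norm_smul, norm_circleMap_zero]
      have h3 := hR z hz
      have h4 : |((2 : ℝ≥0) : ℝ)| = 2 := by norm_num
      rw [h4]
      linarith
    have h3 : ∫ θ in (0 : ℝ)..2 * Real.pi, ‖(g ∘ u) (circleMap 0 ((2 : ℝ≥0) : ℝ) θ)‖ ≤
        2 * Real.pi * M := by
      have hpi := Real.pi_pos
      have h5 : ∫ θ in (0 : ℝ)..2 * Real.pi, ‖(g ∘ u) (circleMap 0 ((2 : ℝ≥0) : ℝ) θ)‖ ≤
          ∫ _θ in (0 : ℝ)..2 * Real.pi, M := by
        apply intervalIntegral.integral_mono_on (by positivity)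
        · apply Continuous.intervalIntegrable
          exact (hfd.continuous.comp (continuous_circleMap _ _)).norm
        · exact intervalIntegrable_const
        · intro θ _
          exact h2 θ
      rwa [intervalIntegral.integral_const, smul_eq_mul, sub_zero] at h5
    have h6 : |((2 : ℝ≥0) : ℝ)|⁻¹ = 1 / 2 := by norm_num
    rw [h6]
    refine mul_le_mul_of_nonneg_right ?_ (by positivity)
    have hpi := Real.pi_pos
    rw [inv_mul_le_iff₀ (by positivity)]
    exact h3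
  -- the tail
  have htail : g z - ∑ k ∈ Finset.range m, MvPolynomial.eval z (P k) =
      ∑' k, MvPolynomial.eval z (P (k + m)) := by
    rw [← hsum.tsum_eq, ← hsum.summable.sum_add_tsum_nat_add m]
    ring
  rw [map_sum, htail]
  have hgeo : HasSum (fun k => M * (1 / 2 : ℝ) ^ (k + m)) (M * ((1 / 2 : ℝ) ^ m * 2)) := by
    have h1 := (hasSum_geometric_of_lt_one (r := (1 / 2 : ℝ)) (by norm_num) (by norm_num)).mul_left
      (M * (1 / 2 : ℝ) ^ m)
    have h2 : (1 - (1 / 2 : ℝ))⁻¹ = 2 := by norm_num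
    rw [h2, mul_assoc] at h1
    have h3 : (fun k => M * (1 / 2 : ℝ) ^ (k + m)) = fun k => M * (1 / 2 : ℝ) ^ m * (1 / 2 : ℝ) ^ k := by
      funext k
      rw [pow_add]; ring
    rw [h3]
    exact h1
  exact le_trans (tsum_of_norm_bounded hgeo fun k => hbd (k + m)) hm

end Pool.Agent.Lib.MP_c2a04f_an
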